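import Pool.Agent.H422R2.QA.QADefs
import Pool.Agent.H412R2.Tree
import Pool.Agent.H320R2.PDWords

/-! Task A (WORDS) of QUENCHED = ANNEALED: words, offsets, validity. -/

set_option autoImplicit false

namespace Pool.Agent.H422R2.QA

open Finset Pool.Agent.H320R2.PD Pool.Agent.H412R2

theorem Wq_append (q : ℕ) (u v : List ℕ) :
    Wq q (u ++ v) = 2 ^ v.sum * Wq q u + q ^ u.length * Wq q v := by
  induction u with
  | nil => simp [Wq]
  | cons e u ih =>
    simp only [List.cons_append, Wq, List.sum_append, List.length_cons, ih]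
    ring

theorem Wq_snoc (q : ℕ) (u : List ℕ) (e : ℕ) : Wq q (u ++ [e]) = 2 ^ e * Wq q u + q ^ u.length := by
  rw [Wq_append]; simp [Wq]

theorem Wq_odd {q : ℕ} (hq : Odd q) {w : List ℕ} (hw : ∀ e ∈ w, 1 ≤ e) (hne : w ≠ []) :
    Odd (Wq q w) := by
  induction w with
  | nil => exact absurd rfl hne
  | cons e w ih =>
    cases w with
    | nil => simp [Wq]
    | cons e' w' =>
      have h1 := ih (fun x hx => hw x (List.mem_cons_of_mem _ hx)) (by simp)
      have h2 : 1 ≤ e' := hw e' (by simp)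
      have h3 : Even (2 ^ (e' :: w').sum) := by
        rw [Nat.even_pow]
        refine ⟨even_two, ?_⟩
        simp only [List.sum_cons]; omega
      rw [Wq]
      exact h3.add_odd (hq.mul h1)

theorem Wq_inj {q : ℕ} (hq : Odd q) {u v : List ℕ} (hu : ∀ e ∈ u, 1 ≤ e) (hv : ∀ e ∈ v, 1 ≤ e)
    (hl : u.length = v.length) (hs : u.sum = v.sum) (hW : Wq q u = Wq q v) : u = v := by
  induction u using List.reverseRecOn generalizing v with
  | nil =>
    have : v.length = 0 := by simpa using hl.symm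
    exact (List.length_eq_zero_iff.mp this).symm
  | append_singleton u e ih =>
    rcases List.eq_nil_or_concat v with rfl | ⟨v', e', hv'⟩
    · simp at hl
    · rw [List.concat_eq_append] at hv'
      subst hv'
      simp only [List.length_append, List.length_singleton, Nat.add_right_cancel_iff] at hl
      simp only [List.sum_append, List.sum_singleton] at hs
      rw [Wq_snoc, Wq_snoc, hl] at hW
      have hW' : 2 ^ e * Wq q u = 2 ^ e' * Wq q v' := by omega
      by_cases hne : u = []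
      · subst hne
        have : v' = [] := List.length_eq_zero_iff.mp (by simpa using hl.symm)
        subst this
        simp at hs
        simp [hs]
      · have hne' : v' ≠ [] := by
          intro h; subst h
          exact hne (List.length_eq_zero_iff.mp (by simpa using hl))
        have hou := Nat.odd_iff.mp (Wq_odd hq (fun x hx => hu x (List.mem_append_left _ hx)) hne)
        have hov := Nat.odd_iff.mp (Wq_odd hq (fun x hx => hv x (List.mem_append_left _ hx)) hne')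
        have hee : e = e' := by
          rcases lt_trichotomy e e' with h | h | h
          · exfalso
            obtain ⟨d, rfl⟩ := Nat.exists_eq_add_of_lt h
            have h1 : 2 ^ e * Wq q u = 2 ^ e * (2 * (2 ^ d * Wq q v')) := by
              rw [hW']; ring
            have h2 := Nat.eq_of_mul_eq_mul_left (by positivity) h1
            omega
          · exact h
          · exfalso
            obtain ⟨d, rfl⟩ := Nat.exists_eq_add_of_lt h
            have h1 : 2 ^ e' * Wq q v' = 2 ^ e' * (2 * (2 ^ d * Wq q u)) := by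
              rw [← hW']; ring
            have h2 := Nat.eq_of_mul_eq_mul_left (by positivity) h1
            omega
        subst hee
        have hWW := Nat.eq_of_mul_eq_mul_left (by positivity) hW'
        have := ih (v := v') (fun x hx => hu x (List.mem_append_left _ hx))
          (fun x hx => hv x (List.mem_append_left _ hx)) hl (by omega) hWW
        rw [this]

/-- sharper form for `q ≥ 2` -/
theorem Wq_add_le {q : ℕ} (hq : 2 ≤ q) (w : List ℕ) :
    Wq q w + 2 ^ w.sum ≤ 2 ^ w.sum * q ^ w.length := by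
  induction w with
  | nil => simp [Wq]
  | cons e w ih =>
    rw [Wq, List.sum_cons, List.length_cons]
    have h1 : 1 ≤ q ^ w.length := Nat.one_le_pow _ _ (by omega)
    have h2 : q * (Wq q w + 2 ^ w.sum) ≤ q * (2 ^ w.sum * q ^ w.length) := Nat.mul_le_mul_left _ ih
    have h3 : 1 ≤ 2 ^ e := Nat.one_le_two_pow
    have h5 : 2 * 2 ^ w.sum ≤ q * 2 ^ w.sum := Nat.mul_le_mul_right _ hq
    have h6 : 1 ≤ q ^ (w.length + 1) := Nat.one_le_pow _ _ (by omega)
    have key : 2 ^ w.sum + q * Wq q w + 2 ^ w.sum ≤ 2 ^ w.sum * q ^ (w.length + 1) := by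
      calc 2 ^ w.sum + q * Wq q w + 2 ^ w.sum = q * Wq q w + 2 * 2 ^ w.sum := by ring
        _ ≤ q * Wq q w + q * 2 ^ w.sum := by omega
        _ = q * (Wq q w + 2 ^ w.sum) := by ring
        _ ≤ q * (2 ^ w.sum * q ^ w.length) := h2
        _ = _ := by ring
    rw [pow_add]
    generalize q ^ (w.length + 1) = Q at *
    generalize 2 ^ e = A at *
    generalize 2 ^ w.sum = P at *
    generalize q * Wq q w = W at *
    obtain ⟨a, rfl⟩ := Nat.exists_eq_add_of_le h3
    obtain ⟨b, rfl⟩ := Nat.exists_eq_add_of_le h6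
    nlinarith [Nat.zero_le (a * P * b)]

/-- NOTE: false for `q = 1` (word `[0,0]`), hence the extra hypothesis -/
theorem Wq_le {q : ℕ} (hq : 1 ≤ q) (w : List ℕ)
    (hq2 : 2 ≤ q) :
    Wq q w ≤ 2 ^ w.sum * q ^ w.length := (Nat.le_add_right _ _).trans (Wq_add_le hq2 w)

theorem coprime_pow {q : ℕ} (hq : q.Prime) (hq2 : q ≠ 2) (n s : ℕ) :
    IsCoprime ((q : ℤ) ^ n) (2 ^ s) := by
  apply IsCoprime.pow
  have h := (Nat.coprime_primes hq Nat.prime_two).mpr hq2
  exact_mod_cast Nat.isCoprime_iff_coprime.mpr h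

theorem not_dvd_pow {q : ℕ} (hq : q.Prime) (hq2 : q ≠ 2) (s : ℕ) : ¬ (q : ℤ) ∣ 2 ^ s := by
  intro h
  have h1 : q ∣ 2 ^ s := by exact_mod_cast h
  exact hq2 ((Nat.prime_dvd_prime_iff_eq hq Nat.prime_two).mp (hq.dvd_of_dvd_pow h1))

theorem Ep_spec {q : ℕ} {w : List ℕ} {x : ℤ} (h : Vd q w x) :
    (q : ℤ) ^ w.length * Ep q w x = 2 ^ w.sum * x - Wq q w := Int.mul_ediv_cancel' h

theorem Vd_of_eq {q : ℕ} {w : List ℕ} {x b : ℤ}
    (h : (q : ℤ) ^ w.length * b = 2 ^ w.sum * x - Wq q w) : Vd q w x := Dvd.intro _ h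

theorem Ep_of_eq {q : ℕ} (hq : 0 < q) {w : List ℕ} {x b : ℤ}
    (h : (q : ℤ) ^ w.length * b = 2 ^ w.sum * x - Wq q w) : Ep q w x = b := by
  have h0 : (q : ℤ) ^ w.length ≠ 0 := pow_ne_zero _ (by exact_mod_cast hq.ne')
  exact mul_left_cancel₀ h0 ((Ep_spec (Vd_of_eq h)).trans h.symm)

theorem Vd_nil (q : ℕ) (x : ℤ) : Vd q [] x := by simp [Vd]

theorem Ep_nil (q : ℕ) (x : ℤ) : Ep q [] x = x := by simp [Ep, Wq]

theorem Vd_single (q e : ℕ) (x : ℤ) : Vd q [e] x ↔ (q : ℤ) ∣ 2 ^ e * x - 1 := by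
  simp [Vd, Wq]

theorem Ep_single (q e : ℕ) (x : ℤ) : Ep q [e] x = (2 ^ e * x - 1) / q := by
  simp [Ep, Wq]

/-- NOTE: false for `q = 2` (word `[1,1]`), hence the extra hypothesis -/
theorem Vd_nonempty {q : ℕ} (hq : q.Prime) {w : List ℕ} (hw : w ≠ []) {x : ℤ} (h : Vd q w x)
    (hq2 : q ≠ 2) : ¬ (q : ℤ) ∣ x := by
  cases w with
  | nil => exact absurd rfl hw
  | cons e w =>
    intro hx
    have h1 : (q : ℤ) ∣ 2 ^ (e :: w).sum * x - Wq q (e :: w) := by
      refine dvd_trans (dvd_pow_self _ ?_) h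
      simp
    have h2 : (q : ℤ) ∣ (Wq q (e :: w) : ℤ) := by
      have := dvd_sub (Dvd.dvd.mul_left hx (2 ^ (e :: w).sum)) h1
      simpa using this
    rw [Wq] at h2
    push_cast at h2
    have h3 : (q : ℤ) ∣ 2 ^ w.sum := (dvd_add_left (Dvd.intro _ rfl)).mp h2
    exact not_dvd_pow hq hq2 _ h3

theorem Vd_append {q : ℕ} (hq : q.Prime) (hq2 : q ≠ 2) (u v : List ℕ) (x : ℤ) :
    Vd q (u ++ v) x ↔ Vd q u x ∧ Vd q v (Ep q u x) := by
  have h0 : (q : ℤ) ^ u.length ≠ 0 := pow_ne_zero _ (by exact_mod_cast hq.pos.ne')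
  have key : (2 : ℤ) ^ (u ++ v).sum * x - Wq q (u ++ v) =
      2 ^ v.sum * (2 ^ u.sum * x - Wq q u) - (q : ℤ) ^ u.length * Wq q v := by
    rw [Wq_append, List.sum_append, pow_add]; push_cast; ring
  have hlen : (q : ℤ) ^ (u ++ v).length = (q : ℤ) ^ u.length * (q : ℤ) ^ v.length := by
    rw [List.length_append, pow_add]
  constructor
  · intro h
    have hu : Vd q u x := by
      unfold Vd at h ⊢
      rw [key, hlen] at h
      have h1 : (q : ℤ) ^ u.length ∣ 2 ^ v.sum * (2 ^ u.sum * x - Wq q u) := by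
        have := dvd_add (dvd_trans (Dvd.intro _ rfl) h)
          (Dvd.intro (Wq q v : ℤ) rfl : (q : ℤ) ^ u.length ∣ (q : ℤ) ^ u.length * Wq q v)
        simpa using this
      exact (coprime_pow hq hq2 _ _).dvd_of_dvd_mul_left h1
    refine ⟨hu, ?_⟩
    unfold Vd at h
    rw [key, hlen, ← Ep_spec hu] at h
    have h2 : (q : ℤ) ^ u.length * (q : ℤ) ^ v.length ∣
        (q : ℤ) ^ u.length * (2 ^ v.sum * Ep q u x - Wq q v) := by
      convert h using 1; ring
    exact (mul_dvd_mul_iff_left h0).mp h2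
  · rintro ⟨hu, hv⟩
    unfold Vd
    rw [key, hlen, ← Ep_spec hu]
    have h2 : (q : ℤ) ^ u.length * (q : ℤ) ^ v.length ∣
        (q : ℤ) ^ u.length * (2 ^ v.sum * Ep q u x - Wq q v) := mul_dvd_mul_left _ hv
    convert h2 using 1; ring

theorem Ep_append {q : ℕ} (hq : q.Prime) (hq2 : q ≠ 2) {u v : List ℕ} {x : ℤ} (h : Vd q u x) :
    Ep q (u ++ v) x = Ep q v (Ep q u x) := by
  have hpos : (0 : ℤ) < (q : ℤ) ^ u.length := pow_pos (by exact_mod_cast hq.pos) _
  have key : (2 : ℤ) ^ (u ++ v).sum * x - Wq q (u ++ v) =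
      (q : ℤ) ^ u.length * (2 ^ v.sum * Ep q u x - Wq q v) := by
    have h1 : (2 : ℤ) ^ (u ++ v).sum * x - Wq q (u ++ v) =
      2 ^ v.sum * (2 ^ u.sum * x - Wq q u) - (q : ℤ) ^ u.length * Wq q v := by
      rw [Wq_append, List.sum_append, pow_add]; push_cast; ring
    rw [h1, ← Ep_spec h]; ring
  unfold Ep
  rw [key, List.length_append, pow_add, Int.mul_ediv_mul_of_pos _ _ hpos]
  rfl

theorem Lv_append {q : ℕ} (hq : q.Prime) (hq2 : q ≠ 2) {u v : List ℕ} (hv : v ≠ []) (x : ℤ) :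
    Lv q (u ++ v) x ↔ Lv q u x ∧ Lv q v (Ep q u x) := by
  unfold Lv
  rw [Vd_append hq hq2]
  constructor
  · rintro ⟨⟨h1, h2⟩, h3⟩
    rw [Ep_append hq hq2 h1] at h3
    exact ⟨⟨h1, Vd_nonempty hq hv h2 hq2⟩, h2, h3⟩
  · rintro ⟨⟨h1, _⟩, h2, h3⟩
    rw [Ep_append hq hq2 h1]
    exact ⟨⟨h1, h2⟩, h3⟩

theorem Vd_shift (q : ℕ) (w : List ℕ) (x y : ℤ) :
    Vd q w (x + (q : ℤ) ^ w.length * y) ↔ Vd q w x := by
  unfold Vd
  have h : (2 : ℤ) ^ w.sum * (x + (q : ℤ) ^ w.length * y) - Wq q w =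
      (2 ^ w.sum * x - Wq q w) + (q : ℤ) ^ w.length * (2 ^ w.sum * y) := by ring
  rw [h, dvd_add_left (Dvd.intro _ rfl)]

theorem Ep_shift {q : ℕ} (hq : 0 < q) (w : List ℕ) (x y : ℤ) :
    Ep q w (x + (q : ℤ) ^ w.length * y) = Ep q w x + 2 ^ w.sum * y := by
  unfold Ep
  have h0 : (q : ℤ) ^ w.length ≠ 0 := pow_ne_zero _ (by exact_mod_cast hq.ne')
  have h : (2 : ℤ) ^ w.sum * (x + (q : ℤ) ^ w.length * y) - Wq q w =
      (2 ^ w.sum * x - Wq q w) + (q : ℤ) ^ w.length * (2 ^ w.sum * y) := by ring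
  rw [h, Int.add_mul_ediv_left _ _ h0]

theorem Lv_shift {q : ℕ} (hq : 0 < q) (w : List ℕ) (x y : ℤ) :
    Lv q w (x + (q : ℤ) ^ (w.length + 1) * y) ↔ Lv q w x := by
  have h : x + (q : ℤ) ^ (w.length + 1) * y = x + (q : ℤ) ^ w.length * (q * y) := by ring
  unfold Lv
  rw [h, Vd_shift, Ep_shift hq]
  have h2 : (q : ℤ) ∣ 2 ^ w.sum * (q * y) := ⟨2 ^ w.sum * y, by ring⟩
  rw [dvd_add_left h2]

/-- one solution of a linear congruence -/
theorem exists_unique_lin {m : ℕ} (hm : 0 < m) {a : ℤ} (ha : IsCoprime (m : ℤ) a) (b : ℤ) :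
    ∃! d : ℕ, d < m ∧ (m : ℤ) ∣ a * d - b := by
  obtain ⟨u, v, huv⟩ := ha
  have hm' : (0 : ℤ) < m := by exact_mod_cast hm
  have h1 : (0 : ℤ) ≤ (v * b) % m := Int.emod_nonneg _ hm'.ne'
  have h2 : (v * b) % m < m := Int.emod_lt_of_pos _ hm'
  refine ⟨((v * b) % m).toNat, ⟨by omega, ?_⟩, ?_⟩
  · rw [Int.toNat_of_nonneg h1]
    have h3 : (v * b) % m = v * b - m * (v * b / m) := by
      have := Int.emod_add_mul_ediv (v * b) m
      linarith
    rw [h3]
    refine ⟨-(u * b) - a * (v * b / m), ?_⟩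
    have h4 : b = u * m * b + v * a * b := by rw [← add_mul, huv, one_mul]
    linear_combination (-1 : ℤ) * h4
  · rintro d ⟨hd, hdv⟩
    have h3 : (m : ℤ) ∣ (d : ℤ) - v * b := by
      obtain ⟨k, hk⟩ := hdv
      refine ⟨u * d + v * k, ?_⟩
      linear_combination (-(d : ℤ)) * huv + v * hk
    have h4 : (d : ℤ) % m = (v * b) % m := by
      exact Int.emod_eq_emod_iff_emod_sub_eq_zero.mpr (Int.emod_eq_zero_of_dvd h3)
    have h5 : (d : ℤ) % m = d := Int.emod_eq_of_lt (by positivity) (by exact_mod_cast hd)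
    omega

theorem card_lin {m : ℕ} (hm : 0 < m) {a : ℤ} (ha : IsCoprime (m : ℤ) a) (b : ℤ) (P : ℕ → Prop)
    [DecidablePred P] (hP : ∀ d : ℕ, P d ↔ (m : ℤ) ∣ a * d - b) :
    ((range m).filter P).card = 1 := by
  obtain ⟨d, ⟨h1, h2⟩, h3⟩ := exists_unique_lin hm ha b
  rw [Finset.card_eq_one]
  refine ⟨d, ?_⟩
  ext x
  rw [mem_filter, mem_range, mem_singleton, hP]
  constructor
  · intro h; exact h3 x h
  · rintro rfl; exact ⟨h1, h2⟩

open scoped Classical in
/-- every word is valid at exactly one class mod `q^n` -/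
theorem unique_class {q : ℕ} (hq : q.Prime) (hq2 : q ≠ 2) (w : List ℕ) :
    ((range (q ^ w.length)).filter (fun x : ℕ => Vd q w (x : ℤ))).card = 1 := by
  apply card_lin (a := 2 ^ w.sum) (b := Wq q w) (pow_pos hq.pos _)
  · push_cast; exact coprime_pow hq hq2 _ _
  · intro d; unfold Vd; push_cast; rfl

open scoped Classical in
/-- a nonempty valid word is live at exactly `q-1` classes mod `q^(n+1)` -/
theorem live_classes {q : ℕ} (hq : q.Prime) (hq2 : q ≠ 2) (w : List ℕ) :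
    ((range (q ^ (w.length + 1))).filter (fun x : ℕ => Lv q w (x : ℤ))).card = q - 1 := by
  have hqn : 0 < q ^ w.length := pow_pos hq.pos _
  obtain ⟨x₀, hx₀⟩ := Finset.card_eq_one.mp (unique_class hq hq2 w)
  have hmem : x₀ ∈ (range (q ^ w.length)).filter (fun x : ℕ => Vd q w (x : ℤ)) := by
    rw [hx₀]; simp
  rw [mem_filter, mem_range] at hmem
  obtain ⟨hx1, hx2⟩ := hmem
  have huniq : ∀ x : ℕ, x < q ^ w.length → Vd q w (x : ℤ) → x = x₀ := by
    intro x h1 h2
    have : x ∈ (range (q ^ w.length)).filter (fun x : ℕ => Vd q w (x : ℤ)) := by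
      rw [mem_filter, mem_range]; exact ⟨h1, h2⟩
    rw [hx₀] at this
    simpa using this
  have hP : ((range q).filter (fun d : ℕ => (q : ℤ) ∣ Ep q w x₀ + 2 ^ w.sum * d)).card = 1 := by
    apply card_lin (a := 2 ^ w.sum) (b := - Ep q w x₀) hq.pos
    · have := coprime_pow hq hq2 1 w.sum
      simpa using this
    · intro d
      rw [show Ep q w x₀ + 2 ^ w.sum * (d : ℤ) = 2 ^ w.sum * (d : ℤ) - -Ep q w x₀ by ring]
  have hS : (range (q ^ (w.length + 1))).filter (fun x : ℕ => Lv q w (x : ℤ)) =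
      ((range q).filter (fun d : ℕ => ¬ (q : ℤ) ∣ Ep q w x₀ + 2 ^ w.sum * d)).image
        (fun d => x₀ + q ^ w.length * d) := by
    ext x
    simp only [mem_filter, mem_range, mem_image]
    constructor
    · rintro ⟨h1, h2⟩
      have h3 : (x : ℤ) = ((x % q ^ w.length : ℕ) : ℤ) + (q : ℤ) ^ w.length * (x / q ^ w.length : ℕ) := by
        have := Nat.mod_add_div x (q ^ w.length)
        exact_mod_cast this.symm
      have h4 : x % q ^ w.length = x₀ := by
        apply huniq _ (Nat.mod_lt _ hqn)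
        have := h2.1
        rw [h3, Vd_shift] at this
        exact this
      rw [h4] at h3
      refine ⟨x / q ^ w.length, ⟨?_, ?_⟩, ?_⟩
      · rw [Nat.div_lt_iff_lt_mul hqn, mul_comm, ← pow_succ]; exact h1
      · have := h2.2
        rw [h3, Ep_shift hq.pos] at this
        exact this
      · exact_mod_cast h3.symm
    · rintro ⟨d, ⟨h1, h2⟩, rfl⟩
      refine ⟨?_, ?_, ?_⟩
      · have h3 : d + 1 ≤ q := h1
        calc x₀ + q ^ w.length * d < q ^ w.length + q ^ w.length * d := by omega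
          _ = q ^ w.length * (d + 1) := by ring
          _ ≤ q ^ w.length * q := Nat.mul_le_mul_left _ h3
          _ = _ := by rw [pow_succ]
      · push_cast
        rw [Vd_shift]; exact hx2
      · push_cast
        rw [Ep_shift hq.pos]; exact h2
  rw [hS, Finset.card_image_of_injective]
  · have := Finset.card_filter_add_card_filter_not (s := range q)
      (fun d : ℕ => (q : ℤ) ∣ Ep q w x₀ + 2 ^ w.sum * d)
    rw [hP, card_range] at this
    omega
  · intro a b hab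
    simp only [add_right_inj] at hab
    exact Nat.eq_of_mul_eq_mul_left hqn hab

theorem FW_cons {E n e : ℕ} {w : List ℕ} : e :: w ∈ FW E (n + 1) ↔ (1 ≤ e ∧ e ≤ E) ∧ w ∈ FW E n := by
  rw [mem_FW, mem_FW]
  simp only [List.length_cons, Nat.add_right_cancel_iff, List.mem_cons, forall_eq_or_imp]
  tauto

/-- link with the trees of `Pool.Agent.H412R2` -/
theorem mem_tr_iff {q : ℕ} (hq : q.Prime) (hq2 : q ≠ 2) {E n s : ℕ} {x z : ℤ} :
    z ∈ tr q E n s x ↔ ∃ w ∈ FW E n, w.sum = s ∧ Vd q w x ∧ Ep q w x = z := by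
  induction n generalizing s x with
  | zero =>
    rw [mem_tr_zero]
    constructor
    · rintro ⟨rfl, rfl⟩
      exact ⟨[], by simp [FW], rfl, Vd_nil _ _, Ep_nil _ _⟩
    · rintro ⟨w, hw, rfl, h1, rfl⟩
      simp only [FW, mem_singleton] at hw
      subst hw
      exact ⟨rfl, Ep_nil _ _⟩
  | succ n ih =>
    rw [mem_tr_succ hq.pos]
    have hqz : (q : ℤ) ≠ 0 := by exact_mod_cast hq.pos.ne'
    constructor
    · rintro ⟨e, b, he1, he2, he3, hb, hz⟩
      obtain ⟨w, hw, hs, hV, hE⟩ := ih.mp hz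
      have h1 : Vd q [e] x := by rw [Vd_single]; exact ⟨b, by linarith⟩
      have h2 : Ep q [e] x = b := by
        rw [Ep_single, show (2 : ℤ) ^ e * x - 1 = q * b by linarith, Int.mul_ediv_cancel_left _ hqz]
      refine ⟨[e] ++ w, FW_cons.mpr ⟨⟨he1, he2⟩, hw⟩, ?_, ?_, ?_⟩
      · simp only [List.sum_append, List.sum_singleton]; omega
      · rw [Vd_append hq hq2, h2]; exact ⟨h1, hV⟩
      · rw [Ep_append hq hq2 h1, h2]; exact hE
    · rintro ⟨w, hw, rfl, hV, rfl⟩
      cases w with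
      | nil => rw [mem_FW] at hw; simp at hw
      | cons e w =>
        rw [FW_cons] at hw
        have hV' : Vd q ([e] ++ w) x := hV
        rw [Vd_append hq hq2] at hV'
        have hE : Ep q (e :: w) x = Ep q w (Ep q [e] x) := Ep_append (v := w) hq hq2 hV'.1
        refine ⟨e, Ep q [e] x, hw.1.1, hw.1.2, by simp, ?_, ?_⟩
        · have := Ep_spec hV'.1
          simp only [List.length_singleton, pow_one, List.sum_singleton] at this
          have h3 : (Wq q [e] : ℤ) = 1 := by simp [Wq]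
          rw [h3] at this
          linarith
        · rw [ih]
          refine ⟨w, hw.2, by simp, hV'.2, hE.symm⟩

theorem odd_of_prime {q : ℕ} (hq : q.Prime) (hq2 : q ≠ 2) : Odd q := hq.odd_of_ne_two hq2

/-- the endpoint determines the word, for given length and size -/
theorem Ep_inj {q : ℕ} (hq : q.Prime) (hq2 : q ≠ 2) {E n : ℕ} {x : ℤ} {u v : List ℕ}
    (hu : u ∈ FW E n) (hv : v ∈ FW E n) (hs : u.sum = v.sum) (hVu : Vd q u x) (hVv : Vd q v x)
    (hE : Ep q u x = Ep q v x) : u = v := by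
  rw [mem_FW] at hu hv
  have hl : u.length = v.length := hu.1.trans hv.1.symm
  refine Wq_inj (odd_of_prime hq hq2) (fun e he => (hu.2 e he).1) (fun e he => (hv.2 e he).1)
    hl hs ?_
  have h1 := Ep_spec hVu
  have h2 := Ep_spec hVv
  rw [← hE, ← hl, ← hs] at h2
  have h3 : (Wq q u : ℤ) = Wq q v := by linarith
  exact_mod_cast h3

open scoped Classical in
theorem Nq_eq {q : ℕ} (hq : q.Prime) (hq2 : q ≠ 2) (E n s : ℕ) (x : ℤ) :
    Nq q E n s x = ((tr q E n s x).filter (fun z => ¬ (q : ℤ) ∣ z)).card := by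
  have hS : (tr q E n s x).filter (fun z => ¬ (q : ℤ) ∣ z) =
      ((FW E n).filter (fun w => w.sum = s ∧ Lv q w x)).image (fun w => Ep q w x) := by
    ext z
    simp only [mem_filter, mem_image]
    rw [mem_tr_iff hq hq2]
    constructor
    · rintro ⟨⟨w, hw, hs, hV, rfl⟩, hz⟩
      exact ⟨w, ⟨hw, hs, hV, hz⟩, rfl⟩
    · rintro ⟨w, ⟨hw, hs, hV, hz⟩, rfl⟩
      exact ⟨⟨w, hw, hs, hV, rfl⟩, hz⟩
  rw [hS, Finset.card_image_of_injOn]
  · rfl
  · intro u hu v hv huv
    simp only [coe_filter, Set.mem_ofPred_eq] at hu hv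
    exact Ep_inj hq hq2 hu.1 hv.1 (hu.2.1.trans hv.2.1.symm) hu.2.2.1 hv.2.2.1 huv

theorem Nq_shift {q : ℕ} (hq : q.Prime) (hq2 : q ≠ 2) (E n s : ℕ) (x y : ℤ) :
    Nq q E n s (x + (q : ℤ) ^ (n + 1) * y) = Nq q E n s x := by
  classical
  unfold Nq
  congr 1
  apply filter_congr
  intro w hw
  have hl : w.length = n := (mem_FW.mp hw).1
  rw [← hl, Lv_shift hq.pos]

/-- concatenation of live words -/
theorem Nq_mul {q : ℕ} (hq : q.Prime) (hq2 : q ≠ 2) {E n m s s' K : ℕ} {x : ℤ} (hm : 1 ≤ m)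
    (h : ∀ w ∈ FW E n, w.sum = s → Lv q w x → K ≤ Nq q E m s' (Ep q w x)) :
    Nq q E n s x * K ≤ Nq q E (n + m) (s + s') x := by
  classical
  set A := (FW E n).filter (fun w => w.sum = s ∧ Lv q w x) with hA
  have h1 : Nq q E n s x * K ≤ (A.sigma (fun w =>
      (FW E m).filter (fun v => v.sum = s' ∧ Lv q v (Ep q w x)))).card := by
    rw [card_sigma]
    have : A.card = Nq q E n s x := by
      unfold Nq; rw [hA]
    rw [← this, ← smul_eq_mul]
    apply card_nsmul_le_sum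
    intro w hw
    rw [hA, mem_filter] at hw
    have := h w hw.1 hw.2.1 hw.2.2
    unfold Nq at this
    convert this
  refine h1.trans ?_
  unfold Nq
  apply card_le_card_of_injOn (fun p => p.1 ++ p.2)
  · rintro ⟨w, v⟩ hp
    simp only [coe_sigma, Set.mem_sigma_iff, mem_coe, hA, mem_filter] at hp
    simp only [coe_filter, Set.mem_ofPred_eq]
    obtain ⟨⟨hw, hws, hwL⟩, hv, hvs, hvL⟩ := hp
    have hw' := mem_FW.mp hw
    have hv' := mem_FW.mp hv
    have hne : v ≠ [] := by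
      rintro rfl
      have := hv'.1
      simp at this
      omega
    refine ⟨?_, ?_, ?_⟩
    · rw [mem_FW]
      refine ⟨by rw [List.length_append, hw'.1, hv'.1], ?_⟩
      intro e he
      rcases List.mem_append.mp he with h | h
      · exact hw'.2 e h
      · exact hv'.2 e h
    · rw [List.sum_append, hws, hvs]
    · rw [Lv_append hq hq2 hne]; exact ⟨hwL, hvL⟩
  · rintro ⟨w, v⟩ hp ⟨w', v'⟩ hp' hE
    simp only [coe_sigma, Set.mem_sigma_iff, mem_coe, hA, mem_filter] at hp hp'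
    have hl : w.length = w'.length := (mem_FW.mp hp.1.1).1.trans (mem_FW.mp hp'.1.1).1.symm
    obtain ⟨h1, h2⟩ := List.append_inj hE hl
    subst h1; subst h2; rfl

theorem prim_three : Prim 3 := by
  have key : ∀ r < 9, r % 3 ≠ 0 → ∃ e ∈ Finset.Icc 1 6, 2 ^ e % 9 = r := by decide
  intro y hy
  have h0 : (0 : ℤ) ≤ y % 9 := Int.emod_nonneg _ (by norm_num)
  have h1 : y % 9 < 9 := Int.emod_lt_of_pos _ (by norm_num)
  obtain ⟨e, he, h⟩ := key (y % 9).toNat (by omega) (by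
    intro h
    apply hy
    push_cast
    omega)
  refine ⟨e, he, ?_⟩
  have h2 : (2 : ℤ) ^ e % 9 = y % 9 := by
    have h3 : (((2 ^ e % 9 : ℕ)) : ℤ) = ((y % 9).toNat : ℤ) := by exact_mod_cast h
    rw [Int.toNat_of_nonneg h0] at h3
    push_cast at h3
    exact h3
  push_cast
  omega

theorem prim_five : Prim 5 := by
  have key : ∀ r < 25, r % 5 ≠ 0 → ∃ e ∈ Finset.Icc 1 20, 2 ^ e % 25 = r := by decide
  intro y hy
  have h0 : (0 : ℤ) ≤ y % 25 := Int.emod_nonneg _ (by norm_num)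
  have h1 : y % 25 < 25 := Int.emod_lt_of_pos _ (by norm_num)
  obtain ⟨e, he, h⟩ := key (y % 25).toNat (by omega) (by
    intro h
    apply hy
    push_cast
    omega)
  refine ⟨e, he, ?_⟩
  have h2 : (2 : ℤ) ^ e % 25 = y % 25 := by
    have h3 : (((2 ^ e % 25 : ℕ)) : ℤ) = ((y % 25).toNat : ℤ) := by exact_mod_cast h
    rw [Int.toNat_of_nonneg h0] at h3
    push_cast at h3
    exact h3
  push_cast
  omega

/-- powers of `2` are distinct mod `q^2` on `[1, q(q-1)]` -/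
theorem Prim.inj {q : ℕ} (hP : Prim q) (hq : q.Prime) (hq2 : q ≠ 2) {e e' : ℕ}
    (he : e ∈ Finset.Icc 1 (q * (q - 1))) (he' : e' ∈ Finset.Icc 1 (q * (q - 1)))
    (h : (q : ℤ) ^ 2 ∣ 2 ^ e - 2 ^ e') : e = e' := by
  set T := (range (q ^ 2)).filter (fun a => (q ^ 2).Coprime a) with hT
  have hcardT : T.card = q * (q - 1) := by
    have h1 : T.card = Nat.totient (q ^ 2) := rfl
    rw [h1, Nat.totient_prime_pow hq (by norm_num)]
    simp
  have hq2pos : 0 < q ^ 2 := pow_pos hq.pos _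
  have hmaps : ∀ a ∈ Finset.Icc 1 (q * (q - 1)), 2 ^ a % q ^ 2 ∈ T := by
    intro a _
    rw [hT, mem_filter, mem_range]
    refine ⟨Nat.mod_lt _ hq2pos, ?_⟩
    rw [Nat.Coprime, Nat.gcd_comm, (Nat.mod_modEq (2 ^ a) (q ^ 2)).gcd_eq]
    exact Nat.Coprime.pow _ _ ((Nat.coprime_primes Nat.prime_two hq).mpr (Ne.symm hq2))
  have hsurj : ∀ b ∈ T, ∃ a, ∃ (_ : a ∈ Finset.Icc 1 (q * (q - 1))), 2 ^ a % q ^ 2 = b := by
    intro b hb
    rw [hT, mem_filter, mem_range] at hb
    have h1 : ¬ (q : ℤ) ∣ (b : ℤ) := by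
      intro h1
      have h2 : q ∣ b := by exact_mod_cast h1
      have h3 : q ∣ Nat.gcd (q ^ 2) b := Nat.dvd_gcd (dvd_pow_self _ (by norm_num)) h2
      rw [hb.2] at h3
      exact hq.one_lt.ne' (Nat.dvd_one.mp h3)
    obtain ⟨a, ha, hab⟩ := hP b h1
    refine ⟨a, ha, ?_⟩
    have h2 : ((2 ^ a : ℕ) : ℤ) ≡ ((b : ℕ) : ℤ) [ZMOD ((q ^ 2 : ℕ) : ℤ)] := by
      apply Int.ModEq.symm
      rw [Int.modEq_iff_dvd]
      push_cast
      exact hab
    have h3 := (Int.natCast_modEq_iff.mp h2)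
    rw [Nat.ModEq, Nat.mod_eq_of_lt hb.1] at h3
    exact h3
  refine Finset.inj_on_of_surj_on_of_card_le (fun a _ => 2 ^ a % q ^ 2) hmaps hsurj ?_ he he' ?_
  · rw [hcardT, Nat.card_Icc]; omega
  · have h2 : ((2 ^ e : ℕ) : ℤ) ≡ ((2 ^ e' : ℕ) : ℤ) [ZMOD ((q ^ 2 : ℕ) : ℤ)] := by
      apply Int.ModEq.symm
      rw [Int.modEq_iff_dvd]
      push_cast
      exact h
    exact Int.natCast_modEq_iff.mp h2

theorem single_iff {q : ℕ} (hq : 0 < q) (e : ℕ) (x d : ℤ) :
    (Vd q [e] x ∧ (q : ℤ) ∣ Ep q [e] x - d) ↔ (q : ℤ) ^ 2 ∣ 2 ^ e * x - (1 + q * d) := by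
  have hqz : (q : ℤ) ≠ 0 := by exact_mod_cast hq.ne'
  rw [Vd_single, Ep_single]
  constructor
  · rintro ⟨⟨k, hk⟩, h2⟩
    rw [hk, Int.mul_ediv_cancel_left _ hqz] at h2
    obtain ⟨l, hl⟩ := h2
    refine ⟨l, ?_⟩
    linear_combination hk + (q : ℤ) * hl
  · rintro ⟨l, hl⟩
    have h1 : (2 : ℤ) ^ e * x - 1 = q * (q * l + d) := by linear_combination hl
    rw [h1, Int.mul_ediv_cancel_left _ hqz]
    exact ⟨Dvd.intro _ rfl, ⟨l, by ring⟩⟩

open scoped Classical in
/-- among the letters of `[1, q(q-1)]` exactly one is valid at `x` with a given endpoint mod `q` -/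
theorem Prim.unique {q : ℕ} (hP : Prim q) (hq : q.Prime) (hq2 : q ≠ 2) {x : ℤ}
    (hx : ¬ (q : ℤ) ∣ x) {d : ℕ} (hd : d < q) :
    ((Finset.Icc 1 (q * (q - 1))).filter (fun e => Vd q [e] x ∧ (q : ℤ) ∣ Ep q [e] x - d)).card = 1 := by
  have hcop : IsCoprime ((q : ℤ) ^ 2) x := by
    apply IsCoprime.pow_left
    rcases (Nat.prime_iff_prime_int.mp hq).coprime_iff_not_dvd.mpr hx with h
    exact h
  obtain ⟨u, v, huv⟩ := hcop
  have hy : ¬ (q : ℤ) ∣ v * (1 + q * d) := by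
    intro h
    have hpr := Nat.prime_iff_prime_int.mp hq
    rcases hpr.dvd_or_dvd h with h1 | h1
    · have h2 : (q : ℤ) ∣ 1 := by
        rw [← huv]
        exact dvd_add (Dvd.dvd.mul_left (dvd_pow_self _ (by norm_num)) _) (Dvd.dvd.mul_right h1 _)
      exact hpr.not_dvd_one h2
    · have h2 : (q : ℤ) ∣ 1 := (dvd_add_left (Dvd.intro _ rfl)).mp h1
      exact hpr.not_dvd_one h2
  obtain ⟨e, he, hev⟩ := hP _ hy
  rw [Finset.card_eq_one]
  refine ⟨e, ?_⟩
  have hmain : ∀ a : ℕ, (q : ℤ) ^ 2 ∣ 2 ^ a * x - (1 + q * d) → (q : ℤ) ^ 2 ∣ 2 ^ a - v * (1 + q * d) := by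
    rintro a ⟨k, hk⟩
    refine ⟨u * 2 ^ a + v * k, ?_⟩
    linear_combination (-(2 : ℤ) ^ a) * huv + v * hk
  ext a
  rw [mem_filter, mem_singleton, single_iff hq.pos]
  constructor
  · rintro ⟨ha, h⟩
    apply Prim.inj hP hq hq2 ha he
    have := dvd_sub (hmain a h) hev
    simpa using this
  · rintro rfl
    refine ⟨he, ?_⟩
    obtain ⟨k, hk⟩ := hev
    refine ⟨k * x - u * (1 + q * d), ?_⟩
    linear_combination x * hk + (1 + (q : ℤ) * d) * huv

/-- every start has a live letter leading to any class prime to `q` -/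
theorem Prim.exists_letter {q : ℕ} (hP : Prim q) (hq : q.Prime) (hq2 : q ≠ 2) {x d : ℤ}
    (hx : ¬ (q : ℤ) ∣ x) (hd : ¬ (q : ℤ) ∣ d) :
    ∃ e ∈ Finset.Icc 1 (q * (q - 1)), Lv q [e] x ∧ (q : ℤ) ∣ Ep q [e] x - d := by
  classical
  have hqz : (0 : ℤ) < q := by exact_mod_cast hq.pos
  have h0 : (0 : ℤ) ≤ d % q := Int.emod_nonneg _ hqz.ne'
  have h1 : d % q < q := Int.emod_lt_of_pos _ hqz
  obtain ⟨e, he⟩ := Finset.card_eq_one.mp (Prim.unique hP hq hq2 hx (d := (d % q).toNat) (by omega))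
  have hmem : e ∈ (Finset.Icc 1 (q * (q - 1))).filter
      (fun e => Vd q [e] x ∧ (q : ℤ) ∣ Ep q [e] x - ((d % q).toNat : ℕ)) := by
    rw [he]; simp
  rw [mem_filter] at hmem
  obtain ⟨h2, h3, h4⟩ := hmem
  have h5 : (q : ℤ) ∣ Ep q [e] x - d := by
    rw [Int.toNat_of_nonneg h0] at h4
    have h6 : (q : ℤ) ∣ d % q - d := by
      refine ⟨-(d / q), ?_⟩
      have := Int.emod_add_mul_ediv d q
      linarith
    have := dvd_add h4 h6
    simpa using this
  refine ⟨e, h2, ⟨h3, ?_⟩, h5⟩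
  intro h6
  exact hd ((dvd_sub_right h6).mp h5)

end Pool.Agent.H422R2.QA
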