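import Pool.Agent.H422R2.QA.QADefs
import Pool.Agent.H422R2.QA.QAWords
import Pool.Agent.H320R2.PDWords

/-! Applications of QUENCHED = ANNEALED: general adaptor lemmas. -/

set_option autoImplicit false

namespace Pool.Agent.H422R2.QA

open Finset Pool.Agent.H320R2.PD

/-- the `q x + 1` map on the natural numbers -/
def TN (q : ℕ) (m : ℕ) : ℕ := if m % 2 = 0 then m / 2 else (q * m + 1) / 2

/-- the `q x + 1` map on the integers -/
def TZ (q : ℕ) (m : ℤ) : ℤ := if m % 2 = 0 then m / 2 else (q * m + 1) / 2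

namespace App

theorem TZ_cast (q m : ℕ) : TZ q (m : ℤ) = (TN q m : ℤ) := by
  unfold TZ TN
  by_cases h : m % 2 = 0
  · rw [if_pos h, if_pos (by omega)]; push_cast; rfl
  · rw [if_neg h, if_neg (by omega)]; push_cast; rfl

theorem TZ_iter_cast (q m k : ℕ) : (TZ q)^[k] (m : ℤ) = ((TN q)^[k] m : ℤ) := by
  induction k generalizing m with
  | zero => rfl
  | succ k ih =>
    rw [Function.iterate_succ_apply, Function.iterate_succ_apply, TZ_cast, ih]

theorem TZ_two_pow (q k : ℕ) (y : ℤ) : (TZ q)^[k] (2 ^ k * y) = y := by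
  induction k with
  | zero => simp
  | succ k ih =>
    rw [Function.iterate_succ_apply]
    have : TZ q (2 ^ (k + 1) * y) = 2 ^ k * y := by
      unfold TZ
      have h : (2 : ℤ) ^ (k + 1) * y = 2 * (2 ^ k * y) := by ring
      rw [h, if_pos (by omega)]
      omega
    rw [this, ih]

theorem FW_pos {A n : ℕ} {w : List ℕ} (hw : w ∈ FW A n) : ∀ e ∈ w, 1 ≤ e := by
  intro e he
  exact ((mem_FW.1 hw).2 e he).1

theorem FW_len {A n : ℕ} {w : List ℕ} (hw : w ∈ FW A n) : w.length = n := (mem_FW.1 hw).1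

theorem Vd_cons {q : ℕ} (hq : q.Prime) (hq2 : q ≠ 2) (e : ℕ) (w : List ℕ) (x : ℤ) :
    Vd q (e :: w) x ↔ Vd q [e] x ∧ Vd q w (Ep q [e] x) := Vd_append hq hq2 [e] w x

theorem Ep_cons {q : ℕ} (hq : q.Prime) (hq2 : q ≠ 2) {e : ℕ} {w : List ℕ} {x : ℤ}
    (h : Vd q [e] x) : Ep q (e :: w) x = Ep q w (Ep q [e] x) := Ep_append (v := w) hq hq2 h

theorem Ep_single {q : ℕ} {e : ℕ} {x : ℤ} (h : Vd q [e] x) :
    (q : ℤ) * Ep q [e] x + 1 = 2 ^ e * x := by
  have := Ep_spec h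
  simp [Wq] at this
  linarith

/-- the forward iteration leads from the endpoint back to the root -/
theorem iter_Ep {q : ℕ} (hq : q.Prime) (hq2 : q ≠ 2) (w : List ℕ) (hw : ∀ e ∈ w, 1 ≤ e) (x : ℤ)
    (h : Vd q w x) : (TZ q)^[w.sum] (Ep q w x) = x := by
  induction w generalizing x with
  | nil => simp [Ep, Wq]
  | cons e w ih =>
    rw [Vd_cons hq hq2] at h
    rw [Ep_cons hq hq2 h.1, List.sum_cons, Function.iterate_add_apply,
      ih (fun a ha => hw a (List.mem_cons_of_mem _ ha)) _ h.2]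
    have h1 := Ep_single h.1
    have he : 1 ≤ e := hw e List.mem_cons_self
    obtain ⟨k, rfl⟩ : ∃ k, e = k + 1 := ⟨e - 1, by omega⟩
    set b := Ep q [k + 1] x
    rw [Function.iterate_succ_apply]
    have hodd : ¬ b % 2 = 0 := by
      intro hb
      have h2 : (q : ℤ) * b = 2 * ((q : ℤ) * (b / 2)) := by
        have : b = 2 * (b / 2) := by omega
        nth_rewrite 1 [this]; ring
      have h3 : (2 : ℤ) ^ (k + 1) * x = 2 * (2 ^ k * x) := by ring
      omega
    have : TZ q b = 2 ^ k * x := by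
      unfold TZ
      rw [if_neg hodd, h1]
      have h3 : (2 : ℤ) ^ (k + 1) * x = 2 * (2 ^ k * x) := by ring
      omega
    rw [this, TZ_two_pow]

/-- endpoints of positive roots are positive -/
theorem Ep_pos {q : ℕ} (hq : q.Prime) (hq2 : q ≠ 2) (w : List ℕ) (hw : ∀ e ∈ w, 1 ≤ e) (x : ℤ)
    (hx : 0 < x) (h : Vd q w x) : 0 < Ep q w x := by
  induction w generalizing x with
  | nil => simp [Ep, Wq, hx]
  | cons e w ih =>
    rw [Vd_cons hq hq2] at h
    rw [Ep_cons hq hq2 h.1]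
    apply ih (fun a ha => hw a (List.mem_cons_of_mem _ ha)) _ _ h.2
    have h1 := Ep_single h.1
    have he : 1 ≤ e := hw e List.mem_cons_self
    have h2 : (2 : ℤ) ≤ 2 ^ e := by
      calc (2 : ℤ) = 2 ^ 1 := by norm_num
        _ ≤ 2 ^ e := pow_le_pow_right₀ (by norm_num) he
    have h3 : (2 : ℤ) ≤ 2 ^ e * x := by nlinarith
    have hq0 : (0 : ℤ) < q := by exact_mod_cast hq.pos
    by_contra hcon
    push Not at hcon
    nlinarith

theorem Ep_le {q : ℕ} (w : List ℕ) (x : ℤ) (h : Vd q w x) :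
    (q : ℤ) ^ w.length * Ep q w x ≤ 2 ^ w.sum * x := by
  rw [Ep_spec h]
  have : (0 : ℤ) ≤ (Wq q w : ℤ) := by positivity
  linarith

theorem Ep_inj {q : ℕ} (hq : q.Prime) (hq2 : q ≠ 2) {u v : List ℕ} (hu : ∀ e ∈ u, 1 ≤ e)
    (hv : ∀ e ∈ v, 1 ≤ e) (hl : u.length = v.length) (hs : u.sum = v.sum) {x : ℤ}
    (h1 : Vd q u x) (h2 : Vd q v x) (h : Ep q u x = Ep q v x) : u = v := by
  apply Wq_inj (hq.odd_of_ne_two hq2) hu hv hl hs
  have e1 := Ep_spec h1
  have e2 := Ep_spec h2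
  rw [h, hl, e2, hs] at e1
  have : (Wq q u : ℤ) = Wq q v := by linarith
  exact_mod_cast this

open scoped Classical in
/-- counting preimages: for a positive root `x` prime to `q` there are at least `Nq` integers
`m ≥ 1` prime to `q` with `T^s(m) = x` and `q^n m ≤ 2^s x` -/
theorem Nq_le_card {q : ℕ} (hq : q.Prime) (hq2 : q ≠ 2) (E n s : ℕ) (x : ℕ) (hx : 0 < x) :
    Nq q E n s (x : ℤ) ≤ {m : ℕ | 0 < m ∧ ¬ q ∣ m ∧ (TN q)^[s] m = x ∧ q ^ n * m ≤ 2 ^ s * x}.ncard := by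
  unfold Nq
  have hfin : {m : ℕ | 0 < m ∧ ¬ q ∣ m ∧ (TN q)^[s] m = x ∧ q ^ n * m ≤ 2 ^ s * x}.Finite := by
    apply Set.Finite.subset (Set.finite_le_nat (2 ^ s * x))
    rintro m ⟨-, -, -, hm⟩
    have : 1 ≤ q ^ n := Nat.one_le_pow _ _ hq.pos
    simp only [Set.mem_ofPred_eq]
    nlinarith
  rw [← Set.ncard_coe_finset]
  apply Set.ncard_le_ncard_of_injOn (fun w => (Ep q w (x : ℤ)).toNat) _ _ hfin
  · intro w hw
    simp only [coe_filter, Set.mem_ofPred_eq] at hw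
    obtain ⟨hw, hs, hv, hl⟩ := hw
    have hp := Ep_pos hq hq2 w (FW_pos hw) x (by exact_mod_cast hx) hv
    have e : (((Ep q w (x : ℤ)).toNat : ℕ) : ℤ) = Ep q w (x : ℤ) := Int.toNat_of_nonneg hp.le
    refine ⟨by omega, ?_, ?_, ?_⟩
    · intro hd
      apply hl
      rw [← e]
      exact_mod_cast hd
    · have := iter_Ep hq hq2 w (FW_pos hw) x hv
      rw [← e, TZ_iter_cast, hs] at this
      exact_mod_cast this
    · have := Ep_le w x hv
      rw [← e, hs, FW_len hw] at this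
      exact_mod_cast this
  · intro u hu v hv h
    simp only [coe_filter, Set.mem_ofPred_eq] at hu hv
    simp only at h
    have hpu := Ep_pos hq hq2 u (FW_pos hu.1) x (by exact_mod_cast hx) hu.2.2.1
    have hpv := Ep_pos hq hq2 v (FW_pos hv.1) x (by exact_mod_cast hx) hv.2.2.1
    apply Ep_inj hq hq2 (FW_pos hu.1) (FW_pos hv.1) (by rw [FW_len hu.1, FW_len hv.1])
      (by rw [hu.2.1, hv.2.1]) hu.2.2.1 hv.2.2.1
    omega

open scoped Classical in
/-- the same over the integers (any root prime to `q`), without the size bound -/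
theorem Nq_le_card_int {q : ℕ} (hq : q.Prime) (hq2 : q ≠ 2) (E n s : ℕ) (x : ℤ)
    (hfin : {m : ℤ | (TZ q)^[s] m = x}.Finite) :
    Nq q E n s x ≤ {m : ℤ | (TZ q)^[s] m = x ∧ ¬ (q : ℤ) ∣ m}.ncard := by
  unfold Nq
  rw [← Set.ncard_coe_finset]
  apply Set.ncard_le_ncard_of_injOn (fun w => Ep q w x) _ _ (hfin.subset (fun m hm => hm.1))
  · intro w hw
    simp only [coe_filter, Set.mem_ofPred_eq] at hw
    obtain ⟨hw, hs, hv, hl⟩ := hw
    have := iter_Ep hq hq2 w (FW_pos hw) x hv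
    rw [hs] at this
    exact ⟨this, hl⟩
  · intro u hu v hv h
    simp only [coe_filter, Set.mem_ofPred_eq] at hu hv
    exact Ep_inj hq hq2 (FW_pos hu.1) (FW_pos hv.1) (by rw [FW_len hu.1, FW_len hv.1])
      (by rw [hu.2.1, hv.2.1]) hu.2.2.1 hv.2.2.1 h

end App

end Pool.Agent.H422R2.QA
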