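import Pool.Agent.H422R2.QA.QADefs
import Pool.Agent.H320R2.PDWords
import Pool.Agent.H412R2.Tree
import Pool.Agent.H422R2.QA.QAWords

/-! Task K1 (KER): connecting words and the kernel of the live words. -/

set_option autoImplicit false

namespace Pool.Agent.H422R2.QA
open Finset Pool.Agent.H320R2.PD Pool.Agent.H412R2

/-! ### connecting words -/

/-- offset (mod `q^4`) of a word of three letters `a, b, c` -/
def f3 (q : ℕ) (p : ℕ × ℕ) : ℕ := (2 ^ (p.1 + p.2) + q * 2 ^ p.2 + q ^ 2) % q ^ 4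

theorem conn_of_list {q C E : ℕ} (hq : q.Prime) (hq2 : q ≠ 2) (hCE : C ≤ E) (L : List (ℕ × ℕ))
    (h1 : L.map (f3 q) = (List.range (q ^ 4)).filter (fun t => t % q != 0))
    (h2 : L.all (fun p => decide (1 ≤ p.1 ∧ 1 ≤ p.2 ∧ p.1 + p.2 < C)) = true) :
    Conn q E 3 C := by
  intro y d hy hd
  have hq0 : (0 : ℤ) < q := by exact_mod_cast hq.pos
  have hqZ : Prime (q : ℤ) := Nat.prime_iff_prime_int.1 hq
  set u : ℤ := 2 ^ C * y - d * (q : ℤ) ^ 3 with hu
  have hq4 : (0 : ℤ) < (q : ℤ) ^ 4 := by positivity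
  set t : ℕ := (u % (q : ℤ) ^ 4).toNat with ht
  have htZ : (t : ℤ) = u % (q : ℤ) ^ 4 := by
    rw [ht, Int.toNat_of_nonneg (Int.emod_nonneg _ hq4.ne')]
  have htlt : t < q ^ 4 := by
    have : (t : ℤ) < (q : ℤ) ^ 4 := by rw [htZ]; exact Int.emod_lt_of_pos _ hq4
    exact_mod_cast this
  have hdvd4 : (q : ℤ) ^ 4 ∣ u - t := by
    rw [htZ]
    exact Int.dvd_self_sub_emod
  have h2q : ¬ (q : ℤ) ∣ 2 ^ C := by
    intro h
    have h3 := hqZ.dvd_of_dvd_pow h
    have h4 : q ∣ 2 := by exact_mod_cast h3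
    exact hq2 ((Nat.prime_dvd_prime_iff_eq hq Nat.prime_two).1 h4)
  have htq : t % q ≠ 0 := by
    intro h
    have h3 : (q : ℤ) ∣ t := by exact_mod_cast Nat.dvd_of_mod_eq_zero h
    have h4 : (q : ℤ) ∣ u - t := dvd_trans (dvd_pow_self _ (by norm_num)) hdvd4
    have h5 : (q : ℤ) ∣ u := by
      have := dvd_add h4 h3
      simpa using this
    have h6 : (q : ℤ) ∣ 2 ^ C * y := by
      have h7 : (q : ℤ) ∣ d * (q : ℤ) ^ 3 := Dvd.dvd.mul_left (dvd_pow_self _ (by norm_num)) _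
      have := dvd_add h5 h7
      rw [hu] at this
      simpa using this
    rcases hqZ.dvd_or_dvd h6 with h7 | h7
    · exact h2q h7
    · exact hy h7
  have hmem : t ∈ L.map (f3 q) := by
    rw [h1, List.mem_filter]
    exact ⟨List.mem_range.2 htlt, by simpa using htq⟩
  obtain ⟨⟨b, c⟩, hp, hpt⟩ := List.mem_map.1 hmem
  have h3 := (List.all_eq_true.1 h2) _ hp
  rw [decide_eq_true_iff] at h3
  obtain ⟨hb, hc, hbc⟩ := h3
  simp only at hb hc hbc
  have hW : Wq q [C - b - c, b, c] = 2 ^ (b + c) + q * 2 ^ c + q ^ 2 := by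
    simp only [Wq, List.sum_cons, List.sum_nil]
    ring
  have hsum : [C - b - c, b, c].sum = C := by
    simp only [List.sum_cons, List.sum_nil]
    omega
  have hlen : [C - b - c, b, c].length = 3 := rfl
  -- the key congruence
  have hWt : (q : ℤ) ^ 4 ∣ (Wq q [C - b - c, b, c] : ℤ) - t := by
    have h4 : (t : ℤ) = ((Wq q [C - b - c, b, c] % q ^ 4 : ℕ) : ℤ) := by
      rw [hW]
      unfold f3 at hpt
      rw [← hpt]
    rw [h4]
    push_cast
    exact Int.dvd_self_sub_emod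
  have hfin : (q : ℤ) ^ 4 ∣ 2 ^ C * y - Wq q [C - b - c, b, c] - d * (q : ℤ) ^ 3 := by
    have := dvd_sub hdvd4 hWt
    have e : u - t - ((Wq q [C - b - c, b, c] : ℤ) - t) =
        2 ^ C * y - Wq q [C - b - c, b, c] - d * (q : ℤ) ^ 3 := by rw [hu]; ring
    rwa [e] at this
  obtain ⟨r, hr⟩ := hfin
  have hval : 2 ^ C * y - (Wq q [C - b - c, b, c] : ℤ) = (q : ℤ) ^ 3 * (d + q * r) := by
    have : 2 ^ C * y - (Wq q [C - b - c, b, c] : ℤ) =
      (2 ^ C * y - Wq q [C - b - c, b, c] - d * (q : ℤ) ^ 3) + d * (q : ℤ) ^ 3 := by ring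
    rw [this, hr]; ring
  have hEp : Ep q [C - b - c, b, c] y = d + q * r := by
    unfold Ep
    rw [hsum, hlen, hval]
    exact Int.mul_ediv_cancel_left _ (by positivity)
  refine ⟨[C - b - c, b, c], ?_, hsum, ⟨?_, ?_⟩, ?_⟩
  · rw [mem_FW]
    refine ⟨hlen, ?_⟩
    intro e he
    simp only [List.mem_cons, List.not_mem_nil, or_false] at he
    omega
  · unfold Vd
    rw [hsum, hlen, hval]
    exact Dvd.intro _ rfl
  · rw [hEp]
    intro h
    apply hd
    have := dvd_sub h (Dvd.intro r rfl : (q : ℤ) ∣ q * r)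
    simpa using this
  · rw [hEp]
    exact ⟨r, by ring⟩

theorem conn_three {E : ℕ} (hE : 16 ≤ E) : Conn 3 E 3 16 :=
  conn_of_list Nat.prime_three (by norm_num) hE
    [(1,7), (5,4), (4,2), (1,6), (1,5), (1,4), (4,6), (4,7), (4,8), (2,7), (3,3), (4,9), (1,1),
     (11,4), (8,4), (2,1), (4,10), (1,10), (5,9), (1,2), (3,1), (8,7), (5,7), (8,5), (2,2),
     (1,14), (2,4), (4,11), (1,11), (9,2), (5,3), (4,1), (1,3), (4,5), (2,6), (3,2), (11,3),
     (8,3), (1,9), (5,8), (8,6), (5,6), (1,13), (2,3), (9,1), (5,2), (4,4), (2,5), (8,2), (1,8),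
     (5,5), (1,12), (5,1), (4,3)]
    (by decide +kernel) (by decide +kernel)

theorem conn_five {E : ℕ} (hE : 54 ≤ E) : Conn 5 E 3 54 :=
  conn_of_list Nat.prime_five (by norm_num) hE
    [(5,31), (3,42), (2,13), (5,13), (3,29), (12,5), (7,20), (2,40), (2,22), (8,13), (5,30), (2,12),
     (12,4), (2,39), (2,21), (5,29), (2,38), (5,28), (2,37), (2,36), (1,15), (1,16), (4,15), (1,17),
     (4,16), (12,25), (1,18), (18,4), (12,16), (4,17), (4,47), (1,1), (1,19), (3,34), (2,1), (7,15),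
     (9,19), (12,17), (7,28), (4,18), (3,1), (14,35), (1,2), (3,23), (6,10), (1,20), (6,45), (3,35),
     (2,2), (19,34), (7,16), (2,32), (6,6), (4,1), (30,13), (12,18), (7,29), (4,5), (4,19), (12,10),
     (11,13), (3,2), (5,38), (14,36), (1,3), (1,40), (3,24), (4,42), (33,19), (6,11), (30,17),
     (1,21), (6,46), (1,28), (3,36), (20,10), (11,5), (2,3), (11,24), (5,1), (7,17), (12,1), (2,33),
     (12,22), (7,25), (6,7), (2,29), (4,2), (30,14), (11,2), (12,19), (15,35), (4,32), (7,30),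
     (3,16), (4,6), (4,20), (5,8), (12,11), (30,8), (6,22), (11,14), (4,35), (3,3), (5,39), (6,27),
     (14,37), (6,16), (7,33), (1,4), (2,45), (1,41), (3,25), (5,24), (4,43), (3,19), (33,15),
     (33,20), (3,12), (6,12), (30,18), (4,9), (1,22), (11,35), (11,41), (6,47), (8,27), (1,29),
     (3,37), (21,4), (6,1), (11,19), (30,22), (11,6), (4,23), (2,4), (11,25), (6,39), (5,2), (7,7),
     (5,11), (7,18), (8,11), (12,2), (2,34), (4,13), (12,23), (12,14), (7,13), (7,26), (14,33),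
     (6,8), (2,30), (30,11), (4,3), (11,11), (4,40), (30,15), (1,26), (11,3), (12,20), (2,27),
     (15,36), (4,30), (3,49), (4,33), (6,25), (7,31), (3,17), (3,10), (4,7), (11,39), (11,17),
     (4,21), (6,37), (5,9), (12,12), (14,31), (30,9), (4,38), (4,28), (6,23), (3,8), (11,15), (4,36),
     (3,6), (3,4), (8,18), (8,20), (5,40), (8,3), (6,28), (14,38), (1,48), (6,17), (8,22), (14,26),
     (7,34), (5,42), (1,5), (2,46), (8,5), (1,42), (7,39), (6,30), (3,26), (2,9), (5,25), (4,44),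
     (9,16), (3,20), (19,31), (5,35), (33,16), (1,50), (40,10), (3,13), (6,19), (6,13), (5,21),
     (8,24), (30,19), (7,4), (4,10), (1,23), (3,46), (11,36), (14,28), (5,47), (11,42), (7,36),
     (9,13), (7,1), (5,44), (1,30), (1,33), (1,7), (3,38), (2,17), (21,5), (6,2), (1,36), (11,20),
     (2,48), (7,45), (30,23), (8,7), (11,7), (4,24), (1,44), (2,5), (5,17), (7,41), (11,26), (1,10),
     (6,40), (5,3), (11,30), (7,8), (6,32), (3,41), (5,12), (3,28), (7,19), (8,12), (2,11), (12,3),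
     (2,20), (5,27), (2,35), (1,14), (4,14), (12,24), (18,3), (12,15), (4,46), (3,33), (7,14),
     (9,18), (7,27), (14,34), (3,22), (6,9), (6,44), (19,33), (2,31), (6,5), (30,12), (4,4), (12,9),
     (11,12), (5,37), (1,39), (4,41), (33,18), (30,16), (1,27), (1,52), (11,4), (11,23), (23,1),
     (12,21), (7,24), (2,28), (11,1), (2,51), (4,31), (3,15), (5,7), (3,50), (6,21), (4,34), (6,26),
     (6,15), (7,32), (2,44), (5,23), (3,18), (33,14), (3,11), (4,8), (11,34), (11,40), (8,26),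
     (21,3), (11,18), (30,21), (4,22), (6,38), (7,6), (5,10), (8,10), (4,12), (12,13), (7,12),
     (14,32), (30,10), (11,10), (4,39), (1,25), (2,26), (4,29), (3,48), (6,24), (3,9), (11,38),
     (11,16), (6,36), (14,30), (4,37), (4,27), (3,7), (3,5), (8,17), (8,19), (8,2), (1,47), (8,21),
     (14,25), (5,41), (8,4), (7,38), (6,29), (2,8), (9,15), (14,39), (5,34), (1,49), (6,18), (5,20),
     (8,23), (7,3), (3,45), (14,27), (5,46), (7,35), (5,43), (1,32), (1,6), (2,16), (1,35), (2,47),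
     (7,44), (8,6), (1,43), (5,16), (7,40), (1,9), (11,29), (6,31), (3,40), (3,27), (2,10), (2,19),
     (5,26), (1,13), (18,2), (4,45), (3,32), (9,17), (3,21), (6,43), (19,32), (6,4), (12,8), (5,36),
     (1,38), (33,17), (1,51), (11,22), (40,11), (7,23), (2,50), (3,14), (5,6), (6,20), (6,14),
     (2,43), (5,22), (33,13), (11,33), (8,25), (21,2), (30,20), (7,5), (8,9), (4,11), (7,11), (11,9),
     (1,24), (2,25), (3,47), (11,37), (6,35), (14,29), (4,26), (8,16), (5,48), (1,46), (14,24),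
     (7,37), (2,7), (9,14), (5,33), (5,19), (7,2), (3,44), (5,45), (1,31), (2,15), (1,34), (7,43),
     (5,15), (1,8), (11,28), (3,39), (2,18), (1,12), (18,1), (3,31), (6,42), (6,3), (12,7), (1,37),
     (11,21), (7,22), (2,49), (5,5), (2,42), (7,46), (11,32), (21,1), (8,8), (7,10), (11,8), (2,24),
     (6,34), (4,25), (8,15), (1,45), (2,6), (5,32), (5,18), (3,43), (2,14), (7,42), (5,14), (11,27),
     (1,11), (3,30), (6,41), (12,6), (7,21), (5,4), (2,41), (11,31), (7,9), (2,23), (6,33), (8,14)]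
    (by decide +kernel) (by decide +kernel)

/-! ### the kernel -/

open scoped Classical in
/-- chosen connecting word at `y` towards `d` -/
noncomputable def cw (q E m C : ℕ) (y d : ℤ) : List ℕ :=
  if h : ∃ w ∈ FW E m, w.sum = C ∧ Lv q w y ∧ (q : ℤ) ∣ Ep q w y - d then h.choose else []

/-- chosen connecting word, depending only on `y mod q^(m+1)` -/
noncomputable def vw (q E m C : ℕ) (y d : ℤ) : List ℕ := cw q E m C (y % (q : ℤ) ^ (m + 1)) d

theorem vw_spec {q : ℕ} (hq : q.Prime) {E m C : ℕ} (hC : Conn q E m C) {y d : ℤ}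
    (hy : ¬ (q : ℤ) ∣ y) (hd : ¬ (q : ℤ) ∣ d) :
    vw q E m C y d ∈ FW E m ∧ (vw q E m C y d).sum = C ∧ Lv q (vw q E m C y d) y ∧
      (q : ℤ) ∣ Ep q (vw q E m C y d) y - d := by
  have hq0 : 0 < q := hq.pos
  set M : ℤ := (q : ℤ) ^ (m + 1) with hM
  have hqM : (q : ℤ) ∣ M := dvd_pow_self _ (by omega)
  have hdm := Int.emod_add_mul_ediv y M
  have hyM : ¬ (q : ℤ) ∣ y % M := by
    intro h
    apply hy
    rw [← hdm]
    exact dvd_add h (Dvd.dvd.mul_right hqM _)
  have hex := hC (y % M) d hyM hd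
  have hdef : vw q E m C y d = hex.choose := by
    unfold vw cw
    rw [dif_pos hex]
  obtain ⟨h1, h2, h3, h4⟩ := hex.choose_spec
  rw [← hdef] at h1 h2 h3 h4
  set w := vw q E m C y d with hw
  have hlen : w.length = m := (mem_FW.1 h1).1
  have hL := Lv_shift hq0 w (y % M) (y / M)
  rw [hlen, ← hM, hdm] at hL
  have hE := Ep_shift hq0 w (y % M) (q * (y / M))
  have he : y % M + (q : ℤ) ^ w.length * (q * (y / M)) = y := by
    rw [hlen]
    have : (q : ℤ) ^ m * (q * (y / M)) = M * (y / M) := by rw [hM, pow_succ]; ring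
    rw [this, hdm]
  rw [he] at hE
  refine ⟨h1, h2, hL.2 h3, ?_⟩
  rw [hE]
  have : Ep q w (y % M) + 2 ^ w.sum * (q * (y / M)) - d =
      (Ep q w (y % M) - d) + q * (2 ^ w.sum * (y / M)) := by ring
  rw [this]
  exact dvd_add h4 (Dvd.intro _ rfl)

theorem vw_shift (q E m C : ℕ) (y d t : ℤ) :
    vw q E m C (y + (q : ℤ) ^ (m + 1) * t) d = vw q E m C y d := by
  unfold vw
  rw [Int.add_mul_emod_self_left]

open scoped Classical in
/-- live words of length `n` and size `S x` -/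
noncomputable def Ws (q E n : ℕ) (S : ℤ → ℕ) (x : ℤ) : Finset (List ℕ) :=
  (FW E n).filter (fun w => w.sum = S x ∧ Lv q w x)

open scoped Classical in
theorem mem_Ws {q E n : ℕ} {S : ℤ → ℕ} {x : ℤ} {w : List ℕ} :
    w ∈ Ws q E n S x ↔ w ∈ FW E n ∧ w.sum = S x ∧ Lv q w x := by
  unfold Ws
  exact Finset.mem_filter

/-- word with its connecting word -/
noncomputable def uw (q E m C : ℕ) (x : ℤ) (w : List ℕ) (d : ℤ) : List ℕ :=
  w ++ vw q E m C (Ep q w x) d

/-- children of `x` -/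
noncomputable def Kf (q E n m C : ℕ) (S : ℤ → ℕ) (x : ℤ) : Finset ℤ :=
  (Ws q E n S x ×ˢ Finset.Icc 1 (q - 1)).image (fun p => Ep q (uw q E m C x p.1 (p.2 : ℤ)) x)

theorem unit_of_Icc {q : ℕ} (hq : q.Prime) {d : ℕ} (hd : d ∈ Finset.Icc 1 (q - 1)) :
    ¬ (q : ℤ) ∣ (d : ℤ) := by
  rw [Finset.mem_Icc] at hd
  intro h
  have h1 : q ∣ d := by exact_mod_cast h
  have h2 := Nat.le_of_dvd (by omega) h1
  have := hq.two_le
  omega

theorem uw_spec {q : ℕ} (hq : q.Prime) (hq2 : q ≠ 2) {E n m C : ℕ} (hC : Conn q E m C)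
    {S : ℤ → ℕ} {x : ℤ} {w : List ℕ} (hw : w ∈ Ws q E n S x) {d : ℤ} (hd : ¬ (q : ℤ) ∣ d) :
    uw q E m C x w d ∈ FW E (n + m) ∧ (uw q E m C x w d).sum = S x + C ∧
      Vd q (uw q E m C x w d) x ∧ (q : ℤ) ∣ Ep q (uw q E m C x w d) x - d ∧
      ¬ (q : ℤ) ∣ Ep q (uw q E m C x w d) x := by
  obtain ⟨hw1, hw2, hw3⟩ := mem_Ws.1 hw
  obtain ⟨h1, h2, h3, h4⟩ := vw_spec hq hC hw3.2 hd
  have hEp : Ep q (uw q E m C x w d) x = Ep q (vw q E m C (Ep q w x) d) (Ep q w x) :=
    Ep_append hq hq2 hw3.1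
  refine ⟨?_, ?_, ?_, ?_, ?_⟩
  · rw [mem_FW] at hw1 h1 ⊢
    unfold uw
    refine ⟨by rw [List.length_append, hw1.1, h1.1], ?_⟩
    intro e he
    rcases List.mem_append.1 he with h | h
    · exact hw1.2 e h
    · exact h1.2 e h
  · unfold uw
    rw [List.sum_append, hw2, h2]
  · exact (Vd_append hq hq2 _ _ _).2 ⟨hw3.1, h3.1⟩
  · rw [hEp]; exact h4
  · rw [hEp]; exact h3.2

theorem uw_inj {q : ℕ} (hq : q.Prime) (hq2 : q ≠ 2) {E n m C : ℕ} (hC : Conn q E m C)
    {S : ℤ → ℕ} {x : ℤ} {w w' : List ℕ} (hw : w ∈ Ws q E n S x) (hw' : w' ∈ Ws q E n S x)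
    {d d' : ℤ} (hd : ¬ (q : ℤ) ∣ d) (hd' : ¬ (q : ℤ) ∣ d')
    (h : Ep q (uw q E m C x w d) x = Ep q (uw q E m C x w' d') x) : w = w' := by
  obtain ⟨a1, a2, a3, a4, a5⟩ := uw_spec hq hq2 hC hw hd
  obtain ⟨b1, b2, b3, b4, b5⟩ := uw_spec hq hq2 hC hw' hd'
  have hqodd : Odd q := hq.odd_of_ne_two hq2
  have e1 := Ep_spec a3
  have e2 := Ep_spec b3
  have l1 := (mem_FW.1 a1)
  have l2 := (mem_FW.1 b1)
  have hWq : Wq q (uw q E m C x w d) = Wq q (uw q E m C x w' d') := by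
    rw [l1.1, a2, h] at e1
    rw [l2.1, b2] at e2
    have : (Wq q (uw q E m C x w d) : ℤ) = Wq q (uw q E m C x w' d') := by linarith
    exact_mod_cast this
  have hu := Wq_inj hqodd (fun e he => (l1.2 e he).1) (fun e he => (l2.2 e he).1)
    (by rw [l1.1, l2.1]) (by rw [a2, b2]) hWq
  unfold uw at hu
  have hl : w.length = w'.length := by
    rw [(mem_FW.1 (mem_Ws.1 hw).1).1, (mem_FW.1 (mem_Ws.1 hw').1).1]
  exact (List.append_inj hu hl).1

theorem mem_Kf_unit {q : ℕ} (hq : q.Prime) (hq2 : q ≠ 2) {E n m C : ℕ} (hC : Conn q E m C)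
    {S : ℤ → ℕ} {x b : ℤ} (hb : b ∈ Kf q E n m C S x) : ¬ (q : ℤ) ∣ b := by
  unfold Kf at hb
  rw [Finset.mem_image] at hb
  obtain ⟨⟨w, d⟩, hp, rfl⟩ := hb
  rw [Finset.mem_product] at hp
  exact (uw_spec hq hq2 hC hp.1 (unit_of_Icc hq hp.2)).2.2.2.2

theorem Kf_tr {q : ℕ} (hq : q.Prime) (hq2 : q ≠ 2) {E n m C : ℕ} (hC : Conn q E m C)
    {S : ℤ → ℕ} {x b : ℤ} (hb : b ∈ Kf q E n m C S x) : b ∈ tr q E (n + m) (S x + C) x := by
  unfold Kf at hb
  rw [Finset.mem_image] at hb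
  obtain ⟨⟨w, d⟩, hp, rfl⟩ := hb
  rw [Finset.mem_product] at hp
  obtain ⟨a1, a2, a3, a4, a5⟩ := uw_spec hq hq2 hC hp.1 (unit_of_Icc hq hp.2)
  rw [mem_tr_iff hq hq2]
  exact ⟨_, a1, a2, a3, rfl⟩

theorem Kf_card {q : ℕ} (hq : q.Prime) (hq2 : q ≠ 2) {E n m C : ℕ} (hC : Conn q E m C)
    {S : ℤ → ℕ} (x : ℤ) :
    (Kf q E n m C S x).card = (q - 1) * (Ws q E n S x).card := by
  unfold Kf
  rw [Finset.card_image_of_injOn, Finset.card_product, Nat.card_Icc]
  · have := hq.two_le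
    rw [show q - 1 + 1 - 1 = q - 1 by omega]
    ring
  · rintro ⟨w, d⟩ hp ⟨w', d'⟩ hp' h
    rw [Finset.mem_coe, Finset.mem_product] at hp hp'
    simp only at h
    have hd := unit_of_Icc hq hp.2
    have hd' := unit_of_Icc hq hp'.2
    have h1 := uw_inj hq hq2 hC hp.1 hp'.1 hd hd' h
    have a4 := (uw_spec hq hq2 hC hp.1 hd).2.2.2.1
    have b4 := (uw_spec hq hq2 hC hp'.1 hd').2.2.2.1
    simp only at a4 b4
    rw [h] at a4
    have h2 : (q : ℤ) ∣ (d : ℤ) - d' := by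
      have := dvd_sub b4 a4
      have e : Ep q (uw q E m C x w' (d' : ℤ)) x - (d' : ℤ) -
        (Ep q (uw q E m C x w' (d' : ℤ)) x - (d : ℤ)) = (d : ℤ) - d' := by ring
      rwa [e] at this
    have hd1 := Finset.mem_Icc.1 hp.2
    have hd1' := Finset.mem_Icc.1 hp'.2
    simp only at hd1 hd1'
    have h3 : (d : ℤ) - d' = 0 := by
      apply Int.eq_zero_of_abs_lt_dvd h2
      rw [abs_lt]
      have := hq.two_le
      constructor <;> omega
    have h4 : d = d' := by omega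
    exact Prod.ext h1 h4

open scoped Classical in
theorem Kf_class {q : ℕ} (hq : q.Prime) (hq2 : q ≠ 2) {E n m C : ℕ} (hC : Conn q E m C)
    {S : ℤ → ℕ} (x : ℤ) {d : ℤ} (hd : ¬ (q : ℤ) ∣ d) :
    ((Kf q E n m C S x).filter (fun b => (q : ℤ) ∣ b - d)).card = (Ws q E n S x).card := by
  have hq0 : (0 : ℤ) < q := by exact_mod_cast hq.pos
  set d₀ : ℕ := (d % q).toNat with hd₀
  have hd₀Z : (d₀ : ℤ) = d % q := by rw [hd₀, Int.toNat_of_nonneg (Int.emod_nonneg _ hq0.ne')]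
  have hlt : d₀ < q := by
    have : (d₀ : ℤ) < q := by rw [hd₀Z]; exact Int.emod_lt_of_pos _ hq0
    exact_mod_cast this
  have hd₀d : (q : ℤ) ∣ d - d₀ := by rw [hd₀Z]; exact Int.dvd_self_sub_emod
  have hpos : 1 ≤ d₀ := by
    by_contra hc
    have : d₀ = 0 := by omega
    rw [this] at hd₀d
    simp at hd₀d
    exact hd hd₀d
  have hmem : d₀ ∈ Finset.Icc 1 (q - 1) := Finset.mem_Icc.2 ⟨hpos, by omega⟩
  have hunit := unit_of_Icc hq hmem
  have himg : (Kf q E n m C S x).filter (fun b => (q : ℤ) ∣ b - d) =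
      (Ws q E n S x).image (fun w => Ep q (uw q E m C x w (d₀ : ℤ)) x) := by
    ext b
    rw [Finset.mem_filter, Finset.mem_image]
    constructor
    · rintro ⟨hb, hbd⟩
      unfold Kf at hb
      rw [Finset.mem_image] at hb
      obtain ⟨⟨w, d'⟩, hp, rfl⟩ := hb
      rw [Finset.mem_product] at hp
      simp only at hp hbd ⊢
      have a4 := (uw_spec hq hq2 hC hp.1 (unit_of_Icc hq hp.2)).2.2.2.1
      have h2 : (q : ℤ) ∣ (d' : ℤ) - d₀ := by
        have := dvd_sub (dvd_add hbd hd₀d) a4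
        have e : Ep q (uw q E m C x w (d' : ℤ)) x - d + (d - (d₀ : ℤ)) -
          (Ep q (uw q E m C x w (d' : ℤ)) x - (d' : ℤ)) = (d' : ℤ) - d₀ := by ring
        rwa [e] at this
      have hd1 := Finset.mem_Icc.1 hp.2
      have h3 : (d' : ℤ) - d₀ = 0 := by
        apply Int.eq_zero_of_abs_lt_dvd h2
        rw [abs_lt]
        have := hq.two_le
        constructor <;> omega
      have h4 : d' = d₀ := by omega
      exact ⟨w, hp.1, by rw [h4]⟩
    · rintro ⟨w, hw, rfl⟩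
      have a4 := (uw_spec hq hq2 hC hw hunit).2.2.2.1
      refine ⟨?_, ?_⟩
      · unfold Kf
        rw [Finset.mem_image]
        exact ⟨(w, d₀), Finset.mem_product.2 ⟨hw, hmem⟩, rfl⟩
      · have := dvd_sub a4 hd₀d
        have e : Ep q (uw q E m C x w (d₀ : ℤ)) x - (d₀ : ℤ) - (d - (d₀ : ℤ)) =
          Ep q (uw q E m C x w (d₀ : ℤ)) x - d := by ring
        rwa [e] at this
  rw [himg, Finset.card_image_of_injOn]
  intro w hw w' hw' h
  exact uw_inj hq hq2 hC hw hw' hunit hunit h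

theorem Ws_shift {q : ℕ} (hq : q.Prime) {E n m : ℕ} {S : ℤ → ℕ}
    (hS : ∀ x y : ℤ, ¬ (q : ℤ) ∣ x → S (x + (q : ℤ) ^ (n + 1) * y) = S x) {x : ℤ}
    (hx : ¬ (q : ℤ) ∣ x) (y : ℤ) :
    Ws q E n S (x + (q : ℤ) ^ (n + m + 1) * y) = Ws q E n S x := by
  have e : x + (q : ℤ) ^ (n + m + 1) * y = x + (q : ℤ) ^ (n + 1) * ((q : ℤ) ^ m * y) := by
    rw [← mul_assoc, ← pow_add]; congr 3; ring
  ext w
  rw [mem_Ws, mem_Ws]
  constructor
  · rintro ⟨h1, h2, h3⟩
    rw [e, hS x _ hx] at h2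
    have hlen := (mem_FW.1 h1).1
    rw [e, ← hlen] at h3
    exact ⟨h1, h2, (Lv_shift hq.pos w x _).1 h3⟩
  · rintro ⟨h1, h2, h3⟩
    have hlen := (mem_FW.1 h1).1
    refine ⟨h1, ?_, ?_⟩
    · rw [e, hS x _ hx]; exact h2
    · rw [e, ← hlen]
      exact (Lv_shift hq.pos w x _).2 h3

theorem uw_shift {q : ℕ} (hq : q.Prime) (hq2 : q ≠ 2) {E n m C : ℕ} (hC : Conn q E m C)
    {S : ℤ → ℕ} {x : ℤ} {w : List ℕ} (hw : w ∈ Ws q E n S x) {d : ℤ} (hd : ¬ (q : ℤ) ∣ d) (y : ℤ) :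
    Ep q (uw q E m C (x + (q : ℤ) ^ (n + m + 1) * y) w d) (x + (q : ℤ) ^ (n + m + 1) * y) =
      Ep q (uw q E m C x w d) x + 2 ^ (S x + C) * (q * y) := by
  obtain ⟨a1, a2, a3, a4, a5⟩ := uw_spec hq hq2 hC hw hd
  have hw' := mem_Ws.1 hw
  have hlen := (mem_FW.1 hw'.1).1
  have e1 : x + (q : ℤ) ^ (n + m + 1) * y = x + (q : ℤ) ^ w.length * ((q : ℤ) ^ (m + 1) * y) := by
    rw [hlen, ← mul_assoc, ← pow_add]; congr 3
  have huw : uw q E m C (x + (q : ℤ) ^ (n + m + 1) * y) w d = uw q E m C x w d := by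
    unfold uw
    congr 1
    rw [e1, Ep_shift hq.pos]
    have e2 : Ep q w x + 2 ^ w.sum * ((q : ℤ) ^ (m + 1) * y) =
        Ep q w x + (q : ℤ) ^ (m + 1) * (2 ^ w.sum * y) := by ring
    rw [e2, vw_shift]
  rw [huw]
  have hl2 := (mem_FW.1 a1).1
  have e3 : x + (q : ℤ) ^ (n + m + 1) * y =
      x + (q : ℤ) ^ (uw q E m C x w d).length * (q * y) := by
    rw [hl2, ← mul_assoc, ← pow_succ]
  rw [e3, Ep_shift hq.pos, a2]

theorem path_units {q : ℕ} (hq : q.Prime) (hq2 : q ≠ 2) {E n m C : ℕ} (hC : Conn q E m C)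
    {S S' : ℤ → ℕ} (hS' : ∀ x : ℤ, ¬ (q : ℤ) ∣ x → S' x = S x + C) {j s : ℕ} {x z : ℤ}
    (hx : ¬ (q : ℤ) ∣ x) (h : Path S' (Kf q E n m C S) j s x z) :
    z ∈ tr q E ((n + m) * j) s x := by
  induction h with
  | refl x => rw [Nat.mul_zero, mem_tr_zero]; exact ⟨rfl, rfl⟩
  | step hb _ ih =>
    rename_i j s x b z _
    have h1 := Kf_tr hq hq2 hC hb
    rw [← hS' x hx] at h1
    have h2 := tr_comp hq.pos h1 (ih (mem_Kf_unit hq hq2 hC hb))
    have e1 : n + m + (n + m) * j = (n + m) * (j + 1) := by ring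
    have e2 : S' x + s = s + S' x := by ring
    rw [e1, e2] at h2
    exact h2

theorem path_size {S' : ℤ → ℕ} {K : ℤ → Finset ℤ} {B : ℕ} (hB : ∀ x, S' x ≤ B) {j s : ℕ} {x z : ℤ}
    (h : Path S' K j s x z) : s ≤ B * j := by
  induction h with
  | refl x => simp
  | step _ _ ih =>
    rename_i j s x b z _ _
    have := hB x
    have e : B * (j + 1) = B * j + B := by ring
    omega

open scoped Classical in
/-- the kernel: all live words of length `n` and size `S x`, followed by a connecting word to each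
of the `q-1` classes -/
theorem exists_kernel {q : ℕ} (hq : q.Prime) (hq2 : q ≠ 2) {E m C : ℕ} (hC : Conn q E m C) {n : ℕ}
    (hn : 1 ≤ n) (S : ℤ → ℕ)
    (hS : ∀ x y : ℤ, ¬ (q : ℤ) ∣ x → S (x + (q : ℤ) ^ (n + 1) * y) = S x)
    (hN : ∀ x : ℤ, ¬ (q : ℤ) ∣ x → 1 ≤ Nq q E n (S x) x) :
    ∃ κ : Ker q (n + m), (∀ x : ℤ, ¬ (q : ℤ) ∣ x → κ.S x = S x + C) ∧
      (∀ x d : ℤ, ¬ (q : ℤ) ∣ x → ¬ (q : ℤ) ∣ d →
        ((κ.K x).filter (fun b => (q : ℤ) ∣ b - d)).card = Nq q E n (S x) x) ∧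
      (∀ x : ℤ, ¬ (q : ℤ) ∣ x → (κ.K x).card = (q - 1) * Nq q E n (S x) x) ∧
      ∀ x b : ℤ, ¬ (q : ℤ) ∣ x → b ∈ κ.K x → b ∈ tr q E (n + m) (κ.S x) x := by
  have hqodd : Odd q := hq.odd_of_ne_two hq2
  have h3 : 3 ≤ q := by
    have := hq.two_le
    omega
  have hWN : ∀ x : ℤ, (Ws q E n S x).card = Nq q E n (S x) x := fun x => rfl
  set S' : ℤ → ℕ := fun x => if (q : ℤ) ∣ x then 0 else S x + C with hS'def
  have hS' : ∀ x : ℤ, ¬ (q : ℤ) ∣ x → S' x = S x + C := fun x hx => by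
    simp only [hS'def, if_neg hx]
  have hmax : ∀ x : ℤ, S' x ≤ n * E + C := by
    intro x
    by_cases hx : (q : ℤ) ∣ x
    · simp only [hS'def, if_pos hx]; exact Nat.zero_le _
    · rw [hS' x hx]
      have h1 := hN x hx
      rw [← hWN] at h1
      obtain ⟨w, hw⟩ := Finset.card_pos.1 h1
      have h2 := (mem_Ws.1 hw)
      have := (sum_le_of_mem h2.1).2
      omega
  have hunit : ∀ x y : ℤ, ¬ (q : ℤ) ∣ x → ¬ (q : ℤ) ∣ x + (q : ℤ) ^ (n + m + 1) * y := by
    intro x y hx h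
    apply hx
    have h1 : (q : ℤ) ∣ (q : ℤ) ^ (n + m + 1) * y :=
      Dvd.dvd.mul_right (dvd_pow_self _ (by omega)) _
    have := dvd_sub h h1
    simpa using this
  let κ : Ker q (n + m) :=
    { S := S'
      K := Kf q E n m C S
      Smax := n * E + C
      D := n * E + C + 1
      hSmax := hmax
      hS := by
        intro x y hx
        rw [hS' x hx, hS' _ (hunit x y hx)]
        have e : x + (q : ℤ) ^ (n + m + 1) * y = x + (q : ℤ) ^ (n + 1) * ((q : ℤ) ^ m * y) := by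
          rw [← mul_assoc, ← pow_add]; congr 3; ring
        rw [e, hS x _ hx]
      hK := by
        intro x y b hx
        rw [hS' x hx]
        unfold Kf
        rw [Ws_shift hq hS hx, Finset.mem_image, Finset.mem_image]
        constructor
        · rintro ⟨⟨w, d⟩, hp, h⟩
          rw [Finset.mem_product] at hp
          simp only at h
          rw [uw_shift hq hq2 hC hp.1 (unit_of_Icc hq hp.2)] at h
          exact ⟨(w, d), Finset.mem_product.2 hp, by simpa using h⟩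
        · rintro ⟨⟨w, d⟩, hp, h⟩
          rw [Finset.mem_product] at hp
          refine ⟨(w, d), Finset.mem_product.2 hp, ?_⟩
          simp only at h ⊢
          rw [uw_shift hq hq2 hC hp.1 (unit_of_Icc hq hp.2), h]
      hcard := by
        intro x hx
        rw [Kf_card hq hq2 hC, hWN]
        have h1 := hN x hx
        calc 2 = 2 * 1 := rfl
          _ ≤ (q - 1) * Nq q E n (S x) x := Nat.mul_le_mul (by omega) h1
      hlive := fun x b _ hb => mem_Kf_unit hq hq2 hC hb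
      hsep := by
        intro j s x b b' z z' hx hb hb' h h' hz
        have h1 := Kf_tr hq hq2 hC hb
        have h1' := Kf_tr hq hq2 hC hb'
        have h2 := path_units hq hq2 hC hS' (mem_Kf_unit hq hq2 hC hb) h
        have h2' := path_units hq hq2 hC hS' (mem_Kf_unit hq hq2 hC hb') h'
        have h3 := tr_comp hq.pos h1 h2
        have h3' := tr_comp hq.pos h1' h2'
        have a1 := tr_off_nonneg hq.pos h3
        have a2 := tr_off_le hq.pos h3
        have a1' := tr_off_nonneg hq.pos h3'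
        have a2' := tr_off_le hq.pos h3'
        have hs : S x + C + s ≤ (n * E + C) * (j + 1) := by
          have e1 := hmax x
          rw [hS' x hx] at e1
          have e2 := path_size hmax h
          have e3 : (n * E + C) * (j + 1) = (n * E + C) * j + (n * E + C) := by ring
          omega
        have hzz : z = z' := by
          by_contra hne
          have hd : (q : ℤ) ^ ((n * E + C + 1) * (j + 1)) ∣ z' - z := (Int.modEq_iff_dvd).1 hz
          have hle : (q : ℤ) ^ ((n * E + C + 1) * (j + 1)) ≤ |z' - z| := by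
            apply Int.le_of_dvd
            · exact abs_pos.2 (sub_ne_zero.2 (Ne.symm hne))
            · exact (dvd_abs _ _).2 hd
          have hup : |z' - z| ≤ 2 ^ (S x + C + s) := by
            have hp : (0 : ℤ) < (q : ℤ) ^ (n + m + (n + m) * j) := by
              have : (0 : ℤ) < q := by exact_mod_cast hq.pos
              positivity
            rw [abs_le]
            constructor
            · nlinarith
            · nlinarith
          have h23 : (2 : ℤ) ^ (S x + C + s) < (q : ℤ) ^ ((n * E + C + 1) * (j + 1)) := by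
            have hq2' : (2 : ℤ) ≤ q := by exact_mod_cast hq.two_le
            calc (2 : ℤ) ^ (S x + C + s) < 2 ^ ((n * E + C + 1) * (j + 1)) := by
                  apply pow_lt_pow_right₀ (by norm_num)
                  have e : (n * E + C + 1) * (j + 1) = (n * E + C) * (j + 1) + (j + 1) := by ring
                  omega
              _ ≤ (q : ℤ) ^ ((n * E + C + 1) * (j + 1)) :=
                  pow_le_pow_left₀ (by norm_num) hq2' _
          omega
        subst hzz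
        exact tr_middle hqodd (by omega) h1 h2 h1' h2' }
  refine ⟨κ, fun x hx => hS' x hx, ?_, ?_, ?_⟩
  · intro x d _ hd
    rw [← hWN]
    exact Kf_class hq hq2 hC x hd
  · intro x _
    rw [← hWN]
    exact Kf_card hq hq2 hC x
  · intro x b hx hb
    have := Kf_tr hq hq2 hC hb
    show b ∈ tr q E (n + m) (S' x) x
    rw [hS' x hx]
    exact this

end Pool.Agent.H422R2.QA
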