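import Pool.Agent.H422R2.QA.QADefs
import Pool.Agent.H412R2.Rigidity

/-! QUENCHED = ANNEALED, task K2: uniform mean ergodic theorem for kernels whose children are
equidistributed in the classes prime to `q` (helper376). -/

set_option autoImplicit false

namespace Pool.Agent.H422R2.QA

open Finset Pool.Agent.H412R2

namespace Erg

variable {q R : ℕ} (κ : Ker q R)

theorem P_mono {f g : ℤ → ℝ} (h : ∀ x : ℤ, ¬ (q : ℤ) ∣ x → f x ≤ g x) {x : ℤ}
    (hx : ¬ (q : ℤ) ∣ x) : κ.P f x ≤ κ.P g x := by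
  unfold Ker.P
  apply div_le_div_of_nonneg_right _ (Nat.cast_nonneg _)
  exact sum_le_sum fun b hb => h b (κ.hlive x b hx hb)

theorem iter_mono (i : ℕ) : ∀ {f g : ℤ → ℝ}, (∀ x : ℤ, ¬ (q : ℤ) ∣ x → f x ≤ g x) → ∀ {x : ℤ},
    ¬ (q : ℤ) ∣ x → (κ.P)^[i] f x ≤ (κ.P)^[i] g x := by
  induction i with
  | zero => intro f g h x hx; exact h x hx
  | succ i ih =>
    intro f g h x hx
    rw [Function.iterate_succ, Function.comp_apply, Function.comp_apply]
    exact ih (fun y hy => P_mono κ h hy) hx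

theorem iter_congr (i : ℕ) {f g : ℤ → ℝ} (h : ∀ x : ℤ, ¬ (q : ℤ) ∣ x → f x = g x) {x : ℤ}
    (hx : ¬ (q : ℤ) ∣ x) : (κ.P)^[i] f x = (κ.P)^[i] g x :=
  le_antisymm (iter_mono κ i (fun y hy => (h y hy).le) hx)
    (iter_mono κ i (fun y hy => (h y hy).ge) hx)

theorem iter_add (i : ℕ) : ∀ (f g : ℤ → ℝ) (x : ℤ),
    (κ.P)^[i] (fun y => f y + g y) x = (κ.P)^[i] f x + (κ.P)^[i] g x := by
  induction i with
  | zero => intro f g x; rfl
  | succ i ih =>
    intro f g x
    rw [Function.iterate_succ, Function.comp_apply, Function.comp_apply, Function.comp_apply]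
    have h : κ.P (fun y => f y + g y) = fun y => κ.P f y + κ.P g y := by
      funext y
      unfold Ker.P
      rw [sum_add_distrib, add_div]
    rw [h]
    exact ih _ _ x

theorem iter_smul (i : ℕ) : ∀ (c : ℝ) (f : ℤ → ℝ) (x : ℤ),
    (κ.P)^[i] (fun y => c * f y) x = c * (κ.P)^[i] f x := by
  induction i with
  | zero => intro c f x; rfl
  | succ i ih =>
    intro c f x
    rw [Function.iterate_succ, Function.comp_apply, Function.comp_apply]
    have h : κ.P (fun y => c * f y) = fun y => c * κ.P f y := by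
      funext y
      unfold Ker.P
      rw [← mul_sum, mul_div_assoc]
    rw [h]
    exact ih _ _ x

theorem card_pos' {x : ℤ} (hx : ¬ (q : ℤ) ∣ x) : (0 : ℝ) < ((κ.K x).card : ℝ) := by
  have := κ.hcard x hx
  exact_mod_cast (by omega : 0 < (κ.K x).card)

theorem iter_const (i : ℕ) (c : ℝ) : ∀ {x : ℤ}, ¬ (q : ℤ) ∣ x → (κ.P)^[i] (fun _ => c) x = c := by
  induction i with
  | zero => intro x _; rfl
  | succ i ih =>
    intro x hx
    rw [Function.iterate_succ, Function.comp_apply]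
    rw [iter_congr κ i (g := fun _ => c) _ hx]
    · exact ih hx
    · intro y hy
      unfold Ker.P
      rw [sum_const, nsmul_eq_mul, mul_div_assoc, mul_comm, div_mul_cancel₀]
      exact (card_pos' κ hy).ne'

/-- Cesaro sums over multiples of `N` stay nonnegative -/
theorem sum_iter_nonneg {g : ℤ → ℝ} {N : ℕ}
    (h : ∀ x : ℤ, ¬ (q : ℤ) ∣ x → 0 ≤ ∑ i ∈ range N, (κ.P)^[i] g x) (j : ℕ) :
    ∀ x : ℤ, ¬ (q : ℤ) ∣ x → 0 ≤ ∑ i ∈ range (j * N), (κ.P)^[i] g x := by
  induction j with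
  | zero => intro x _; simp
  | succ j ih =>
    intro x hx
    rw [Nat.succ_mul, sum_range_add]
    refine add_nonneg (ih x hx) ?_
    have h1 : ∑ i ∈ range N, (κ.P)^[j * N + i] g x =
        (κ.P)^[j * N] (fun y => ∑ i ∈ range N, (κ.P)^[i] g y) x := by
      have h2 : ∀ (s : Finset ℕ), (κ.P)^[j * N] (fun y => ∑ i ∈ s, (κ.P)^[i] g y) x =
          ∑ i ∈ s, (κ.P)^[j * N] ((κ.P)^[i] g) x := by
        intro s
        classical
        induction s using Finset.induction_on with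
        | empty =>
          simp only [sum_empty]
          have := iter_smul κ (j * N) 0 (fun _ => 0) x
          simpa using this
        | insert a s ha ih2 =>
          rw [sum_insert ha, ← ih2, ← iter_add]
          have h7 : (fun y => ∑ i ∈ insert a s, (κ.P)^[i] g y) =
              fun y => (κ.P)^[a] g y + ∑ i ∈ s, (κ.P)^[i] g y := by
            funext y
            rw [sum_insert ha]
          rw [h7]
      rw [h2]
      apply sum_congr rfl
      intro i _
      rw [Function.iterate_add_apply]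
    rw [h1]
    have h3 : (κ.P)^[j * N] (fun _ => (0 : ℝ)) x ≤
        (κ.P)^[j * N] (fun y => ∑ i ∈ range N, (κ.P)^[i] g y) x :=
      iter_mono κ (j * N) h hx
    rwa [iter_const κ _ 0 hx] at h3

theorem filter_mod_card {q : ℕ} (hq : 0 < q) (R r : ℕ) (hr : r < q) :
    ((range (q ^ (R + 1))).filter (fun x => x % q = r)).card = q ^ R := by
  have h : (range (q ^ (R + 1))).filter (fun x => x % q = r) =
      (range (q ^ R)).image (fun m => m * q + r) := by
    ext x
    rw [mem_filter, mem_range, mem_image]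
    constructor
    · rintro ⟨h1, h2⟩
      refine ⟨x / q, ?_, ?_⟩
      · rw [mem_range, Nat.div_lt_iff_lt_mul hq, ← pow_succ]
        exact h1
      · rw [← h2, mul_comm]
        exact Nat.div_add_mod x q
    · rintro ⟨m, hm, rfl⟩
      rw [mem_range] at hm
      constructor
      · calc m * q + r < m * q + q := by omega
          _ = (m + 1) * q := by ring
          _ ≤ q ^ R * q := Nat.mul_le_mul_right q hm
          _ = q ^ (R + 1) := (pow_succ q R).symm
      · rw [mul_comm, Nat.mul_add_mod, Nat.mod_eq_of_lt hr]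
  rw [h, card_image_of_injective, card_range]
  intro a b hab
  have : a * q = b * q := by simpa using hab
  exact Nat.eq_of_mul_eq_mul_right hq this

end Erg

open Erg

/-- class average -/
noncomputable def clav (q R : ℕ) (φ : ℤ → ℝ) (r : ℕ) : ℝ :=
  (∑ x ∈ (range (q ^ (R + 1))).filter (fun x => x % q = r), φ (x : ℤ)) / (q : ℝ) ^ R

open scoped Classical in
theorem avU_eq_clav {q : ℕ} (hq : 0 < q) (R : ℕ) (φ : ℤ → ℝ) :
    avU q R φ = (∑ r ∈ Ico 1 q, clav q R φ r) / ((q : ℝ) - 1) := by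
  have hqR : (0 : ℝ) < (q : ℝ) ^ R := pow_pos (by exact_mod_cast hq) R
  unfold avU clav
  rw [← sum_div, div_div, mul_comm ((q : ℝ) ^ R)]
  congr 1
  have hmem : ∀ x ∈ (range (q ^ (R + 1))).filter (fun x : ℕ => ¬ (q : ℤ) ∣ (x : ℤ)),
      x % q ∈ Ico 1 q := by
    intro x hx
    rw [mem_filter] at hx
    rw [mem_Ico]
    refine ⟨?_, Nat.mod_lt x hq⟩
    rw [Nat.one_le_iff_ne_zero]
    intro h
    apply hx.2
    exact_mod_cast Nat.dvd_of_mod_eq_zero h
  rw [← sum_fiberwise_of_maps_to hmem]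
  apply sum_congr rfl
  intro r hr
  rw [mem_Ico] at hr
  apply sum_congr _ (fun _ _ => rfl)
  ext x
  simp only [mem_filter]
  constructor
  · rintro ⟨⟨h1, _⟩, h3⟩
    exact ⟨h1, h3⟩
  · rintro ⟨h1, h3⟩
    refine ⟨⟨h1, ?_⟩, h3⟩
    intro hd
    have hd' : q ∣ x := by exact_mod_cast hd
    have := Nat.mod_eq_zero_of_dvd hd'
    omega

/-- class average as a function on the integers -/
noncomputable def clf (q R : ℕ) (φ : ℤ → ℝ) (x : ℤ) : ℝ := clav q R φ (x % q).toNat

open scoped Classical in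
theorem P_clf {q R : ℕ} (κ : Ker q R) (hq : q.Prime)
    (hu : ∀ x d : ℤ, ¬ (q : ℤ) ∣ x → ¬ (q : ℤ) ∣ d →
      (((κ.K x).filter (fun b => (q : ℤ) ∣ b - d)).card : ℝ) = (κ.K x).card / (q - 1))
    (φ : ℤ → ℝ) {x : ℤ} (hx : ¬ (q : ℤ) ∣ x) : κ.P (clf q R φ) x = avU q R φ := by
  have hq0 : (0 : ℤ) < q := by exact_mod_cast hq.pos
  have hcard := card_pos' κ hx
  rw [avU_eq_clav hq.pos]
  unfold Ker.P
  have hmem : ∀ b ∈ κ.K x, (b % (q : ℤ)).toNat ∈ Ico 1 q := by
    intro b hb
    have hb' := κ.hlive x b hx hb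
    have h1 : 0 ≤ b % (q : ℤ) := Int.emod_nonneg b hq0.ne'
    have h2 : b % (q : ℤ) < q := Int.emod_lt_of_pos b hq0
    have h3 : b % (q : ℤ) ≠ 0 := fun h => hb' (Int.dvd_of_emod_eq_zero h)
    rw [mem_Ico]
    constructor <;> omega
  rw [← sum_fiberwise_of_maps_to hmem]
  have h4 : ∀ r ∈ Ico 1 q, ∑ b ∈ (κ.K x).filter (fun b => (b % (q : ℤ)).toNat = r), clf q R φ b =
      ((κ.K x).card : ℝ) / ((q : ℝ) - 1) * clav q R φ r := by
    intro r hr
    rw [mem_Ico] at hr
    have hr' : ¬ (q : ℤ) ∣ (r : ℤ) := by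
      intro h
      have h' : q ∣ r := by exact_mod_cast h
      have := Nat.le_of_dvd (by omega) h'
      omega
    rw [← hu x r hx hr']
    have h5 : (κ.K x).filter (fun b => (b % (q : ℤ)).toNat = r) =
        (κ.K x).filter (fun b => (q : ℤ) ∣ b - r) := by
      apply filter_congr
      intro b _
      have h1 : 0 ≤ b % (q : ℤ) := Int.emod_nonneg b hq0.ne'
      constructor
      · intro h
        have h6 : b % (q : ℤ) = r := by omega
        have h7 := Int.emod_add_mul_ediv b q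
        exact ⟨b / q, by linarith⟩
      · rintro ⟨k, hk⟩
        have h6 : b = r + q * k := by linarith
        have h7 : b % (q : ℤ) = r := by
          rw [h6, Int.add_mul_emod_self_left, Int.emod_eq_of_lt (by positivity)
            (by exact_mod_cast hr.2)]
        omega
    rw [h5, ← nsmul_eq_mul, ← sum_const]
    apply sum_congr rfl
    intro b hb
    rw [← h5, mem_filter] at hb
    unfold clf
    rw [hb.2]
  rw [sum_congr rfl h4, ← mul_sum]
  field_simp

/-- one-sided version -/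
theorem ergodic_lower {q R : ℕ} (κ : Ker q R) (hq : q.Prime) (hq2 : q ≠ 2) (hR : 1 ≤ R)
    (hP : ∀ (φ : ℤ → ℝ) (x : ℤ), ¬ (q : ℤ) ∣ x → κ.P (clf q R φ) x = avU q R φ)
    (φ : ℤ → ℝ) (hφ : ∀ x y : ℤ, ¬ (q : ℤ) ∣ x → φ (x + (q : ℤ) ^ (R + 1) * y) = φ x)
    {ε : ℝ} (hε : 0 < ε) :
    ∃ N : ℕ, 1 ≤ N ∧ ∀ j : ℕ, ∀ x : ℤ, ¬ (q : ℤ) ∣ x →
      ((j * N : ℕ) : ℝ) * (avU q R φ - ε) + (if j * N = 0 then 0 else clf q R φ x - avU q R φ) ≤
        ∑ i ∈ range (j * N), (κ.P)^[i] φ x := by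
  have hq0 := hq.pos
  have hqr : (0 : ℝ) < (q : ℝ) := by exact_mod_cast hq0
  set g : ℤ → ℝ := fun x => φ x + (-1) * clf q R φ x + ε with hg
  have hclf : ∀ x y : ℤ, clf q R φ (x + (q : ℤ) ^ (R + 1) * y) = clf q R φ x := by
    intro x y
    unfold clf
    congr 2
    rw [pow_succ, mul_comm ((q : ℤ) ^ R), mul_assoc, Int.add_mul_emod_self_left]
  obtain ⟨N, hN1, hN⟩ := Pool.Agent.H412R2.positive κ hq hq2 hR g (by
    intro x y hx
    simp only [hg]
    rw [hφ x y hx, hclf]) (by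
    intro r hr
    rw [mem_Ico] at hr
    have h1 : ∀ x ∈ (range (q ^ (R + 1))).filter (fun x => x % q = r),
        g (x : ℤ) = φ (x : ℤ) + ((-1) * clav q R φ r + ε) := by
      intro x hx
      rw [mem_filter] at hx
      simp only [hg]
      have : clf q R φ (x : ℤ) = clav q R φ r := by
        unfold clf
        congr 1
        rw [← Int.natCast_mod, Int.toNat_natCast, hx.2]
      rw [this]
      ring
    rw [sum_congr rfl h1, sum_add_distrib, sum_const, filter_mod_card hq0 R r hr.2, nsmul_eq_mul]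
    have h2 : ∑ x ∈ (range (q ^ (R + 1))).filter (fun x => x % q = r), φ (x : ℤ) =
        (q : ℝ) ^ R * clav q R φ r := by
      unfold clav
      field_simp
    rw [h2]
    push_cast
    have : (q : ℝ) ^ R * clav q R φ r + (q : ℝ) ^ R * (-1 * clav q R φ r + ε) =
        (q : ℝ) ^ R * ε := by ring
    rw [this]
    positivity)
  refine ⟨N, hN1, ?_⟩
  intro j x hx
  have h3 := sum_iter_nonneg κ (fun y hy => (hN y hy).le) j x hx
  have h4 : ∀ i : ℕ, (κ.P)^[i] g x =
      (κ.P)^[i] φ x + (-1) * (if i = 0 then clf q R φ x else avU q R φ) + ε := by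
    intro i
    have e1 : (κ.P)^[i] g x = (κ.P)^[i] (fun y => φ y + (-1) * clf q R φ y) x +
        (κ.P)^[i] (fun _ => ε) x := by
      rw [← iter_add]
    rw [e1, iter_const κ i ε hx]
    have e2 : (κ.P)^[i] (fun y => φ y + (-1) * clf q R φ y) x = (κ.P)^[i] φ x +
        (κ.P)^[i] (fun y => (-1) * clf q R φ y) x := by
      rw [← iter_add]
    rw [e2, iter_smul]
    congr 3
    cases i with
    | zero => simp
    | succ i =>
      rw [if_neg (Nat.succ_ne_zero i), Function.iterate_succ, Function.comp_apply]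
      rw [iter_congr κ i (g := fun _ => avU q R φ) (fun y hy => hP φ y hy) hx]
      exact iter_const κ i _ hx
  rw [sum_congr rfl (fun i _ => h4 i)] at h3
  rw [sum_add_distrib, sum_add_distrib, sum_const, card_range, nsmul_eq_mul, ← mul_sum] at h3
  have h5 : ∑ i ∈ range (j * N), (if i = 0 then clf q R φ x else avU q R φ) =
      ((j * N : ℕ) : ℝ) * avU q R φ + (if j * N = 0 then 0 else clf q R φ x - avU q R φ) := by
    generalize j * N = n
    cases n with
    | zero => simp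
    | succ n =>
      rw [sum_range_succ', if_pos rfl, if_neg (Nat.succ_ne_zero n)]
      have : ∑ k ∈ range n, (if k + 1 = 0 then clf q R φ x else avU q R φ) =
          (n : ℝ) * avU q R φ := by
        rw [sum_congr rfl (fun k _ => if_neg (Nat.succ_ne_zero k)), sum_const, card_range,
          nsmul_eq_mul]
      rw [this]
      push_cast
      ring
  rw [h5] at h3
  linarith

theorem avU_neg (q R : ℕ) (φ : ℤ → ℝ) : avU q R (fun x => - φ x) = - avU q R φ := by
  unfold avU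
  rw [sum_neg_distrib, neg_div]

theorem clf_neg (q R : ℕ) (φ : ℤ → ℝ) (x : ℤ) : clf q R (fun x => - φ x) x = - clf q R φ x := by
  unfold clf clav
  rw [sum_neg_distrib, neg_div]

open scoped Classical in
/-- uniform mean ergodic theorem for kernels with equidistributed classes -/
theorem ergodic {q R : ℕ} (κ : Ker q R) (hq : q.Prime) (hq2 : q ≠ 2) (hR : 1 ≤ R)
    (hu : ∀ x d : ℤ, ¬ (q : ℤ) ∣ x → ¬ (q : ℤ) ∣ d →
      (((κ.K x).filter (fun b => (q : ℤ) ∣ b - d)).card : ℝ) = (κ.K x).card / (q - 1))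
    (φ : ℤ → ℝ) (hφ : ∀ x y : ℤ, ¬ (q : ℤ) ∣ x → φ (x + (q : ℤ) ^ (R + 1) * y) = φ x)
    {ε : ℝ} (hε : 0 < ε) :
    ∃ N : ℕ, 1 ≤ N ∧ ∀ x : ℤ, ¬ (q : ℤ) ∣ x →
      |∑ i ∈ range N, (κ.P)^[i] φ x - N * avU q R φ| ≤ ε * N := by
  have hP : ∀ (φ : ℤ → ℝ) (x : ℤ), ¬ (q : ℤ) ∣ x → κ.P (clf q R φ) x = avU q R φ :=
    fun φ x hx => P_clf κ hq hu φ hx
  have hq0 := hq.pos
  -- bound for the corrector
  obtain ⟨C, hC0, hC⟩ : ∃ C : ℝ, 0 ≤ C ∧ ∀ x : ℤ, |clf q R φ x - avU q R φ| ≤ C := by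
    refine ⟨∑ r ∈ range q, |clav q R φ r - avU q R φ|, sum_nonneg fun _ _ => abs_nonneg _, ?_⟩
    intro x
    unfold clf
    have h1 : (x % (q : ℤ)).toNat ∈ range q := by
      have h2 : 0 ≤ x % (q : ℤ) := Int.emod_nonneg x (by exact_mod_cast hq0.ne')
      have h3 : x % (q : ℤ) < q := Int.emod_lt_of_pos x (by exact_mod_cast hq0)
      rw [mem_range]; omega
    exact single_le_sum (f := fun r => |clav q R φ r - avU q R φ|) (fun _ _ => abs_nonneg _) h1
  obtain ⟨N₁, hN₁, h₁⟩ := ergodic_lower κ hq hq2 hR hP φ hφ (half_pos hε)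
  obtain ⟨N₂, hN₂, h₂⟩ := ergodic_lower κ hq hq2 hR hP (fun x => - φ x)
    (fun x y hx => by rw [hφ x y hx]) (half_pos hε)
  obtain ⟨j, hj⟩ := exists_nat_gt (2 * C / ε)
  have hj1 : 1 ≤ j := by
    rcases Nat.eq_zero_or_pos j with h | h
    · rw [h] at hj
      have : 0 ≤ 2 * C / ε := by positivity
      norm_num at hj
      linarith
    · exact h
  refine ⟨j * N₁ * N₂, ?_, ?_⟩
  · exact Nat.one_le_iff_ne_zero.mpr (by positivity)
  intro x hx
  set N := j * N₁ * N₂ with hNdef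
  have hNj : (j : ℝ) ≤ (N : ℝ) := by
    have : j ≤ N := by
      calc j = j * 1 * 1 := by ring
        _ ≤ j * N₁ * N₂ := Nat.mul_le_mul (Nat.mul_le_mul_left j hN₁) hN₂
    exact_mod_cast this
  have hN0 : N ≠ 0 := by
    have : 1 ≤ j * N₁ * N₂ := Nat.one_le_iff_ne_zero.mpr (by positivity)
    omega
  have hCN : C ≤ ε / 2 * N := by
    have h3 : 2 * C / ε < N := lt_of_lt_of_le hj hNj
    rw [div_lt_iff₀ hε] at h3
    linarith
  have e1 := h₁ (j * N₂) x hx
  have e2 := h₂ (j * N₁) x hx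
  have i1 : j * N₂ * N₁ = N := by rw [hNdef]; ring
  have i2 : j * N₁ * N₂ = N := rfl
  rw [i1, if_neg hN0] at e1
  rw [i2, if_neg hN0] at e2
  rw [avU_neg, clf_neg] at e2
  have h4 : ∀ i : ℕ, (κ.P)^[i] (fun x => - φ x) x = - (κ.P)^[i] φ x := by
    intro i
    have := iter_smul κ i (-1) φ x
    simpa using this
  rw [sum_congr rfl (fun i _ => h4 i), sum_neg_distrib] at e2
  have h5 := abs_le.mp (hC x)
  rw [abs_le]
  constructor
  · nlinarith [h5.1, h5.2]
  · nlinarith [h5.1, h5.2]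

end Pool.Agent.H422R2.QA
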