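import Pool.Agent.H422R2.QA.QAAllK
import Pool.Agent.H422R2.QA.QAErg
import Pool.Agent.H422R2.QA.QAKer

/-! Task K3 (ALL): from averages to every start. -/

set_option autoImplicit false

namespace Pool.Agent.H422R2.QA
open Finset Pool.Agent.H320R2.PD Pool.Agent.H412R2

open K3 in
theorem all_of_avg {q : ℕ} (hq : q.Prime) (hq2 : q ≠ 2) (hP : Prim q) {E m C : ℕ}
    (hE : q * (q - 1) ≤ E) (hC : Conn q E m C) {n : ℕ} (hn : 1 ≤ n) (S : ℤ → ℕ)
    (hS : ∀ x y : ℤ, ¬ (q : ℤ) ∣ x → S (x + (q : ℤ) ^ (n + 1) * y) = S x)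
    (hN : ∀ x : ℤ, ¬ (q : ℤ) ∣ x → 1 ≤ Nq q E n (S x) x) :
    Pr q E ((avU q n (fun x => Real.log (Nq q E n (S x) x)) + Real.log (q - 1)) / (n + m))
      ((avU q n (fun x => (S x : ℝ)) + C) / (n + m)) := by
  have hq1 : (1 : ℝ) < q := by exact_mod_cast hq.one_lt
  obtain ⟨κ, h1, h2, h3, h4⟩ := exists_kernel hq hq2 hC hn S hS hN
  have hNpos : ∀ x : ℤ, ¬ (q : ℤ) ∣ x → (0 : ℝ) < Nq q E n (S x) x := fun x hx => by
    exact_mod_cast hN x hx
  have hcast : ((q - 1 : ℕ) : ℝ) = (q : ℝ) - 1 := by rw [Nat.cast_sub hq.one_lt.le, Nat.cast_one]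
  have h5 := all_of_kernel κ hq hq2 (by omega) hE hP h4 (fun φ hφ ε hε =>
    ergodic κ hq hq2 (by omega) (fun x d hx hd => by
      rw [h2 x d hx hd, h3 x hx, Nat.cast_mul, hcast, mul_div_cancel_left₀]
      linarith) φ hφ hε)
  have h6 : avU q (n + m) (fun x => Real.log ((κ.K x).card)) =
      avU q n (fun x => Real.log (Nq q E n (S x) x)) + Real.log (q - 1) := by
    rw [← avU_add_const hq, ← avU_refine (m := m) (n := n) hq
      (f := fun x => Real.log (Nq q E n (S x) x) + Real.log (q - 1))]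
    · refine avU_ext fun x hx => ?_
      rw [h3 x hx, Nat.cast_mul, hcast, Real.log_mul (by linarith) (hNpos x hx).ne', add_comm]
    · intro x y hx
      simp only [hS x y hx, Nq_shift hq hq2]
  have h7 : avU q (n + m) (fun x => (κ.S x : ℝ)) = avU q n (fun x => (S x : ℝ)) + C := by
    rw [← avU_add_const hq, ← avU_refine (m := m) (n := n) hq (f := fun x => (S x : ℝ) + C)]
    · refine avU_ext fun x hx => ?_
      rw [h1 x hx, Nat.cast_add]
    · intro x y hx
      simp only [hS x y hx]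
  rw [h6, h7, Nat.cast_add] at h5
  exact h5

end Pool.Agent.H422R2.QA
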