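import Pool.Agent.H422R2.QA.QADefs
import Pool.Agent.H422R2.QA.QAWords

/-! Task H1 (BAL) of QUENCHED = ANNEALED: balanced families. -/

set_option autoImplicit false

namespace Pool.Agent.H422R2.QA

open Finset Pool.Agent.H320R2.PD Pool.Agent.H412R2

theorem mem_one {q : ℕ} {w : List ℕ} :
    w ∈ one q ↔ ∃ e, (1 ≤ e ∧ e ≤ q * (q - 1)) ∧ w = [e] := by
  simp only [one, mem_image, mem_Icc]
  constructor
  · rintro ⟨e, he, rfl⟩; exact ⟨e, he, rfl⟩
  · rintro ⟨e, he, rfl⟩; exact ⟨e, he, rfl⟩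

theorem mem_cat {U V : Finset (List ℕ)} {w : List ℕ} :
    w ∈ cat U V ↔ ∃ u ∈ U, ∃ v ∈ V, u ++ v = w := by
  simp only [cat, mem_image, mem_product, Prod.exists]
  constructor
  · rintro ⟨u, v, ⟨hu, hv⟩, rfl⟩; exact ⟨u, hu, v, hv, rfl⟩
  · rintro ⟨u, hu, v, hv, rfl⟩; exact ⟨u, v, ⟨hu, hv⟩, rfl⟩

theorem mul_pred_ge {q : ℕ} (hq : q.Prime) : 1 ≤ q * (q - 1) := by
  have := hq.two_le
  have h : 1 ≤ q - 1 := by omega
  nlinarith

open scoped Classical in
theorem one_val {q : ℕ} (hq : q.Prime) (hq2 : q ≠ 2) (hP : Prim q) {x : ℤ} (hx : ¬ (q : ℤ) ∣ x) :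
    ((Finset.Icc 1 (q * (q - 1))).filter (fun e => Vd q [e] x)).card = q := by
  have hqz : (0 : ℤ) < q := by exact_mod_cast hq.pos
  have h1 : (Finset.Icc 1 (q * (q - 1))).filter (fun e => Vd q [e] x) =
      (range q).biUnion (fun d => (Finset.Icc 1 (q * (q - 1))).filter
        (fun e => Vd q [e] x ∧ (q : ℤ) ∣ Ep q [e] x - d)) := by
    ext e
    simp only [mem_filter, mem_biUnion, mem_range]
    constructor
    · rintro ⟨he, hV⟩
      have h0 : (0 : ℤ) ≤ Ep q [e] x % q := Int.emod_nonneg _ hqz.ne'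
      have h1 : Ep q [e] x % q < q := Int.emod_lt_of_pos _ hqz
      refine ⟨(Ep q [e] x % q).toNat, by omega, he, hV, ?_⟩
      rw [Int.toNat_of_nonneg h0]
      exact Int.dvd_self_sub_emod
    · rintro ⟨d, _, he, hV, _⟩; exact ⟨he, hV⟩
  rw [h1, card_biUnion]
  · rw [sum_congr rfl (fun d hd => Prim.unique hP hq hq2 hx (mem_range.mp hd))]
    simp
  · intro d hd d' hd' hne
    rw [Function.onFun, disjoint_left]
    intro e he he'
    rw [mem_filter] at he he'
    apply hne
    have h2 := dvd_sub he.2.2 he'.2.2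
    have h3 : (q : ℤ) ∣ (d' : ℤ) - d := by
      have h6 : (d' : ℤ) - d = (Ep q [e] x - d) - (Ep q [e] x - d') := by ring
      rw [h6]; exact h2
    rw [mem_coe, mem_range] at hd hd'
    have h4 : (d : ℤ) ≡ d' [ZMOD q] := Int.modEq_iff_dvd.mpr h3
    have h5 := Int.natCast_modEq_iff.mp h4
    rw [Nat.ModEq, Nat.mod_eq_of_lt hd, Nat.mod_eq_of_lt hd'] at h5
    exact h5

open scoped Classical in
theorem one_live {q : ℕ} (hq : q.Prime) (hq2 : q ≠ 2) (hP : Prim q) {x : ℤ} (hx : ¬ (q : ℤ) ∣ x) :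
    ((Finset.Icc 1 (q * (q - 1))).filter (fun e => Lv q [e] x)).card = q - 1 := by
  have h1 := Prim.unique hP hq hq2 hx hq.pos
  have h2 := one_val hq hq2 hP hx
  have h3 := Finset.card_filter_add_card_filter_not
    (s := (Finset.Icc 1 (q * (q - 1))).filter (fun e => Vd q [e] x))
      (fun e : ℕ => (q : ℤ) ∣ Ep q [e] x)
  rw [filter_filter, filter_filter, h2] at h3
  have h4 : (Finset.Icc 1 (q * (q - 1))).filter (fun e => Vd q [e] x ∧ (q : ℤ) ∣ Ep q [e] x) =
      (Finset.Icc 1 (q * (q - 1))).filter (fun e => Vd q [e] x ∧ (q : ℤ) ∣ Ep q [e] x - (0 : ℕ)) := by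
    apply filter_congr; intro e _; simp
  rw [h4, h1] at h3
  have h5 : (Finset.Icc 1 (q * (q - 1))).filter (fun e => Lv q [e] x) =
      (Finset.Icc 1 (q * (q - 1))).filter (fun e => Vd q [e] x ∧ ¬ (q : ℤ) ∣ Ep q [e] x) := by
    apply filter_congr; intro e _; exact Iff.rfl
  rw [h5]
  omega

theorem bal_one {q : ℕ} (hq : q.Prime) (hq2 : q ≠ 2) (hP : Prim q) {E : ℕ} (hE : q * (q - 1) ≤ E) :
    Bal q E 1 (one q) 1 := by
  classical
  have hinj : Function.Injective (fun e : ℕ => [e]) := by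
    intro a b h; simpa using h
  constructor
  · intro w hw
    obtain ⟨e, he, rfl⟩ := mem_one.mp hw
    rw [mem_FW]
    refine ⟨rfl, ?_⟩
    intro e' he'
    rw [List.mem_singleton] at he'
    subst he'
    exact ⟨he.1, he.2.trans hE⟩
  · intro x hx
    rw [one, filter_image, card_image_of_injective _ hinj, mul_one]
    convert one_val hq hq2 hP hx
  · intro x hx
    rw [one, filter_image, card_image_of_injective _ hinj, mul_one]
    convert one_live hq hq2 hP hx

theorem Ep_not_dvd_of_Lv {q : ℕ} {w : List ℕ} {x : ℤ} (h : Lv q w x) : ¬ (q : ℤ) ∣ Ep q w x := h.2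

open scoped Classical in
/-- counting concatenations -/
theorem card_cat_filter {E n : ℕ} {V V' : Finset (List ℕ)} (hV : V ⊆ FW E n) (A : List ℕ → Prop)
    (B : List ℕ → List ℕ → Prop) (K : ℕ)
    (hB : ∀ w ∈ V, A w → (V'.filter (fun v => B w v)).card = K) (P : List ℕ → Prop)
    (hP : ∀ w ∈ V, ∀ v ∈ V', P (w ++ v) ↔ A w ∧ B w v) :
    ((cat V V').filter P).card = (V.filter A).card * K := by
  have h1 : (cat V V').filter P =
      ((V.filter A).sigma (fun w => V'.filter (fun v => B w v))).image (fun p => p.1 ++ p.2) := by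
    ext w
    simp only [mem_filter, mem_cat, mem_image, mem_sigma, Sigma.exists]
    constructor
    · rintro ⟨⟨u, hu, v, hv, rfl⟩, hw⟩
      rw [hP u hu v hv] at hw
      exact ⟨u, v, ⟨⟨hu, hw.1⟩, hv, hw.2⟩, rfl⟩
    · rintro ⟨u, v, ⟨⟨hu, hA⟩, hv, hBv⟩, rfl⟩
      exact ⟨⟨u, hu, v, hv, rfl⟩, (hP u hu v hv).mpr ⟨hA, hBv⟩⟩
  rw [h1, card_image_of_injOn, card_sigma, sum_congr rfl (g := fun _ => K), sum_const, smul_eq_mul]
  · intro w hw
    rw [mem_filter] at hw
    exact hB w hw.1 hw.2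
  · rintro ⟨w, v⟩ hp ⟨w', v'⟩ hp' hE
    simp only [coe_sigma, Set.mem_sigma_iff, mem_coe, mem_filter] at hp hp'
    have hl : w.length = w'.length :=
      (mem_FW.mp (hV hp.1.1)).1.trans (mem_FW.mp (hV hp'.1.1)).1.symm
    obtain ⟨h1, h2⟩ := List.append_inj hE hl
    subst h1; subst h2; rfl

theorem append_mem_FW {E n m : ℕ} {u v : List ℕ} (hu : u ∈ FW E n) (hv : v ∈ FW E m) :
    u ++ v ∈ FW E (n + m) := by
  rw [mem_FW] at hu hv ⊢
  refine ⟨by rw [List.length_append, hu.1, hv.1], ?_⟩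
  intro e he
  rcases List.mem_append.mp he with h | h
  · exact hu.2 e h
  · exact hv.2 e h

theorem cat_subset {E n n' : ℕ} {V V' : Finset (List ℕ)} (h : V ⊆ FW E n) (h' : V' ⊆ FW E n') :
    cat V V' ⊆ FW E (n + n') := by
  intro w hw
  obtain ⟨u, hu, v, hv, rfl⟩ := mem_cat.mp hw
  exact append_mem_FW (h hu) (h' hv)

theorem ne_nil_of_mem_FW {E n : ℕ} (hn : 1 ≤ n) {w : List ℕ} (hw : w ∈ FW E n) : w ≠ [] := by
  rintro rfl
  have := (mem_FW.mp hw).1
  simp at this
  omega

theorem Bal.cat {q E n n' M M' : ℕ} (hq : q.Prime) (hq2 : q ≠ 2) {V V' : Finset (List ℕ)}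
    (hn : 1 ≤ n) (hn' : 1 ≤ n') (h : Bal q E n V M) (h' : Bal q E n' V' M') :
    Bal q E (n + n') (cat V V') ((q - 1) * M * M') := by
  classical
  constructor
  · exact cat_subset h.sub h'.sub
  · intro x hx
    have h1 := card_cat_filter (V' := V') h.sub (fun w => Lv q w x)
      (fun w v => Vd q v (Ep q w x))
      (q * M') (by
        intro w _ hL
        have := h'.val _ hL.2
        convert this) (fun w => Vd q w x) (by
        intro w _ v hv
        show Vd q (w ++ v) x ↔ _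
        rw [Vd_append hq hq2]
        constructor
        · rintro ⟨h1, h2⟩
          exact ⟨⟨h1, Vd_nonempty hq (ne_nil_of_mem_FW hn' (h'.sub hv)) h2 hq2⟩, h2⟩
        · rintro ⟨h1, h2⟩
          exact ⟨h1.1, h2⟩)
    have h2 := h.live x hx
    have h3 : (V.filter (fun w => Lv q w x)).card = (q - 1) * M := by convert h2
    rw [h3] at h1
    have h4 : (q - 1) * M * (q * M') = q * ((q - 1) * M * M') := by ring
    rw [h4] at h1
    convert h1
  · intro x hx
    have h1 := card_cat_filter (V' := V') h.sub (fun w => Lv q w x)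
      (fun w v => Lv q v (Ep q w x))
      ((q - 1) * M') (by
        intro w _ hL
        have := h'.live _ hL.2
        convert this) (fun w => Lv q w x) (by
        intro w _ v hv
        show Lv q (w ++ v) x ↔ _
        rw [Lv_append hq hq2 (ne_nil_of_mem_FW hn' (h'.sub hv))])
    have h2 := h.live x hx
    have h3 : (V.filter (fun w => Lv q w x)).card = (q - 1) * M := by convert h2
    rw [h3] at h1
    have h4 : (q - 1) * M * ((q - 1) * M') = (q - 1) * ((q - 1) * M * M') := by ring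
    rw [h4] at h1
    convert h1

theorem card_units {q n : ℕ} (hq : q.Prime) (hn : 1 ≤ n) :
    ((range (q ^ n)).filter (fun x : ℕ => ¬ q ∣ x)).card = (q - 1) * q ^ (n - 1) := by
  have h1 : ((range (q ^ n)).filter (fun x : ℕ => ¬ q ∣ x)).card = Nat.totient (q ^ n) := by
    rw [Nat.totient]
    congr 1
    apply filter_congr
    intro x _
    rw [Nat.coprime_pow_left_iff (by omega), hq.coprime_iff_not_dvd]
  rw [h1, Nat.totient_prime_pow hq (by omega), mul_comm]

theorem Bal.card {q E n M : ℕ} (hq : q.Prime) (hq2 : q ≠ 2) {V : Finset (List ℕ)}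
    (hn : 1 ≤ n) (h : Bal q E n V M) : V.card = (q - 1) * q ^ n * M := by
  classical
  -- double counting of pairs (w, x)
  have h1 : ∑ w ∈ V, ((range (q ^ n)).filter (fun x : ℕ => Vd q w (x : ℤ))).card = V.card := by
    rw [sum_congr rfl (g := fun _ => 1)]
    · simp
    · intro w hw
      have hl : w.length = n := (mem_FW.mp (h.sub hw)).1
      have := unique_class hq hq2 w
      rw [hl] at this
      convert this
  have h2 : ∑ w ∈ V, ((range (q ^ n)).filter (fun x : ℕ => Vd q w (x : ℤ))).card =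
      ∑ x ∈ range (q ^ n), (V.filter (fun w => Vd q w (x : ℤ))).card := by
    simp only [card_filter]
    rw [sum_comm]
  have h3 : ∑ x ∈ range (q ^ n), (V.filter (fun w => Vd q w (x : ℤ))).card =
      ∑ x ∈ (range (q ^ n)).filter (fun x : ℕ => ¬ q ∣ x), (V.filter (fun w => Vd q w (x : ℤ))).card := by
    symm
    apply sum_filter_of_ne
    intro x _ hne hdvd
    apply hne
    rw [card_eq_zero, filter_eq_empty_iff]
    intro w hw hV
    exact (Vd_nonempty hq (ne_nil_of_mem_FW hn (h.sub hw)) hV hq2) (by exact_mod_cast hdvd)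
  have h4 : ∑ x ∈ (range (q ^ n)).filter (fun x : ℕ => ¬ q ∣ x), (V.filter (fun w => Vd q w (x : ℤ))).card =
      ((range (q ^ n)).filter (fun x : ℕ => ¬ q ∣ x)).card * (q * M) := by
    rw [sum_congr rfl (g := fun _ => q * M), sum_const, smul_eq_mul]
    intro x hx
    rw [mem_filter] at hx
    have := h.val (x : ℤ) (by
      intro h5; exact hx.2 (by exact_mod_cast h5))
    convert this
  rw [← h1, h2, h3, h4, card_units hq hn]
  obtain ⟨k, rfl⟩ := Nat.exists_eq_add_of_le' hn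
  rw [Nat.add_sub_cancel, pow_succ]
  ring

theorem Mix.bal {q E b M : ℕ} (hq : q.Prime) (hq2 : q ≠ 2) (hP : Prim q) (hE : q * (q - 1) ≤ E)
    (hb : 1 ≤ b) {V : Finset (List ℕ)} (hV : Bal q E b V M) {m r : ℕ} {U : Finset (List ℕ)}
    (h : Mix q b V m r U) : ∃ M' : ℕ, Bal q E (m * b + r) U M' ∧ M ^ m ≤ M' := by
  have hmain : 1 ≤ m * b + r ∧ ∃ M' : ℕ, Bal q E (m * b + r) U M' ∧ M ^ m ≤ M' := by
    induction h with
    | block => exact ⟨by omega, M, by simpa using hV, by simp⟩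
    | letter => exact ⟨by omega, 1, by simpa using bal_one hq hq2 hP hE, by simp⟩
    | @cat m r m' r' U U' _ _ ih ih' =>
      obtain ⟨h1, M1, hB1, hM1⟩ := ih
      obtain ⟨h2, M2, hB2, hM2⟩ := ih'
      have e : (m + m') * b + (r + r') = (m * b + r) + (m' * b + r') := by ring
      refine ⟨by omega, (q - 1) * M1 * M2, ?_, ?_⟩
      · rw [e]; exact Bal.cat hq hq2 h1 h2 hB1 hB2
      · have h3 : 1 ≤ q - 1 := by have := hq.two_le; omega
        calc M ^ (m + m') = M ^ m * M ^ m' := pow_add _ _ _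
          _ ≤ M1 * M2 := Nat.mul_le_mul hM1 hM2
          _ ≤ (q - 1) * (M1 * M2) := Nat.le_mul_of_pos_left _ h3
          _ = _ := by ring
  exact hmain.2

theorem Mix.size {q E b M : ℕ} {V : Finset (List ℕ)} (hV : Bal q E b V M) (hE : q * (q - 1) ≤ E)
    {a ε : ℝ} (ha : 0 ≤ a) (haE : a ≤ E) (hs : ∀ w ∈ V, |(w.sum : ℝ) - a * b| ≤ ε * b) {m r : ℕ}
    {U : Finset (List ℕ)} (h : Mix q b V m r U) :
    ∀ w ∈ U, |(w.sum : ℝ) - a * (m * b + r : ℕ)| ≤ ε * (m * b) + E * r := by
  induction h with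
  | block => intro w hw; simpa using hs w hw
  | letter =>
    intro w hw
    obtain ⟨e, he, rfl⟩ := mem_one.mp hw
    have h1 : (e : ℝ) ≤ E := by exact_mod_cast he.2.trans hE
    have h2 : (1 : ℝ) ≤ e := by exact_mod_cast he.1
    simp only [List.sum_singleton]
    rw [abs_le]
    push_cast
    constructor <;> linarith
  | @cat m r m' r' U U' _ _ ih ih' =>
    intro w hw
    obtain ⟨u, hu, v, hv, rfl⟩ := mem_cat.mp hw
    have h1 := ih u hu
    have h2 := ih' v hv
    rw [abs_le] at h1 h2 ⊢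
    rw [List.sum_append]
    push_cast at h1 h2 ⊢
    constructor <;> nlinarith [h1.1, h1.2, h2.1, h2.2]

theorem Mix.pw (q b : ℕ) (V : Finset (List ℕ)) {n : ℕ} (hn : 1 ≤ n) :
    ∃ U : Finset (List ℕ), Mix q b V n 0 U ∧ U = pw V n := by
  induction n with
  | zero => omega
  | succ n ih =>
    rcases Nat.eq_zero_or_pos n with rfl | hpos
    · refine ⟨V, Mix.block, ?_⟩
      ext w
      simp [QA.pw, mem_cat]
    · obtain ⟨U, hU, hU'⟩ := ih hpos
      refine ⟨QA.cat V U, ?_, by rw [hU']; rfl⟩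
      have := Mix.cat Mix.block hU
      rw [Nat.add_comm 1 n] at this
      exact this

theorem Mix.letters (q : ℕ) {b : ℕ} (V : Finset (List ℕ)) {r : ℕ} (hr : 1 ≤ r) :
    ∃ U : Finset (List ℕ), Mix q b V 0 r U := by
  induction r with
  | zero => omega
  | succ r ih =>
    rcases Nat.eq_zero_or_pos r with rfl | hpos
    · exact ⟨_, Mix.letter⟩
    · obtain ⟨U, hU⟩ := ih hpos
      refine ⟨QA.cat U (one q), ?_⟩
      have := Mix.cat hU Mix.letter
      simpa using this

/-- gaps of every length `L ≥ 1` -/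
theorem Mix.exists_gap (q : ℕ) {b : ℕ} (hb : 1 ≤ b) (V : Finset (List ℕ)) {L : ℕ} (hL : 1 ≤ L) :
    ∃ (m r : ℕ) (U : Finset (List ℕ)), Mix q b V m r U ∧ m * b + r = L ∧ r < b + 1 := by
  have hr : L % b < b := Nat.mod_lt _ hb
  have hdiv : L / b * b + L % b = L := by
    have := Nat.div_add_mod L b
    rw [mul_comm]; exact this
  rcases Nat.eq_zero_or_pos (L / b) with h0 | h0
  · rcases Nat.eq_zero_or_pos (L % b) with h1 | h1
    · rw [h0, h1] at hdiv; omega
    · obtain ⟨U, hU⟩ := Mix.letters q (b := b) V h1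
      rw [h0] at hdiv
      exact ⟨0, L % b, U, hU, hdiv, by omega⟩
  · obtain ⟨U, hU, _⟩ := Mix.pw q b V h0
    rcases Nat.eq_zero_or_pos (L % b) with h1 | h1
    · rw [h1] at hdiv
      exact ⟨L / b, 0, U, hU, hdiv, by omega⟩
    · obtain ⟨U', hU'⟩ := Mix.letters q (b := b) V h1
      refine ⟨L / b, L % b, QA.cat U U', ?_, hdiv, by omega⟩
      have := Mix.cat hU hU'
      simpa using this

end Pool.Agent.H422R2.QA
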