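import Pool.Agent.H422R2.QA.QADefs

/-! Task C2 (FOUR2), helper793: entropy of a digit versus `Fb`; chain rule. -/

set_option autoImplicit false

namespace Pool.Agent.H422R2.QA

open Finset Pool.Agent.H320R2.PD
open scoped NNReal

namespace F2

variable {ι : Type*}

theorem mc_nonneg (q : ℕ) (s : Finset ι) (v : ι → ℤ) (j : ℕ) (c : ℤ) : 0 ≤ mc q s v j c := by
  unfold mc
  exact Nat.cast_nonneg _

/-- digit number `j` of `x - c` -/
def dg (q j : ℕ) (c x : ℤ) : ℕ := (((x - c) / (q : ℤ) ^ j) % q).toNat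

theorem dg_lt {q : ℕ} (hq : 0 < q) (j : ℕ) (c x : ℤ) : dg q j c x < q := by
  unfold dg
  have hq' : (0 : ℤ) < q := by exact_mod_cast hq
  have h1 := Int.emod_lt_of_pos ((x - c) / (q : ℤ) ^ j) hq'
  have h0 := Int.emod_nonneg ((x - c) / (q : ℤ) ^ j) hq'.ne'
  omega

theorem dg_iff {q : ℕ} (hq : 0 < q) (j : ℕ) (c x : ℤ) (h : (q : ℤ) ^ j ∣ x - c) {d : ℕ}
    (hd : d < q) : (q : ℤ) ^ (j + 1) ∣ x - (c + (q : ℤ) ^ j * d) ↔ dg q j c x = d := by
  have hq' : (0 : ℤ) < q := by exact_mod_cast hq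
  have hqj : (q : ℤ) ^ j ≠ 0 := by positivity
  obtain ⟨y, hy⟩ := h
  have h1 : (x - c) / (q : ℤ) ^ j = y := by
    rw [hy, Int.mul_ediv_cancel_left _ hqj]
  have h2 : x - (c + (q : ℤ) ^ j * d) = (q : ℤ) ^ j * (y - d) := by
    rw [mul_sub, ← hy]
    ring
  have h3 : (q : ℤ) ^ (j + 1) ∣ x - (c + (q : ℤ) ^ j * d) ↔ (q : ℤ) ∣ y - d := by
    rw [h2, pow_succ]
    exact mul_dvd_mul_iff_left hqj
  rw [h3]
  unfold dg
  rw [h1]
  have h0 := Int.emod_nonneg y hq'.ne'
  have h4 := Int.emod_lt_of_pos y hq'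
  have h7 : (d : ℤ) % q = d := Int.emod_eq_of_lt (by positivity) (by exact_mod_cast hd)
  constructor
  · intro h5
    have h6 : y % q = d % q := Int.emod_eq_emod_iff_emod_sub_eq_zero.2 (Int.emod_eq_zero_of_dvd h5)
    rw [h7] at h6
    rw [h6]
    simp
  · intro h5
    have h6 : y % q = d := by
      rw [← h5]
      exact (Int.toNat_of_nonneg h0).symm
    have h8 := Int.emod_add_mul_ediv y q
    rw [h6] at h8
    exact ⟨y / q, by linarith⟩

theorem filter_succ {q : ℕ} (hq : 0 < q) (s : Finset ι) (v : ι → ℤ) (j : ℕ) (c : ℤ) {d : ℕ}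
    (hd : d < q) : s.filter (fun i => (q : ℤ) ^ (j + 1) ∣ v i - (c + (q : ℤ) ^ j * d)) =
      (s.filter (fun i => (q : ℤ) ^ j ∣ v i - c)).filter (fun i => dg q j c (v i) = d) := by
  ext i
  simp only [mem_filter, and_assoc]
  refine and_congr_right fun _ => ?_
  constructor
  · intro h
    have h1 : (q : ℤ) ^ j ∣ v i - c := by
      have h2 : (q : ℤ) ^ j ∣ v i - (c + (q : ℤ) ^ j * d) := (pow_dvd_pow _ (Nat.le_succ j)).trans h
      have h3 : v i - c = (v i - (c + (q : ℤ) ^ j * d)) + (q : ℤ) ^ j * d := by ring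
      rw [h3]
      exact dvd_add h2 (dvd_mul_right _ _)
    exact ⟨h1, (dg_iff hq j c (v i) h1 hd).1 h⟩
  · rintro ⟨h1, h2⟩
    exact (dg_iff hq j c (v i) h1 hd).2 h2

/-- sum of a function of the digit -/
theorem sum_dg {M : Type*} [AddCommMonoid M] {q : ℕ} (hq : 0 < q) (s : Finset ι) (v : ι → ℤ)
    (j : ℕ) (c : ℤ) (f : ℕ → M) :
    ∑ i ∈ s.filter (fun i => (q : ℤ) ^ j ∣ v i - c), f (dg q j c (v i)) =
      ∑ d ∈ range q, ((s.filter (fun i => (q : ℤ) ^ (j + 1) ∣
        v i - (c + (q : ℤ) ^ j * d))).card) • f d := by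
  rw [← sum_fiberwise_of_maps_to (g := fun i => dg q j c (v i)) (t := range q)
    (fun i _ => mem_range.2 (dg_lt hq j c (v i)))]
  refine sum_congr rfl fun d hd => ?_
  rw [mem_range] at hd
  rw [filter_succ hq s v j c hd, ← sum_const]
  refine sum_congr rfl fun i hi => ?_
  rw [mem_filter] at hi
  rw [hi.2]

theorem mc_split {q : ℕ} (hq : 0 < q) (s : Finset ι) (v : ι → ℤ) (j : ℕ) (c : ℤ) :
    mc q s v j c = ∑ d ∈ range q, mc q s v (j + 1) (c + (q : ℤ) ^ j * d) := by
  have h := sum_dg hq s v j c (fun _ => (1 : ℝ))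
  simp only [sum_const, nsmul_eq_mul, mul_one] at h
  unfold mc
  exact h

/-- the additive character -/
noncomputable def ch (q ψ : ℕ) (d : ℕ) : ℂ :=
  Complex.exp (2 * Real.pi * Complex.I * (ψ * (d : ℤ) / q))

theorem fc_eq {q : ℕ} (hq : 0 < q) (s : Finset ι) (v : ι → ℤ) (j : ℕ) (c : ℤ) (ψ : ℕ) :
    fc q s v j c ψ = ∑ d ∈ range q, (mc q s v (j + 1) (c + (q : ℤ) ^ j * d) : ℂ) * ch q ψ d := by
  have h := sum_dg hq s v j c (fun d => ch q ψ d)
  have h2 : fc q s v j c ψ = ∑ i ∈ s.filter (fun i => (q : ℤ) ^ j ∣ v i - c),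
      ch q ψ (dg q j c (v i)) := by
    unfold fc
    refine sum_congr rfl fun i _ => ?_
    unfold ch
    have hq' : (0 : ℤ) < q := by exact_mod_cast hq
    have hq0 : (q : ℂ) ≠ 0 := by exact_mod_cast hq.ne'
    set y : ℤ := (v i - c) / (q : ℤ) ^ j with hy
    have h3 : ((dg q j c (v i) : ℕ) : ℤ) = y % q := by
      unfold dg
      exact Int.toNat_of_nonneg (Int.emod_nonneg _ hq'.ne')
    have h4 : y = y % q + q * (y / q) := (Int.emod_add_mul_ediv y q).symm
    have h5 : (2 * Real.pi * Complex.I * (ψ * (y : ℂ) / q) : ℂ) =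
        2 * Real.pi * Complex.I * (ψ * ((dg q j c (v i) : ℕ) : ℤ) / q) +
          ((ψ * (y / q) : ℤ) : ℂ) * (2 * Real.pi * Complex.I) := by
      rw [h3]
      have h6 : (y : ℂ) = ((y % q : ℤ) : ℂ) + q * ((y / q : ℤ) : ℂ) := by
        exact_mod_cast congrArg (fun z : ℤ => (z : ℂ)) h4
      rw [h6]
      push_cast
      field_simp
    rw [h5, Complex.exp_add, Complex.exp_int_mul_two_pi_mul_I, mul_one]
  rw [h2, h]
  refine sum_congr rfl fun d _ => ?_
  rw [nsmul_eq_mul]
  unfold mc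
  push_cast
  rfl

theorem ch_eq (q ψ d : ℕ) : ch q ψ d = Complex.exp (((2 * Real.pi * (ψ * d / q) : ℝ) : ℂ) * Complex.I) := by
  unfold ch
  congr 1
  push_cast
  ring

theorem ch_conj (q ψ d e : ℕ) : (ch q ψ d * (starRingEnd ℂ) (ch q ψ e)).re =
    Real.cos (2 * Real.pi * (ψ * ((d : ℝ) - e) / q)) := by
  rw [ch_eq, ch_eq, ← Complex.exp_conj, ← Complex.exp_add]
  have h : (((2 * Real.pi * (ψ * d / q) : ℝ) : ℂ) * Complex.I +
      (starRingEnd ℂ) (((2 * Real.pi * (ψ * e / q) : ℝ) : ℂ) * Complex.I)) =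
      ((2 * Real.pi * (ψ * ((d : ℝ) - e) / q) : ℝ) : ℂ) * Complex.I := by
    rw [map_mul, Complex.conj_ofReal, Complex.conj_I]
    push_cast
    ring
  rw [h, Complex.exp_ofReal_mul_I_re]

/-- `|∑ m_d e(ψ d/q)|²` -/
theorem sq_eq (q ψ : ℕ) (m : ℕ → ℝ) : ‖∑ d ∈ range q, (m d : ℂ) * ch q ψ d‖ ^ 2 =
    ∑ d ∈ range q, ∑ e ∈ range q, m d * m e *
      Real.cos (2 * Real.pi * (ψ * ((d : ℝ) - e) / q)) := by
  set S : ℂ := ∑ d ∈ range q, (m d : ℂ) * ch q ψ d with hS
  have h1 : ‖S‖ ^ 2 = (S * (starRingEnd ℂ) S).re := by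
    rw [Complex.mul_conj, Complex.normSq_eq_norm_sq, Complex.ofReal_re]
  rw [h1, hS, map_sum, sum_mul_sum, Complex.re_sum]
  refine sum_congr rfl fun d _ => ?_
  rw [Complex.re_sum]
  refine sum_congr rfl fun e _ => ?_
  rw [map_mul, Complex.conj_ofReal]
  have h2 : (m d : ℂ) * ch q ψ d * ((m e : ℂ) * (starRingEnd ℂ) (ch q ψ e)) =
      ((m d * m e : ℝ) : ℂ) * (ch q ψ d * (starRingEnd ℂ) (ch q ψ e)) := by
    push_cast
    ring
  rw [h2, Complex.re_ofReal_mul, ch_conj]

/-- orthogonality -/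
theorem orth {q : ℕ} (hq : 0 < q) {d e : ℕ} (hd : d < q) (he : e < q) :
    ∑ ψ ∈ range q, Real.cos (2 * Real.pi * (ψ * ((d : ℝ) - e) / q)) = if d = e then (q : ℝ) else 0 := by
  have hq0 : (q : ℝ) ≠ 0 := by exact_mod_cast hq.ne'
  have hq0' : (q : ℂ) ≠ 0 := by exact_mod_cast hq.ne'
  split_ifs with h
  · subst h
    simp
  · set z : ℂ := Complex.exp (((2 * Real.pi * (((d : ℝ) - e) / q) : ℝ) : ℂ) * Complex.I) with hz
    have h1 : ∀ ψ : ℕ, Real.cos (2 * Real.pi * (ψ * ((d : ℝ) - e) / q)) = (z ^ ψ).re := by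
      intro ψ
      rw [hz, ← Complex.exp_nat_mul]
      have : (ψ : ℂ) * (((2 * Real.pi * (((d : ℝ) - e) / q) : ℝ) : ℂ) * Complex.I) =
          ((2 * Real.pi * (ψ * ((d : ℝ) - e) / q) : ℝ) : ℂ) * Complex.I := by
        push_cast
        ring
      rw [this, Complex.exp_ofReal_mul_I_re]
    rw [sum_congr rfl (fun ψ _ => h1 ψ), ← Complex.re_sum]
    have hzq : z ^ q = 1 := by
      rw [hz, ← Complex.exp_nat_mul]
      have : (q : ℂ) * (((2 * Real.pi * (((d : ℝ) - e) / q) : ℝ) : ℂ) * Complex.I) =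
          (((d : ℤ) - e : ℤ) : ℂ) * (2 * Real.pi * Complex.I) := by
        push_cast
        field_simp
      rw [this, Complex.exp_int_mul_two_pi_mul_I]
    have hz1 : z ≠ 1 := by
      intro h2
      rw [hz, Complex.exp_eq_one_iff] at h2
      obtain ⟨n, hn⟩ := h2
      have h3 : (((d : ℝ) - e) / q : ℂ) = n := by
        have h4 : (2 * Real.pi * Complex.I : ℂ) ≠ 0 := Complex.two_pi_I_ne_zero
        apply mul_right_cancel₀ h4
        rw [← hn]
        push_cast
        ring
      have h5 : ((d : ℂ) - e) = n * q := by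
        field_simp at h3
        push_cast at h3
        linear_combination h3
      have h6 : (d : ℤ) - e = n * q := by exact_mod_cast h5
      have h7 : n = 0 := by
        by_contra h8
        have h9 : 1 ≤ |n| := Int.one_le_abs h8
        have h10 : |(d : ℤ) - e| = |n| * q := by
          rw [h6, abs_mul]
          simp
        have h11 : |(d : ℤ) - e| < q := by
          rw [abs_lt]
          constructor <;> omega
        nlinarith
      rw [h7] at h6
      omega
    have h2 : ∑ ψ ∈ range q, z ^ ψ = 0 := by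
      rw [geom_sum_eq hz1, hzq]
      simp
    rw [h2]
    simp

theorem parseval {q : ℕ} (hq : 0 < q) (m : ℕ → ℝ) :
    ∑ ψ ∈ range q, ‖∑ d ∈ range q, (m d : ℂ) * ch q ψ d‖ ^ 2 = q * ∑ d ∈ range q, m d ^ 2 := by
  rw [sum_congr rfl (fun ψ _ => sq_eq q ψ m), sum_comm, mul_sum]
  refine sum_congr rfl fun d hd => ?_
  rw [sum_comm]
  rw [mem_range] at hd
  have h1 : ∀ e ∈ range q, ∑ ψ ∈ range q, m d * m e *
      Real.cos (2 * Real.pi * (ψ * ((d : ℝ) - e) / q)) = if d = e then q * (m d * m e) else 0 := by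
    intro e he
    rw [mem_range] at he
    rw [← mul_sum, orth hq hd he]
    split_ifs
    · ring
    · ring
  rw [sum_congr rfl h1, sum_ite_eq, if_pos (mem_range.2 hd)]
  ring

theorem ch_zero (q d : ℕ) : ch q 0 d = 1 := by
  unfold ch
  simp

/-- bounds for `Fb` -/
theorem le_Fb {q : ℕ} (s : Finset ι) (v : ι → ℤ) (j : ℕ) (c : ℤ) {ψ : ℕ} (h : ψ ∈ Ico 1 q) :
    ‖fc q s v j c ψ‖ ^ 2 / mc q s v j c ≤ Fb q s v j c := by
  unfold Fb
  have h1 := Finset.le_sup (f := fun ψ => ‖fc q s v j c ψ‖₊ ^ 2 / (mc q s v j c).toNNReal) h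
  have h2 : ((‖fc q s v j c ψ‖₊ ^ 2 / (mc q s v j c).toNNReal : ℝ≥0) : ℝ) =
      ‖fc q s v j c ψ‖ ^ 2 / mc q s v j c := by
    push_cast
    rw [Real.coe_toNNReal _ (mc_nonneg q s v j c)]
  rw [← h2]
  exact_mod_cast h1

theorem Fb_le_of {q : ℕ} (s : Finset ι) (v : ι → ℤ) (j : ℕ) (c : ℤ) {K : ℝ} (hK : 0 ≤ K)
    (h : ∀ ψ ∈ Ico 1 q, ‖fc q s v j c ψ‖ ^ 2 / mc q s v j c ≤ K) : Fb q s v j c ≤ K := by
  unfold Fb
  have h1 : (Finset.Ico 1 q).sup (fun ψ => ‖fc q s v j c ψ‖₊ ^ 2 / (mc q s v j c).toNNReal) ≤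
      K.toNNReal := by
    apply Finset.sup_le
    intro ψ hψ
    rw [← NNReal.coe_le_coe]
    push_cast
    rw [Real.coe_toNNReal _ (mc_nonneg q s v j c), Real.coe_toNNReal _ hK]
    exact h ψ hψ
  have h2 : (((Finset.Ico 1 q).sup (fun ψ => ‖fc q s v j c ψ‖₊ ^ 2 /
      (mc q s v j c).toNNReal) : ℝ≥0) : ℝ) ≤ ((K.toNNReal : ℝ≥0) : ℝ) := by exact_mod_cast h1
  rwa [Real.coe_toNNReal _ hK] at h2

theorem mc_card (q : ℕ) (s : Finset ι) (v : ι → ℤ) (j : ℕ) (c : ℤ) :
    mc q s v j c = 0 ∨ 1 ≤ mc q s v j c := by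
  unfold mc
  rcases Nat.eq_zero_or_pos (s.filter (fun i => (q : ℤ) ^ j ∣ v i - c)).card with h | h
  · left
    rw [h]
    simp
  · right
    exact_mod_cast h

end F2

open F2

theorem hc_nonneg {ι : Type*} {q : ℕ} (hq : 0 < q) (s : Finset ι) (v : ι → ℤ) (j : ℕ) (c : ℤ) :
    0 ≤ hc q s v j c := by
  unfold hc
  rw [sub_nonneg]
  set m := mc q s v j c with hm
  have hle : ∀ d ∈ range q, mc q s v (j + 1) (c + (q : ℤ) ^ j * d) ≤ m := by
    intro d hd
    rw [hm, mc_split hq s v j c]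
    exact single_le_sum (f := fun d : ℕ => mc q s v (j + 1) (c + (q : ℤ) ^ j * (d : ℤ)))
      (fun i _ => mc_nonneg _ _ _ _ _) hd
  calc ∑ d ∈ range q, mc q s v (j + 1) (c + (q : ℤ) ^ j * d) *
      Real.log (mc q s v (j + 1) (c + (q : ℤ) ^ j * d))
      ≤ ∑ d ∈ range q, mc q s v (j + 1) (c + (q : ℤ) ^ j * d) * Real.log m := by
        refine sum_le_sum fun d hd => ?_
        rcases mc_card q s v (j + 1) (c + (q : ℤ) ^ j * d) with h | h
        · rw [h]
          simp
        · apply mul_le_mul_of_nonneg_left _ (by linarith)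
          exact Real.log_le_log (by linarith) (hle d hd)
    _ = m * Real.log m := by
        rw [← sum_mul, ← mc_split hq]

/-- `m log q - hc = ∑ m_d log (q m_d / m)` in the form of an inequality -/
theorem F2.kl_le {ι : Type*} {q : ℕ} (hq : 0 < q) (s : Finset ι) (v : ι → ℤ) (j : ℕ) (c : ℤ)
    (hm : 0 < mc q s v j c) (g : ℝ → ℝ)
    (hg0 : 0 ≤ g 0) (hg : ∀ x : ℝ, 0 < x → x * Real.log (q * x / mc q s v j c) ≤ g x) :
    mc q s v j c * Real.log q - hc q s v j c ≤
      ∑ d ∈ range q, g (mc q s v (j + 1) (c + (q : ℤ) ^ j * d)) := by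
  set m := mc q s v j c with hmd
  have hq0 : (0 : ℝ) < q := by exact_mod_cast hq
  have h1 : m * Real.log q - hc q s v j c = ∑ d ∈ range q,
      (mc q s v (j + 1) (c + (q : ℤ) ^ j * d) * (Real.log q - Real.log m +
        Real.log (mc q s v (j + 1) (c + (q : ℤ) ^ j * d)))) := by
    unfold hc
    rw [← hmd]
    simp only [mul_add]
    rw [sum_add_distrib, ← sum_mul, ← mc_split hq, ← hmd]
    ring
  rw [h1]
  refine sum_le_sum fun d _ => ?_
  rcases mc_card q s v (j + 1) (c + (q : ℤ) ^ j * d) with h | h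
  · rw [h]
    simpa using hg0
  · have hx : 0 < mc q s v (j + 1) (c + (q : ℤ) ^ j * d) := by linarith
    have h2 := hg _ hx
    rw [Real.log_div (by positivity) (by positivity), Real.log_mul (by positivity) (by positivity)] at h2
    have h3 : Real.log q - Real.log m + Real.log (mc q s v (j + 1) (c + (q : ℤ) ^ j * d)) =
        Real.log q + Real.log (mc q s v (j + 1) (c + (q : ℤ) ^ j * d)) - Real.log m := by ring
    rw [h3]
    exact h2

theorem F2.hc_zero {ι : Type*} {q : ℕ} (hq : 0 < q) (s : Finset ι) (v : ι → ℤ) (j : ℕ) (c : ℤ)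
    (hm : mc q s v j c = 0) : hc q s v j c = 0 := by
  have h1 : ∀ d ∈ range q, mc q s v (j + 1) (c + (q : ℤ) ^ j * d) = 0 := by
    have h2 := mc_split hq s v j c
    rw [hm] at h2
    exact (sum_eq_zero_iff_of_nonneg (fun i _ => mc_nonneg _ _ _ _ _)).1 h2.symm
  unfold hc
  rw [hm, sum_eq_zero]
  · simp
  · intro d hd
    rw [h1 d hd]
    simp

theorem hc_le {ι : Type*} {q : ℕ} (hq : 0 < q) (s : Finset ι) (v : ι → ℤ) (j : ℕ) (c : ℤ) :
    hc q s v j c ≤ mc q s v j c * Real.log q := by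
  rcases mc_card q s v j c with hm | hm
  · rw [F2.hc_zero hq s v j c hm, hm]
    simp
  have hq0 : (0 : ℝ) < q := by exact_mod_cast hq
  have hm0 : 0 < mc q s v j c := by linarith
  set m := mc q s v j c with hmd
  have h1 : m * Real.log q - hc q s v j c = ∑ d ∈ range q,
      (mc q s v (j + 1) (c + (q : ℤ) ^ j * d) * (Real.log q - Real.log m +
        Real.log (mc q s v (j + 1) (c + (q : ℤ) ^ j * d)))) := by
    unfold hc
    rw [← hmd]
    simp only [mul_add]
    rw [sum_add_distrib, ← sum_mul, ← mc_split hq, ← hmd]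
    ring
  have h2 : ∑ d ∈ range q, (mc q s v (j + 1) (c + (q : ℤ) ^ j * d) - m / q) ≤
      m * Real.log q - hc q s v j c := by
    rw [h1]
    refine sum_le_sum fun d _ => ?_
    rcases mc_card q s v (j + 1) (c + (q : ℤ) ^ j * d) with h | h
    · rw [h]
      have : 0 ≤ m / q := by positivity
      simp only [zero_mul]
      linarith
    · set x := mc q s v (j + 1) (c + (q : ℤ) ^ j * d) with hx
      have hx0 : 0 < x := by linarith
      have h3 := Real.add_one_le_exp (-(Real.log q - Real.log m + Real.log x))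
      have h4 : Real.exp (-(Real.log q - Real.log m + Real.log x)) = m / (q * x) := by
        rw [Real.exp_neg, Real.exp_add, Real.exp_sub, Real.exp_log hq0, Real.exp_log hm0,
          Real.exp_log hx0]
        field_simp
      rw [h4] at h3
      have h5 : x * (1 - m / (q * x)) ≤ x * (Real.log q - Real.log m + Real.log x) :=
        mul_le_mul_of_nonneg_left (by linarith) hx0.le
      have h6 : x * (1 - m / (q * x)) = x - m / q := by
        field_simp
      linarith
  have h3 : ∑ d ∈ range q, (mc q s v (j + 1) (c + (q : ℤ) ^ j * d) - m / q) = 0 := by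
    rw [sum_sub_distrib, ← mc_split hq, sum_const, card_range, nsmul_eq_mul, ← hmd]
    field_simp
    ring
  linarith

/-- small `Fb` means large digit entropy -/
theorem ent_of_Fb {ι : Type*} {q : ℕ} (hq : q.Prime) (s : Finset ι) (v : ι → ℤ) (j : ℕ) (c : ℤ) :
    mc q s v j c * Real.log q - hc q s v j c ≤ (q - 1) * Fb q s v j c := by
  have hq0 : 0 < q := hq.pos
  have hq1 : (1 : ℝ) ≤ q := by exact_mod_cast hq.one_lt.le
  have hqr : (0 : ℝ) < q := by linarith
  rcases mc_card q s v j c with hm | hm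
  · rw [F2.hc_zero hq0 s v j c hm, hm]
    have : 0 ≤ Fb q s v j c := by
      unfold Fb
      exact NNReal.coe_nonneg _
    have h2 : 0 ≤ ((q : ℝ) - 1) * Fb q s v j c := mul_nonneg (by linarith) this
    simpa using h2
  have hm0 : 0 < mc q s v j c := by linarith
  have h1 := F2.kl_le hq0 s v j c hm0 (fun x => x * (q * x / mc q s v j c - 1)) (by simp) (by
    intro x hx
    apply mul_le_mul_of_nonneg_left _ hx.le
    exact Real.log_le_sub_one_of_pos (by positivity))
  refine h1.trans ?_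
  set m := mc q s v j c with hmd
  set M : ℕ → ℝ := fun d => mc q s v (j + 1) (c + (q : ℤ) ^ j * d) with hM
  have hsum : ∑ d ∈ range q, M d = m := (mc_split hq0 s v j c).symm
  have h2 : ∑ d ∈ range q, (M d * (q * M d / m - 1)) = (q * ∑ d ∈ range q, M d ^ 2 - m ^ 2) / m := by
    have : ∀ d, M d * (q * M d / m - 1) = (q / m) * M d ^ 2 - M d := by
      intro d
      ring
    simp_rw [this]
    rw [sum_sub_distrib, ← mul_sum, hsum]
    field_simp
  have h3 : q * ∑ d ∈ range q, M d ^ 2 - m ^ 2 = ∑ ψ ∈ Ico 1 q, ‖fc q s v j c ψ‖ ^ 2 := by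
    rw [← parseval hq0 M, range_eq_Ico, sum_eq_sum_Ico_succ_bot hq0]
    have h4 : ‖∑ d ∈ Ico 0 q, (M d : ℂ) * ch q 0 d‖ ^ 2 = m ^ 2 := by
      simp only [ch_zero, mul_one]
      rw [← Complex.ofReal_sum, Complex.norm_real, ← range_eq_Ico, hsum, Real.norm_eq_abs, sq_abs]
    rw [h4, zero_add, add_sub_cancel_left]
    refine sum_congr rfl fun ψ _ => ?_
    rw [fc_eq hq0, range_eq_Ico]
  show ∑ d ∈ range q, (M d * (q * M d / m - 1)) ≤ _
  rw [h2, h3, sum_div]
  calc ∑ ψ ∈ Ico 1 q, ‖fc q s v j c ψ‖ ^ 2 / m ≤ ∑ ψ ∈ Ico 1 q, Fb q s v j c :=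
        sum_le_sum fun ψ hψ => le_Fb s v j c hψ
    _ = (q - 1) * Fb q s v j c := by
        rw [sum_const, Nat.card_Ico, nsmul_eq_mul, Nat.cast_sub hq.one_lt.le, Nat.cast_one]

/-- the cosine of a nonzero multiple of `2π/q` -/
theorem F2.cos_le {q : ℕ} (hq : q.Prime) {n : ℤ} (hn : ¬ (q : ℤ) ∣ n) :
    Real.cos (2 * Real.pi * ((n : ℝ) / q)) ≤ Real.cos (2 * Real.pi / q) := by
  have hq0 : (0 : ℝ) < q := by exact_mod_cast hq.pos
  have hqz : (0 : ℤ) < q := by exact_mod_cast hq.pos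
  set r : ℤ := n % q with hr
  have hr0 : 0 ≤ r := Int.emod_nonneg _ hqz.ne'
  have hr1 : r < q := Int.emod_lt_of_pos _ hqz
  have hr2 : r ≠ 0 := fun h => hn (Int.dvd_of_emod_eq_zero h)
  have hr3 : 1 ≤ r := by omega
  have h1 : (n : ℝ) = r + q * ((n / q : ℤ) : ℝ) := by
    have := Int.emod_add_mul_ediv n q
    exact_mod_cast this.symm
  have h2 : Real.cos (2 * Real.pi * ((n : ℝ) / q)) = Real.cos (2 * Real.pi * ((r : ℝ) / q)) := by
    have h3 : 2 * Real.pi * ((n : ℝ) / q) = 2 * Real.pi * ((r : ℝ) / q) +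
        ((n / q : ℤ) : ℝ) * (2 * Real.pi) := by
      rw [h1]
      field_simp
    rw [h3, Real.cos_add_int_mul_two_pi]
  rw [h2]
  have hpi := Real.pi_pos
  have hr3' : (1 : ℝ) ≤ r := by exact_mod_cast hr3
  have hr1' : (r : ℝ) + 1 ≤ q := by exact_mod_cast hr1
  rcases le_total (2 * r) (q : ℤ) with h | h
  · have h' : 2 * (r : ℝ) ≤ q := by exact_mod_cast h
    apply Real.cos_le_cos_of_nonneg_of_le_pi (by positivity)
    · rw [show 2 * Real.pi * ((r : ℝ) / q) = Real.pi * (2 * r / q) by ring]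
      have : 2 * (r : ℝ) / q ≤ 1 := by
        rw [div_le_one hq0]
        exact h'
      nlinarith
    · rw [show 2 * Real.pi / q = 2 * Real.pi * (1 / q) by ring]
      apply mul_le_mul_of_nonneg_left _ (by positivity)
      exact div_le_div_of_nonneg_right hr3' hq0.le
  · have h' : (q : ℝ) ≤ 2 * r := by exact_mod_cast h
    have h4 : Real.cos (2 * Real.pi * ((r : ℝ) / q)) =
        Real.cos (2 * Real.pi * (((q : ℝ) - r) / q)) := by
      have h5 : 2 * Real.pi * (((q : ℝ) - r) / q) = 2 * Real.pi - 2 * Real.pi * ((r : ℝ) / q) := by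
        field_simp
      rw [h5, Real.cos_two_pi_sub]
    rw [h4]
    apply Real.cos_le_cos_of_nonneg_of_le_pi (by positivity)
    · rw [show 2 * Real.pi * (((q : ℝ) - r) / q) = Real.pi * (2 * (q - r) / q) by ring]
      have : 2 * ((q : ℝ) - r) / q ≤ 1 := by
        rw [div_le_one hq0]
        linarith
      nlinarith
    · rw [show 2 * Real.pi / q = 2 * Real.pi * (1 / q) by ring]
      apply mul_le_mul_of_nonneg_left _ (by positivity)
      apply div_le_div_of_nonneg_right _ hq0.le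
      linarith

/-- positive digit entropy means `Fb` smaller than the mass -/
theorem Fb_of_ent {q : ℕ} (hq : q.Prime) (hq2 : q ≠ 2) : ∃ κ : ℝ, 0 < κ ∧
    ∀ {ι : Type} (s : Finset ι) (v : ι → ℤ) (j : ℕ) (c : ℤ),
      κ * hc q s v j c ^ 2 ≤ mc q s v j c * (mc q s v j c - Fb q s v j c) := by
  have hq0 : 0 < q := hq.pos
  have hqr : (0 : ℝ) < q := by exact_mod_cast hq0
  have hq2' : (2 : ℝ) ≤ q := by exact_mod_cast hq.two_le
  have hpi := Real.pi_pos
  set δ : ℝ := 1 - Real.cos (2 * Real.pi / q) with hδ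
  have hδ0 : 0 < δ := by
    have h1 : Real.cos (2 * Real.pi / q) < Real.cos 0 := by
      apply Real.cos_lt_cos_of_nonneg_of_le_pi le_rfl
      · rw [div_le_iff₀ hqr]
        nlinarith
      · positivity
    rw [Real.cos_zero] at h1
    linarith
  refine ⟨δ / (4 * q), by positivity, ?_⟩
  intro ι s v j c
  rcases mc_card q s v j c with hm | hm
  · rw [F2.hc_zero hq0 s v j c hm, hm]
    simp
  have hm0 : 0 < mc q s v j c := by linarith
  set m := mc q s v j c with hmd
  set M : ℕ → ℝ := fun d => mc q s v (j + 1) (c + (q : ℤ) ^ j * d) with hM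
  have hMn : ∀ d, 0 ≤ M d := fun d => mc_nonneg _ _ _ _ _
  have hsum : ∑ d ∈ range q, M d = m := (mc_split hq0 s v j c).symm
  have hMle : ∀ d ∈ range q, M d ≤ m := by
    intro d hd
    rw [← hsum]
    exact single_le_sum (fun i _ => hMn i) hd
  -- entropy bound
  have h1 : hc q s v j c = ∑ d ∈ range q, M d * (Real.log m - Real.log (M d)) := by
    unfold hc
    simp only [mul_sub]
    rw [sum_sub_distrib, ← sum_mul, hsum]
  have h2 : ∀ d ∈ range q, M d * (Real.log m - Real.log (M d)) ≤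
      2 * Real.sqrt (M d * (m - M d)) := by
    intro d hd
    rcases mc_card q s v (j + 1) (c + (q : ℤ) ^ j * d) with h | h
    · have : M d = 0 := h
      rw [this]
      simp
    · have hx : 0 < M d := by
        have : 1 ≤ M d := h
        linarith
      have hxm := hMle d hd
      set x := M d with hxd
      -- log (m/x) = 2 log sqrt(m/x) ≤ 2 (sqrt (m/x) - 1)
      have h3 : Real.log m - Real.log x = 2 * Real.log (Real.sqrt (m / x)) := by
        rw [Real.log_sqrt (by positivity), Real.log_div hm0.ne' hx.ne']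
        ring
      have h4 : Real.log (Real.sqrt (m / x)) ≤ Real.sqrt (m / x) - 1 :=
        Real.log_le_sub_one_of_pos (by positivity)
      have h5 : x * Real.sqrt (m / x) = Real.sqrt (m * x) := by
        have : x * Real.sqrt (m / x) = Real.sqrt (x ^ 2 * (m / x)) := by
          rw [Real.sqrt_mul (by positivity), Real.sqrt_sq hx.le]
        rw [this]
        congr 1
        field_simp
      have h6 : Real.sqrt (m * x) - x ≤ Real.sqrt (x * (m - x)) := by
        have e1 : Real.sqrt (m * x) ≤ Real.sqrt (x * (m - x)) + Real.sqrt (x * x) := by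
          have : m * x = x * (m - x) + x * x := by ring
          rw [this]
          have a1 : 0 ≤ x * (m - x) := mul_nonneg hx.le (by linarith)
          have a2 : 0 ≤ x * x := by positivity
          rw [Real.sqrt_le_left (by positivity), add_sq, Real.sq_sqrt a1, Real.sq_sqrt a2]
          have : 0 ≤ 2 * Real.sqrt (x * (m - x)) * Real.sqrt (x * x) := by positivity
          linarith
        rw [Real.sqrt_mul_self hx.le] at e1
        linarith
      calc x * (Real.log m - Real.log x) = 2 * (x * Real.log (Real.sqrt (m / x))) := by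
            rw [h3]
            ring
        _ ≤ 2 * (x * (Real.sqrt (m / x) - 1)) := by
            apply mul_le_mul_of_nonneg_left _ (by norm_num)
            exact mul_le_mul_of_nonneg_left h4 hx.le
        _ = 2 * (Real.sqrt (m * x) - x) := by
            rw [mul_sub, h5]
            ring
        _ ≤ 2 * Real.sqrt (x * (m - x)) := by linarith
  have h3 : hc q s v j c ^ 2 ≤ 4 * q * (m ^ 2 - ∑ d ∈ range q, M d ^ 2) := by
    have e0 := hc_nonneg hq0 s v j c
    have e1 : hc q s v j c ≤ ∑ d ∈ range q, 2 * Real.sqrt (M d * (m - M d)) := by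
      rw [h1]
      exact sum_le_sum h2
    calc hc q s v j c ^ 2 ≤ (∑ d ∈ range q, 2 * Real.sqrt (M d * (m - M d))) ^ 2 :=
          pow_le_pow_left₀ e0 e1 2
      _ ≤ (range q).card * ∑ d ∈ range q, (2 * Real.sqrt (M d * (m - M d))) ^ 2 :=
          sq_sum_le_card_mul_sum_sq
      _ = q * ∑ d ∈ range q, 4 * (M d * (m - M d)) := by
          rw [card_range]
          congr 1
          refine sum_congr rfl fun d hd => ?_
          have : 0 ≤ M d * (m - M d) := mul_nonneg (hMn d) (by linarith [hMle d hd])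
          rw [mul_pow, Real.sq_sqrt this]
          norm_num
      _ = 4 * q * (m ^ 2 - ∑ d ∈ range q, M d ^ 2) := by
          have : ∀ d, 4 * (M d * (m - M d)) = 4 * m * M d - 4 * M d ^ 2 := by
            intro d
            ring
          simp_rw [this]
          rw [sum_sub_distrib, ← mul_sum, ← mul_sum, hsum]
          ring
  -- Fourier bound
  have h4 : ∀ ψ ∈ Ico 1 q, δ * (m ^ 2 - ∑ d ∈ range q, M d ^ 2) ≤ m ^ 2 - ‖fc q s v j c ψ‖ ^ 2 := by
    intro ψ hψ
    rw [mem_Ico] at hψ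
    rw [fc_eq hq0, sq_eq q ψ M]
    have e1 : m ^ 2 = ∑ d ∈ range q, ∑ e ∈ range q, M d * M e := by
      rw [← sum_mul_sum, hsum]
      ring
    have e2 : ∑ d ∈ range q, M d ^ 2 = ∑ d ∈ range q, ∑ e ∈ range q,
        (if d = e then M d * M e else 0) := by
      refine sum_congr rfl fun d hd => ?_
      rw [sum_ite_eq, if_pos hd]
      ring
    rw [e1, e2, ← sum_sub_distrib, ← sum_sub_distrib, mul_sum]
    refine sum_le_sum fun d hd => ?_
    rw [← sum_sub_distrib, ← sum_sub_distrib, mul_sum]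
    refine sum_le_sum fun e he => ?_
    rw [mem_range] at hd he
    have hMM : 0 ≤ M d * M e := mul_nonneg (hMn d) (hMn e)
    by_cases hde : d = e
    · subst hde
      rw [if_pos rfl]
      simp
    · rw [if_neg hde]
      have h5 : ¬ (q : ℤ) ∣ (ψ : ℤ) * ((d : ℤ) - e) := by
        intro h6
        rcases (Nat.prime_iff_prime_int.1 hq).dvd_or_dvd h6 with h7 | h7
        · have h8 : q ∣ ψ := by exact_mod_cast h7
          have := Nat.le_of_dvd (by omega) h8
          omega
        · obtain ⟨n, hn⟩ := h7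
          have h8 : n = 0 := by
            by_contra h9
            have h10 : 1 ≤ |n| := Int.one_le_abs h9
            have h11 : |(d : ℤ) - e| = q * |n| := by
              rw [hn, abs_mul]
              simp
            have h12 : |(d : ℤ) - e| < q := by
              rw [abs_lt]
              constructor <;> omega
            nlinarith
          rw [h8] at hn
          omega
      have h6 := F2.cos_le hq h5
      have h7 : 2 * Real.pi * ((((ψ : ℤ) * ((d : ℤ) - e) : ℤ) : ℝ) / q) =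
          2 * Real.pi * (ψ * ((d : ℝ) - e) / q) := by
        push_cast
        ring
      rw [h7] at h6
      have h8 : δ ≤ 1 - Real.cos (2 * Real.pi * (ψ * ((d : ℝ) - e) / q)) := by
        rw [hδ]
        linarith
      have h9 := mul_le_mul_of_nonneg_left h8 hMM
      calc δ * (M d * M e - 0) = M d * M e * δ := by ring
        _ ≤ _ := h9
        _ = _ := by ring
  -- conclusion
  have h5 : δ / (4 * q) * hc q s v j c ^ 2 ≤ δ * (m ^ 2 - ∑ d ∈ range q, M d ^ 2) := by
    calc δ / (4 * q) * hc q s v j c ^ 2 ≤ δ / (4 * q) *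
          (4 * q * (m ^ 2 - ∑ d ∈ range q, M d ^ 2)) :=
          mul_le_mul_of_nonneg_left h3 (by positivity)
      _ = _ := by field_simp
  have hne : (1 : ℕ) ∈ Ico 1 q := mem_Ico.2 ⟨le_rfl, hq.one_lt⟩
  set X := δ / (4 * q) * hc q s v j c ^ 2 with hX
  have h6 : Fb q s v j c ≤ m - X / m := by
    apply Fb_le_of
    · have h7 := h4 1 hne
      have h8 : X ≤ m ^ 2 := by
        have := sq_nonneg ‖fc q s v j c 1‖
        linarith
      have h9 : X / m ≤ m := by
        rw [div_le_iff₀ hm0]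
        linarith
      linarith
    · intro ψ hψ
      have h7 := h4 ψ hψ
      rw [div_le_iff₀ hm0]
      have h8 : (m - X / m) * m = m ^ 2 - X := by
        field_simp
      rw [h8]
      linarith
  have h7 : m * Fb q s v j c ≤ m * (m - X / m) := mul_le_mul_of_nonneg_left h6 hm0.le
  have h8 : m * (m - X / m) = m ^ 2 - X := by
    field_simp
  have h9 : m * (m - Fb q s v j c) = m ^ 2 - m * Fb q s v j c := by ring
  rw [h9]
  linarith

theorem F2.sum_range_mul {M : Type*} [AddCommMonoid M] (a b : ℕ) (f : ℕ → M) :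
    ∑ x ∈ range (a * b), f x = ∑ d ∈ range a, ∑ e ∈ range b, f (d + a * e) := by
  rw [sum_comm]
  induction b with
  | zero => simp
  | succ b ih =>
    rw [Nat.mul_succ, sum_range_add, ih, sum_range_succ]
    congr 1
    refine sum_congr rfl fun x _ => ?_
    rw [add_comm]

/-- chain rule -/
theorem chain_rule {ι : Type*} {q : ℕ} (hq : 0 < q) (s : Finset ι) (v : ι → ℤ) (j J : ℕ) (c : ℤ) :
    ∑ i ∈ range J, ∑ d ∈ range (q ^ i), hc q s v (j + i) (c + (q : ℤ) ^ j * d) =
      mc q s v j c * Real.log (mc q s v j c) - ∑ d ∈ range (q ^ J),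
        mc q s v (j + J) (c + (q : ℤ) ^ j * d) * Real.log (mc q s v (j + J) (c + (q : ℤ) ^ j * d)) := by
  induction J with
  | zero => simp
  | succ J ih =>
    rw [sum_range_succ, ih]
    unfold hc
    rw [sum_sub_distrib]
    have h1 : ∑ d ∈ range (q ^ (J + 1)), mc q s v (j + (J + 1)) (c + (q : ℤ) ^ j * d) *
        Real.log (mc q s v (j + (J + 1)) (c + (q : ℤ) ^ j * d)) =
        ∑ d ∈ range (q ^ J), ∑ e ∈ range q,
          mc q s v (j + J + 1) (c + (q : ℤ) ^ j * d + (q : ℤ) ^ (j + J) * e) *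
          Real.log (mc q s v (j + J + 1) (c + (q : ℤ) ^ j * d + (q : ℤ) ^ (j + J) * e)) := by
      rw [pow_succ, F2.sum_range_mul]
      refine sum_congr rfl fun d _ => sum_congr rfl fun e _ => ?_
      have h2 : c + (q : ℤ) ^ j * ((d + q ^ J * e : ℕ) : ℤ) =
          c + (q : ℤ) ^ j * d + (q : ℤ) ^ (j + J) * e := by
        push_cast
        ring
      rw [h2, ← add_assoc]
    rw [h1]
    ring

end Pool.Agent.H422R2.QA
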