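import Pool.Agent.H422R2.QA.QADefs
import Pool.Agent.H422R2.QA.QAWords

/-! Task I1 (FRAME) of QUENCHED = ANNEALED: concatenations of groups. -/

set_option autoImplicit false

namespace Pool.Agent.H422R2.QA

open Finset Pool.Agent.H320R2.PD Pool.Agent.H412R2

theorem cc_length {K : ℕ} (τ : Fin K → List ℕ) : (cc K τ).length = ∑ g, (τ g).length := by
  induction K with
  | zero => simp [cc]
  | succ K ih => rw [cc, List.length_append, ih, Fin.sum_univ_castSucc, add_comm]

theorem cc_sum {K : ℕ} (τ : Fin K → List ℕ) : (cc K τ).sum = ∑ g, (τ g).sum := by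
  induction K with
  | zero => simp [cc]
  | succ K ih => rw [cc, List.sum_append, ih, Fin.sum_univ_castSucc, add_comm]

theorem cc_inj {K : ℕ} {τ τ' : Fin K → List ℕ} (h : ∀ g, (τ g).length = (τ' g).length)
    (he : cc K τ = cc K τ') : τ = τ' := by
  induction K with
  | zero => exact Subsingleton.elim _ _
  | succ K ih =>
    rw [cc, cc] at he
    obtain ⟨h1, h2⟩ := List.append_inj he (h _)
    have h3 := ih (fun g => h g.castSucc) h2
    funext g
    refine Fin.lastCases h1 (fun i => ?_) g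
    exact congrFun h3 i

/-- total length of the groups number `> g` -/
def BB {K : ℕ} (l : Fin K → ℕ) (g : Fin K) : ℕ := ∑ i ∈ Finset.univ.filter (fun i => g < i), l i

theorem AA_last {K : ℕ} (l : Fin (K + 1) → ℕ) : AA l (Fin.last K) = ∑ i : Fin K, l i.castSucc := by
  unfold AA
  rw [sum_filter, Fin.sum_univ_castSucc]
  simp [Fin.castSucc_lt_last]

theorem AA_castSucc {K : ℕ} (l : Fin (K + 1) → ℕ) (g : Fin K) :
    AA l g.castSucc = AA (fun i => l i.castSucc) g := by
  unfold AA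
  rw [sum_filter, sum_filter, Fin.sum_univ_castSucc]
  have h : ¬ Fin.last K < g.castSucc := not_lt.mpr (Fin.le_last _)
  simp [h]

theorem BB_last {K : ℕ} (l : Fin (K + 1) → ℕ) : BB l (Fin.last K) = 0 := by
  unfold BB
  rw [sum_filter]
  apply sum_eq_zero
  intro i _
  rw [if_neg (not_lt.mpr (Fin.le_last _))]

theorem BB_castSucc {K : ℕ} (l : Fin (K + 1) → ℕ) (g : Fin K) :
    BB l g.castSucc = BB (fun i => l i.castSucc) g + l (Fin.last K) := by
  unfold BB
  rw [sum_filter, sum_filter, Fin.sum_univ_castSucc]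
  simp [Fin.castSucc_lt_last]

theorem AA_add_BB {K : ℕ} (l : Fin K → ℕ) (g : Fin K) : BB l g + (l g + AA l g) = ∑ i, l i := by
  induction K with
  | zero => exact g.elim0
  | succ K ih =>
    rw [Fin.sum_univ_castSucc]
    refine Fin.lastCases ?_ (fun i => ?_) g
    · rw [BB_last, AA_last]; omega
    · rw [BB_castSucc, AA_castSucc, ← ih (fun i => l i.castSucc) i]; ring

theorem Wq_cc (q : ℕ) {K : ℕ} (τ : Fin K → List ℕ) :
    Wq q (cc K τ) = ∑ g, 2 ^ AA (fun i => (τ i).sum) g * q ^ BB (fun i => (τ i).length) g *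
      Wq q (τ g) := by
  induction K with
  | zero => simp [cc, Wq]
  | succ K ih =>
    rw [cc, Wq_append, Fin.sum_univ_castSucc, ih, mul_sum, AA_last, BB_last, cc_sum, add_comm,
      pow_zero, mul_one]
    congr 1
    apply sum_congr rfl
    intro g _
    rw [AA_castSucc, BB_castSucc]
    ring

/-- all words of a frame are live at the same points, and their endpoints differ by `q` times a
unit combination of the deep digits of the offsets -/
theorem cc_frame {q : ℕ} (hq : q.Prime) (hq2 : q ≠ 2) {K : ℕ} {τ τ₀ : Fin K → List ℕ} {l : Fin K → ℕ}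
    (hl : ∀ g, (τ g).length = l g) (hl₀ : ∀ g, (τ₀ g).length = l g)
    (hs : ∀ g, (τ g).sum = (τ₀ g).sum)
    (hW : ∀ g, (q : ℤ) ^ (l g + AA l g + 1) ∣ (Wq q (τ g) : ℤ) - Wq q (τ₀ g)) (x t : ℤ) :
    (Lv q (cc K τ) (x + (q : ℤ) ^ ((∑ g, l g) + 1) * t) ↔ Lv q (cc K τ₀) x) ∧
    (Lv q (cc K τ₀) x → Ep q (cc K τ) (x + (q : ℤ) ^ ((∑ g, l g) + 1) * t) =
      Ep q (cc K τ₀) x + q * (2 ^ (∑ g, (τ₀ g).sum) * t -
        ∑ g, 2 ^ (AA (fun i => (τ₀ i).sum) g) *
          (((Wq q (τ g) : ℤ) - Wq q (τ₀ g)) / (q : ℤ) ^ (l g + AA l g + 1)))) := by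
  set N := ∑ g, l g with hN
  set S := ∑ g, (τ₀ g).sum with hS
  set D : ℤ := ∑ g, 2 ^ (AA (fun i => (τ₀ i).sum) g) *
          (((Wq q (τ g) : ℤ) - Wq q (τ₀ g)) / (q : ℤ) ^ (l g + AA l g + 1)) with hD
  have hlen : (cc K τ).length = N := by
    rw [cc_length]; exact sum_congr rfl fun g _ => hl g
  have hlen₀ : (cc K τ₀).length = N := by
    rw [cc_length]; exact sum_congr rfl fun g _ => hl₀ g
  have hsum : (cc K τ).sum = S := by
    rw [cc_sum]; exact sum_congr rfl fun g _ => hs g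
  have hsum₀ : (cc K τ₀).sum = S := by rw [cc_sum]
  have hWd : (Wq q (cc K τ) : ℤ) - Wq q (cc K τ₀) = (q : ℤ) ^ (N + 1) * D := by
    rw [Wq_cc, Wq_cc]
    push_cast
    rw [← sum_sub_distrib, hD, mul_sum]
    apply sum_congr rfl
    intro g _
    have e1 : (fun i => (τ i).sum) = (fun i => (τ₀ i).sum) := funext hs
    have e2 : (fun i => (τ i).length) = l := funext hl
    have e3 : (fun i => (τ₀ i).length) = l := funext hl₀
    rw [e1, e2, e3]
    have h1 := Int.mul_ediv_cancel' (hW g)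
    have h2 : N + 1 = BB l g + (l g + AA l g + 1) := by
      rw [hN, ← AA_add_BB l g]; ring
    rw [h2, pow_add]
    have h3 : (2 : ℤ) ^ AA (fun i => (τ₀ i).sum) g * (q : ℤ) ^ BB l g * (Wq q (τ g) : ℤ) -
        2 ^ AA (fun i => (τ₀ i).sum) g * (q : ℤ) ^ BB l g * (Wq q (τ₀ g) : ℤ) =
        2 ^ AA (fun i => (τ₀ i).sum) g * (q : ℤ) ^ BB l g *
          ((Wq q (τ g) : ℤ) - (Wq q (τ₀ g) : ℤ)) := by ring
    rw [h3, ← h1]
    rw [Int.mul_ediv_cancel_left _ (pow_ne_zero _ (by exact_mod_cast hq.pos.ne'))]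
    ring
  have key : (2 : ℤ) ^ S * (x + (q : ℤ) ^ (N + 1) * t) - Wq q (cc K τ) =
      (2 ^ S * x - Wq q (cc K τ₀)) + (q : ℤ) ^ N * (q * (2 ^ S * t - D)) := by
    have h1 : (Wq q (cc K τ) : ℤ) = Wq q (cc K τ₀) + (q : ℤ) ^ (N + 1) * D := by linarith
    rw [h1]; ring
  have hEp : Ep q (cc K τ) (x + (q : ℤ) ^ (N + 1) * t) =
      Ep q (cc K τ₀) x + q * (2 ^ S * t - D) := by
    unfold Ep
    rw [hlen, hlen₀, hsum, hsum₀, key,
      Int.add_mul_ediv_left _ _ (pow_ne_zero _ (by exact_mod_cast hq.pos.ne'))]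
  refine ⟨?_, fun _ => hEp⟩
  unfold Lv
  rw [hEp]
  have hV : Vd q (cc K τ) (x + (q : ℤ) ^ (N + 1) * t) ↔ Vd q (cc K τ₀) x := by
    unfold Vd
    rw [hlen, hlen₀, hsum, hsum₀, key, dvd_add_left (Dvd.intro _ rfl)]
  rw [hV, dvd_add_left (Dvd.intro _ rfl)]

theorem Lv_nil (q : ℕ) (x : ℤ) : Lv q [] x ↔ ¬ (q : ℤ) ∣ x := by
  unfold Lv
  rw [Ep_nil]
  exact ⟨fun h => h.2, fun h => ⟨Vd_nil _ _, h⟩⟩

theorem Lv_append' {q : ℕ} (hq : q.Prime) (hq2 : q ≠ 2) (u v : List ℕ) (x : ℤ) :
    Lv q (u ++ v) x ↔ Lv q u x ∧ Lv q v (Ep q u x) := by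
  by_cases hv : v = []
  · subst hv
    rw [List.append_nil, Lv_nil]
    exact ⟨fun h => ⟨h, h.2⟩, fun h => h.1⟩
  · exact Lv_append hq hq2 hv x

open scoped Classical in
theorem cc_live_card {q : ℕ} (hq : q.Prime) (hq2 : q ≠ 2) {E K : ℕ} {T : Fin K → Finset (List ℕ)}
    {l M : Fin K → ℕ} (hl : ∀ g, 1 ≤ l g) (hT : ∀ g, Bal q E (l g) (T g) (M g)) {x : ℤ}
    (hx : ¬ (q : ℤ) ∣ x) :
    ((Fintype.piFinset T).filter (fun τ => Lv q (cc K τ) x)).card = (q - 1) ^ K * ∏ g, M g := by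
  induction K generalizing x with
  | zero =>
    have h : (Fintype.piFinset T).filter (fun τ => Lv q (cc 0 τ) x) = {fun g => g.elim0} := by
      ext τ
      rw [mem_filter, mem_singleton, Fintype.mem_piFinset]
      constructor
      · intro _; exact Subsingleton.elim _ _
      · rintro rfl
        exact ⟨fun g => g.elim0, (Lv_nil q x).mpr hx⟩
    rw [h]
    simp
  | succ K ih =>
    have h1 : ((Fintype.piFinset T).filter (fun τ => Lv q (cc (K + 1) τ) x)).card =
        (((T (Fin.last K)).filter (fun w => Lv q w x)).sigma (fun w =>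
          (Fintype.piFinset (fun i : Fin K => T i.castSucc)).filter
            (fun τ => Lv q (cc K τ) (Ep q w x)))).card := by
      apply Finset.card_nbij' (fun τ => ⟨τ (Fin.last K), fun i => τ i.castSucc⟩)
        (fun p => Fin.snoc (α := fun _ => List ℕ) p.2 p.1)
      · intro τ hτ
        rw [mem_coe, mem_filter, Fintype.mem_piFinset, cc, Lv_append' hq hq2] at hτ
        rw [mem_coe, mem_sigma, mem_filter, mem_filter, Fintype.mem_piFinset]
        exact ⟨⟨hτ.1 _, hτ.2.1⟩, fun i => hτ.1 _, hτ.2.2⟩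
      · rintro ⟨w, τ⟩ hp
        rw [mem_coe, mem_sigma, mem_filter, mem_filter, Fintype.mem_piFinset] at hp
        rw [mem_coe, mem_filter, Fintype.mem_piFinset, cc, Lv_append' hq hq2]
        refine ⟨?_, ?_, ?_⟩
        · intro g
          refine Fin.lastCases ?_ (fun i => ?_) g
          · simpa using hp.1.1
          · simpa using hp.2.1 i
        · simpa using hp.1.2
        · simpa using hp.2.2
      · intro τ _
        funext g
        refine Fin.lastCases ?_ (fun i => ?_) g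
        · simp
        · simp
      · rintro ⟨w, τ⟩ _
        simp
    rw [h1, card_sigma, sum_congr rfl (g := fun _ => (q - 1) ^ K * ∏ i : Fin K, M i.castSucc)]
    · have h2 := (hT (Fin.last K)).live x hx
      have h3 : ((T (Fin.last K)).filter (fun w => Lv q w x)).card = (q - 1) * M (Fin.last K) := by
        convert h2
      rw [sum_const, smul_eq_mul, h3, Fin.prod_univ_castSucc, pow_succ]
      ring
    · intro w hw
      rw [mem_filter] at hw
      exact ih (fun g => hl g.castSucc) (fun g => hT g.castSucc) hw.2.2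

end Pool.Agent.H422R2.QA
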