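import Pool.Agent.H422R2.QA.QADefs

/-! Task G1 (EXPMOM): Hellinger divergences of the digits and their exponential moment. -/

set_option autoImplicit false

namespace Pool.Agent.H422R2.QA

open Finset

namespace G1

variable {ι : Type*}

theorem mc_nonneg (q : ℕ) (s : Finset ι) (v : ι → ℤ) (j : ℕ) (c : ℤ) : 0 ≤ mc q s v j c := by
  unfold mc; positivity

theorem mc_congr {q : ℕ} (s : Finset ι) (v : ι → ℤ) (j : ℕ) {c c' : ℤ}
    (h : (q : ℤ) ^ j ∣ c - c') : mc q s v j c = mc q s v j c' := by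
  classical
  unfold mc
  congr 2
  apply Finset.filter_congr
  intro i _
  constructor
  · intro h1
    have : v i - c' = (v i - c) + (c - c') := by ring
    rw [this]; exact dvd_add h1 h
  · intro h1
    have : v i - c = (v i - c') - (c - c') := by ring
    rw [this]; exact dvd_sub h1 h

theorem mc_per (q : ℕ) (s : Finset ι) (v : ι → ℤ) (j : ℕ) (c y : ℤ) :
    mc q s v j (c + (q : ℤ) ^ j * y) = mc q s v j c := by
  apply mc_congr
  exact ⟨y, by ring⟩

theorem mc_pos {q : ℕ} {s : Finset ι} {v : ι → ℤ} {j : ℕ} {ω : ι} (hω : ω ∈ s) :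
    0 < mc q s v j (v ω) := by
  classical
  unfold mc
  have : ω ∈ s.filter (fun i => (q : ℤ) ^ j ∣ v i - v ω) := by simp [hω]
  exact_mod_cast Finset.card_pos.mpr ⟨ω, this⟩

theorem mc_zero (q : ℕ) (s : Finset ι) (v : ι → ℤ) (c : ℤ) : mc q s v 0 c = s.card := by
  classical
  unfold mc
  simp

/-- shifting the digit over a full period -/
theorem sum_shift {q : ℕ} (f : ℤ → ℝ) (hf : ∀ x, f (x + q) = f x) (e : ℤ) :
    ∑ d ∈ range q, f (e + (d : ℤ)) = ∑ d ∈ range q, f (d : ℤ) := by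
  have step : ∀ e : ℤ, ∑ d ∈ range q, f (e + 1 + (d : ℤ)) = ∑ d ∈ range q, f (e + (d : ℤ)) := by
    intro e
    have h1 := Finset.sum_range_succ (fun d : ℕ => f (e + (d : ℤ))) q
    have h2 := Finset.sum_range_succ' (fun d : ℕ => f (e + (d : ℤ))) q
    have h3 : ∀ d : ℕ, f (e + ((d + 1 : ℕ) : ℤ)) = f (e + 1 + (d : ℤ)) := by
      intro d; congr 1; push_cast; ring
    simp only [h3] at h2
    have h4 : f (e + ((0 : ℕ) : ℤ)) = f (e + (q : ℤ)) := by
      rw [hf]; simp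
    linarith
  induction e using Int.induction_on with
  | zero => simp
  | succ i ih => rw [step, ih]
  | pred i ih => rw [← ih, ← step]; congr 1; ext d; congr 1; ring

/-- the members of a class mod `q^j` split according to the digit number `j` -/
theorem exists_digit {q : ℕ} (hq : 0 < q) {j : ℕ} {a c : ℤ} (h : (q : ℤ) ^ j ∣ a - c) :
    ∃! d : ℕ, d ∈ range q ∧ (q : ℤ) ^ (j + 1) ∣ a - (c + (q : ℤ) ^ j * (d : ℤ)) := by
  obtain ⟨m, hm⟩ := h
  have hq' : (0 : ℤ) < q := by exact_mod_cast hq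
  have hqj : (q : ℤ) ^ j ≠ 0 := pow_ne_zero _ hq'.ne'
  have key : ∀ d : ℤ, (q : ℤ) ^ (j + 1) ∣ a - (c + (q : ℤ) ^ j * d) ↔ (q : ℤ) ∣ m - d := by
    intro d
    have : a - (c + (q : ℤ) ^ j * d) = (q : ℤ) ^ j * (m - d) := by linear_combination hm
    rw [this, pow_succ]
    exact mul_dvd_mul_iff_left hqj
  refine ⟨(m % q).toNat, ⟨?_, ?_⟩, ?_⟩
  · rw [mem_range]
    have h1 := Int.emod_lt_of_pos m hq'
    have h2 := Int.emod_nonneg m hq'.ne'
    omega
  · rw [key]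
    rw [Int.toNat_of_nonneg (Int.emod_nonneg m hq'.ne')]
    exact ⟨m / q, by have := Int.emod_add_mul_ediv m q; linarith⟩
  · rintro d ⟨hd, hd2⟩
    rw [key] at hd2
    rw [mem_range] at hd
    have h1 : m % q = (d : ℤ) % q := (Int.emod_emod_of_dvd m (dvd_refl _) ▸
      (Int.emod_emod_of_dvd m (dvd_refl (q:ℤ))).symm ▸ Int.ModEq.symm ((Int.modEq_iff_dvd).mpr hd2))
    rw [h1, Int.emod_eq_of_lt (by positivity) (by exact_mod_cast hd)]
    simp

open scoped Classical in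
/-- splitting a sum over a class according to the next digit -/
theorem sum_class_split {q : ℕ} (hq : 0 < q) (s : Finset ι) (v : ι → ℤ) (j : ℕ) (c : ℤ)
    (f : ι → ℝ) :
    ∑ i ∈ s.filter (fun i => (q : ℤ) ^ j ∣ v i - c), f i =
      ∑ d ∈ range q, ∑ i ∈ s.filter (fun i => (q : ℤ) ^ (j + 1) ∣ v i - (c + (q : ℤ) ^ j * (d : ℤ))),
        f i := by
  simp_rw [Finset.sum_filter]
  rw [Finset.sum_comm]
  apply Finset.sum_congr rfl
  intro i _
  by_cases h : (q : ℤ) ^ j ∣ v i - c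
  · rw [if_pos h]
    obtain ⟨d, ⟨hd, hd2⟩, huniq⟩ := exists_digit hq h
    rw [Finset.sum_eq_single_of_mem d hd]
    · rw [if_pos hd2]
    · intro e he hne
      rw [if_neg]
      intro h2
      exact hne (huniq e ⟨he, h2⟩)
  · rw [if_neg h]
    symm
    apply Finset.sum_eq_zero
    intro d _
    rw [if_neg]
    intro h2
    apply h
    have h3 : (q : ℤ) ^ j ∣ v i - (c + (q : ℤ) ^ j * (d : ℤ)) :=
      dvd_trans (pow_dvd_pow _ (Nat.le_succ j)) h2
    have : v i - c = (v i - (c + (q : ℤ) ^ j * (d : ℤ))) + (q : ℤ) ^ j * d := by ring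
    rw [this]
    exact dvd_add h3 (dvd_mul_right _ _)

theorem mc_split {q : ℕ} (hq : 0 < q) (s : Finset ι) (v : ι → ℤ) (j : ℕ) (c : ℤ) :
    ∑ d ∈ range q, mc q s v (j + 1) (c + (q : ℤ) ^ j * (d : ℤ)) = mc q s v j c := by
  classical
  have := sum_class_split hq s v j c (fun _ => (1 : ℝ))
  simp only [Finset.sum_const, nsmul_eq_mul, mul_one] at this
  unfold mc
  rw [this]

/-- the Bhattacharyya sum -/
noncomputable def SS (q : ℕ) (s : Finset ι) (Y : ι → ℤ) (i : ℕ) (c : ℤ) : ℝ :=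
  ∑ d ∈ range q, Real.sqrt (mc q s Y (i + 1) (c + (q : ℤ) ^ i * d) / (q * mc q s Y i c))

theorem Lam_eq (q : ℕ) (s : Finset ι) (Y : ι → ℤ) (i : ℕ) (c : ℤ) :
    Lam q s Y i c = -Real.log (SS q s Y i c) := rfl

theorem SS_congr {q : ℕ} (s : Finset ι) (Y : ι → ℤ) (i : ℕ) {c c' : ℤ}
    (h : (q : ℤ) ^ i ∣ c - c') : SS q s Y i c = SS q s Y i c' := by
  obtain ⟨e, he⟩ := h
  have hc : c = c' + (q : ℤ) ^ i * e := by linarith
  unfold SS
  rw [mc_congr s Y i (show (q : ℤ) ^ i ∣ c - c' from ⟨e, he⟩)]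
  have := sum_shift (q := q) (fun d : ℤ => Real.sqrt (mc q s Y (i + 1) (c' + (q : ℤ) ^ i * d) /
    (q * mc q s Y i c'))) (by
      intro x
      have : mc q s Y (i + 1) (c' + (q : ℤ) ^ i * (x + q)) = mc q s Y (i + 1) (c' + (q : ℤ) ^ i * x) := by
        apply mc_congr
        exact ⟨1, by ring⟩
      simp only [this]) e
  rw [← this]
  apply Finset.sum_congr rfl
  intro d _
  have h2 : c + (q : ℤ) ^ i * (d : ℤ) = c' + (q : ℤ) ^ i * (e + d) := by rw [hc]; ring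
  rw [h2]

theorem Lam_congr {q : ℕ} (s : Finset ι) (Y : ι → ℤ) (i : ℕ) {c c' : ℤ}
    (h : (q : ℤ) ^ i ∣ c - c') : Lam q s Y i c = Lam q s Y i c' := by
  rw [Lam_eq, Lam_eq, SS_congr s Y i h]

theorem SS_pos {q : ℕ} (hq : 0 < q) {s : Finset ι} {Y : ι → ℤ} {i : ℕ} {ω : ι} (hω : ω ∈ s) :
    0 < SS q s Y i (Y ω) := by
  unfold SS
  have h0 : (0 : ℕ) ∈ range q := by simpa using hq
  have h1 : 0 < Real.sqrt (mc q s Y (i + 1) (Y ω + (q : ℤ) ^ i * ((0 : ℕ) : ℤ)) / (q * mc q s Y i (Y ω))) := by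
    apply Real.sqrt_pos.mpr
    have : Y ω + (q : ℤ) ^ i * ((0 : ℕ) : ℤ) = Y ω := by simp
    rw [this]
    have h2 := mc_pos (q := q) (v := Y) (j := i + 1) hω
    have h3 := mc_pos (q := q) (v := Y) (j := i) hω
    have h4 : (0 : ℝ) < q := by exact_mod_cast hq
    positivity
  exact lt_of_lt_of_le h1 (Finset.single_le_sum (f := fun d : ℕ =>
    Real.sqrt (mc q s Y (i + 1) (Y ω + (q : ℤ) ^ i * (d : ℤ)) / (q * mc q s Y i (Y ω))))
    (fun _ _ => Real.sqrt_nonneg _) h0)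

/-- sum of the probabilities of the digits -/
theorem sum_prob {q : ℕ} (hq : 0 < q) {s : Finset ι} {Y : ι → ℤ} {i : ℕ} {ω : ι} (hω : ω ∈ s) :
    ∑ d ∈ range q, mc q s Y (i + 1) (Y ω + (q : ℤ) ^ i * d) / mc q s Y i (Y ω) = 1 := by
  rw [← Finset.sum_div, mc_split hq, div_self (mc_pos hω).ne']

theorem sum_sq {q : ℕ} (hq : 0 < q) {s : Finset ι} {Y : ι → ℤ} {i : ℕ} {ω : ι} (hω : ω ∈ s) :
    ∑ d ∈ range q, (Real.sqrt (mc q s Y (i + 1) (Y ω + (q : ℤ) ^ i * d) / mc q s Y i (Y ω)) -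
      Real.sqrt (1 / q)) ^ 2 = 2 - 2 * SS q s Y i (Y ω) := by
  have hq' : (0 : ℝ) < q := by exact_mod_cast hq
  have hm := mc_pos (q := q) (v := Y) (j := i) hω
  have h1 : ∀ d ∈ range q, (Real.sqrt (mc q s Y (i + 1) (Y ω + (q : ℤ) ^ i * d) / mc q s Y i (Y ω)) -
      Real.sqrt (1 / q)) ^ 2 = mc q s Y (i + 1) (Y ω + (q : ℤ) ^ i * d) / mc q s Y i (Y ω) + 1 / q -
      2 * Real.sqrt (mc q s Y (i + 1) (Y ω + (q : ℤ) ^ i * d) / (q * mc q s Y i (Y ω))) := by
    intro d _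
    have hn : 0 ≤ mc q s Y (i + 1) (Y ω + (q : ℤ) ^ i * d) / mc q s Y i (Y ω) :=
      div_nonneg (mc_nonneg _ _ _ _ _) (mc_nonneg _ _ _ _ _)
    rw [sub_sq, Real.sq_sqrt hn, Real.sq_sqrt (by positivity)]
    have h2 : mc q s Y (i + 1) (Y ω + (q : ℤ) ^ i * d) / (q * mc q s Y i (Y ω)) =
        (mc q s Y (i + 1) (Y ω + (q : ℤ) ^ i * d) / mc q s Y i (Y ω)) * (1 / q) := by
      field_simp
    rw [h2, Real.sqrt_mul hn]
    ring
  rw [Finset.sum_congr rfl h1, Finset.sum_sub_distrib, Finset.sum_add_distrib, sum_prob hq hω,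
    ← Finset.mul_sum]
  simp only [Finset.sum_const, card_range, nsmul_eq_mul]
  rw [mul_one_div_cancel hq'.ne']
  unfold SS
  ring

theorem SS_le_one {q : ℕ} (hq : 0 < q) {s : Finset ι} {Y : ι → ℤ} {i : ℕ} {ω : ι} (hω : ω ∈ s) :
    SS q s Y i (Y ω) ≤ 1 := by
  have h := sum_sq hq (Y := Y) (i := i) hω
  have h2 : 0 ≤ ∑ d ∈ range q, (Real.sqrt (mc q s Y (i + 1) (Y ω + (q : ℤ) ^ i * d) /
      mc q s Y i (Y ω)) - Real.sqrt (1 / q)) ^ 2 := Finset.sum_nonneg (fun _ _ => sq_nonneg _)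
  linarith

theorem exp_neg_Lam {q : ℕ} (hq : 0 < q) {s : Finset ι} {Y : ι → ℤ} {i : ℕ} {ω : ι} (hω : ω ∈ s) :
    Real.exp (-Lam q s Y i (Y ω)) = SS q s Y i (Y ω) := by
  rw [Lam_eq, neg_neg, Real.exp_log (SS_pos hq hω)]

open scoped Classical in
/-- averaging over the classes mod `q^J` -/
theorem sum_class_avg {q : ℕ} (s : Finset ι) (Y : ι → ℤ) (J : ℕ) (F : ι → ℝ) :
    ∑ ω ∈ s, F ω = ∑ ω ∈ s, (1 / mc q s Y J (Y ω)) *
      ∑ ω' ∈ s.filter (fun ω' => (q : ℤ) ^ J ∣ Y ω' - Y ω), F ω' := by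
  have h1 : ∀ ω ∈ s, (1 / mc q s Y J (Y ω)) *
      ∑ ω' ∈ s.filter (fun ω' => (q : ℤ) ^ J ∣ Y ω' - Y ω), F ω' =
      ∑ ω' ∈ s, if (q : ℤ) ^ J ∣ Y ω' - Y ω then (1 / mc q s Y J (Y ω')) * F ω' else 0 := by
    intro ω _
    rw [Finset.sum_filter, Finset.mul_sum]
    apply Finset.sum_congr rfl
    intro ω' _
    split_ifs with h
    · rw [mc_congr s Y J h]
    · simp
  rw [Finset.sum_congr rfl h1, Finset.sum_comm]
  apply Finset.sum_congr rfl
  intro ω' hω'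
  rw [← Finset.sum_filter]
  rw [Finset.sum_const, nsmul_eq_mul]
  have h2 : ((s.filter (fun ω => (q : ℤ) ^ J ∣ Y ω' - Y ω)).card : ℝ) = mc q s Y J (Y ω') := by
    unfold mc
    congr 2
    apply Finset.filter_congr
    intro i _
    rw [← dvd_neg, neg_sub]
  rw [h2]
  have h3 := mc_pos (q := q) (v := Y) (j := J) hω'
  field_simp

open scoped Classical in
theorem sum_inv_sqrt {q : ℕ} (s : Finset ι) (Y : ι → ℤ) (J : ℕ) (c : ℤ) :
    ∑ ω' ∈ s.filter (fun ω' => (q : ℤ) ^ J ∣ Y ω' - c), 1 / Real.sqrt (mc q s Y J (Y ω')) =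
      Real.sqrt (mc q s Y J c) := by
  have h1 : ∀ ω' ∈ s.filter (fun ω' => (q : ℤ) ^ J ∣ Y ω' - c),
      1 / Real.sqrt (mc q s Y J (Y ω')) = 1 / Real.sqrt (mc q s Y J c) := by
    intro ω' h
    rw [mem_filter] at h
    rw [mc_congr s Y J h.2]
  rw [Finset.sum_congr rfl h1, Finset.sum_const, nsmul_eq_mul]
  have h2 : ((s.filter (fun ω => (q : ℤ) ^ J ∣ Y ω - c)).card : ℝ) = mc q s Y J c := rfl
  rw [h2]
  rcases (mc_nonneg q s Y J c).eq_or_lt with h | h
  · rw [← h]; simp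
  · have h3 := Real.sqrt_pos.mpr h
    have h4 := Real.mul_self_sqrt h.le
    field_simp
    nlinarith

/-- the martingale identity -/
theorem martingale {q : ℕ} (hq : 0 < q) (s : Finset ι) (Y : ι → ℤ) (J : ℕ) :
    ∑ ω ∈ s, Real.exp (∑ i ∈ range J, Lam q s Y i (Y ω)) *
      (1 / Real.sqrt (mc q s Y J (Y ω))) * (1 / Real.sqrt ((q : ℝ) ^ J)) = Real.sqrt s.card := by
  classical
  have hq' : (0 : ℝ) < q := by exact_mod_cast hq
  induction J with
  | zero =>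
    simp only [mc_zero, Finset.range_zero, Finset.sum_empty, Real.exp_zero, pow_zero, Real.sqrt_one,
      div_one, mul_one, one_mul, Finset.sum_const, nsmul_eq_mul]
    rcases Nat.eq_zero_or_pos s.card with h | h
    · rw [h]; simp
    · have h' : (0 : ℝ) < s.card := by exact_mod_cast h
      have h3 := Real.sqrt_pos.mpr h'
      have h4 := Real.mul_self_sqrt h'.le
      field_simp
      nlinarith
  | succ J ih =>
    rw [← ih, sum_class_avg (q := q) s Y J]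
    apply Finset.sum_congr rfl
    intro ω hω
    have h1 : ∀ ω' ∈ s.filter (fun ω' => (q : ℤ) ^ J ∣ Y ω' - Y ω),
        Real.exp (∑ i ∈ range (J + 1), Lam q s Y i (Y ω')) *
          (1 / Real.sqrt (mc q s Y (J + 1) (Y ω'))) * (1 / Real.sqrt ((q : ℝ) ^ (J + 1))) =
        Real.exp (∑ i ∈ range (J + 1), Lam q s Y i (Y ω)) * (1 / Real.sqrt ((q : ℝ) ^ (J + 1))) *
          (1 / Real.sqrt (mc q s Y (J + 1) (Y ω'))) := by
      intro ω' h
      rw [mem_filter] at h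
      have h2 : ∑ i ∈ range (J + 1), Lam q s Y i (Y ω') = ∑ i ∈ range (J + 1), Lam q s Y i (Y ω) := by
        apply Finset.sum_congr rfl
        intro i hi
        rw [mem_range] at hi
        apply Lam_congr
        exact dvd_trans (pow_dvd_pow _ (by omega)) h.2
      rw [h2]; ring
    rw [Finset.sum_congr rfl h1, ← Finset.mul_sum, sum_class_split hq]
    simp_rw [sum_inv_sqrt]
    have hm := mc_pos (q := q) (v := Y) (j := J) hω
    have h5 : ∑ d ∈ range q, Real.sqrt (mc q s Y (J + 1) (Y ω + (q : ℤ) ^ J * (d : ℤ))) =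
        Real.sqrt (q * mc q s Y J (Y ω)) * Real.exp (-Lam q s Y J (Y ω)) := by
      rw [exp_neg_Lam hq hω]
      unfold SS
      rw [Finset.mul_sum]
      apply Finset.sum_congr rfl
      intro d _
      rw [← Real.sqrt_mul (by positivity)]
      congr 1
      field_simp
    rw [h5, Finset.sum_range_succ, Real.exp_add, Real.exp_neg, Real.sqrt_mul hq'.le, pow_succ,
      Real.sqrt_mul (by positivity)]
    have h6 := Real.exp_pos (Lam q s Y J (Y ω))
    have h7 := Real.sqrt_pos.mpr hm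
    have h8 := Real.sqrt_pos.mpr hq'
    have h9 : 0 < Real.sqrt ((q : ℝ) ^ J) := Real.sqrt_pos.mpr (by positivity)
    have h10 := Real.mul_self_sqrt hm.le
    field_simp
    nlinarith

end G1

open G1

theorem Lam_nonneg {ι : Type*} {q : ℕ} (hq : 0 < q) (s : Finset ι) (Y : ι → ℤ) (i : ℕ) {ω : ι}
    (hω : ω ∈ s) : 0 ≤ Lam q s Y i (Y ω) := by
  rw [Lam_eq]
  have := Real.log_nonpos (SS_pos hq (Y := Y) (i := i) hω).le (SS_le_one hq (Y := Y) (i := i) hω)
  linarith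

/-- exponential moment (tree martingale identity for `∑ Lam`) -/
theorem exp_moment {ι : Type*} {q : ℕ} (hq : 0 < q) (s : Finset ι) (Y : ι → ℤ) (J : ℕ) {B : ℝ}
    (hB : ∀ ω ∈ s, mc q s Y J (Y ω) ≤ B * (q : ℝ) ^ (-(J : ℤ)) * s.card) :
    ∑ ω ∈ s, Real.exp (∑ i ∈ range J, Lam q s Y i (Y ω)) ≤ s.card * Real.sqrt B := by
  classical
  have hq' : (0 : ℝ) < q := by exact_mod_cast hq
  have h1 : ∀ ω ∈ s, Real.exp (∑ i ∈ range J, Lam q s Y i (Y ω)) ≤
      (Real.exp (∑ i ∈ range J, Lam q s Y i (Y ω)) *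
      (1 / Real.sqrt (mc q s Y J (Y ω))) * (1 / Real.sqrt ((q : ℝ) ^ J))) *
      (Real.sqrt B * Real.sqrt s.card) := by
    intro ω hω
    have hm := mc_pos (q := q) (v := Y) (j := J) hω
    have hs : (0 : ℝ) < s.card := by exact_mod_cast Finset.card_pos.mpr ⟨ω, hω⟩
    have hB' := hB ω hω
    have hqJ : (0 : ℝ) < (q : ℝ) ^ J := by positivity
    rw [zpow_neg, zpow_natCast] at hB'
    have h2 : mc q s Y J (Y ω) * (q : ℝ) ^ J ≤ B * s.card := by
      have := mul_le_mul_of_nonneg_right hB' hqJ.le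
      calc _ ≤ B * ((q : ℝ) ^ J)⁻¹ * s.card * (q : ℝ) ^ J := this
        _ = B * s.card := by field_simp
    have hB0 : 0 < B := by
      by_contra hcon
      push Not at hcon
      have : B * s.card ≤ 0 := mul_nonpos_of_nonpos_of_nonneg hcon hs.le
      have : 0 < mc q s Y J (Y ω) * (q : ℝ) ^ J := by positivity
      linarith
    have h3 : Real.sqrt (mc q s Y J (Y ω)) * Real.sqrt ((q : ℝ) ^ J) ≤ Real.sqrt B * Real.sqrt s.card := by
      rw [← Real.sqrt_mul hm.le, ← Real.sqrt_mul hB0.le]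
      exact Real.sqrt_le_sqrt h2
    have h4 : 0 < Real.sqrt (mc q s Y J (Y ω)) := Real.sqrt_pos.mpr hm
    have h5 : 0 < Real.sqrt ((q : ℝ) ^ J) := Real.sqrt_pos.mpr hqJ
    have h6 : 1 ≤ (1 / Real.sqrt (mc q s Y J (Y ω))) * (1 / Real.sqrt ((q : ℝ) ^ J)) *
        (Real.sqrt B * Real.sqrt s.card) := by
      rw [div_mul_div_comm, one_mul, div_mul_eq_mul_div, one_mul, le_div_iff₀ (by positivity), one_mul]
      exact h3
    calc Real.exp (∑ i ∈ range J, Lam q s Y i (Y ω)) =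
        Real.exp (∑ i ∈ range J, Lam q s Y i (Y ω)) * 1 := by ring
      _ ≤ Real.exp (∑ i ∈ range J, Lam q s Y i (Y ω)) *
        ((1 / Real.sqrt (mc q s Y J (Y ω))) * (1 / Real.sqrt ((q : ℝ) ^ J)) *
        (Real.sqrt B * Real.sqrt s.card)) := by
          exact mul_le_mul_of_nonneg_left h6 (Real.exp_pos _).le
      _ = _ := by ring
  calc _ ≤ ∑ ω ∈ s, (Real.exp (∑ i ∈ range J, Lam q s Y i (Y ω)) *
      (1 / Real.sqrt (mc q s Y J (Y ω))) * (1 / Real.sqrt ((q : ℝ) ^ J))) *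
      (Real.sqrt B * Real.sqrt s.card) := Finset.sum_le_sum h1
    _ = s.card * Real.sqrt B := by
      rw [← Finset.sum_mul, martingale hq]
      have := Real.mul_self_sqrt (show (0 : ℝ) ≤ s.card by positivity)
      calc Real.sqrt s.card * (Real.sqrt B * Real.sqrt s.card) =
          (Real.sqrt s.card * Real.sqrt s.card) * Real.sqrt B := by ring
        _ = s.card * Real.sqrt B := by rw [this]

/-- small `Lam` means that all the digits have almost the right frequency -/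
theorem Lam_flat {ι : Type*} {q : ℕ} (hq : 0 < q) (s : Finset ι) (Y : ι → ℤ) (i : ℕ) {ω : ι}
    (hω : ω ∈ s) {θ : ℝ} (h : Lam q s Y i (Y ω) ≤ θ) (d : ℤ) :
    (1 - 2 * Real.sqrt (2 * q * θ)) * (mc q s Y i (Y ω) / q) ≤
      mc q s Y (i + 1) (Y ω + (q : ℤ) ^ i * d) := by
  classical
  have hq' : (0 : ℝ) < q := by exact_mod_cast hq
  have hqz : (0 : ℤ) < q := by exact_mod_cast hq
  have hθ : 0 ≤ θ := le_trans (Lam_nonneg hq s Y i hω) h
  have hm := mc_pos (q := q) (v := Y) (j := i) hω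
  obtain ⟨d', hd', hdd⟩ : ∃ d' : ℕ, d' ∈ range q ∧
      mc q s Y (i + 1) (Y ω + (q : ℤ) ^ i * d) = mc q s Y (i + 1) (Y ω + (q : ℤ) ^ i * (d' : ℤ)) := by
    refine ⟨(d % q).toNat, ?_, ?_⟩
    · rw [mem_range]
      have h1 := Int.emod_lt_of_pos d hqz
      have h2 := Int.emod_nonneg d hqz.ne'
      omega
    · rw [Int.toNat_of_nonneg (Int.emod_nonneg d hqz.ne')]
      apply mc_congr
      refine ⟨d / q, ?_⟩
      have := Int.emod_add_mul_ediv d q
      rw [pow_succ]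
      linear_combination -(q : ℤ) ^ i * this
  rw [hdd]
  set p := mc q s Y (i + 1) (Y ω + (q : ℤ) ^ i * (d' : ℤ)) / mc q s Y i (Y ω) with hp
  have hp0 : 0 ≤ p := div_nonneg (mc_nonneg _ _ _ _ _) (mc_nonneg _ _ _ _ _)
  have hpe : mc q s Y (i + 1) (Y ω + (q : ℤ) ^ i * (d' : ℤ)) = p * mc q s Y i (Y ω) := by
    rw [hp]; field_simp
  rw [hpe]
  have hS : 1 - θ ≤ SS q s Y i (Y ω) := by
    rw [← exp_neg_Lam hq hω]
    have := Real.add_one_le_exp (-Lam q s Y i (Y ω))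
    linarith
  have hsum := sum_sq hq (Y := Y) (i := i) hω
  have hsingle : (Real.sqrt p - Real.sqrt (1 / q)) ^ 2 ≤ 2 * θ := by
    have h1 := Finset.single_le_sum (f := fun d : ℕ =>
      (Real.sqrt (mc q s Y (i + 1) (Y ω + (q : ℤ) ^ i * (d : ℤ)) / mc q s Y i (Y ω)) -
      Real.sqrt (1 / q)) ^ 2) (fun _ _ => sq_nonneg _) hd'
    rw [hsum] at h1
    rw [hp]
    linarith
  have hkey : (1 - 2 * Real.sqrt (2 * q * θ)) * (1 / q) ≤ p := by
    have h2 : Real.sqrt (2 * q * θ) * (1 / q) = Real.sqrt (2 * θ) * Real.sqrt (1 / q) := by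
      rw [← Real.sqrt_mul (by positivity)]
      rw [show 2 * (q : ℝ) * θ = (2 * θ * (1 / q)) * (q : ℝ) ^ 2 by field_simp]
      rw [Real.sqrt_mul (by positivity), Real.sqrt_sq hq'.le]
      field_simp
    have h3 : Real.sqrt (1 / q) ^ 2 = 1 / q := Real.sq_sqrt (by positivity)
    have h4 : Real.sqrt (2 * θ) ^ 2 = 2 * θ := Real.sq_sqrt (by positivity)
    have h5 : Real.sqrt p ^ 2 = p := Real.sq_sqrt hp0
    have h6 : |Real.sqrt p - Real.sqrt (1 / q)| ≤ Real.sqrt (2 * θ) := Real.abs_le_sqrt hsingle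
    have h7 := (abs_le.mp h6).1
    have ha := Real.sqrt_nonneg p
    have hb := Real.sqrt_nonneg (1 / (q : ℝ))
    have hc := Real.sqrt_nonneg (2 * θ)
    have h8 : (1 - 2 * Real.sqrt (2 * q * θ)) * (1 / q) =
        Real.sqrt (1 / q) ^ 2 - 2 * (Real.sqrt (2 * θ) * Real.sqrt (1 / q)) := by
      rw [← h2, h3]; ring
    rw [h8]
    by_cases hcase : Real.sqrt (2 * θ) ≤ Real.sqrt (1 / q)
    · nlinarith
    · push Not at hcase
      nlinarith
  calc (1 - 2 * Real.sqrt (2 * q * θ)) * (mc q s Y i (Y ω) / q) =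
      ((1 - 2 * Real.sqrt (2 * q * θ)) * (1 / q)) * mc q s Y i (Y ω) := by ring
    _ ≤ p * mc q s Y i (Y ω) := mul_le_mul_of_nonneg_right hkey hm.le

end Pool.Agent.H422R2.QA
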