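import Pool.Agent.H422R2.QA.QADefs
import Pool.Agent.H422R2.QA.QAExp

set_option autoImplicit false

namespace Pool.Agent.H422R2.QA

open Finset

section basic

/-- affine substitution in a sum over a period -/
theorem sum_affine {n : ℕ} (hn : 0 < n) {h : ℤ → ℝ} (hper : ∀ x y : ℤ, h (x + n * y) = h x)
    {u : ℤ} (hu : IsCoprime u (n : ℤ)) (b : ℤ) :
    ∑ t ∈ range n, h (u * (t : ℤ) + b) = ∑ t ∈ range n, h (t : ℤ) := by
  have : NeZero n := ⟨hn.ne'⟩
  have hmod : ∀ x : ℤ, h (x % n) = h x := by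
    intro x
    have := hper (x % n) (x / n)
    rw [Int.emod_add_mul_ediv] at this
    exact this.symm
  let H : ZMod n → ℝ := fun a => h (a.val : ℤ)
  have hH : ∀ x : ℤ, h x = H (x : ZMod n) := by
    intro x
    simp only [H]
    rw [ZMod.val_intCast, hmod]
  have e1 : ∀ f : ZMod n → ℝ, ∑ t ∈ range n, f (t : ZMod n) = ∑ a : ZMod n, f a := by
    intro f
    apply Finset.sum_bij' (fun (t : ℕ) _ => (t : ZMod n)) (fun (a : ZMod n) _ => a.val)
    · intro t _; exact mem_univ _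
    · intro a _; exact mem_range.2 (ZMod.val_lt a)
    · intro t ht; exact ZMod.val_cast_of_lt (mem_range.1 ht)
    · intro a _; exact ZMod.natCast_zmod_val a
    · intro t _; rfl
  have h1 : ∑ t ∈ range n, h (u * (t : ℤ) + b) = ∑ a : ZMod n, H ((u : ZMod n) * a + (b : ZMod n)) := by
    rw [← e1 (fun a => H ((u : ZMod n) * a + (b : ZMod n)))]
    apply sum_congr rfl
    intro t _
    rw [hH]
    push_cast
    rfl
  have h2 : ∑ t ∈ range n, h (t : ℤ) = ∑ a : ZMod n, H a := by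
    rw [← e1 H]
    apply sum_congr rfl
    intro t _
    rw [hH]
    push_cast
    rfl
  rw [h1, h2]
  have hunit : IsUnit (u : ZMod n) := by
    obtain ⟨a, b, hab⟩ := hu
    have : ((a : ZMod n)) * (u : ZMod n) = 1 := by
      have := congrArg (fun z : ℤ => (z : ZMod n)) hab
      simpa using this
    exact IsUnit.of_mul_eq_one_right _ this
  obtain ⟨v, hv⟩ := hunit
  let e : ZMod n ≃ ZMod n := (Units.mulLeft v).trans (Equiv.addRight (b : ZMod n))
  rw [← Equiv.sum_comp e H]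
  apply sum_congr rfl
  intro a _
  simp [e, hv]

theorem mc_congr {ι : Type*} {q : ℕ} (s : Finset ι) (v : ι → ℤ) {j : ℕ} {c c' : ℤ}
    (h : (q : ℤ) ^ j ∣ c - c') : mc q s v j c = mc q s v j c' := by
  classical
  unfold mc
  congr 2
  apply filter_congr
  intro i _
  constructor
  · intro h1
    have : v i - c' = (v i - c) + (c - c') := by ring
    rw [this]; exact dvd_add h1 h
  · intro h1
    have : v i - c = (v i - c') - (c - c') := by ring
    rw [this]; exact dvd_sub h1 h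

theorem Lam_congr {ι : Type*} {q : ℕ} (hq : 0 < q) (s : Finset ι) (Y : ι → ℤ) {i : ℕ} {c c' : ℤ}
    (h : (q : ℤ) ^ i ∣ c - c') : Lam q s Y i c = Lam q s Y i c' := by
  unfold Lam
  congr 2
  obtain ⟨k, hk⟩ := h
  have hc : c = c' + (q : ℤ) ^ i * k := by linarith
  have e1 : mc q s Y i c = mc q s Y i c' := mc_congr s Y ⟨k, hk⟩
  rw [e1]
  have hper : ∀ x y : ℤ, Real.sqrt (mc q s Y (i + 1) (c' + (q : ℤ) ^ i * (x + q * y)) / (q * mc q s Y i c'))
      = Real.sqrt (mc q s Y (i + 1) (c' + (q : ℤ) ^ i * x) / (q * mc q s Y i c')) := by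
    intro x y
    have : mc q s Y (i + 1) (c' + (q : ℤ) ^ i * (x + q * y)) = mc q s Y (i + 1) (c' + (q : ℤ) ^ i * x) := by
      apply mc_congr
      exact ⟨y, by ring⟩
    rw [this]
  have := sum_affine hq (h := fun x => Real.sqrt (mc q s Y (i + 1) (c' + (q : ℤ) ^ i * x) / (q * mc q s Y i c')))
    hper (u := 1) (isCoprime_one_left) k
  rw [← this]
  apply sum_congr rfl
  intro d _
  have h2 : c + (q : ℤ) ^ i * (d : ℤ) = c' + (q : ℤ) ^ i * (1 * (d : ℤ) + k) := by rw [hc]; ring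
  rw [h2]

/-- iterated average -/
theorem GoodF.sum_all {q : ℕ} {F : ℕ → ℤ → ℝ} {c₀ c₁ : ℝ} (hF : GoodF q F c₀ c₁) (J : ℕ) (y : ℤ) :
    ∑ t ∈ range (q ^ J), F (J + 1) (y + q * (t : ℤ)) = (q : ℝ) ^ J * F 1 y := by
  induction J with
  | zero => simp
  | succ J ih =>
    have h1 : ∑ t ∈ range (q ^ (J + 1)), F (J + 1 + 1) (y + q * (t : ℤ)) =
        ∑ t ∈ range (q ^ J), ∑ d ∈ range q, F (J + 1 + 1) (y + q * ((t : ℤ) + (q : ℤ) ^ J * (d : ℤ))) := by
      rw [← Finset.sum_product' (range (q ^ J)) (range q)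
        (fun t d => F (J + 1 + 1) (y + q * ((t : ℤ) + (q : ℤ) ^ J * (d : ℤ))))]
      symm
      apply Finset.sum_bij' (fun (p : ℕ × ℕ) _ => p.1 + q ^ J * p.2) (fun (t : ℕ) _ => (t % q ^ J, t / q ^ J))
      · intro p hp
        rw [mem_product, mem_range, mem_range] at hp
        rw [mem_range, pow_succ]
        calc p.1 + q ^ J * p.2 < q ^ J + q ^ J * p.2 := by omega
          _ = q ^ J * (p.2 + 1) := by ring
          _ ≤ q ^ J * q := Nat.mul_le_mul_left _ hp.2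
      · intro t ht
        rw [mem_range, pow_succ] at ht
        rw [mem_product, mem_range, mem_range]
        have hpos : 0 < q ^ J := by
          rcases Nat.eq_zero_or_pos (q ^ J) with h | h
          · rw [h] at ht; simp at ht
          · exact h
        exact ⟨Nat.mod_lt _ hpos, Nat.div_lt_of_lt_mul ht⟩
      · intro p hp
        rw [mem_product, mem_range, mem_range] at hp
        have hpos : 0 < q ^ J := by omega
        ext
        · simp [Nat.mod_eq_of_lt hp.1]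
        · simp only []
          rw [Nat.add_mul_div_left _ _ hpos, Nat.div_eq_of_lt hp.1, zero_add]
      · intro t _
        exact Nat.mod_add_div _ _
      · intro p _
        push_cast
        ring_nf
    rw [h1]
    have h2 : ∀ t ∈ range (q ^ J), ∑ d ∈ range q, F (J + 1 + 1) (y + q * ((t : ℤ) + (q : ℤ) ^ J * (d : ℤ)))
        = q * F (J + 1) (y + q * (t : ℤ)) := by
      intro t _
      rw [← hF.avg (J + 1) (y + q * (t : ℤ))]
      apply sum_congr rfl
      intro d _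
      congr 1
      ring
    rw [sum_congr rfl h2, ← mul_sum, ih]
    ring

end basic

section core

variable {q K : ℕ} {ι : Type}

/-- argument of the martingale -/
def arg (q : ℕ) (Y : Fin K → ι → ℤ) (U : Fin K → ℤ) (U₀ y₀ t : ℤ) (ω : Fin K → ι) : ℤ :=
  y₀ + q * (U₀ * t - ∑ g, U g * Y g (ω g))

/-- vector of Hellinger divergences at the node of `ω` at level `i` -/
noncomputable def LL (q : ℕ) (Ω : Fin K → Finset ι) (Y : Fin K → ι → ℤ) (i : ℕ)
    (ω : Fin K → ι) : Fin K → ℝ := fun g => Lam q (Ω g) (Y g) i (Y g (ω g))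

open scoped Classical in
/-- choice of a flat source -/
noncomputable def sel (θ : ℝ) (L : Fin K → ℝ) : Option (Fin K) :=
  if h : ∃ g, L g ≤ θ then some (Classical.choose h) else none

theorem sel_some {θ : ℝ} {L : Fin K → ℝ} {g : Fin K} (h : sel θ L = some g) : L g ≤ θ := by
  unfold sel at h
  split_ifs at h with h1
  simp only [Option.some.injEq] at h
  rw [← h]; exact Classical.choose_spec h1

theorem sel_none {θ : ℝ} {L : Fin K → ℝ} (h : sel θ L = none) (g : Fin K) : θ < L g := by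
  unfold sel at h
  split_ifs at h with h1
  push Not at h1
  exact h1 g

open scoped Classical in
/-- number of bad nodes below level `i` -/
noncomputable def NN (q : ℕ) (Ω : Fin K → Finset ι) (Y : Fin K → ι → ℤ) (θ : ℝ) (i : ℕ)
    (ω : Fin K → ι) : ℕ :=
  ((range i).filter (fun i' => sel θ (LL q Ω Y i' ω) = none)).card

theorem NN_succ_some {Ω : Fin K → Finset ι} {Y : Fin K → ι → ℤ} {θ : ℝ} {i : ℕ} {ω : Fin K → ι}
    {g : Fin K} (h : sel θ (LL q Ω Y i ω) = some g) : NN q Ω Y θ (i + 1) ω = NN q Ω Y θ i ω := by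
  classical
  unfold NN
  rw [range_add_one, filter_insert, if_neg]
  rw [h]; simp

theorem NN_succ_none {Ω : Fin K → Finset ι} {Y : Fin K → ι → ℤ} {θ : ℝ} {i : ℕ} {ω : Fin K → ι}
    (h : sel θ (LL q Ω Y i ω) = none) : NN q Ω Y θ (i + 1) ω = NN q Ω Y θ i ω + 1 := by
  classical
  unfold NN
  rw [range_add_one, filter_insert, if_pos h, card_insert_of_notMem]
  simp

theorem LL_update (hq : 0 < q) (Ω : Fin K → Finset ι) (Y : Fin K → ι → ℤ) {i i' : ℕ} (hi : i' ≤ i)
    (ω : Fin K → ι) (g : Fin K) {x : ι} (hx : (q : ℤ) ^ i ∣ Y g x - Y g (ω g)) :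
    LL q Ω Y i' (Function.update ω g x) = LL q Ω Y i' ω := by
  funext g'
  unfold LL
  by_cases h : g' = g
  · subst h
    rw [Function.update_self]
    exact Lam_congr hq _ _ ((pow_dvd_pow _ hi).trans hx)
  · rw [Function.update_of_ne h]

theorem NN_update (hq : 0 < q) (Ω : Fin K → Finset ι) (Y : Fin K → ι → ℤ) (θ : ℝ) {i : ℕ}
    (ω : Fin K → ι) (g : Fin K) {x : ι} (hx : (q : ℤ) ^ i ∣ Y g x - Y g (ω g)) :
    NN q Ω Y θ i (Function.update ω g x) = NN q Ω Y θ i ω := by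
  classical
  unfold NN
  congr 1
  apply filter_congr
  intro i' hi'
  rw [LL_update hq Ω Y (mem_range.1 hi').le ω g hx]

open scoped Classical in
/-- resampling the coordinate `g` inside its class -/
theorem resample (hq : 0 < q) (Ω : Fin K → Finset ι) (Y : Fin K → ι → ℤ) (θ : ℝ) (i : ℕ) (g : Fin K)
    (f : (Fin K → ι) → ℝ) :
    ∑ ω ∈ (Fintype.piFinset Ω).filter (fun ω => sel θ (LL q Ω Y i ω) = some g), f ω =
      ∑ ω ∈ (Fintype.piFinset Ω).filter (fun ω => sel θ (LL q Ω Y i ω) = some g),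
        (∑ x ∈ (Ω g).filter (fun x => (q : ℤ) ^ i ∣ Y g x - Y g (ω g)),
          f (Function.update ω g x)) / mc q (Ω g) (Y g) i (Y g (ω g)) := by
  set A := (Fintype.piFinset Ω).filter (fun ω => sel θ (LL q Ω Y i ω) = some g) with hA
  set cl : (Fin K → ι) → Finset ι := fun ω => (Ω g).filter (fun x => (q : ℤ) ^ i ∣ Y g x - Y g (ω g))
    with hcl
  have hm : ∀ ω, mc q (Ω g) (Y g) i (Y g (ω g)) = ((cl ω).card : ℝ) := fun ω => rfl
  have hself : ∀ ω ∈ A, ω g ∈ cl ω := by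
    intro ω hω
    rw [hA, mem_filter, Fintype.mem_piFinset] at hω
    rw [hcl]
    simp only [mem_filter]
    exact ⟨hω.1 g, by simp⟩
  have h1 : ∑ ω ∈ A, f ω = ∑ p ∈ A.sigma cl, f p.1 / mc q (Ω g) (Y g) i (Y g (p.1 g)) := by
    rw [sum_sigma]
    apply sum_congr rfl
    intro ω hω
    simp only [sum_const, nsmul_eq_mul]
    rw [hm ω]
    have hpos : ((cl ω).card : ℝ) ≠ 0 := by
      have : 0 < (cl ω).card := card_pos.2 ⟨_, hself ω hω⟩
      positivity
    field_simp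
  have h2 : ∑ ω ∈ A, (∑ x ∈ cl ω, f (Function.update ω g x)) / mc q (Ω g) (Y g) i (Y g (ω g)) =
      ∑ p ∈ A.sigma cl, f (Function.update p.1 g p.2) / mc q (Ω g) (Y g) i (Y g (p.1 g)) := by
    rw [sum_sigma]
    apply sum_congr rfl
    intro ω _
    rw [sum_div]
  rw [h1, h2]
  have hmem : ∀ p ∈ A.sigma cl, (⟨Function.update p.1 g p.2, p.1 g⟩ : (_ : Fin K → ι) × ι) ∈ A.sigma cl := by
    rintro ⟨ω, x⟩ hp
    rw [mem_sigma] at hp ⊢
    obtain ⟨hω, hx⟩ := hp
    simp only [hcl, mem_filter] at hx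
    simp only [hA, mem_filter, Fintype.mem_piFinset] at hω
    refine ⟨?_, ?_⟩
    · simp only [hA, mem_filter, Fintype.mem_piFinset]
      refine ⟨?_, ?_⟩
      · intro g'
        by_cases h : g' = g
        · subst h; rw [Function.update_self]; exact hx.1
        · rw [Function.update_of_ne h]; exact hω.1 g'
      · rw [LL_update hq Ω Y le_rfl ω g hx.2]; exact hω.2
    · simp only [hcl, mem_filter]
      refine ⟨hω.1 g, ?_⟩
      rw [Function.update_self]
      rw [← dvd_neg, neg_sub]; exact hx.2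
  apply Finset.sum_bij' (fun (p : (_ : Fin K → ι) × ι) _ => (⟨Function.update p.1 g p.2, p.1 g⟩ : (_ : Fin K → ι) × ι))
    (fun (p : (_ : Fin K → ι) × ι) _ => (⟨Function.update p.1 g p.2, p.1 g⟩ : (_ : Fin K → ι) × ι)) hmem hmem
  · rintro ⟨ω, x⟩ _
    simp
  · rintro ⟨ω, x⟩ _
    simp
  · rintro ⟨ω, x⟩ hp
    rw [mem_sigma] at hp
    obtain ⟨_, hx⟩ := hp
    simp only [hcl, mem_filter] at hx
    simp only [Function.update_idem, Function.update_eq_self, Function.update_self]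
    congr 1
    apply mc_congr
    rw [← dvd_neg, neg_sub]; exact hx.2

/-- weighted partition function -/
noncomputable def GG (q : ℕ) (Ω : Fin K → Finset ι) (Y : Fin K → ι → ℤ) (U : Fin K → ℤ) (U₀ y₀ : ℤ)
    (θ lam : ℝ) (F : ℕ → ℤ → ℝ) (i : ℕ) (t : ℤ) : ℝ :=
  ∑ ω ∈ Fintype.piFinset Ω, Real.exp (lam * NN q Ω Y θ i ω) * F (i + 1) (arg q Y U U₀ y₀ t ω)

theorem arg_update (Y : Fin K → ι → ℤ) (U : Fin K → ℤ) (U₀ y₀ t : ℤ) (ω : Fin K → ι) (g : Fin K)
    (x : ι) : arg q Y U U₀ y₀ t (Function.update ω g x) =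
      arg q Y U U₀ y₀ t ω - q * (U g * (Y g x - Y g (ω g))) := by
  unfold arg
  have : ∑ g', U g' * Y g' (Function.update ω g x g') =
      ∑ g', U g' * Y g' (ω g') + U g * (Y g x - Y g (ω g)) := by
    rw [← sub_eq_iff_eq_add', ← sum_sub_distrib, Finset.sum_eq_single g]
    · rw [Function.update_self]; ring
    · intro g' _ hg'
      rw [Function.update_of_ne hg']; ring
    · intro h; exact absurd (mem_univ _) h
  rw [this]; ring

open scoped Classical in
/-- the class of `ω g` splits into `q` subclasses -/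
theorem class_sum (hq : q.Prime) {F : ℕ → ℤ → ℝ} {c₀ c₁ : ℝ} (hF : GoodF q F c₀ c₁) (s : Finset ι)
    (v : ι → ℤ) (i : ℕ) (c z u : ℤ) (hu : ¬ (q : ℤ) ∣ u) {r : ℝ}
    (hr : ∀ d : ℤ, r ≤ mc q s v (i + 1) (c + (q : ℤ) ^ i * d)) :
    r * (q * F (i + 1) z) ≤
      ∑ x ∈ s.filter (fun x => (q : ℤ) ^ i ∣ v x - c), F (i + 2) (z - q * (u * (v x - c))) := by
  have hq0 : 0 < q := hq.pos
  have hqz : (0 : ℤ) < (q : ℤ) ^ i := by positivity
  -- digit of x
  set dg : ι → ℕ := fun x => (((v x - c) / (q : ℤ) ^ i) % q).toNat with hdg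
  have hdgmem : ∀ x ∈ s.filter (fun x => (q : ℤ) ^ i ∣ v x - c), dg x ∈ range q := by
    intro x _
    rw [mem_range]
    have h1 : ((v x - c) / (q : ℤ) ^ i) % q < q := Int.emod_lt_of_pos _ (by exact_mod_cast hq0)
    have h2 : 0 ≤ ((v x - c) / (q : ℤ) ^ i) % q := Int.emod_nonneg _ (by exact_mod_cast hq0.ne')
    have : ((dg x : ℕ) : ℤ) < q := by
      rw [hdg]; simp only []
      rw [Int.toNat_of_nonneg h2]; exact h1
    exact_mod_cast this
  rw [← Finset.sum_fiberwise_of_maps_to hdgmem]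
  have key : ∀ d ∈ range q, r * F (i + 2) (z - (q : ℤ) ^ (i + 1) * (u * d)) ≤
      ∑ x ∈ (s.filter (fun x => (q : ℤ) ^ i ∣ v x - c)).filter (fun x => dg x = d),
        F (i + 2) (z - q * (u * (v x - c))) := by
    intro d hd
    have hset : (s.filter (fun x => (q : ℤ) ^ i ∣ v x - c)).filter (fun x => dg x = d) =
        s.filter (fun x => (q : ℤ) ^ (i + 1) ∣ v x - (c + (q : ℤ) ^ i * d)) := by
      rw [filter_filter]
      apply filter_congr
      intro x _
      constructor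
      · rintro ⟨⟨k, hk⟩, h2⟩
        rw [hdg] at h2
        simp only [] at h2
        rw [hk, Int.mul_ediv_cancel_left _ hqz.ne'] at h2
        have h3 : k % q = d := by
          have h4 : 0 ≤ k % (q : ℤ) := Int.emod_nonneg _ (by exact_mod_cast hq0.ne')
          rw [← h2, Int.toNat_of_nonneg h4]
        have h5 : v x - (c + (q : ℤ) ^ i * d) = (q : ℤ) ^ (i + 1) * (k / q) := by
          have h6 := Int.emod_add_mul_ediv k q
          rw [h3] at h6
          calc v x - (c + (q : ℤ) ^ i * d) = (v x - c) - (q : ℤ) ^ i * d := by ring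
            _ = (q : ℤ) ^ i * (k - d) := by rw [hk]; ring
            _ = (q : ℤ) ^ i * (q * (k / q)) := by
                have h7 : k - d = q * (k / q) := by linarith
                rw [h7]
            _ = _ := by ring
        rw [h5]; exact dvd_mul_right _ _
      · rintro ⟨k, hk⟩
        have h1 : v x - c = (q : ℤ) ^ i * (d + q * k) := by
          have : v x - c = (v x - (c + (q : ℤ) ^ i * d)) + (q : ℤ) ^ i * d := by ring
          rw [this, hk]; ring
        refine ⟨⟨_, h1⟩, ?_⟩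
        rw [hdg]
        simp only []
        rw [h1, Int.mul_ediv_cancel_left _ hqz.ne', Int.add_mul_emod_self_left]
        rw [Int.emod_eq_of_lt (by positivity) (by exact_mod_cast mem_range.1 hd)]
        simp
    rw [hset]
    have hval : ∀ x ∈ s.filter (fun x => (q : ℤ) ^ (i + 1) ∣ v x - (c + (q : ℤ) ^ i * d)),
        F (i + 2) (z - q * (u * (v x - c))) = F (i + 2) (z - (q : ℤ) ^ (i + 1) * (u * d)) := by
      intro x hx
      rw [mem_filter] at hx
      obtain ⟨k, hk⟩ := hx.2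
      have h1 : v x - c = (q : ℤ) ^ i * d + (q : ℤ) ^ (i + 1) * k := by
        have : v x - c = (v x - (c + (q : ℤ) ^ i * d)) + (q : ℤ) ^ i * d := by ring
        rw [this, hk]; ring
      rw [← hF.per (i + 2) (z - (q : ℤ) ^ (i + 1) * (u * d)) (-(u * k))]
      congr 1
      rw [h1]; ring
    rw [sum_congr rfl hval, sum_const, nsmul_eq_mul]
    have := hr d
    unfold mc at this
    apply mul_le_mul_of_nonneg_right this (hF.nonneg _ _)
  refine le_trans ?_ (sum_le_sum key)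
  rw [← mul_sum]
  have hcop : IsCoprime (-u) ((q : ℕ) : ℤ) := by
    rw [IsCoprime.neg_left_iff]
    have := (Nat.Prime.coprime_iff_not_dvd hq (n := u.natAbs)).2 (by
      intro h; apply hu; exact Int.natCast_dvd.2 h)
    rw [Int.isCoprime_iff_gcd_eq_one]
    rw [Int.gcd_comm]
    simpa [Int.gcd] using this
  have h1 := sum_affine hq0 (h := fun w => F (i + 2) (z + (q : ℤ) ^ (i + 1) * w)) (by
    intro x y
    have := hF.per (i + 2) (z + (q : ℤ) ^ (i + 1) * x) y
    rw [← this]; congr 1; ring) hcop 0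
  have h2 := hF.avg (i + 1) z
  have h3 : ∑ d ∈ range q, F (i + 2) (z - (q : ℤ) ^ (i + 1) * (u * (d : ℤ))) = q * F (i + 1) z := by
    rw [← h2, ← h1]
    apply sum_congr rfl
    intro d _
    congr 1; ring
  rw [h3]

theorem GG_step (hq : q.Prime) {F : ℕ → ℤ → ℝ} {c₀ c₁ : ℝ} (hF : GoodF q F c₀ c₁)
    (Ω : Fin K → Finset ι) (Y : Fin K → ι → ℤ) (U : Fin K → ℤ) (U₀ y₀ : ℤ) {θ lam δ₁ : ℝ}
    (hU : ∀ g, ¬ (q : ℤ) ∣ U g) (hlam : 1 ≤ Real.exp lam * c₀) (hδ₁ : 0 ≤ δ₁)
    (hθ : 2 * Real.sqrt (2 * q * θ) ≤ δ₁) (i : ℕ) (t : ℤ) :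
    (1 - δ₁) * GG q Ω Y U U₀ y₀ θ lam F i t ≤ GG q Ω Y U U₀ y₀ θ lam F (i + 1) t := by
  classical
  have hq0 : 0 < q := hq.pos
  unfold GG
  rw [← Finset.sum_fiberwise (Fintype.piFinset Ω) (fun ω => sel θ (LL q Ω Y i ω)),
    ← Finset.sum_fiberwise (Fintype.piFinset Ω) (fun ω => sel θ (LL q Ω Y i ω))
      (fun ω => Real.exp (lam * NN q Ω Y θ (i + 1) ω) * F (i + 1 + 1) (arg q Y U U₀ y₀ t ω)), mul_sum]
  apply sum_le_sum
  intro o _
  rcases o with _ | g
  · rw [mul_sum]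
    apply sum_le_sum
    intro ω hω
    rw [mem_filter] at hω
    rw [NN_succ_none hω.2]
    push_cast
    have h1 : c₀ * F (i + 1) (arg q Y U U₀ y₀ t ω) ≤ F (i + 1 + 1) (arg q Y U U₀ y₀ t ω) :=
      hF.low _ _ (by omega)
    have h2 : 0 ≤ F (i + 1) (arg q Y U U₀ y₀ t ω) := hF.nonneg _ _
    rw [mul_add, mul_one, Real.exp_add]
    have h3 : 0 < Real.exp (lam * NN q Ω Y θ i ω) := Real.exp_pos _
    have h4 : 0 < Real.exp lam := Real.exp_pos _
    calc (1 - δ₁) * (Real.exp (lam * NN q Ω Y θ i ω) * F (i + 1) (arg q Y U U₀ y₀ t ω))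
        ≤ 1 * (Real.exp (lam * NN q Ω Y θ i ω) * F (i + 1) (arg q Y U U₀ y₀ t ω)) := by
          apply mul_le_mul_of_nonneg_right (by linarith) (by positivity)
      _ ≤ (Real.exp lam * c₀) * (Real.exp (lam * NN q Ω Y θ i ω) * F (i + 1) (arg q Y U U₀ y₀ t ω)) := by
          apply mul_le_mul_of_nonneg_right hlam (by positivity)
      _ = Real.exp (lam * NN q Ω Y θ i ω) * Real.exp lam * (c₀ * F (i + 1) (arg q Y U U₀ y₀ t ω)) := by
          ring
      _ ≤ _ := by
          apply mul_le_mul_of_nonneg_left h1 (by positivity)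
  · rw [resample hq0 Ω Y θ i g (fun ω => Real.exp (lam * NN q Ω Y θ (i + 1) ω) *
      F (i + 1 + 1) (arg q Y U U₀ y₀ t ω)), mul_sum]
    apply sum_le_sum
    intro ω hω
    rw [mem_filter, Fintype.mem_piFinset] at hω
    obtain ⟨hωm, hsel⟩ := hω
    set m := mc q (Ω g) (Y g) i (Y g (ω g)) with hm
    have hmpos : 0 < m := by
      rw [hm]; unfold mc
      have : 0 < ((Ω g).filter (fun x => (q : ℤ) ^ i ∣ Y g x - Y g (ω g))).card :=
        card_pos.2 ⟨ω g, by rw [mem_filter]; exact ⟨hωm g, by simp⟩⟩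
      exact_mod_cast this
    rw [le_div_iff₀ hmpos]
    have hterm : ∀ x ∈ (Ω g).filter (fun x => (q : ℤ) ^ i ∣ Y g x - Y g (ω g)),
        Real.exp (lam * NN q Ω Y θ (i + 1) (Function.update ω g x)) *
          F (i + 1 + 1) (arg q Y U U₀ y₀ t (Function.update ω g x)) =
        Real.exp (lam * NN q Ω Y θ i ω) *
          F (i + 2) (arg q Y U U₀ y₀ t ω - q * (U g * (Y g x - Y g (ω g)))) := by
      intro x hx
      rw [mem_filter] at hx
      have h1 : sel θ (LL q Ω Y i (Function.update ω g x)) = some g := by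
        rw [LL_update hq0 Ω Y le_rfl ω g hx.2]; exact hsel
      rw [NN_succ_some h1, NN_update hq0 Ω Y θ ω g hx.2, arg_update]
    rw [sum_congr rfl hterm, ← mul_sum]
    have hflat : ∀ d : ℤ, (1 - δ₁) * (m / q) ≤ mc q (Ω g) (Y g) (i + 1) (Y g (ω g) + (q : ℤ) ^ i * d) := by
      intro d
      refine le_trans ?_ (Lam_flat hq0 (Ω g) (Y g) i (hωm g) (sel_some hsel) d)
      apply mul_le_mul_of_nonneg_right _ (by positivity)
      linarith
    have := class_sum hq hF (Ω g) (Y g) i (Y g (ω g)) (arg q Y U U₀ y₀ t ω) (U g) (hU g) hflat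
    have hq' : (0 : ℝ) < q := by exact_mod_cast hq0
    have e1 : (1 - δ₁) * (m / q) * (q * F (i + 1) (arg q Y U U₀ y₀ t ω)) =
        (1 - δ₁) * m * F (i + 1) (arg q Y U U₀ y₀ t ω) := by field_simp
    rw [e1] at this
    have h3 : 0 < Real.exp (lam * NN q Ω Y θ i ω) := Real.exp_pos _
    calc (1 - δ₁) * (Real.exp (lam * NN q Ω Y θ i ω) * F (i + 1) (arg q Y U U₀ y₀ t ω)) * m
        = Real.exp (lam * NN q Ω Y θ i ω) * ((1 - δ₁) * m * F (i + 1) (arg q Y U U₀ y₀ t ω)) := by ring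
      _ ≤ _ := mul_le_mul_of_nonneg_left this h3.le

open scoped Classical in
theorem sum_exp_NN (hq : q.Prime) (Ω : Fin K → Finset ι) (Y : Fin K → ι → ℤ) {θ lam B : ℝ}
    (hlam : 0 ≤ lam) (hK : 2 * lam ≤ K * θ) (J : ℕ)
    (hB : ∀ g, ∀ ω ∈ Ω g, mc q (Ω g) (Y g) J (Y g ω) ≤ B * (q : ℝ) ^ (-(J : ℤ)) * (Ω g).card) :
    ∑ ω ∈ Fintype.piFinset Ω, Real.exp (2 * lam * NN q Ω Y θ J ω) ≤
      (∏ g, ((Ω g).card : ℝ)) * Real.sqrt B ^ K := by
  have hq0 : 0 < q := hq.pos
  have hpt : ∀ ω ∈ Fintype.piFinset Ω, Real.exp (2 * lam * NN q Ω Y θ J ω) ≤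
      ∏ g, Real.exp (∑ i ∈ range J, Lam q (Ω g) (Y g) i (Y g (ω g))) := by
    intro ω hω
    rw [Fintype.mem_piFinset] at hω
    rw [← Real.exp_sum]
    apply Real.exp_le_exp.2
    rw [sum_comm]
    unfold NN
    rw [card_filter]
    push_cast
    rw [mul_sum]
    apply sum_le_sum
    intro i _
    have hnn : ∀ g, 0 ≤ Lam q (Ω g) (Y g) i (Y g (ω g)) := fun g => Lam_nonneg hq0 (Ω g) (Y g) i (hω g)
    split_ifs with h
    · rw [mul_one]
      refine hK.trans ?_
      have : ∀ g ∈ (univ : Finset (Fin K)), θ ≤ Lam q (Ω g) (Y g) i (Y g (ω g)) :=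
        fun g _ => (sel_none h g).le
      have := Finset.card_nsmul_le_sum univ _ θ this
      simpa using this
    · rw [mul_zero]
      exact sum_nonneg (fun g _ => hnn g)
  refine (sum_le_sum hpt).trans ?_
  rw [← Finset.prod_univ_sum Ω (fun g x => Real.exp (∑ i ∈ range J, Lam q (Ω g) (Y g) i (Y g x)))]
  have h2 : ∏ g, ∑ x ∈ Ω g, Real.exp (∑ i ∈ range J, Lam q (Ω g) (Y g) i (Y g x)) ≤
      ∏ g : Fin K, (((Ω g).card : ℝ) * Real.sqrt B) := by
    apply prod_le_prod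
    · intro g _; exact sum_nonneg (fun x _ => (Real.exp_pos _).le)
    · intro g _; exact exp_moment hq0 (Ω g) (Y g) J (hB g)
  refine h2.trans ?_
  rw [prod_mul_distrib, prod_const, card_univ, Fintype.card_fin]

theorem isCoprime_pow_of_not_dvd (hq : q.Prime) {u : ℤ} (hu : ¬ (q : ℤ) ∣ u) (J : ℕ) :
    IsCoprime u ((q ^ J : ℕ) : ℤ) := by
  push_cast
  apply IsCoprime.pow_right
  have := (Nat.Prime.coprime_iff_not_dvd hq (n := u.natAbs)).2 (by
    intro h; apply hu; exact Int.natCast_dvd.2 h)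
  rw [Int.isCoprime_iff_gcd_eq_one]
  rw [Int.gcd_comm]
  simpa [Int.gcd] using this

theorem sum_arg (hq : q.Prime) {F : ℕ → ℤ → ℝ} {c₀ c₁ : ℝ} (hF : GoodF q F c₀ c₁)
    (Y : Fin K → ι → ℤ) (U : Fin K → ℤ) {U₀ : ℤ} (y₀ : ℤ) (hU₀ : ¬ (q : ℤ) ∣ U₀) (J : ℕ)
    (ω : Fin K → ι) :
    ∑ t ∈ range (q ^ J), F (J + 1) (arg q Y U U₀ y₀ (t : ℤ) ω) = (q : ℝ) ^ J * F 1 y₀ := by
  rw [← hF.sum_all J y₀]
  have hpos : 0 < q ^ J := pow_pos hq.pos _
  have := sum_affine hpos (h := fun w => F (J + 1) (y₀ + q * w)) (by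
    intro x y
    rw [← hF.per (J + 1) (y₀ + q * x) y]
    congr 1
    push_cast
    ring) (isCoprime_pow_of_not_dvd hq hU₀ J) (-(∑ g, U g * Y g (ω g)))
  rw [← this]
  apply sum_congr rfl
  intro t _
  unfold arg
  congr 1

end core

open scoped Classical in
theorem robust {q : ℕ} (hq : q.Prime) {c₀ c₁ δ : ℝ} (hc₀ : 0 < c₀) (hc₁ : 0 < c₁) (hδ : 0 < δ) :
    ∃ K : ℕ, 1 ≤ K ∧ ∃ ε' : ℝ, 0 < ε' ∧ ∃ C : ℝ, ∀ F : ℕ → ℤ → ℝ, GoodF q F c₀ c₁ →
      ∀ (ι : Type) (Ω : Fin K → Finset ι) (Y : Fin K → ι → ℤ) (U : Fin K → ℤ) (U₀ y₀ : ℤ) (J : ℕ),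
        (∀ g, (Ω g).Nonempty) → (∀ g, ¬ (q : ℤ) ∣ U g) → ¬ (q : ℤ) ∣ U₀ → ¬ (q : ℤ) ∣ y₀ →
        (∀ g, ∀ ω ∈ Ω g, mc q (Ω g) (Y g) J (Y g ω) ≤
          2 * (q : ℝ) ^ (-(J : ℤ)) * Real.exp (ε' * J) * (Ω g).card) →
        (∀ t : ℤ, 0 < ∑ ω ∈ Fintype.piFinset Ω, F (J + 1) (y₀ + q * (U₀ * t - ∑ g, U g * Y g (ω g)))) ∧
        ∑ t ∈ range (q ^ J), -Real.log ((∑ ω ∈ Fintype.piFinset Ω,
            F (J + 1) (y₀ + q * (U₀ * (t : ℤ) - ∑ g, U g * Y g (ω g)))) / ∏ g, ((Ω g).card : ℝ)) ≤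
          (q : ℝ) ^ J * (δ * J + C) := by
  have hq0 : 0 < q := hq.pos
  have hqr : (0 : ℝ) < q := by exact_mod_cast hq0
  set lam : ℝ := |Real.log c₀| with hlam
  have hlam0 : 0 ≤ lam := abs_nonneg _
  have hlam1 : 1 ≤ Real.exp lam * c₀ := by
    have h1 : -Real.log c₀ ≤ lam := by rw [hlam]; exact neg_le_abs _
    have h2 : Real.exp (-Real.log c₀) ≤ Real.exp lam := Real.exp_le_exp.2 h1
    rw [Real.exp_neg, Real.exp_log hc₀] at h2
    calc (1 : ℝ) = c₀⁻¹ * c₀ := by field_simp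
      _ ≤ _ := mul_le_mul_of_nonneg_right h2 hc₀.le
  set δ₁ : ℝ := 1 - Real.exp (-(δ / 4)) with hδ₁
  have hδ₁0 : 0 < δ₁ := by
    have : Real.exp (-(δ / 4)) < 1 := by rw [Real.exp_lt_one_iff]; linarith
    linarith
  have hδ₁1 : 1 - δ₁ = Real.exp (-(δ / 4)) := by rw [hδ₁]; ring
  set θ : ℝ := δ₁ ^ 2 / (8 * q) with hθ
  have hθ0 : 0 < θ := by rw [hθ]; positivity
  have hθ1 : 2 * Real.sqrt (2 * q * θ) ≤ δ₁ := by
    have : 2 * q * θ = (δ₁ / 2) ^ 2 := by rw [hθ]; field_simp; norm_num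
    rw [this, Real.sqrt_sq (by positivity)]
    linarith
  obtain ⟨K₀, hK₀⟩ := exists_nat_ge (2 * lam / θ)
  set K : ℕ := K₀ + 1 with hK
  have hKr : (0 : ℝ) < K := by rw [hK]; positivity
  have hK2 : 2 * lam ≤ K * θ := by
    have : 2 * lam / θ ≤ K := by rw [hK]; push_cast; linarith
    rwa [div_le_iff₀ hθ0] at this
  set ε' : ℝ := δ / K with hε'
  refine ⟨K, by omega, ε', by positivity, -Real.log c₁ + K / 2 * Real.log 2, ?_⟩
  intro F hF ι Ω Y U U₀ y₀ J hne hU hU₀ hy₀ hcls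
  set P : ℝ := ∏ g, ((Ω g).card : ℝ) with hP
  have hPpos : 0 < P := by
    rw [hP]; apply prod_pos; intro g _
    exact_mod_cast card_pos.2 (hne g)
  set F1 : ℝ := F 1 y₀ with hF1
  have hF1pos : c₁ ≤ F1 := hF.one y₀ hy₀
  have hF1pos' : 0 < F1 := lt_of_lt_of_le hc₁ hF1pos
  -- lower bound for the weighted partition function
  have hG0 : ∀ t : ℤ, GG q Ω Y U U₀ y₀ θ lam F 0 t = P * F1 := by
    intro t
    unfold GG
    have : ∀ ω ∈ Fintype.piFinset Ω, Real.exp (lam * NN q Ω Y θ 0 ω) * F (0 + 1) (arg q Y U U₀ y₀ t ω)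
        = F1 := by
      intro ω _
      have h1 : NN q Ω Y θ 0 ω = 0 := by unfold NN; simp
      rw [h1]
      simp only [Nat.cast_zero, mul_zero, Real.exp_zero, one_mul, zero_add]
      rw [hF1, ← hF.per 1 y₀ (U₀ * t - ∑ g, U g * Y g (ω g)), pow_one]
      rfl
    rw [sum_congr rfl this, sum_const, Fintype.card_piFinset, nsmul_eq_mul]
    push_cast
    rw [hP]
  have hGJ : ∀ (t : ℤ) (i : ℕ), Real.exp (-(δ / 4)) ^ i * (P * F1) ≤ GG q Ω Y U U₀ y₀ θ lam F i t := by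
    intro t i
    induction i with
    | zero => rw [pow_zero, one_mul, hG0]
    | succ i ih =>
      have := GG_step hq hF Ω Y U U₀ y₀ hU hlam1 hδ₁0.le hθ1 i t
      rw [hδ₁1] at this
      calc Real.exp (-(δ / 4)) ^ (i + 1) * (P * F1)
          = Real.exp (-(δ / 4)) * (Real.exp (-(δ / 4)) ^ i * (P * F1)) := by ring
        _ ≤ Real.exp (-(δ / 4)) * GG q Ω Y U U₀ y₀ θ lam F i t :=
          mul_le_mul_of_nonneg_left ih (Real.exp_pos _).le
        _ ≤ _ := this
  -- the two sums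
  set Z : ℤ → ℝ := fun t => ∑ ω ∈ Fintype.piFinset Ω, F (J + 1) (arg q Y U U₀ y₀ t ω) with hZ
  set S : ℤ → ℝ := fun t => ∑ ω ∈ Fintype.piFinset Ω,
    Real.exp (2 * lam * NN q Ω Y θ J ω) * F (J + 1) (arg q Y U U₀ y₀ t ω) with hS
  have hCS : ∀ t, GG q Ω Y U U₀ y₀ θ lam F J t ^ 2 ≤ Z t * S t := by
    intro t
    unfold GG
    have h1 := Finset.sum_mul_sq_le_sq_mul_sq (Fintype.piFinset Ω)
      (fun ω => Real.sqrt (F (J + 1) (arg q Y U U₀ y₀ t ω)))
      (fun ω => Real.exp (lam * NN q Ω Y θ J ω) * Real.sqrt (F (J + 1) (arg q Y U U₀ y₀ t ω)))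
    have h2 : ∀ ω, Real.sqrt (F (J + 1) (arg q Y U U₀ y₀ t ω)) *
        (Real.exp (lam * NN q Ω Y θ J ω) * Real.sqrt (F (J + 1) (arg q Y U U₀ y₀ t ω))) =
        Real.exp (lam * NN q Ω Y θ J ω) * F (J + 1) (arg q Y U U₀ y₀ t ω) := by
      intro ω
      have := Real.mul_self_sqrt (hF.nonneg (J + 1) (arg q Y U U₀ y₀ t ω))
      linear_combination Real.exp (lam * NN q Ω Y θ J ω) * this
    have h3 : ∀ ω, Real.sqrt (F (J + 1) (arg q Y U U₀ y₀ t ω)) ^ 2 = F (J + 1) (arg q Y U U₀ y₀ t ω) :=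
      fun ω => Real.sq_sqrt (hF.nonneg _ _)
    have h4 : ∀ ω, (Real.exp (lam * NN q Ω Y θ J ω) *
        Real.sqrt (F (J + 1) (arg q Y U U₀ y₀ t ω))) ^ 2 =
        Real.exp (2 * lam * NN q Ω Y θ J ω) * F (J + 1) (arg q Y U U₀ y₀ t ω) := by
      intro ω
      rw [mul_pow, h3, ← Real.exp_nat_mul]
      congr 2
      push_cast; ring
    simp only [h2, h3, h4] at h1
    exact h1
  have hGpos : ∀ t, 0 < GG q Ω Y U U₀ y₀ θ lam F J t := by
    intro t
    refine lt_of_lt_of_le ?_ (hGJ t J)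
    positivity
  have hZnn : ∀ t, 0 ≤ Z t := fun t => sum_nonneg (fun ω _ => hF.nonneg _ _)
  have hSnn : ∀ t, 0 ≤ S t := fun t =>
    sum_nonneg (fun ω _ => mul_nonneg (Real.exp_pos _).le (hF.nonneg _ _))
  have hZS : ∀ t, 0 < Z t * S t := fun t => lt_of_lt_of_le (by have := hGpos t; positivity) (hCS t)
  have hZpos : ∀ t, 0 < Z t := by
    intro t
    rcases (hZnn t).lt_or_eq with h | h
    · exact h
    · have := hZS t; rw [← h, zero_mul] at this; exact absurd this (lt_irrefl _)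
  have hSpos : ∀ t, 0 < S t := by
    intro t
    rcases (hSnn t).lt_or_eq with h | h
    · exact h
    · have := hZS t; rw [← h, mul_zero] at this; exact absurd this (lt_irrefl _)
  refine ⟨fun t => hZpos t, ?_⟩
  -- average of S
  set B : ℝ := 2 * Real.exp (ε' * J) with hB
  have hBpos : 0 < B := by rw [hB]; positivity
  set A : ℝ := F1 * P * Real.sqrt B ^ K with hA
  have hApos : 0 < A := by
    rw [hA]; have := Real.sqrt_pos.2 hBpos; positivity
  have hSsum : ∑ t ∈ range (q ^ J), S (t : ℤ) ≤ (q : ℝ) ^ J * A := by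
    rw [hS]
    simp only []
    rw [sum_comm]
    have h1 : ∀ ω ∈ Fintype.piFinset Ω, ∑ t ∈ range (q ^ J), Real.exp (2 * lam * NN q Ω Y θ J ω) *
        F (J + 1) (arg q Y U U₀ y₀ (t : ℤ) ω) = Real.exp (2 * lam * NN q Ω Y θ J ω) * ((q : ℝ) ^ J * F1) := by
      intro ω _
      rw [← mul_sum, sum_arg hq hF Y U y₀ hU₀ J ω]
    rw [sum_congr rfl h1, ← sum_mul]
    have h2 := sum_exp_NN hq Ω Y (θ := θ) (B := B) hlam0 hK2 J (by
      intro g ω hω
      refine (hcls g ω hω).trans (le_of_eq ?_)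
      rw [hB]; ring)
    calc (∑ ω ∈ Fintype.piFinset Ω, Real.exp (2 * lam * NN q Ω Y θ J ω)) * ((q : ℝ) ^ J * F1)
        ≤ (P * Real.sqrt B ^ K) * ((q : ℝ) ^ J * F1) := by
          apply mul_le_mul_of_nonneg_right h2 (by positivity)
      _ = _ := by rw [hA]; ring
  have hlogS : ∑ t ∈ range (q ^ J), Real.log (S (t : ℤ)) ≤ (q : ℝ) ^ J * Real.log A := by
    have h1 : ∀ t ∈ range (q ^ J), Real.log (S (t : ℤ)) ≤ Real.log A + (S (t : ℤ) / A - 1) := by
      intro t _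
      have := Real.log_le_sub_one_of_pos (div_pos (hSpos (t : ℤ)) hApos)
      rw [Real.log_div (hSpos _).ne' hApos.ne'] at this
      linarith
    refine (sum_le_sum h1).trans ?_
    rw [sum_add_distrib, sum_sub_distrib, ← sum_div]
    simp only [sum_const, card_range, nsmul_eq_mul, mul_one]
    push_cast
    have : (∑ t ∈ range (q ^ J), S (t : ℤ)) / A ≤ (q : ℝ) ^ J := by
      rw [div_le_iff₀ hApos]; exact hSsum
    linarith
  have hlogA : Real.log A = Real.log F1 + Real.log P + K / 2 * (Real.log 2 + ε' * J) := by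
    rw [hA, Real.log_mul (by positivity) (by have := Real.sqrt_pos.2 hBpos; positivity),
      Real.log_mul hF1pos'.ne' hPpos.ne', Real.log_pow, Real.log_sqrt hBpos.le, hB,
      Real.log_mul (by norm_num) (Real.exp_pos _).ne', Real.log_exp]
    ring
  have hterm : ∀ t ∈ range (q ^ J), -Real.log (Z (t : ℤ) / P) ≤
      2 * (δ / 4 * J) - 2 * Real.log F1 - Real.log P + Real.log (S (t : ℤ)) := by
    intro t _
    have h1 : Real.log (GG q Ω Y U U₀ y₀ θ lam F J (t : ℤ) ^ 2) ≤ Real.log (Z t * S t) :=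
      Real.log_le_log (by have := hGpos (t : ℤ); positivity) (hCS _)
    rw [Real.log_pow, Real.log_mul (hZpos _).ne' (hSpos _).ne'] at h1
    have h2 : Real.log (Real.exp (-(δ / 4)) ^ J * (P * F1)) ≤
        Real.log (GG q Ω Y U U₀ y₀ θ lam F J (t : ℤ)) :=
      Real.log_le_log (by positivity) (hGJ _ _)
    rw [Real.log_mul (by positivity) (by positivity), Real.log_pow, Real.log_exp,
      Real.log_mul hPpos.ne' hF1pos'.ne'] at h2
    rw [Real.log_div (hZpos _).ne' hPpos.ne']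
    push_cast at h1
    linarith
  have hlogF1 : Real.log c₁ ≤ Real.log F1 := Real.log_le_log hc₁ hF1pos
  have hqJ : (0 : ℝ) ≤ (q : ℝ) ^ J := by positivity
  calc ∑ t ∈ range (q ^ J), -Real.log (Z (t : ℤ) / P)
      ≤ ∑ t ∈ range (q ^ J), (2 * (δ / 4 * J) - 2 * Real.log F1 - Real.log P + Real.log (S (t : ℤ))) :=
        sum_le_sum hterm
    _ = (q : ℝ) ^ J * (2 * (δ / 4 * J) - 2 * Real.log F1 - Real.log P) +
        ∑ t ∈ range (q ^ J), Real.log (S (t : ℤ)) := by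
        rw [sum_add_distrib, sum_const, card_range, nsmul_eq_mul]
        push_cast
        ring
    _ ≤ (q : ℝ) ^ J * (2 * (δ / 4 * J) - 2 * Real.log F1 - Real.log P) + (q : ℝ) ^ J * Real.log A := by
        linarith
    _ = (q : ℝ) ^ J * (δ / 2 * J - Real.log F1 + K / 2 * Real.log 2 + K / 2 * ε' * J) := by
        rw [hlogA]; ring
    _ ≤ _ := by
        apply mul_le_mul_of_nonneg_left _ hqJ
        have : K / 2 * ε' * J = δ / 2 * (J : ℝ) := by
          rw [hε']; field_simp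
        rw [this]
        linarith

end Pool.Agent.H422R2.QA
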