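import Pool.Agent.H422R2.QA.QADefs

/-! Task E (THIN): near-uniform digits leave few members in large classes. -/

set_option autoImplicit false

namespace Pool.Agent.H422R2.QA

open Finset Pool.Agent.H320R2.PD
open scoped NNReal

namespace Thin

theorem mc_congr {ι : Type*} (q : ℕ) (s : Finset ι) (v : ι → ℤ) (j : ℕ) {c c' : ℤ}
    (h : (q : ℤ) ^ j ∣ c - c') : mc q s v j c = mc q s v j c' := by
  classical
  unfold mc
  congr 2
  apply Finset.filter_congr
  intro i _
  constructor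
  · intro h1
    have := dvd_add h1 h
    rwa [sub_add_sub_cancel] at this
  · intro h1
    have := dvd_sub h1 h
    rwa [show v i - c' - (c - c') = v i - c by ring] at this

open scoped Classical in
theorem sum_mod {ι : Type*} (s : Finset ι) (m : ℕ) (hm : 0 < m) (v : ι → ℤ) (f : ι → ℝ) :
    ∑ i ∈ s, f i = ∑ c ∈ range m, ∑ i ∈ s.filter (fun i => (m : ℤ) ∣ v i - c), f i := by
  have hm' : (0 : ℤ) < m := by exact_mod_cast hm
  rw [← Finset.sum_fiberwise_of_maps_to (t := range m) (g := fun i => (v i % (m : ℤ)).toNat)]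
  · apply Finset.sum_congr rfl
    intro c hc
    have hc' := Finset.mem_range.mp hc
    apply Finset.sum_congr _ (fun _ _ => rfl)
    apply Finset.filter_congr
    intro i _
    have h1 := Int.emod_nonneg (v i) hm'.ne'
    have h2 := Int.emod_lt_of_pos (v i) hm'
    have h3 : ((c : ℤ)) % (m : ℤ) = c := Int.emod_eq_of_lt (by omega) (by exact_mod_cast hc')
    constructor
    · intro h
      have h4 : v i % (m : ℤ) = c := by omega
      exact Int.ModEq.dvd (show (c : ℤ) ≡ v i [ZMOD m] by unfold Int.ModEq; rw [h3, h4])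
    · intro h
      have h4 : (c : ℤ) % m = v i % m := (Int.modEq_iff_dvd.mpr h)
      omega
  · intro i _
    have h1 := Int.emod_nonneg (v i) hm'.ne'
    have h2 := Int.emod_lt_of_pos (v i) hm'
    rw [Finset.mem_range]
    omega

open scoped Classical in
theorem sum_level {ι : Type*} {q : ℕ} (hq : 0 < q) (s : Finset ι) (v : ι → ℤ) (j : ℕ)
    (f : ι → ℝ) :
    ∑ i ∈ s, f i = ∑ c ∈ range (q ^ j), ∑ i ∈ s.filter (fun i => (q : ℤ) ^ j ∣ v i - c), f i := by
  have := sum_mod s (q ^ j) (pow_pos hq j) v f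
  push_cast at this
  exact this

open scoped Classical in
theorem sum_step {ι : Type*} {q : ℕ} (hq : 0 < q) (s : Finset ι) (v : ι → ℤ) (j : ℕ) (c : ℤ)
    (f : ι → ℝ) :
    ∑ i ∈ s.filter (fun i => (q : ℤ) ^ j ∣ v i - c), f i =
      ∑ d ∈ range q, ∑ i ∈ s.filter (fun i => (q : ℤ) ^ (j + 1) ∣ v i - (c + (q : ℤ) ^ j * d)),
        f i := by
  have hq' : (q : ℤ) ^ j ≠ 0 := pow_ne_zero _ (by exact_mod_cast hq.ne')
  rw [sum_mod (s.filter (fun i => (q : ℤ) ^ j ∣ v i - c)) q hq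
    (fun i => (v i - c) / (q : ℤ) ^ j) f]
  apply Finset.sum_congr rfl
  intro d _
  apply Finset.sum_congr _ (fun _ _ => rfl)
  rw [Finset.filter_filter]
  apply Finset.filter_congr
  intro i _
  constructor
  · rintro ⟨⟨k, hk⟩, h2⟩
    rw [hk, Int.mul_ediv_cancel_left _ hq'] at h2
    obtain ⟨l, hl⟩ := h2
    refine ⟨l, ?_⟩
    have : v i - (c + (q : ℤ) ^ j * d) = (q : ℤ) ^ j * (k - d) := by
      rw [mul_sub, ← hk]; ring
    rw [this, hl]
    ring
  · rintro ⟨l, hl⟩
    have hk : v i - c = (q : ℤ) ^ j * (q * l + d) := by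
      have : v i - c = (v i - (c + (q : ℤ) ^ j * d)) + (q : ℤ) ^ j * d := by ring
      rw [this, hl]
      ring
    refine ⟨⟨_, hk⟩, ?_⟩
    rw [hk, Int.mul_ediv_cancel_left _ hq']
    exact ⟨l, by ring⟩

open scoped Classical in
/-- in a class the function `mc` is constant -/
theorem mc_class {ι : Type*} (q : ℕ) (s : Finset ι) (v : ι → ℤ) {j k : ℕ} (hjk : j ≤ k) {c : ℤ}
    {i : ι} (hi : i ∈ s.filter (fun i => (q : ℤ) ^ k ∣ v i - c)) :
    mc q s v j (v i) = mc q s v j c :=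
  mc_congr q s v j ((pow_dvd_pow (q : ℤ) hjk).trans (Finset.mem_filter.mp hi).2)

open scoped Classical in
/-- sum over a class of a function of `mc` -/
theorem sum_class {ι : Type*} (q : ℕ) (s : Finset ι) (v : ι → ℤ) (j : ℕ) (c : ℤ) (g : ℝ → ℝ) :
    ∑ i ∈ s.filter (fun i => (q : ℤ) ^ j ∣ v i - c), g (mc q s v j (v i)) =
      mc q s v j c * g (mc q s v j c) := by
  rw [Finset.sum_congr rfl (fun i hi => by rw [mc_class q s v le_rfl hi]), Finset.sum_const,
    nsmul_eq_mul]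
  rfl

/-- one level of the entropy estimate -/
theorem level_le {ι : Type*} {q : ℕ} (hq : q.Prime) (s : Finset ι) (v : ι → ℤ)
    (hE : ∀ (j : ℕ) (c : ℤ), mc q s v j c * Real.log q - hc q s v j c ≤ (q - 1) * Fb q s v j c)
    (j : ℕ) :
    (s.card : ℝ) * Real.log q + ∑ i ∈ s, Real.log (mc q s v (j + 1) (v i)) -
      ∑ i ∈ s, Real.log (mc q s v j (v i)) ≤ (q - 1) * Gm q s v j := by
  classical
  have h1 : (s.card : ℝ) = ∑ c ∈ range (q ^ j), mc q s v j (c : ℤ) := by
    have := sum_level hq.pos s v j (fun _ => (1 : ℝ))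
    rw [Finset.sum_const, nsmul_eq_mul, mul_one] at this
    rw [this]
    apply Finset.sum_congr rfl
    intro c _
    rw [Finset.sum_const, nsmul_eq_mul, mul_one]
    rfl
  have h2 : ∑ i ∈ s, Real.log (mc q s v j (v i)) =
      ∑ c ∈ range (q ^ j), mc q s v j (c : ℤ) * Real.log (mc q s v j (c : ℤ)) := by
    rw [sum_level hq.pos s v j]
    apply Finset.sum_congr rfl
    intro c _
    exact sum_class q s v j c Real.log
  have h3 : ∑ i ∈ s, Real.log (mc q s v (j + 1) (v i)) =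
      ∑ c ∈ range (q ^ j), ∑ d ∈ range q, mc q s v (j + 1) ((c : ℤ) + (q : ℤ) ^ j * d) *
        Real.log (mc q s v (j + 1) ((c : ℤ) + (q : ℤ) ^ j * d)) := by
    rw [sum_level hq.pos s v j]
    apply Finset.sum_congr rfl
    intro c _
    rw [sum_step hq.pos s v j c]
    apply Finset.sum_congr rfl
    intro d _
    exact sum_class q s v (j + 1) _ Real.log
  rw [h1, h2, h3, Finset.sum_mul, ← Finset.sum_add_distrib, ← Finset.sum_sub_distrib]
  unfold Gm
  rw [Finset.mul_sum]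
  apply Finset.sum_le_sum
  intro c _
  have := hE j (c : ℤ)
  unfold hc at this
  linarith

theorem tele_le {ι : Type*} {q : ℕ} (hq : q.Prime) (s : Finset ι) (v : ι → ℤ)
    (hE : ∀ (j : ℕ) (c : ℤ), mc q s v j c * Real.log q - hc q s v j c ≤ (q - 1) * Fb q s v j c)
    (D J : ℕ) :
    (s.card : ℝ) * (J * Real.log q) + ∑ i ∈ s, Real.log (mc q s v (D + J) (v i)) -
      ∑ i ∈ s, Real.log (mc q s v D (v i)) ≤ (q - 1) * ∑ i ∈ range J, Gm q s v (D + i) := by
  induction J with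
  | zero => simp
  | succ J ih =>
    rw [Finset.sum_range_succ, mul_add]
    have h := level_le hq s v hE (D + J)
    rw [← add_assoc D J 1]
    push_cast
    linarith

theorem mc_nonneg {ι : Type*} (q : ℕ) (s : Finset ι) (v : ι → ℤ) (j : ℕ) (c : ℤ) :
    0 ≤ mc q s v j c := by
  unfold mc; positivity

theorem mc_pos {ι : Type*} (q : ℕ) (s : Finset ι) (v : ι → ℤ) (j : ℕ) {i : ι} (hi : i ∈ s) :
    0 < mc q s v j (v i) := by
  classical
  unfold mc
  rw [Nat.cast_pos, Finset.card_pos]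
  exact ⟨i, Finset.mem_filter.mpr ⟨hi, by simp⟩⟩

theorem ratio_step {ι : Type*} {q : ℕ} (hq : 0 < q) (s : Finset ι) (v : ι → ℤ) (D J : ℕ) :
    ∑ i ∈ s, mc q s v D (v i) / mc q s v (D + (J + 1)) (v i) ≤
      q * ∑ i ∈ s, mc q s v D (v i) / mc q s v (D + J) (v i) := by
  classical
  rw [sum_level hq s v (D + J), sum_level hq s v (D + J) (fun i =>
    mc q s v D (v i) / mc q s v (D + J) (v i)), Finset.mul_sum]
  apply Finset.sum_le_sum
  intro c _
  have hR : ∑ i ∈ s.filter (fun i => (q : ℤ) ^ (D + J) ∣ v i - c),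
      mc q s v D (v i) / mc q s v (D + J) (v i) =
      mc q s v (D + J) (c : ℤ) * (mc q s v D (c : ℤ) / mc q s v (D + J) (c : ℤ)) := by
    rw [Finset.sum_congr rfl (fun i hi => by
      rw [mc_class q s v le_rfl hi, mc_class q s v (Nat.le_add_right D J) hi]),
      Finset.sum_const, nsmul_eq_mul]
    rfl
  rw [hR, sum_step hq s v (D + J) c]
  have hL : ∀ d ∈ range q, ∑ i ∈ s.filter (fun i => (q : ℤ) ^ (D + J + 1) ∣
      v i - ((c : ℤ) + (q : ℤ) ^ (D + J) * d)),
      mc q s v D (v i) / mc q s v (D + (J + 1)) (v i) ≤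
      mc q s v (D + J) (c : ℤ) * (mc q s v D (c : ℤ) / mc q s v (D + J) (c : ℤ)) := by
    intro d _
    have hD : mc q s v D ((c : ℤ) + (q : ℤ) ^ (D + J) * d) = mc q s v D (c : ℤ) := by
      apply mc_congr
      rw [add_sub_cancel_left]
      exact Dvd.dvd.mul_right (pow_dvd_pow _ (Nat.le_add_right D J)) _
    have e1 : ∑ i ∈ s.filter (fun i => (q : ℤ) ^ (D + J + 1) ∣
        v i - ((c : ℤ) + (q : ℤ) ^ (D + J) * d)),
        mc q s v D (v i) / mc q s v (D + (J + 1)) (v i) =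
        mc q s v (D + J + 1) ((c : ℤ) + (q : ℤ) ^ (D + J) * d) *
          (mc q s v D (c : ℤ) / mc q s v (D + J + 1) ((c : ℤ) + (q : ℤ) ^ (D + J) * d)) := by
      rw [Finset.sum_congr rfl (fun i hi => by
        rw [← add_assoc D J 1, mc_class q s v le_rfl hi, mc_class q s v (by omega) hi, hD]),
        Finset.sum_const, nsmul_eq_mul]
      rfl
    rw [e1]
    have hle : mc q s v (D + J + 1) ((c : ℤ) + (q : ℤ) ^ (D + J) * d) ≤
        mc q s v (D + J) (c : ℤ) := by
      have h1 : mc q s v (D + J) (c : ℤ) =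
          mc q s v (D + J) ((c : ℤ) + (q : ℤ) ^ (D + J) * d) := by
        symm
        apply mc_congr
        rw [add_sub_cancel_left]
        exact Dvd.intro _ rfl
      rw [h1]
      unfold mc
      rw [Nat.cast_le]
      apply Finset.card_le_card
      intro i hi
      rw [Finset.mem_filter] at hi ⊢
      exact ⟨hi.1, (pow_dvd_pow (q : ℤ) (Nat.le_succ _)).trans hi.2⟩
    rcases (mc_nonneg q s v (D + J + 1) ((c : ℤ) + (q : ℤ) ^ (D + J) * d)).eq_or_lt with h0 | h0
    · rw [← h0, zero_mul]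
      exact mul_nonneg (mc_nonneg _ _ _ _ _) (div_nonneg (mc_nonneg _ _ _ _ _)
        (mc_nonneg _ _ _ _ _))
    · have h0' := h0.trans_le hle
      rw [mul_div_cancel₀ _ h0.ne', mul_div_cancel₀ _ h0'.ne']
  refine (Finset.sum_le_sum hL).trans ?_
  rw [Finset.sum_const, Finset.card_range, nsmul_eq_mul]

theorem ratio_le {ι : Type*} {q : ℕ} (hq : 0 < q) (s : Finset ι) (v : ι → ℤ) (D J : ℕ) :
    ∑ i ∈ s, mc q s v D (v i) / mc q s v (D + J) (v i) ≤ (q : ℝ) ^ J * s.card := by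
  induction J with
  | zero =>
    rw [pow_zero, one_mul, add_zero]
    have : ∀ i ∈ s, mc q s v D (v i) / mc q s v D (v i) = 1 := fun i hi =>
      div_self (mc_pos q s v D hi).ne'
    rw [Finset.sum_congr rfl this, Finset.sum_const, nsmul_eq_mul, mul_one]
  | succ J ih =>
    refine (ratio_step hq s v D J).trans ?_
    rw [pow_succ]
    have hq' : (0 : ℝ) ≤ q := Nat.cast_nonneg _
    calc (q : ℝ) * ∑ i ∈ s, mc q s v D (v i) / mc q s v (D + J) (v i)
        ≤ q * ((q : ℝ) ^ J * s.card) := mul_le_mul_of_nonneg_left ih hq'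
      _ = (q : ℝ) ^ J * q * s.card := by ring

end Thin

open Thin in
open scoped Classical in
/-- if the digits `D, ..., D+J-1` are nearly uniform on average, most members lie in classes mod
`q^(D+J)` which are not much larger than they should be -/
theorem thin_of {ι : Type*} {q : ℕ} (hq : q.Prime) (s : Finset ι) (v : ι → ℤ)
    (hE : ∀ (j : ℕ) (c : ℤ), mc q s v j c * Real.log q - hc q s v j c ≤ (q - 1) * Fb q s v j c)
    (D J : ℕ) (ε' : ℝ) :
    ((s.filter (fun i => (q : ℝ) ^ (-(J : ℤ)) * Real.exp (ε' * J) * mc q s v D (v i) <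
        mc q s v (D + J) (v i))).card : ℝ) * (ε' * J) ≤
      (q - 1) * ∑ i ∈ range J, Gm q s v (D + i) + s.card := by
  have hq0 : (0 : ℝ) < q := by exact_mod_cast hq.pos
  have hqJ : (0 : ℝ) < (q : ℝ) ^ J := pow_pos hq0 J
  set B := s.filter (fun i => (q : ℝ) ^ (-(J : ℤ)) * Real.exp (ε' * J) * mc q s v D (v i) <
        mc q s v (D + J) (v i)) with hB
  let ρ : ι → ℝ := fun i => (q : ℝ) ^ J * mc q s v (D + J) (v i) / mc q s v D (v i)
  have hρ : ∀ i ∈ s, 0 < ρ i := fun i hi =>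
    div_pos (mul_pos hqJ (mc_pos q s v (D + J) hi)) (mc_pos q s v D hi)
  have hlog : ∀ i ∈ s, Real.log (ρ i) = J * Real.log q + Real.log (mc q s v (D + J) (v i)) -
      Real.log (mc q s v D (v i)) := by
    intro i hi
    change Real.log ((q : ℝ) ^ J * mc q s v (D + J) (v i) / mc q s v D (v i)) = _
    rw [Real.log_div (mul_pos hqJ (mc_pos q s v (D + J) hi)).ne' (mc_pos q s v D hi).ne',
      Real.log_mul hqJ.ne' (mc_pos q s v (D + J) hi).ne', Real.log_pow]
  have h1 : ∑ i ∈ s, Real.log (ρ i) ≤ (q - 1) * ∑ i ∈ range J, Gm q s v (D + i) := by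
    rw [Finset.sum_congr rfl hlog, Finset.sum_sub_distrib, Finset.sum_add_distrib,
      Finset.sum_const, nsmul_eq_mul]
    exact tele_le hq s v hE D J
  have h2 : ∑ i ∈ s, (ρ i)⁻¹ ≤ s.card := by
    have e : ∀ i ∈ s, (ρ i)⁻¹ = ((q : ℝ) ^ J)⁻¹ * (mc q s v D (v i) / mc q s v (D + J) (v i)) := by
      intro i hi
      change ((q : ℝ) ^ J * mc q s v (D + J) (v i) / mc q s v D (v i))⁻¹ = _
      rw [inv_div, ← div_div, div_eq_inv_mul, div_eq_inv_mul, div_eq_inv_mul]
      ring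
    rw [Finset.sum_congr rfl e, ← Finset.mul_sum, inv_mul_le_iff₀ hqJ]
    exact ratio_le hq.pos s v D J
  have h3 : ∀ i ∈ s, 0 ≤ Real.log (ρ i) + (ρ i)⁻¹ := by
    intro i hi
    have := Real.one_sub_inv_le_log_of_pos (hρ i hi)
    linarith
  have h4 : ∀ i ∈ B, ε' * J ≤ Real.log (ρ i) + (ρ i)⁻¹ := by
    intro i hi
    obtain ⟨hi1, hi2⟩ := Finset.mem_filter.mp hi
    have h5 : Real.exp (ε' * J) < ρ i := by
      change _ < (q : ℝ) ^ J * mc q s v (D + J) (v i) / mc q s v D (v i)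
      rw [lt_div_iff₀ (mc_pos q s v D hi1)]
      rw [zpow_neg, zpow_natCast, mul_assoc, inv_mul_lt_iff₀ hqJ] at hi2
      exact hi2
    have h6 := Real.log_lt_log (Real.exp_pos _) h5
    rw [Real.log_exp] at h6
    have := inv_pos.mpr (hρ i hi1)
    linarith
  calc (B.card : ℝ) * (ε' * J) = ∑ i ∈ B, ε' * J := by rw [Finset.sum_const, nsmul_eq_mul]
    _ ≤ ∑ i ∈ B, (Real.log (ρ i) + (ρ i)⁻¹) := Finset.sum_le_sum h4
    _ ≤ ∑ i ∈ s, (Real.log (ρ i) + (ρ i)⁻¹) :=
        Finset.sum_le_sum_of_subset_of_nonneg (Finset.filter_subset _ _) (fun i hi _ => h3 i hi)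
    _ ≤ _ := by
        rw [Finset.sum_add_distrib]
        exact add_le_add h1 h2

end Pool.Agent.H422R2.QA
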