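import Pool.Agent.H422R2.QA.QADefs
import Pool.Agent.H422R2.QA.QAWords
import Pool.Agent.H422R2.QA.QABal
import Pool.Agent.H422R2.QA.QAFrame
import Pool.Agent.H422R2.QA.QAThin
import Pool.Agent.H422R2.QA.QAFour2
import Pool.Agent.H422R2.QA.QARobust

/-!
Task I2 (ASM): average of `-log HH` (frames, thin, robust).
-/

set_option autoImplicit false

namespace Pool.Agent.H422R2.QA

open Finset Pool.Agent.H320R2.PD

namespace Asm

/-- averaging over the classes of an equivalence relation -/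
theorem avg_class {α : Type*} [DecidableEq α] (S : Finset α) (Ω : α → Finset α)
    (h1 : ∀ τ ∈ S, Ω τ ⊆ S) (h2 : ∀ τ ∈ S, τ ∈ Ω τ) (h3 : ∀ τ ∈ S, ∀ ω ∈ Ω τ, Ω ω = Ω τ)
    (f : α → ℝ) : ∑ τ ∈ S, (∑ ω ∈ Ω τ, f ω) / (Ω τ).card = ∑ ω ∈ S, f ω := by
  have e1 : ∀ τ ∈ S, (∑ ω ∈ Ω τ, f ω) / (Ω τ).card =
      ∑ ω ∈ S, if ω ∈ Ω τ then f ω / (Ω τ).card else 0 := by
    intro τ hτ
    rw [← Finset.sum_filter, Finset.sum_div]
    have : S.filter (fun ω => ω ∈ Ω τ) = Ω τ := by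
      ext ω
      simp only [Finset.mem_filter]
      exact ⟨fun h => h.2, fun h => ⟨h1 τ hτ h, h⟩⟩
    rw [this]
  rw [Finset.sum_congr rfl e1, Finset.sum_comm]
  refine Finset.sum_congr rfl fun ω hω => ?_
  have e2 : ∀ τ ∈ S, (if ω ∈ Ω τ then f ω / (Ω τ).card else 0) =
      if τ ∈ Ω ω then f ω / (Ω ω).card else 0 := by
    intro τ hτ
    by_cases h : ω ∈ Ω τ
    · have h4 := h3 τ hτ ω h
      rw [if_pos h, h4, if_pos (h2 τ hτ)]
    · rw [if_neg h, if_neg]
      intro h'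
      apply h
      rw [h3 ω hω τ h']
      exact h2 ω hω
  rw [Finset.sum_congr rfl e2, ← Finset.sum_filter]
  have : S.filter (fun τ => τ ∈ Ω ω) = Ω ω := by
    ext τ
    simp only [Finset.mem_filter]
    exact ⟨fun h => h.2, fun h => ⟨h1 ω hω h, h⟩⟩
  rw [this, Finset.sum_const, nsmul_eq_mul]
  have hc : ((Ω ω).card : ℝ) ≠ 0 := by
    have : 0 < (Ω ω).card := Finset.card_pos.mpr ⟨ω, h2 ω hω⟩
    positivity
  field_simp

/-- the frame of a word: same size and same class mod `q^D` of the offset -/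
def frm (q : ℕ) (T : Finset (List ℕ)) (D : ℕ) (w : List ℕ) : Finset (List ℕ) :=
  T.filter (fun w' => w'.sum = w.sum ∧ (q : ℤ) ^ D ∣ (Wq q w' : ℤ) - Wq q w)

/-- words in exceptionally large classes mod `q^(D+J)` -/
def Bad (q : ℕ) (T : Finset (List ℕ)) (D J : ℕ) (ε' : ℝ) (w : List ℕ) : Prop :=
  (q : ℝ) ^ (-(J : ℤ)) * Real.exp (ε' * J) *
      mc q (T.filter (fun w' => w'.sum = w.sum)) (fun w => (Wq q w : ℤ)) D (Wq q w) <
    mc q (T.filter (fun w' => w'.sum = w.sum)) (fun w => (Wq q w : ℤ)) (D + J) (Wq q w)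

open scoped Classical in
/-- the good words of the frame -/
noncomputable def gd (q : ℕ) (T : Finset (List ℕ)) (D J : ℕ) (ε' : ℝ) (w : List ℕ) :
    Finset (List ℕ) :=
  (frm q T D w).filter (fun w' => ¬ Bad q T D J ε' w')

/-- nice words -/
def Nice (q : ℕ) (T : Finset (List ℕ)) (D J : ℕ) (ε' : ℝ) (w : List ℕ) : Prop :=
  ¬ Bad q T D J ε' w ∧ (frm q T D w).card ≤ 2 * (gd q T D J ε' w).card

section
variable {q : ℕ} {T : Finset (List ℕ)} {D J : ℕ} {ε' : ℝ}

theorem mem_frm {w w' : List ℕ} : w' ∈ frm q T D w ↔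
    w' ∈ T ∧ w'.sum = w.sum ∧ (q : ℤ) ^ D ∣ (Wq q w' : ℤ) - Wq q w := by
  unfold frm
  rw [Finset.mem_filter]

theorem self_mem_frm {w : List ℕ} (hw : w ∈ T) : w ∈ frm q T D w := by
  rw [mem_frm]
  exact ⟨hw, rfl, by simp⟩

theorem frm_eq {w w' : List ℕ} (h : w' ∈ frm q T D w) : frm q T D w' = frm q T D w := by
  rw [mem_frm] at h
  ext v
  rw [mem_frm, mem_frm, h.2.1]
  constructor
  · rintro ⟨a, b, c⟩
    refine ⟨a, b, ?_⟩
    have := dvd_add c h.2.2
    simpa using this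
  · rintro ⟨a, b, c⟩
    refine ⟨a, b, ?_⟩
    have := dvd_sub c h.2.2
    simpa using this

theorem gd_eq {w w' : List ℕ} (h : w' ∈ frm q T D w) : gd q T D J ε' w' = gd q T D J ε' w := by
  unfold gd
  rw [frm_eq h]

theorem gd_sub {w : List ℕ} : gd q T D J ε' w ⊆ frm q T D w := by
  classical
  unfold gd
  exact Finset.filter_subset _ _

theorem Nice.self_mem {w : List ℕ} (hw : w ∈ T) (h : Nice q T D J ε' w) :
    w ∈ gd q T D J ε' w := by
  classical
  unfold gd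
  rw [Finset.mem_filter]
  exact ⟨self_mem_frm hw, h.1⟩

theorem Nice.of_mem {w w' : List ℕ} (h : Nice q T D J ε' w)
    (hw' : w' ∈ gd q T D J ε' w) : w' ∈ T ∧ Nice q T D J ε' w' ∧
      gd q T D J ε' w' = gd q T D J ε' w := by
  classical
  have h1 : w' ∈ frm q T D w := gd_sub hw'
  have h2 : ¬ Bad q T D J ε' w' := by
    unfold gd at hw'
    rw [Finset.mem_filter] at hw'
    exact hw'.2
  refine ⟨(mem_frm.mp h1).1, ⟨h2, ?_⟩, gd_eq h1⟩
  rw [frm_eq h1, gd_eq h1]
  exact h.2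

open scoped Classical in
theorem mc_frm {w : List ℕ} :
    mc q (T.filter (fun w' => w'.sum = w.sum)) (fun w => (Wq q w : ℤ)) D (Wq q w) =
      (frm q T D w).card := by
  unfold mc frm
  rw [Finset.filter_filter]

/-- the classes of the deep digits inside the good part of a frame -/
theorem mc_gd (hq : 0 < q) {w ω : List ℕ} (h : Nice q T D J ε' w)
    (hω : ω ∈ gd q T D J ε' w) :
    mc q (gd q T D J ε' w) (fun w' => ((Wq q w' : ℤ) - Wq q w) / (q : ℤ) ^ D) J
      (((Wq q ω : ℤ) - Wq q w) / (q : ℤ) ^ D) ≤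
      2 * (q : ℝ) ^ (-(J : ℤ)) * Real.exp (ε' * J) * (gd q T D J ε' w).card := by
  classical
  obtain ⟨hT, hN, hG⟩ := h.of_mem hω
  have hfr := gd_sub hω
  have h1 : mc q (gd q T D J ε' w) (fun w' => ((Wq q w' : ℤ) - Wq q w) / (q : ℤ) ^ D) J
      (((Wq q ω : ℤ) - Wq q w) / (q : ℤ) ^ D) ≤
      mc q (T.filter (fun w' => w'.sum = ω.sum)) (fun w => (Wq q w : ℤ)) (D + J) (Wq q ω) := by
    unfold mc
    apply Nat.cast_le.mpr
    apply Finset.card_le_card
    intro v hv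
    simp only [Finset.mem_filter] at hv ⊢
    have hv1 := mem_frm.mp (gd_sub hv.1)
    have hω1 := mem_frm.mp hfr
    refine ⟨⟨hv1.1, hv1.2.1.trans hω1.2.1.symm⟩, ?_⟩
    obtain ⟨a, ha⟩ := hv1.2.2
    obtain ⟨b, hb⟩ := hω1.2.2
    have hq0 : ((q : ℤ) ^ D) ≠ 0 := by positivity
    rw [ha, hb, Int.mul_ediv_cancel_left _ hq0, Int.mul_ediv_cancel_left _ hq0] at hv
    obtain ⟨c, hc⟩ := hv.2
    refine ⟨c, ?_⟩
    rw [pow_add]
    linear_combination ha - hb + (q : ℤ) ^ D * hc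
  have h2 := hN.1
  unfold Bad at h2
  rw [not_lt, mc_frm (D := D), frm_eq hfr] at h2
  have h3 : ((frm q T D w).card : ℝ) ≤ 2 * (gd q T D J ε' w).card := by exact_mod_cast h.2
  calc _ ≤ _ := h1
    _ ≤ _ := h2
    _ ≤ (q : ℝ) ^ (-(J : ℤ)) * Real.exp (ε' * J) * (2 * (gd q T D J ε' w).card) := by
        apply mul_le_mul_of_nonneg_left h3; positivity
    _ = _ := by ring

open scoped Classical in
/-- few words are not nice -/
theorem card_not_nice : (((T.filter (fun w => ¬ Nice q T D J ε' w)).card : ℕ) : ℝ) ≤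
    2 * ((T.filter (fun w => Bad q T D J ε' w)).card : ℝ) := by
  have key : ∑ w ∈ T, ((if ¬ Nice q T D J ε' w ∧ ¬ Bad q T D J ε' w then (1 : ℝ) else 0) -
      (if Bad q T D J ε' w then (1 : ℝ) else 0)) ≤ 0 := by
    rw [← avg_class T (frm q T D) (fun τ _ => Finset.filter_subset _ _)
      (fun τ hτ => self_mem_frm hτ) (fun τ _ ω hω => frm_eq hω)]
    apply Finset.sum_nonpos
    intro w hw
    apply div_nonpos_of_nonpos_of_nonneg _ (by positivity)
    rw [Finset.sum_sub_distrib, sub_nonpos, ← Finset.sum_filter, ← Finset.sum_filter,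
      Finset.sum_const, Finset.sum_const, nsmul_eq_mul, nsmul_eq_mul, mul_one, mul_one]
    apply Nat.cast_le.mpr
    by_cases hne : ((frm q T D w).filter
        (fun v => ¬ Nice q T D J ε' v ∧ ¬ Bad q T D J ε' v)).Nonempty
    · obtain ⟨v, hv⟩ := hne
      rw [Finset.mem_filter] at hv
      have hv2 : 2 * (gd q T D J ε' w).card < (frm q T D w).card := by
        by_contra hc
        rw [not_lt] at hc
        apply hv.2.1
        refine ⟨hv.2.2, ?_⟩
        rw [frm_eq hv.1, gd_eq hv.1]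
        exact hc
      have h1 : ((frm q T D w).filter
          (fun v => ¬ Nice q T D J ε' v ∧ ¬ Bad q T D J ε' v)).card ≤ (gd q T D J ε' w).card := by
        apply Finset.card_le_card
        unfold gd
        intro u hu
        rw [Finset.mem_filter] at hu ⊢
        exact ⟨hu.1, hu.2.2⟩
      have h2 : ((frm q T D w).filter (fun v => Bad q T D J ε' v)).card +
          (gd q T D J ε' w).card = (frm q T D w).card := by
        unfold gd
        exact Finset.card_filter_add_card_filter_not _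
      omega
    · rw [Finset.not_nonempty_iff_eq_empty] at hne
      rw [hne]
      simp
  rw [Finset.sum_sub_distrib, ← Finset.sum_filter, ← Finset.sum_filter, Finset.sum_const,
    Finset.sum_const, nsmul_eq_mul, nsmul_eq_mul, mul_one, mul_one] at key
  have h1 : T.filter (fun w => ¬ Nice q T D J ε' w) ⊆
      T.filter (fun w => ¬ Nice q T D J ε' w ∧ ¬ Bad q T D J ε' w) ∪
        T.filter (fun w => Bad q T D J ε' w) := by
    intro w hw
    rw [Finset.mem_union, Finset.mem_filter, Finset.mem_filter]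
    rw [Finset.mem_filter] at hw
    by_cases hb : Bad q T D J ε' w
    · exact Or.inr ⟨hw.1, hb⟩
    · exact Or.inl ⟨hw.1, hw.2, hb⟩
  have h2 : ((T.filter (fun w => ¬ Nice q T D J ε' w)).card : ℝ) ≤
      ((T.filter (fun w => ¬ Nice q T D J ε' w ∧ ¬ Bad q T D J ε' w)).card : ℝ) +
        ((T.filter (fun w => Bad q T D J ε' w)).card : ℝ) := by
    exact_mod_cast (Finset.card_le_card h1).trans (Finset.card_union_le _ _)
  linarith

open scoped Classical in
/-- few words are bad -/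
theorem card_bad (hq : q.Prime) (hT : T.Nonempty) :
    ((T.filter (fun w => Bad q T D J ε' w)).card : ℝ) * (ε' * J) ≤
      ((q - 1) * ∑ i ∈ range J, gm q T (D + i) + 1) * T.card := by
  have hTc : (T.card : ℝ) ≠ 0 := by
    have := Finset.card_pos.mpr hT
    positivity
  have e1 : ((T.filter (fun w => Bad q T D J ε' w)).card : ℝ) =
      ∑ t ∈ T.image List.sum, (((T.filter (fun w => w.sum = t)).filter
        (fun w => Bad q T D J ε' w)).card : ℝ) := by
    rw [← Nat.cast_sum]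
    congr 1
    rw [Finset.card_eq_sum_card_fiberwise (f := List.sum) (t := T.image List.sum)]
    · refine Finset.sum_congr rfl fun t _ => ?_
      rw [Finset.filter_filter, Finset.filter_filter]
      congr 1
      ext w
      simp only [Finset.mem_filter]
      tauto
    · intro w hw
      rw [Finset.mem_coe, Finset.mem_filter] at hw
      exact Finset.mem_coe.mpr (Finset.mem_image_of_mem _ hw.1)
  have e2 : (T.card : ℝ) = ∑ t ∈ T.image List.sum, ((T.filter (fun w => w.sum = t)).card : ℝ) := by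
    rw [← Nat.cast_sum]
    congr 1
    exact Finset.card_eq_sum_card_fiberwise (fun w hw => Finset.mem_coe.mpr
      (Finset.mem_image_of_mem _ (Finset.mem_coe.mp hw)))
  have e3 : ∀ i, gm q T (D + i) * T.card = ∑ t ∈ T.image List.sum,
      Gm q (T.filter (fun w => w.sum = t)) (fun w => (Wq q w : ℤ)) (D + i) := by
    intro i
    unfold gm
    rw [div_mul_cancel₀ _ hTc]
  have e4 : ∀ t ∈ T.image List.sum, (((T.filter (fun w => w.sum = t)).filter
        (fun w => Bad q T D J ε' w)).card : ℝ) * (ε' * J) ≤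
      (q - 1) * ∑ i ∈ range J, Gm q (T.filter (fun w => w.sum = t)) (fun w => (Wq q w : ℤ)) (D + i)
        + (T.filter (fun w => w.sum = t)).card := by
    intro t ht
    have h := thin_of hq (T.filter (fun w => w.sum = t)) (fun w => (Wq q w : ℤ))
      (fun j c => ent_of_Fb hq _ _ j c) D J ε'
    refine le_trans (le_of_eq ?_) h
    congr 3
    apply Finset.filter_congr
    intro w hw
    rw [Finset.mem_filter] at hw
    unfold Bad
    rw [hw.2]
  rw [e1, Finset.sum_mul]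
  refine (Finset.sum_le_sum e4).trans (le_of_eq ?_)
  rw [Finset.sum_add_distrib, ← e2, ← Finset.mul_sum, Finset.sum_comm, add_mul, one_mul]
  congr 1
  rw [mul_assoc, Finset.sum_mul]
  congr 1
  exact Finset.sum_congr rfl fun i _ => (e3 i).symm

end

/-! ### tuples -/

/-- concavity of the logarithm, uniform weights -/
theorem log_avg {α : Type*} (S : Finset α) (hS : S.Nonempty) (a : α → ℝ) (ha : ∀ τ ∈ S, 0 < a τ) :
    (S.card : ℝ) * -Real.log ((∑ τ ∈ S, a τ) / S.card) ≤ ∑ τ ∈ S, -Real.log (a τ) := by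
  have hc : (0 : ℝ) < S.card := by exact_mod_cast Finset.card_pos.mpr hS
  have hA : 0 < (∑ τ ∈ S, a τ) / S.card := div_pos (Finset.sum_pos ha hS) hc
  set A := (∑ τ ∈ S, a τ) / S.card with hAdef
  have h1 : ∀ τ ∈ S, -Real.log A + (1 - a τ / A) ≤ -Real.log (a τ) := by
    intro τ hτ
    have h2 := Real.log_le_sub_one_of_pos (div_pos (ha τ hτ) hA)
    rw [Real.log_div (ha τ hτ).ne' hA.ne'] at h2
    linarith
  have h3 := Finset.sum_le_sum h1
  have h4 : ∑ τ ∈ S, (1 - a τ / A) = 0 := by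
    rw [Finset.sum_sub_distrib, ← Finset.sum_div, Finset.sum_const, nsmul_eq_mul, mul_one]
    have : ∑ τ ∈ S, a τ = A * S.card := by rw [hAdef]; field_simp
    rw [this]
    field_simp
    ring
  rw [Finset.sum_add_distrib, h4, add_zero, Finset.sum_const, nsmul_eq_mul] at h3
  exact h3

section
variable {q K J : ℕ} {T : Fin K → Finset (List ℕ)} {l : Fin K → ℕ} {ε' : ℝ}

/-- tuples of nice words -/
def NT (q J : ℕ) (T : Fin K → Finset (List ℕ)) (l : Fin K → ℕ) (ε' : ℝ) (τ : Fin K → List ℕ) :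
    Prop :=
  ∀ g, Nice q (T g) (l g + AA l g + 1) J ε' (τ g)

/-- the good part of the frame of a tuple -/
noncomputable def Om (q J : ℕ) (T : Fin K → Finset (List ℕ)) (l : Fin K → ℕ) (ε' : ℝ)
    (τ : Fin K → List ℕ) : Finset (Fin K → List ℕ) :=
  Fintype.piFinset (fun g => gd q (T g) (l g + AA l g + 1) J ε' (τ g))

theorem mem_Om {τ ω : Fin K → List ℕ} : ω ∈ Om q J T l ε' τ ↔
    ∀ g, ω g ∈ gd q (T g) (l g + AA l g + 1) J ε' (τ g) := by
  unfold Om
  exact Fintype.mem_piFinset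

open scoped Classical in
theorem card_not_NT {ρ : ℝ}
    (hρ : ∀ g, (((T g).filter (fun w => ¬ Nice q (T g) (l g + AA l g + 1) J ε' w)).card : ℝ) ≤
      ρ * (T g).card) :
    (((Fintype.piFinset T).filter (fun τ => ¬ NT q J T l ε' τ)).card : ℝ) ≤
      K * ρ * ∏ g, ((T g).card : ℝ) := by
  set S : (g : Fin K) → Finset (List ℕ) :=
    fun g => (T g).filter (fun w => ¬ Nice q (T g) (l g + AA l g + 1) J ε' w) with hS
  have h1 : (Fintype.piFinset T).filter (fun τ => ¬ NT q J T l ε' τ) ⊆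
      Finset.univ.biUnion (fun g : Fin K => Fintype.piFinset (Function.update T g (S g))) := by
    intro τ hτ
    rw [Finset.mem_filter, Fintype.mem_piFinset] at hτ
    obtain ⟨h2, h3⟩ := hτ
    unfold NT at h3
    push Not at h3
    obtain ⟨g, hg⟩ := h3
    rw [Finset.mem_biUnion]
    refine ⟨g, Finset.mem_univ _, ?_⟩
    rw [Fintype.mem_piFinset]
    intro i
    by_cases hi : i = g
    · subst hi
      rw [Function.update_self, hS]
      exact Finset.mem_filter.mpr ⟨h2 i, hg⟩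
    · rw [Function.update_of_ne hi]
      exact h2 i
  have h2 : ∀ g : Fin K, ((Fintype.piFinset (Function.update T g (S g))).card : ℝ) ≤
      ρ * ∏ i, ((T i).card : ℝ) := by
    intro g
    rw [Fintype.card_piFinset]
    have e1 : ∀ i, ((Function.update T g (S g) i).card) =
        Function.update (fun i => (T i).card) g (S g).card i := by
      intro i
      by_cases hi : i = g
      · subst hi; rw [Function.update_self, Function.update_self]
      · rw [Function.update_of_ne hi, Function.update_of_ne hi]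
    simp only [e1]
    rw [Finset.prod_update_of_mem (Finset.mem_univ g), Nat.cast_mul, Nat.cast_prod]
    have e2 : ∏ i, ((T i).card : ℝ) = ((T g).card : ℝ) * ∏ i ∈ Finset.univ \ {g}, ((T i).card : ℝ) := by
      rw [← Finset.prod_sdiff (Finset.subset_univ ({g} : Finset (Fin K))), Finset.prod_singleton,
        mul_comm]
    rw [e2, ← mul_assoc]
    apply mul_le_mul_of_nonneg_right (hρ g)
    exact Finset.prod_nonneg fun i _ => Nat.cast_nonneg _
  calc (((Fintype.piFinset T).filter (fun τ => ¬ NT q J T l ε' τ)).card : ℝ)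
      ≤ ((Finset.univ.biUnion (fun g : Fin K =>
          Fintype.piFinset (Function.update T g (S g)))).card : ℝ) := by
        exact_mod_cast Finset.card_le_card h1
    _ ≤ ∑ g : Fin K, ((Fintype.piFinset (Function.update T g (S g))).card : ℝ) := by
        exact_mod_cast Finset.card_biUnion_le
    _ ≤ ∑ g : Fin K, ρ * ∏ i, ((T i).card : ℝ) := Finset.sum_le_sum fun g _ => h2 g
    _ = _ := by
        rw [Finset.sum_const, Finset.card_univ, Fintype.card_fin, nsmul_eq_mul, mul_assoc]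

/-- all tuples in the good part of the frame of a nice tuple -/
theorem Om_spec {τ ω : Fin K → List ℕ} (hτ : NT q J T l ε' τ) (hω : ω ∈ Om q J T l ε' τ) :
    ω ∈ Fintype.piFinset T ∧ NT q J T l ε' ω ∧ Om q J T l ε' ω = Om q J T l ε' τ ∧
      ∀ g, (ω g).sum = (τ g).sum ∧
        (q : ℤ) ^ (l g + AA l g + 1) ∣ (Wq q (ω g) : ℤ) - Wq q (τ g) := by
  rw [mem_Om] at hω
  have h := fun g => (hτ g).of_mem (hω g)
  refine ⟨Fintype.mem_piFinset.mpr fun g => (h g).1, fun g => (h g).2.1, ?_, fun g => ?_⟩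
  · unfold Om
    congr 1
    funext g
    exact (h g).2.2
  · exact (mem_frm.mp (gd_sub (hω g))).2

theorem self_mem_Om {τ : Fin K → List ℕ} (hT : τ ∈ Fintype.piFinset T) (hτ : NT q J T l ε' τ) :
    τ ∈ Om q J T l ε' τ := by
  rw [mem_Om]
  intro g
  exact (hτ g).self_mem (Fintype.mem_piFinset.mp hT g)

/-- the conclusion of the robust lemma -/
def RobC (q K J : ℕ) (F : ℕ → ℤ → ℝ) (ε' δ C : ℝ) : Prop :=
  ∀ (Ω : Fin K → Finset (List ℕ)) (Y : Fin K → List ℕ → ℤ) (U : Fin K → ℤ) (U₀ y₀ : ℤ),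
    (∀ g, (Ω g).Nonempty) → (∀ g, ¬ (q : ℤ) ∣ U g) → ¬ (q : ℤ) ∣ U₀ → ¬ (q : ℤ) ∣ y₀ →
    (∀ g, ∀ ω ∈ Ω g, mc q (Ω g) (Y g) J (Y g ω) ≤
      2 * (q : ℝ) ^ (-(J : ℤ)) * Real.exp (ε' * J) * (Ω g).card) →
    (∀ t : ℤ, 0 < ∑ ω ∈ Fintype.piFinset Ω, F (J + 1) (y₀ + q * (U₀ * t - ∑ g, U g * Y g (ω g)))) ∧
    ∑ t ∈ range (q ^ J), -Real.log ((∑ ω ∈ Fintype.piFinset Ω,
        F (J + 1) (y₀ + q * (U₀ * (t : ℤ) - ∑ g, U g * Y g (ω g)))) / ∏ g, ((Ω g).card : ℝ)) ≤
      (q : ℝ) ^ J * (δ * J + C)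

theorem not_dvd_two_pow (hq : q.Prime) (hq2 : q ≠ 2) (n : ℕ) : ¬ (q : ℤ) ∣ 2 ^ n := by
  intro h
  have h1 : q ∣ 2 ^ n := by exact_mod_cast h
  have h2 := hq.dvd_of_dvd_pow h1
  exact hq2 ((Nat.prime_dvd_prime_iff_eq hq Nat.prime_two).mp h2)

/-- the robust lemma for the good part of the frame of a nice tuple -/
theorem robust_frame (hq : q.Prime) (hq2 : q ≠ 2) {F : ℕ → ℤ → ℝ} {δ C : ℝ}
    (hR : RobC q K J F ε' δ C) (hl : ∀ g, ∀ w ∈ T g, w.length = l g) {τ : Fin K → List ℕ}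
    (hT : τ ∈ Fintype.piFinset T) (hτ : NT q J T l ε' τ) {x : ℤ} (hx : Lv q (cc K τ) x) :
    (∀ t : ℤ, 0 < (∑ ω ∈ Om q J T l ε' τ,
      F (J + 1) (Ep q (cc K ω) (x + (q : ℤ) ^ ((∑ g, l g) + 1) * t))) / (Om q J T l ε' τ).card) ∧
    ∑ t ∈ range (q ^ J), -Real.log ((∑ ω ∈ Om q J T l ε' τ,
      F (J + 1) (Ep q (cc K ω) (x + (q : ℤ) ^ ((∑ g, l g) + 1) * (t : ℤ)))) /
        (Om q J T l ε' τ).card) ≤ (q : ℝ) ^ J * (δ * J + C) := by
  have hTg := Fintype.mem_piFinset.mp hT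
  obtain ⟨r1, r2⟩ := hR (fun g => gd q (T g) (l g + AA l g + 1) J ε' (τ g))
    (fun g w => ((Wq q w : ℤ) - Wq q (τ g)) / (q : ℤ) ^ (l g + AA l g + 1))
    (fun g => 2 ^ (AA (fun i => (τ i).sum) g)) (2 ^ (∑ g, (τ g).sum)) (Ep q (cc K τ) x)
    (fun g => ⟨τ g, (hτ g).self_mem (hTg g)⟩) (fun g => not_dvd_two_pow hq hq2 _)
    (not_dvd_two_pow hq hq2 _) hx.2 (fun g ω hω => mc_gd hq.pos (hτ g) hω)
  have e : ∀ t : ℤ, ∑ ω ∈ Om q J T l ε' τ,
      F (J + 1) (Ep q (cc K ω) (x + (q : ℤ) ^ ((∑ g, l g) + 1) * t)) =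
      ∑ ω ∈ Fintype.piFinset (fun g => gd q (T g) (l g + AA l g + 1) J ε' (τ g)),
        F (J + 1) (Ep q (cc K τ) x + q * (2 ^ (∑ g, (τ g).sum) * t -
          ∑ g, 2 ^ (AA (fun i => (τ i).sum) g) *
            (((Wq q (ω g) : ℤ) - Wq q (τ g)) / (q : ℤ) ^ (l g + AA l g + 1)))) := by
    intro t
    refine Finset.sum_congr rfl fun ω hω => ?_
    obtain ⟨o1, o2, o3, o4⟩ := Om_spec hτ (show ω ∈ Om q J T l ε' τ from hω)
    have h := cc_frame hq hq2 (τ := ω) (τ₀ := τ) (l := l)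
      (fun g => hl g _ (Fintype.mem_piFinset.mp o1 g)) (fun g => hl g _ (hTg g))
      (fun g => (o4 g).1) (fun g => (o4 g).2) x t
    rw [h.2 hx]
  have hcard : ((Om q J T l ε' τ).card : ℝ) =
      ∏ g, ((gd q (T g) (l g + AA l g + 1) J ε' (τ g)).card : ℝ) := by
    unfold Om
    rw [Fintype.card_piFinset, Nat.cast_prod]
  constructor
  · intro t
    apply div_pos
    · rw [e]; exact r1 t
    · have : 0 < (Om q J T l ε' τ).card := Finset.card_pos.mpr ⟨τ, self_mem_Om hT hτ⟩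
      exact_mod_cast this
  · refine le_trans (le_of_eq ?_) r2
    refine Finset.sum_congr rfl fun t _ => ?_
    rw [e, hcard]

/-- iteration of the lower bound of the martingale -/
theorem F_low {F : ℕ → ℤ → ℝ} {c₀ c₁ : ℝ} (hc₀ : 0 < c₀) (hF : GoodF q F c₀ c₁) {y : ℤ}
    (hy : ¬ (q : ℤ) ∣ y) (J : ℕ) : c₀ ^ J * c₁ ≤ F (J + 1) y := by
  induction J with
  | zero => simpa using hF.one y hy
  | succ J ih =>
    have h := hF.low (J + 1) y (by omega)
    calc c₀ ^ (J + 1) * c₁ = c₀ * (c₀ ^ J * c₁) := by ring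
      _ ≤ c₀ * F (J + 1) y := mul_le_mul_of_nonneg_left ih hc₀.le
      _ ≤ _ := h

open scoped Classical in
/-- lower bound for all points -/
theorem HH_low {F : ℕ → ℤ → ℝ} {c₀ c₁ : ℝ} (hc₀ : 0 < c₀) (hF : GoodF q F c₀ c₁) {x : ℤ} {L : ℕ}
    (hL : ((Fintype.piFinset T).filter (fun τ => Lv q (cc K τ) x)).card = L) :
    (L : ℝ) * (c₀ ^ J * c₁) ≤ HH q T F J x := by
  unfold HH
  rw [← Finset.sum_filter, ← hL, ← nsmul_eq_mul, ← Finset.sum_const]
  refine Finset.sum_le_sum fun τ hτ => ?_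
  rw [Finset.mem_filter] at hτ
  exact F_low hc₀ hF hτ.2.2 J

open scoped Classical in
/-- the main estimate at a typical class -/
theorem typical (hq : q.Prime) (hq2 : q ≠ 2) {F : ℕ → ℤ → ℝ} {δ C c₀ c₁ P : ℝ} {L : ℕ}
    (hF : GoodF q F c₀ c₁)
    (hR : RobC q K J F ε' δ C) (hl : ∀ g, ∀ w ∈ T g, w.length = l g) {x : ℤ}
    (hL : ((Fintype.piFinset T).filter (fun τ => Lv q (cc K τ) x)).card = L) (hL1 : 1 ≤ L)
    (hP : 0 < P) (hPL : P ≤ L)
    (hnice : 2 * (((Fintype.piFinset T).filter (fun τ => Lv q (cc K τ) x)).filter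
      (fun τ => ¬ NT q J T l ε' τ)).card ≤ L) :
    ∑ t ∈ range (q ^ J), -Real.log (HH q T F J (x + (q : ℤ) ^ ((∑ g, l g) + 1) * (t : ℤ)) / P) ≤
      (q : ℝ) ^ J * (Real.log 2 + δ * J + C) := by
  set S := ((Fintype.piFinset T).filter (fun τ => Lv q (cc K τ) x)).filter
    (fun τ => NT q J T l ε' τ) with hS
  have hScard : L ≤ 2 * S.card := by
    have h := Finset.card_filter_add_card_filter_not
      (s := (Fintype.piFinset T).filter (fun τ => Lv q (cc K τ) x)) (fun τ => NT q J T l ε' τ)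
    rw [hL, ← hS] at h
    omega
  have hSne : S.Nonempty := by
    rw [← Finset.card_pos]; omega
  have hmem : ∀ τ ∈ S, τ ∈ Fintype.piFinset T ∧ Lv q (cc K τ) x ∧ NT q J T l ε' τ := by
    intro τ hτ
    rw [hS, Finset.mem_filter, Finset.mem_filter] at hτ
    exact ⟨hτ.1.1, hτ.1.2, hτ.2⟩
  have hlive : ∀ τ ∈ S, ∀ ω ∈ Om q J T l ε' τ, ∀ t : ℤ,
      Lv q (cc K ω) (x + (q : ℤ) ^ ((∑ g, l g) + 1) * t) := by
    intro τ hτ ω hω t
    obtain ⟨m1, m2, m3⟩ := hmem τ hτ
    obtain ⟨o1, o2, o3, o4⟩ := Om_spec m3 hω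
    have h := cc_frame hq hq2 (τ := ω) (τ₀ := τ) (l := l)
      (fun g => hl g _ (Fintype.mem_piFinset.mp o1 g))
      (fun g => hl g _ (Fintype.mem_piFinset.mp m1 g))
      (fun g => (o4 g).1) (fun g => (o4 g).2) x t
    exact h.1.mpr m2
  set a : (Fin K → List ℕ) → ℤ → ℝ := fun τ t => (∑ ω ∈ Om q J T l ε' τ,
      F (J + 1) (Ep q (cc K ω) (x + (q : ℤ) ^ ((∑ g, l g) + 1) * t))) /
        (Om q J T l ε' τ).card with ha
  have hapos : ∀ τ ∈ S, ∀ t : ℤ, 0 < a τ t := by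
    intro τ hτ t
    obtain ⟨m1, m2, m3⟩ := hmem τ hτ
    exact (robust_frame hq hq2 hR hl m1 m3 m2).1 t
  have hasum : ∀ τ ∈ S, ∑ t ∈ range (q ^ J), -Real.log (a τ (t : ℤ)) ≤
      (q : ℝ) ^ J * (δ * J + C) := by
    intro τ hτ
    obtain ⟨m1, m2, m3⟩ := hmem τ hτ
    exact (robust_frame hq hq2 hR hl m1 m3 m2).2
  have hHH : ∀ t : ℤ, ∑ τ ∈ S, a τ t ≤ HH q T F J (x + (q : ℤ) ^ ((∑ g, l g) + 1) * t) := by
    intro t
    rw [ha]
    simp only
    rw [avg_class S (Om q J T l ε')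
      (fun τ hτ ω hω => by
        obtain ⟨m1, m2, m3⟩ := hmem τ hτ
        obtain ⟨o1, o2, o3, o4⟩ := Om_spec m3 hω
        rw [hS, Finset.mem_filter, Finset.mem_filter]
        have h0 := hlive τ hτ ω hω 0
        rw [mul_zero, add_zero] at h0
        exact ⟨⟨o1, h0⟩, o2⟩)
      (fun τ hτ => self_mem_Om (hmem τ hτ).1 (hmem τ hτ).2.2)
      (fun τ hτ ω hω => (Om_spec (hmem τ hτ).2.2 hω).2.2.1)]
    unfold HH
    rw [← Finset.sum_filter]
    refine Finset.sum_le_sum_of_subset_of_nonneg ?_ (fun τ _ _ => hF.nonneg _ _)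
    intro τ hτ
    rw [Finset.mem_filter]
    exact ⟨(hmem τ hτ).1, hlive τ hτ τ (self_mem_Om (hmem τ hτ).1 (hmem τ hτ).2.2) t⟩
  have hn : (0 : ℝ) < S.card := by exact_mod_cast Finset.card_pos.mpr hSne
  have hpt : ∀ t : ℤ, (S.card : ℝ) *
      -Real.log (HH q T F J (x + (q : ℤ) ^ ((∑ g, l g) + 1) * t) / P) ≤
      S.card * Real.log 2 + ∑ τ ∈ S, -Real.log (a τ t) := by
    intro t
    have h1 := log_avg S hSne (fun τ => a τ t) (fun τ hτ => hapos τ hτ t)
    have hsum : 0 < ∑ τ ∈ S, a τ t := Finset.sum_pos (fun τ hτ => hapos τ hτ t) hSne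
    have h2 : Real.log ((∑ τ ∈ S, a τ t) / S.card) - Real.log 2 ≤
        Real.log (HH q T F J (x + (q : ℤ) ^ ((∑ g, l g) + 1) * t) / P) := by
      rw [← Real.log_div (div_pos hsum hn).ne' two_ne_zero]
      apply Real.log_le_log (by positivity)
      rw [div_div, div_le_div_iff₀ (by positivity) hP]
      have h3 : P ≤ (S.card : ℝ) * 2 := by
        have : (L : ℝ) ≤ 2 * S.card := by exact_mod_cast hScard
        linarith
      exact mul_le_mul (hHH t) h3 hP.le (hsum.le.trans (hHH t))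
    have h4 := mul_le_mul_of_nonneg_left h2 hn.le
    nlinarith [h1, h4]
  have hfin : (S.card : ℝ) * ∑ t ∈ range (q ^ J),
      -Real.log (HH q T F J (x + (q : ℤ) ^ ((∑ g, l g) + 1) * (t : ℤ)) / P) ≤
      S.card * ((q : ℝ) ^ J * (Real.log 2 + δ * J + C)) := by
    rw [Finset.mul_sum]
    have h6 := Finset.sum_le_sum (s := range (q ^ J)) (fun (t : ℕ) _ => hpt (t : ℤ))
    refine h6.trans ?_
    rw [Finset.sum_add_distrib, Finset.sum_const, card_range, Finset.sum_comm, nsmul_eq_mul]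
    have h5 : ∑ τ ∈ S, ∑ t ∈ range (q ^ J), -Real.log (a τ (t : ℤ)) ≤
        S.card * ((q : ℝ) ^ J * (δ * J + C)) := by
      refine (Finset.sum_le_sum hasum).trans ?_
      rw [Finset.sum_const, nsmul_eq_mul]
    push_cast
    linarith
  exact le_of_mul_le_mul_left hfin hn

open scoped Classical in
/-- non-nice live tuples, summed over the classes -/
theorem sum_nlive (hq : q.Prime) (hq2 : q ≠ 2) (hl : ∀ g, ∀ w ∈ T g, w.length = l g) :
    ∑ x ∈ (range (q ^ ((∑ g, l g) + 1))).filter (fun x : ℕ => ¬ (q : ℤ) ∣ (x : ℤ)),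
      ((((Fintype.piFinset T).filter (fun τ => Lv q (cc K τ) (x : ℤ))).filter
        (fun τ => ¬ NT q J T l ε' τ)).card : ℝ) ≤
      ((q : ℝ) - 1) * ((Fintype.piFinset T).filter (fun τ => ¬ NT q J T l ε' τ)).card := by
  have h1 : ∀ x : ℕ, ((((Fintype.piFinset T).filter (fun τ => Lv q (cc K τ) (x : ℤ))).filter
        (fun τ => ¬ NT q J T l ε' τ)).card : ℝ) =
      ∑ τ ∈ (Fintype.piFinset T).filter (fun τ => ¬ NT q J T l ε' τ),
        if Lv q (cc K τ) (x : ℤ) then (1 : ℝ) else 0 := by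
    intro x
    rw [← Finset.sum_filter, Finset.sum_const, nsmul_eq_mul, mul_one, Finset.filter_filter,
      Finset.filter_filter]
    congr 2
    ext τ
    simp only [Finset.mem_filter]
    tauto
  simp only [h1]
  rw [Finset.sum_comm]
  have h2 : ∀ τ ∈ (Fintype.piFinset T).filter (fun τ => ¬ NT q J T l ε' τ),
      ∑ x ∈ (range (q ^ ((∑ g, l g) + 1))).filter (fun x : ℕ => ¬ (q : ℤ) ∣ (x : ℤ)),
        (if Lv q (cc K τ) (x : ℤ) then (1 : ℝ) else 0) ≤ (q : ℝ) - 1 := by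
    intro τ hτ
    rw [Finset.mem_filter, Fintype.mem_piFinset] at hτ
    have hlen : (cc K τ).length = ∑ g, l g := by
      rw [cc_length]
      exact Finset.sum_congr rfl fun g _ => hl g _ (hτ.1 g)
    have h3 := live_classes hq hq2 (cc K τ)
    rw [hlen] at h3
    rw [← Finset.sum_filter, Finset.sum_const, nsmul_eq_mul, mul_one]
    have h4 : (((range (q ^ ((∑ g, l g) + 1))).filter (fun x : ℕ => ¬ (q : ℤ) ∣ (x : ℤ))).filter
        (fun x : ℕ => Lv q (cc K τ) (x : ℤ))).card ≤ q - 1 := by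
      rw [← h3]
      apply Finset.card_le_card
      intro x hx
      rw [Finset.mem_filter, Finset.mem_filter] at hx
      rw [Finset.mem_filter]
      exact ⟨hx.1.1, hx.2⟩
    have h5 : (((((range (q ^ ((∑ g, l g) + 1))).filter
        (fun x : ℕ => ¬ (q : ℤ) ∣ (x : ℤ))).filter
        (fun x : ℕ => Lv q (cc K τ) (x : ℤ))).card : ℕ) : ℝ) ≤ ((q - 1 : ℕ) : ℝ) := by
      exact_mod_cast h4
    rwa [Nat.cast_sub hq.one_le, Nat.cast_one] at h5
  refine (Finset.sum_le_sum h2).trans (le_of_eq ?_)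
  rw [Finset.sum_const, nsmul_eq_mul, mul_comm]

end

theorem len_FW {A n : ℕ} {w : List ℕ} (h : w ∈ FW A n) : w.length = n := by
  induction n generalizing w with
  | zero =>
    unfold FW at h
    rw [Finset.mem_singleton] at h
    rw [h]; rfl
  | succ n ih =>
    unfold FW at h
    rw [Finset.mem_biUnion] at h
    obtain ⟨e, _, h⟩ := h
    rw [Finset.mem_image] at h
    obtain ⟨v, hv, rfl⟩ := h
    rw [List.length_cons, ih hv]

/-- splitting of the classes mod `q^(a+b)` -/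
theorem split_sum {q : ℕ} (hq : 0 < q) {a : ℕ} (ha : 1 ≤ a) (b : ℕ) (f : ℤ → ℝ) :
    ∑ x ∈ (range (q ^ (a + b))).filter (fun x : ℕ => ¬ (q : ℤ) ∣ (x : ℤ)), f (x : ℤ) =
      ∑ x ∈ (range (q ^ a)).filter (fun x : ℕ => ¬ (q : ℤ) ∣ (x : ℤ)), ∑ t ∈ range (q ^ b),
        f ((x : ℤ) + (q : ℤ) ^ a * (t : ℤ)) := by
  have hqa : 0 < q ^ a := Nat.pow_pos hq
  have hdvd : q ∣ q ^ a := dvd_pow_self q (by omega)
  have hd : ∀ x t : ℕ, ((q : ℤ) ∣ ((x + q ^ a * t : ℕ) : ℤ)) ↔ (q : ℤ) ∣ (x : ℤ) := by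
    intro x t
    rw [Int.natCast_dvd_natCast, Int.natCast_dvd_natCast]
    exact Nat.dvd_add_left (hdvd.mul_right t)
  rw [← Finset.sum_product']
  symm
  refine Finset.sum_nbij' (fun p => p.1 + q ^ a * p.2) (fun x => (x % q ^ a, x / q ^ a)) ?_ ?_ ?_ ?_ ?_
  · rintro ⟨x, t⟩ h
    simp only [Finset.mem_product, Finset.mem_filter, Finset.mem_range] at h ⊢
    refine ⟨?_, ?_⟩
    · rw [pow_add]
      calc x + q ^ a * t < q ^ a + q ^ a * t := by omega
        _ = q ^ a * (t + 1) := by ring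
        _ ≤ q ^ a * q ^ b := Nat.mul_le_mul_left _ h.2
    · rw [hd]; exact h.1.2
  · intro x h
    simp only [Finset.mem_product, Finset.mem_filter, Finset.mem_range] at h ⊢
    refine ⟨⟨Nat.mod_lt _ hqa, ?_⟩, ?_⟩
    · have h1 := hd (x % q ^ a) (x / q ^ a)
      rw [Nat.mod_add_div] at h1
      rw [← h1]
      exact h.2
    · rw [Nat.div_lt_iff_lt_mul hqa, mul_comm, ← pow_add]
      exact h.1
  · rintro ⟨x, t⟩ h
    simp only [Finset.mem_product, Finset.mem_filter, Finset.mem_range] at h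
    simp only [Nat.add_mul_mod_self_left, Nat.mod_eq_of_lt h.1.1, Prod.mk.injEq, true_and]
    rw [Nat.add_mul_div_left _ _ hqa, Nat.div_eq_of_lt h.1.1, zero_add]
  · intro x h
    exact Nat.mod_add_div x (q ^ a)
  · rintro ⟨x, t⟩ h
    push_cast
    rfl

theorem card_classes {q : ℕ} (hq : 1 < q) (n : ℕ) :
    (((range (q ^ (n + 1))).filter (fun x : ℕ => ¬ (q : ℤ) ∣ (x : ℤ))).card : ℝ) =
      ((q : ℝ) - 1) * (q : ℝ) ^ n := by
  have h := split_sum (q := q) (by omega) (le_refl 1) n (fun _ => 1)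
  rw [add_comm 1 n] at h
  simp only [Finset.sum_const, nsmul_eq_mul, mul_one, card_range] at h
  rw [h]
  have h2 : (range (q ^ 1)).filter (fun x : ℕ => ¬ (q : ℤ) ∣ (x : ℤ)) = (range q).erase 0 := by
    ext x
    simp only [pow_one, Finset.mem_filter, Finset.mem_range, Finset.mem_erase]
    rw [Int.natCast_dvd_natCast]
    constructor
    · rintro ⟨a, b⟩
      exact ⟨fun hc => b (hc ▸ dvd_zero q), a⟩
    · rintro ⟨a, b⟩
      exact ⟨b, fun hc => a (Nat.eq_zero_of_dvd_of_lt hc b)⟩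
  rw [h2, Finset.card_erase_of_mem (Finset.mem_range.mpr (by omega)), card_range]
  push_cast [Nat.cast_sub (show 1 ≤ q by omega)]
  ring

end Asm

open Asm in
open scoped Classical in
theorem assembly {q : ℕ} (hq : q.Prime) (hq2 : q ≠ 2) {c₀ c₁ η : ℝ} (hc₀ : 0 < c₀) (hc₁ : 0 < c₁)
    (hη : 0 < η) : ∃ K : ℕ, 1 ≤ K ∧ ∃ ε : ℝ, 0 < ε ∧ ∃ J₀ : ℕ,
      ∀ (E J : ℕ) (F : ℕ → ℤ → ℝ) (T : Fin K → Finset (List ℕ)) (l M : Fin K → ℕ), J₀ ≤ J →
        GoodF q F c₀ c₁ → (∀ g, 1 ≤ l g) → (∀ g, 1 ≤ M g) → (∀ g, Bal q E (l g) (T g) (M g)) →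
        (∀ g, ∑ i ∈ range J, gm q (T g) (l g + AA l g + 1 + i) ≤ ε * J) →
        (∀ x : ℤ, ¬ (q : ℤ) ∣ x → 0 < HH q T F J x) ∧
        avU q ((∑ g, l g) + J) (fun x => -Real.log (HH q T F J x / ∏ g, (M g : ℝ))) ≤ η * J := by
  obtain ⟨K, hK, ε', hε', C, hrob⟩ := robust hq hc₀ hc₁ (show 0 < η / 4 by positivity)
  have hq1 : (1 : ℝ) < q := by exact_mod_cast hq.one_lt
  have hq1' : (0 : ℝ) < (q : ℝ) - 1 := by linarith
  have hKr : (1 : ℝ) ≤ K := by exact_mod_cast hK
  set B : ℝ := |Real.log c₀| + |Real.log c₁| with hB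
  have hB0 : 0 ≤ B := by positivity
  set ε : ℝ := η * ε' / (16 * K * (q - 1) * (B + 1)) with hε
  have hεpos : 0 < ε := by positivity
  refine ⟨K, hK, ε, hεpos, max 1 ⌈(Real.log 2 + |C| + 4 * K * B / ε') * (2 / η)⌉₊, ?_⟩
  intro E J F T l M hJ hF hl hM hBal hgm
  have hJ1 : 1 ≤ J := (le_max_left _ _).trans hJ
  have hJr : (1 : ℝ) ≤ J := by exact_mod_cast hJ1
  have hJ2 : Real.log 2 + |C| + 4 * K * B / ε' ≤ η / 2 * J := by
    have h1 : (⌈(Real.log 2 + |C| + 4 * K * B / ε') * (2 / η)⌉₊ : ℝ) ≤ J := by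
      exact_mod_cast (le_max_right _ _).trans hJ
    have h2 := (Nat.le_ceil ((Real.log 2 + |C| + 4 * K * B / ε') * (2 / η))).trans h1
    rw [mul_div_assoc', div_le_iff₀ hη] at h2
    linarith
  have hlen : ∀ g, ∀ w ∈ T g, w.length = l g := by
    intro g w hw
    exact len_FW ((hBal g).sub hw)
  set P : ℝ := ∏ g, (M g : ℝ) with hP
  have hPpos : 0 < P := Finset.prod_pos fun g _ => by exact_mod_cast (hM g)
  set L : ℕ := (q - 1) ^ K * ∏ g, M g with hLdef
  have hLcast : (L : ℝ) = ((q : ℝ) - 1) ^ K * P := by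
    rw [hLdef, hP]
    push_cast [Nat.cast_sub hq.one_le]
    ring
  have hq2' : (1 : ℝ) ≤ (q : ℝ) - 1 := by
    have : (2 : ℝ) ≤ q := by exact_mod_cast hq.two_le
    linarith
  have hPL : P ≤ L := by
    rw [hLcast]
    exact le_mul_of_one_le_left hPpos.le (one_le_pow₀ hq2')
  have hL1 : 1 ≤ L := by
    have h1 : (0 : ℝ) < L := lt_of_lt_of_le hPpos hPL
    have h2 : 0 < L := by exact_mod_cast h1
    omega
  have hlive : ∀ x : ℤ, ¬ (q : ℤ) ∣ x →
      ((Fintype.piFinset T).filter (fun τ => Lv q (cc K τ) x)).card = L := fun x hx =>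
    cc_live_card hq hq2 hl hBal hx
  have hlow : ∀ x : ℤ, ¬ (q : ℤ) ∣ x → (L : ℝ) * (c₀ ^ J * c₁) ≤ HH q T F J x := fun x hx =>
    HH_low hc₀ hF (hlive x hx)
  have hpos : ∀ x : ℤ, ¬ (q : ℤ) ∣ x → 0 < HH q T F J x := by
    intro x hx
    have h1 : (0 : ℝ) < L := lt_of_lt_of_le hPpos hPL
    exact lt_of_lt_of_le (by positivity) (hlow x hx)
  refine ⟨hpos, ?_⟩
  -- the fraction of words which are not nice
  set ρ : ℝ := 2 * (((q - 1) * (ε * J) + 1) / (ε' * J)) with hρdef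
  have hρ0 : 0 ≤ ρ := by positivity
  have hTcard : ∀ g, ((T g).card : ℝ) = ((q : ℝ) - 1) * (q : ℝ) ^ (l g) * M g := by
    intro g
    rw [Bal.card hq hq2 (hl g) (hBal g)]
    push_cast [Nat.cast_sub hq.one_le]
    ring
  have hTpos : ∀ g, (0 : ℝ) < (T g).card := by
    intro g
    rw [hTcard]
    have : (0 : ℝ) < M g := by exact_mod_cast hM g
    positivity
  have hρ : ∀ g, (((T g).filter (fun w => ¬ Nice q (T g) (l g + AA l g + 1) J ε' w)).card : ℝ) ≤
      ρ * (T g).card := by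
    intro g
    have hne : (T g).Nonempty := by
      rw [← Finset.card_pos]
      exact_mod_cast hTpos g
    have h1 := card_not_nice (q := q) (T := T g) (D := l g + AA l g + 1) (J := J) (ε' := ε')
    have h2 := card_bad (q := q) (T := T g) (D := l g + AA l g + 1) (J := J) (ε' := ε') hq hne
    have h3 : ((q : ℝ) - 1) * ∑ i ∈ range J, gm q (T g) (l g + AA l g + 1 + i) + 1 ≤
        (q - 1) * (ε * J) + 1 := by
      have := mul_le_mul_of_nonneg_left (hgm g) hq1'.le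
      linarith
    have h4 := h2.trans (mul_le_mul_of_nonneg_right h3 (hTpos g).le)
    have h5 : ((((T g).filter (fun w => Bad q (T g) (l g + AA l g + 1) J ε' w)).card : ℕ) : ℝ) ≤
        ((q - 1) * (ε * J) + 1) / (ε' * J) * (T g).card := by
      rw [div_mul_eq_mul_div, le_div_iff₀ (by positivity)]
      exact h4
    calc _ ≤ _ := h1
      _ ≤ 2 * (((q - 1) * (ε * J) + 1) / (ε' * J) * (T g).card) := by linarith
      _ = _ := by rw [hρdef]; ring
  -- exceptional classes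
  set N := ∑ g, l g with hN
  set X := (range (q ^ (N + 1))).filter (fun x : ℕ => ¬ (q : ℤ) ∣ (x : ℤ)) with hX
  set nl : ℕ → ℕ := fun x => (((Fintype.piFinset T).filter
    (fun τ => Lv q (cc K τ) (x : ℤ))).filter (fun τ => ¬ NT q J T l ε' τ)).card with hnl
  have hXcard : (X.card : ℝ) = ((q : ℝ) - 1) * (q : ℝ) ^ N := card_classes hq.one_lt N
  have hsum : ∑ x ∈ X, (nl x : ℝ) ≤ ((q : ℝ) - 1) * (q : ℝ) ^ N * (K * ρ) * L := by
    have h1 := sum_nlive (q := q) (K := K) (J := J) (T := T) (l := l) (ε' := ε') hq hq2 hlen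
    have h2 := card_not_NT (q := q) (K := K) (J := J) (T := T) (l := l) (ε' := ε') hρ
    have h3 := h1.trans (mul_le_mul_of_nonneg_left h2 hq1'.le)
    refine h3.trans (le_of_eq ?_)
    have h4 : ∏ g, ((T g).card : ℝ) = ((q : ℝ) - 1) ^ K * (q : ℝ) ^ N * P := by
      simp only [hTcard]
      rw [Finset.prod_mul_distrib, Finset.prod_mul_distrib, Finset.prod_const, Finset.card_univ,
        Fintype.card_fin, Finset.prod_pow_eq_pow_sum]
    rw [h4, hLcast]
    ring
  set Xb := X.filter (fun x => L < 2 * nl x) with hXb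
  have hXbcard : (Xb.card : ℝ) ≤ ((q : ℝ) - 1) * (q : ℝ) ^ N * (2 * K * ρ) := by
    have h1 : (Xb.card : ℝ) * L ≤ ∑ x ∈ X, 2 * (nl x : ℝ) := by
      calc (Xb.card : ℝ) * L = ∑ x ∈ Xb, (L : ℝ) := by rw [Finset.sum_const, nsmul_eq_mul]
        _ ≤ ∑ x ∈ Xb, 2 * (nl x : ℝ) := by
            refine Finset.sum_le_sum fun x hx => ?_
            rw [hXb, Finset.mem_filter] at hx
            exact_mod_cast hx.2.le
        _ ≤ _ := Finset.sum_le_sum_of_subset_of_nonneg (Finset.filter_subset _ _)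
            (fun x _ _ => by positivity)
    rw [← Finset.mul_sum] at h1
    have h2 : (Xb.card : ℝ) * L ≤ (((q : ℝ) - 1) * (q : ℝ) ^ N * (2 * K * ρ)) * L := by
      refine h1.trans ?_
      have := mul_le_mul_of_nonneg_left hsum (show (0 : ℝ) ≤ 2 by norm_num)
      refine this.trans (le_of_eq ?_)
      ring
    have hLpos : (0 : ℝ) < L := by exact_mod_cast hL1
    exact le_of_mul_le_mul_right h2 hLpos
  -- the two bounds
  set G : ℤ → ℝ := fun x => -Real.log (HH q T F J x / P) with hG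
  have hRC : RobC q K J F ε' (η / 4) C := by
    intro Ω Y U U₀ y₀ a1 a2 a3 a4 a5
    exact hrob F hF (List ℕ) Ω Y U U₀ y₀ J a1 a2 a3 a4 a5
  have hXdvd : ∀ x ∈ X, ¬ (q : ℤ) ∣ (x : ℤ) := by
    intro x hx
    rw [hX, Finset.mem_filter] at hx
    exact hx.2
  have hB1 : ∀ x ∈ X, x ∉ Xb → ∑ t ∈ range (q ^ J), G ((x : ℤ) + (q : ℤ) ^ (N + 1) * (t : ℤ)) ≤
      (q : ℝ) ^ J * (Real.log 2 + η / 4 * J + |C|) := by
    intro x hx hxb
    have h1 : 2 * nl x ≤ L := by
      by_contra hc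
      rw [not_le] at hc
      exact hxb (by rw [hXb, Finset.mem_filter]; exact ⟨hx, hc⟩)
    have h2 := typical hq hq2 hF hRC hlen (hlive x (hXdvd x hx)) hL1 hPpos hPL h1
    refine h2.trans ?_
    have h3 := le_abs_self C
    have h4 : (0 : ℝ) ≤ (q : ℝ) ^ J := by positivity
    exact mul_le_mul_of_nonneg_left (by linarith) h4
  have hB2 : ∀ x ∈ X, ∑ t ∈ range (q ^ J), G ((x : ℤ) + (q : ℤ) ^ (N + 1) * (t : ℤ)) ≤
      (q : ℝ) ^ J * (B * J) := by
    intro x hx
    have h1 : ∀ t ∈ range (q ^ J), G ((x : ℤ) + (q : ℤ) ^ (N + 1) * (t : ℤ)) ≤ B * J := by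
      intro t _
      have hd : ¬ (q : ℤ) ∣ (x : ℤ) + (q : ℤ) ^ (N + 1) * (t : ℤ) := by
        intro hc
        apply hXdvd x hx
        have h2 : (q : ℤ) ∣ (q : ℤ) ^ (N + 1) * (t : ℤ) :=
          (dvd_pow_self (q : ℤ) (Nat.succ_ne_zero N)).mul_right _
        have := dvd_sub hc h2
        simpa using this
      have h2 := hlow _ hd
      have h3 : c₀ ^ J * c₁ ≤ HH q T F J ((x : ℤ) + (q : ℤ) ^ (N + 1) * (t : ℤ)) / P := by
        rw [le_div_iff₀ hPpos, mul_comm]
        refine le_trans ?_ h2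
        exact mul_le_mul_of_nonneg_right hPL (by positivity)
      have h4 := Real.log_le_log (by positivity) h3
      rw [Real.log_mul (by positivity) hc₁.ne', Real.log_pow] at h4
      have h5 := neg_abs_le (Real.log c₀)
      have h6 := neg_abs_le (Real.log c₁)
      have h7 : 0 ≤ |Real.log c₁| := abs_nonneg _
      simp only [hG]
      rw [hB]
      nlinarith [h4, h5, h6, h7, mul_le_mul_of_nonneg_left h5 (show (0 : ℝ) ≤ J by linarith),
        mul_le_mul_of_nonneg_left hJr h7]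
    refine (Finset.sum_le_sum h1).trans (le_of_eq ?_)
    rw [Finset.sum_const, card_range, nsmul_eq_mul]
    push_cast
    ring
  have htot : ∑ x ∈ (range (q ^ (N + 1 + J))).filter (fun x : ℕ => ¬ (q : ℤ) ∣ (x : ℤ)),
      G (x : ℤ) ≤ ((q : ℝ) - 1) * (q : ℝ) ^ N * (q : ℝ) ^ J *
        (Real.log 2 + η / 4 * J + |C| + 2 * K * ρ * (B * J)) := by
    rw [split_sum hq.pos (by omega) J G]
    have hlog2 : 0 ≤ Real.log 2 := Real.log_nonneg (by norm_num)
    have h1 : ∀ x ∈ X, ∑ t ∈ range (q ^ J), G ((x : ℤ) + (q : ℤ) ^ (N + 1) * (t : ℤ)) ≤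
        (q : ℝ) ^ J * (Real.log 2 + η / 4 * J + |C|) +
          if x ∈ Xb then (q : ℝ) ^ J * (B * J) else 0 := by
      intro x hx
      by_cases hxb : x ∈ Xb
      · rw [if_pos hxb]
        have h2 := hB2 x hx
        have h3 : 0 ≤ (q : ℝ) ^ J * (Real.log 2 + η / 4 * J + |C|) := by positivity
        linarith
      · rw [if_neg hxb, add_zero]
        exact hB1 x hx hxb
    refine (Finset.sum_le_sum h1).trans ?_
    rw [Finset.sum_add_distrib, Finset.sum_const, nsmul_eq_mul, hXcard, ← Finset.sum_filter,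
      Finset.sum_const, nsmul_eq_mul]
    have h4 : X.filter (fun x => x ∈ Xb) = Xb := by
      ext x
      rw [Finset.mem_filter]
      constructor
      · exact fun h => h.2
      · intro h
        refine ⟨?_, h⟩
        rw [hXb, Finset.mem_filter] at h
        exact h.1
    rw [h4]
    have h5 : 0 ≤ (q : ℝ) ^ J * (B * J) := by positivity
    have h6 := mul_le_mul_of_nonneg_right hXbcard h5
    calc _ ≤ ((q : ℝ) - 1) * (q : ℝ) ^ N * ((q : ℝ) ^ J * (Real.log 2 + η / 4 * J + |C|)) +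
          ((q : ℝ) - 1) * (q : ℝ) ^ N * (2 * K * ρ) * ((q : ℝ) ^ J * (B * J)) := by linarith
      _ = _ := by ring
  -- conclusion
  unfold avU
  rw [show N + J + 1 = N + 1 + J by ring]
  rw [div_le_iff₀ (by positivity)]
  refine htot.trans ?_
  rw [pow_add (q : ℝ) N J]
  have hfin : Real.log 2 + η / 4 * J + |C| + 2 * K * ρ * (B * J) ≤ η * J := by
    have h1 : 2 * K * ρ * (B * J) = 4 * K * (q - 1) * B * ε / ε' * J + 4 * K * B / ε' := by
      rw [hρdef]
      field_simp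
      ring
    have h2 : 4 * K * (q - 1) * B * ε / ε' ≤ η / 4 := by
      rw [hε]
      have h3 : 4 * K * (q - 1) * B * (η * ε' / (16 * K * (q - 1) * (B + 1))) / ε' =
          η / 4 * (B / (B + 1)) := by
        field_simp
        ring
      rw [h3]
      have h4 : B / (B + 1) ≤ 1 := by
        rw [div_le_one (by positivity)]; linarith
      calc η / 4 * (B / (B + 1)) ≤ η / 4 * 1 := mul_le_mul_of_nonneg_left h4 (by positivity)
        _ = η / 4 := mul_one _
    rw [h1]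
    have h5 := mul_le_mul_of_nonneg_right h2 (show (0 : ℝ) ≤ J by linarith)
    linarith
  have h7 : 0 ≤ ((q : ℝ) - 1) * (q : ℝ) ^ N * (q : ℝ) ^ J := by positivity
  refine (mul_le_mul_of_nonneg_left hfin h7).trans (le_of_eq ?_)
  ring

end Pool.Agent.H422R2.QA
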