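import Pool.Agent.H422R2.QA.QAWords
import Pool.Agent.H320R2.PDWords

/-!
Task H2 (BAL2): from growth at every start to balanced block families.
-/

set_option autoImplicit false

namespace Pool.Agent.H422R2.QA

open Finset Pool.Agent.H320R2.PD

open scoped Classical in
theorem card_letters_aux {q : ℕ} (hq : q.Prime) (hq2 : q ≠ 2) (hP : Prim q) {y : ℤ}
    (hy : ¬ (q : ℤ) ∣ y) (D : Finset ℕ) (hD : D ⊆ range q) :
    (D.biUnion (fun d => (Icc 1 (q * (q - 1))).filter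
      (fun e => Vd q [e] y ∧ (q : ℤ) ∣ Ep q [e] y - d))).card = D.card := by
  rw [Finset.card_biUnion]
  · rw [Finset.sum_congr rfl (fun d hd => hP.unique hq hq2 hy (mem_range.1 (hD hd)))]
    simp
  · intro d hd d' hd' hne
    rw [Function.onFun, Finset.disjoint_left]
    intro e he he'
    rw [mem_filter] at he he'
    have h1 : (q : ℤ) ∣ (d : ℤ) - d' := by
      have := dvd_sub he'.2.2 he.2.2
      ring_nf at this ⊢
      simpa [sub_eq_add_neg, add_comm] using this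
    have h2 := mem_range.1 (hD hd)
    have h3 := mem_range.1 (hD hd')
    have h4 := Int.eq_zero_of_abs_lt_dvd h1 (by rw [abs_lt]; omega)
    omega

open scoped Classical in
/-- number of valid letters among `[1, q(q-1)]` -/
theorem card_letters_valid {q : ℕ} (hq : q.Prime) (hq2 : q ≠ 2) (hP : Prim q) {y : ℤ}
    (hy : ¬ (q : ℤ) ∣ y) : ((Icc 1 (q * (q - 1))).filter (fun e => Vd q [e] y)).card = q := by
  have h := card_letters_aux hq hq2 hP hy (range q) (Subset.refl _)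
  rw [card_range] at h
  refine Eq.trans (congrArg Finset.card ?_) h
  ext e
  simp only [mem_filter, mem_biUnion, mem_range]
  have hqz : (0 : ℤ) < q := by exact_mod_cast hq.pos
  constructor
  · rintro ⟨h1, h2⟩
    refine ⟨(Ep q [e] y % q).toNat, ?_, h1, h2, ?_⟩
    · have := Int.emod_lt_of_pos (Ep q [e] y) hqz
      have := Int.emod_nonneg (Ep q [e] y) hqz.ne'
      omega
    · have h3 := Int.emod_nonneg (Ep q [e] y) hqz.ne'
      rw [Int.toNat_of_nonneg h3]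
      exact Int.dvd_self_sub_emod
  · rintro ⟨d, _, h1, h2, _⟩
    exact ⟨h1, h2⟩

open scoped Classical in
theorem card_letters_live {q : ℕ} (hq : q.Prime) (hq2 : q ≠ 2) (hP : Prim q) {y : ℤ}
    (hy : ¬ (q : ℤ) ∣ y) : ((Icc 1 (q * (q - 1))).filter (fun e => Lv q [e] y)).card = q - 1 := by
  have h := card_letters_aux hq hq2 hP hy ((range q).erase 0) (Finset.erase_subset _ _)
  rw [card_erase_of_mem (mem_range.2 hq.pos), card_range] at h
  refine Eq.trans (congrArg Finset.card ?_) h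
  ext e
  simp only [mem_filter, mem_biUnion, mem_range, mem_erase]
  have hqz : (0 : ℤ) < q := by exact_mod_cast hq.pos
  constructor
  · rintro ⟨h1, h2, h5⟩
    have h3 := Int.emod_nonneg (Ep q [e] y) hqz.ne'
    have h4 := Int.emod_lt_of_pos (Ep q [e] y) hqz
    have h6 : Ep q [e] y % q ≠ 0 := fun h => h5 (Int.dvd_of_emod_eq_zero h)
    refine ⟨(Ep q [e] y % q).toNat, ⟨by omega, by omega⟩, h1, h2, ?_⟩
    rw [Int.toNat_of_nonneg h3]
    exact Int.dvd_self_sub_emod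
  · rintro ⟨d, ⟨hd0, hd⟩, h1, h2, h3⟩
    refine ⟨h1, h2, fun h4 => ?_⟩
    have h5 : (q : ℤ) ∣ (d : ℤ) := by
      have := dvd_sub h4 h3
      simpa using this
    have h6 := Nat.le_of_dvd (Nat.pos_of_ne_zero hd0) (Int.natCast_dvd_natCast.1 h5)
    omega

theorem append_single_inj {p p' : List ℕ × ℕ} (h : p.1 ++ [p.2] = p'.1 ++ [p'.2]) : p = p' := by
  have h1 := List.append_inj' h rfl
  have h2 : p.2 = p'.2 := by simpa using h1.2
  exact Prod.ext h1.1 h2

/-- two starts at which the same word is valid are congruent -/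
theorem congr_of_Vd {q : ℕ} (hq : q.Prime) (hq2 : q ≠ 2) {w : List ℕ} {x y : ℤ}
    (hx : Vd q w x) (hy : Vd q w y) : (q : ℤ) ^ w.length ∣ x - y := by
  have h : (q : ℤ) ^ w.length ∣ 2 ^ w.sum * (x - y) := by
    have := dvd_sub hx hy
    have e : (2 : ℤ) ^ w.sum * x - Wq q w - (2 ^ w.sum * y - Wq q w) = 2 ^ w.sum * (x - y) := by ring
    rwa [e] at this
  refine IsCoprime.dvd_of_dvd_mul_left ?_ h
  apply IsCoprime.pow
  have : Nat.Coprime q 2 := (Nat.coprime_primes hq Nat.prime_two).2 hq2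
  exact_mod_cast Nat.isCoprime_iff_coprime.2 this

open scoped Classical in
/-- the balanced family built from exactly `M` live words of length `n` at every class -/
theorem bal_of_choice {q E n M : ℕ} (hq : q.Prime) (hq2 : q ≠ 2) (hP : Prim q)
    (hE : q * (q - 1) ≤ E) (C : ℤ → Finset (List ℕ))
    (hC : ∀ x : ℤ, ¬ (q : ℤ) ∣ x → (C x).card = M ∧ ∀ w ∈ C x, w ∈ FW E n ∧ Lv q w x) :
    ∃ V : Finset (List ℕ), Bal q E (n + 1) V M ∧
      ∀ w ∈ V, ∃ x : ℤ, ¬ (q : ℤ) ∣ x ∧ ∃ v ∈ C x, ∃ e ∈ Icc 1 (q * (q - 1)), w = v ++ [e] := by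
  set N : ℕ := q ^ (n + 1) with hN
  have hNpos : 0 < N := pow_pos hq.pos _
  set R : Finset ℕ := (range N).filter (fun r : ℕ => ¬ (q : ℤ) ∣ (r : ℤ)) with hR
  set fam : ℕ → Finset (List ℕ) := fun r =>
    ((C (r : ℤ) ×ˢ Icc 1 (q * (q - 1))).filter
      (fun p : List ℕ × ℕ => Vd q [p.2] (Ep q p.1 (r : ℤ)))).image (fun p => p.1 ++ [p.2]) with hfam
  set V : Finset (List ℕ) := R.biUnion fam with hV
  have hmemV : ∀ w : List ℕ, w ∈ V ↔ ∃ r ∈ R, ∃ v ∈ C (r : ℤ), ∃ e ∈ Icc 1 (q * (q - 1)),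
      Vd q [e] (Ep q v (r : ℤ)) ∧ v ++ [e] = w := by
    intro w
    simp only [hV, hfam, mem_biUnion, mem_image, mem_filter, mem_product, Prod.exists]
    constructor
    · rintro ⟨r, hr, v, e, ⟨⟨hv, he⟩, h1⟩, h2⟩
      exact ⟨r, hr, v, hv, e, he, h1, h2⟩
    · rintro ⟨r, hr, v, hv, e, he, h1, h2⟩
      exact ⟨r, hr, v, e, ⟨⟨hv, he⟩, h1⟩, h2⟩
  have hRm : ∀ r ∈ R, ¬ (q : ℤ) ∣ (r : ℤ) := fun r hr => (mem_filter.1 hr).2
  -- the words of `V` valid (live) at `x`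
  have key : ∀ (Q : List ℕ → ℤ → Prop), (∀ w x, Q w x → Vd q w x) →
      (∀ (v : List ℕ) (e : ℕ) (x : ℤ), Lv q v x → (Q (v ++ [e]) x ↔ Q [e] (Ep q v x))) →
      ∀ x : ℤ, ¬ (q : ℤ) ∣ x → V.filter (fun w => Q w x) =
        ((C (((x % (N : ℤ)).toNat : ℕ) : ℤ) ×ˢ Icc 1 (q * (q - 1))).filter
          (fun p : List ℕ × ℕ => Q [p.2] (Ep q p.1 x))).image (fun p => p.1 ++ [p.2]) := by
    intro Q hQ1 hQ2 x hx
    have hN0 : (0 : ℤ) < (N : ℤ) := by exact_mod_cast hNpos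
    set r : ℕ := (x % (N : ℤ)).toNat with hr
    have hrc : (r : ℤ) = x % (N : ℤ) := by
      rw [hr]; exact Int.toNat_of_nonneg (Int.emod_nonneg _ hN0.ne')
    have hxr : x = (r : ℤ) + (q : ℤ) ^ (n + 1) * (x / (N : ℤ)) := by
      rw [hrc]
      have h1 := (Int.emod_add_mul_ediv x (N : ℤ)).symm
      have h2 : (N : ℤ) = (q : ℤ) ^ (n + 1) := by rw [hN]; push_cast; rfl
      rw [h2] at h1 ⊢
      exact h1
    have hqr : ¬ (q : ℤ) ∣ (r : ℤ) := by
      intro hd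
      apply hx
      rw [hxr]
      exact dvd_add hd (Dvd.dvd.mul_right (dvd_pow_self _ (by omega)) _)
    have hrN : r < N := by
      have : (r : ℤ) < N := by rw [hrc]; exact Int.emod_lt_of_pos _ hN0
      exact_mod_cast this
    have hrR : r ∈ R := mem_filter.2 ⟨mem_range.2 hrN, hqr⟩
    -- transfer between `r` and `x`
    have hlive : ∀ v ∈ C (r : ℤ), Lv q v x := by
      intro v hv
      obtain ⟨h1, h2⟩ := (hC _ hqr).2 v hv
      have hl : v.length = n := (mem_FW.1 h1).1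
      rw [hxr, ← hl]
      exact (Lv_shift hq.pos v _ _).2 h2
    have hEp : ∀ v ∈ C (r : ℤ), ∃ y : ℤ, Ep q v x = Ep q v (r : ℤ) + (q : ℤ) ^ 1 * y := by
      intro v hv
      obtain ⟨h1, h2⟩ := (hC _ hqr).2 v hv
      have hl : v.length = n := (mem_FW.1 h1).1
      refine ⟨2 ^ v.sum * (x / (N : ℤ)), ?_⟩
      have h3 := Ep_shift hq.pos v (r : ℤ) ((q : ℤ) * (x / (N : ℤ)))
      have h4 : (r : ℤ) + (q : ℤ) ^ v.length * ((q : ℤ) * (x / (N : ℤ))) = x := by
        rw [hl]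
        rw [pow_succ] at hxr
        rw [← mul_assoc]
        exact hxr.symm
      rw [h4] at h3
      rw [h3]; ring
    ext w
    simp only [mem_filter, mem_image, mem_product, Prod.exists]
    constructor
    · rintro ⟨hw, hQw⟩
      obtain ⟨r', hr', v, hv, e, he, hve, rfl⟩ := (hmemV w).1 hw
      have hqr' := hRm r' hr'
      obtain ⟨h1, h2⟩ := (hC _ hqr').2 v hv
      have hl : v.length = n := (mem_FW.1 h1).1
      have hV1 : Vd q (v ++ [e]) (r' : ℤ) := (Vd_append hq hq2 v [e] _).2 ⟨h2.1, hve⟩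
      have hV2 : Vd q (v ++ [e]) x := hQ1 _ _ hQw
      have hd := congr_of_Vd hq hq2 hV2 hV1
      have hlen : (v ++ [e]).length = n + 1 := by simp [hl]
      rw [hlen] at hd
      have hrr' : r' = r := by
        have hd2 : (q : ℤ) ^ (n + 1) ∣ (r : ℤ) - (r' : ℤ) := by
          have h5 : (r : ℤ) - r' = (x - r') - (q : ℤ) ^ (n + 1) * (x / (N : ℤ)) := by
            linarith [hxr]
          rw [h5]
          exact dvd_sub hd (dvd_mul_right _ _)
        have h6 : r' < N := mem_range.1 (mem_filter.1 hr').1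
        have h7 : (r : ℤ) - r' = 0 := by
          apply Int.eq_zero_of_abs_lt_dvd hd2
          have h2 : (q : ℤ) ^ (n + 1) = (N : ℤ) := by rw [hN]; push_cast; rfl
          rw [h2, abs_lt]
          constructor <;> omega
        omega
      subst hrr'
      refine ⟨v, e, ⟨⟨hv, he⟩, ?_⟩, rfl⟩
      exact (hQ2 v e x (hlive v hv)).1 hQw
    · rintro ⟨v, e, ⟨⟨hv, he⟩, hQe⟩, rfl⟩
      refine ⟨(hmemV _).2 ⟨r, hrR, v, hv, e, he, ?_, rfl⟩, ?_⟩
      · obtain ⟨y, hy⟩ := hEp v hv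
        have h1 := hQ1 _ _ hQe
        rw [hy] at h1
        exact (Vd_shift q [e] _ _).1 h1
      · exact (hQ2 v e x (hlive v hv)).2 hQe
  have hcard : ∀ (Q : List ℕ → ℤ → Prop) (c : ℕ), (∀ w x, Q w x → Vd q w x) →
      (∀ (v : List ℕ) (e : ℕ) (x : ℤ), Lv q v x → (Q (v ++ [e]) x ↔ Q [e] (Ep q v x))) →
      (∀ y : ℤ, ¬ (q : ℤ) ∣ y → ((Icc 1 (q * (q - 1))).filter (fun e => Q [e] y)).card = c) →
      ∀ x : ℤ, ¬ (q : ℤ) ∣ x → (V.filter (fun w => Q w x)).card = c * M := by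
    intro Q c hQ1 hQ2 hQ3 x hx
    rw [key Q hQ1 hQ2 x hx, Finset.card_image_of_injective _ (fun a b h => append_single_inj h)]
    have hN0 : (0 : ℤ) < (N : ℤ) := by exact_mod_cast hNpos
    set r : ℕ := (x % (N : ℤ)).toNat with hr
    have hrc : (r : ℤ) = x % (N : ℤ) := by
      rw [hr]; exact Int.toNat_of_nonneg (Int.emod_nonneg _ hN0.ne')
    have hxr : x = (r : ℤ) + (q : ℤ) ^ (n + 1) * (x / (N : ℤ)) := by
      rw [hrc]
      have h1 := (Int.emod_add_mul_ediv x (N : ℤ)).symm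
      have h2 : (N : ℤ) = (q : ℤ) ^ (n + 1) := by rw [hN]; push_cast; rfl
      rw [h2] at h1 ⊢
      exact h1
    have hqr : ¬ (q : ℤ) ∣ (r : ℤ) := by
      intro hd
      apply hx
      rw [hxr]
      exact dvd_add hd (Dvd.dvd.mul_right (dvd_pow_self _ (by omega)) _)
    rw [Finset.card_filter, Finset.sum_product]
    have h1 : ∀ v ∈ C (r : ℤ), (∑ e ∈ Icc 1 (q * (q - 1)), if Q [e] (Ep q v x) then 1 else 0) = c := by
      intro v hv
      obtain ⟨h2, h3⟩ := (hC _ hqr).2 v hv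
      have hl : v.length = n := (mem_FW.1 h2).1
      have h4 : Lv q v x := by
        rw [hxr, ← hl]
        exact (Lv_shift hq.pos v _ _).2 h3
      rw [← Finset.card_filter]
      exact hQ3 _ h4.2
    rw [Finset.sum_congr rfl h1, Finset.sum_const, (hC _ hqr).1, smul_eq_mul, mul_comm]
  refine ⟨V, ⟨?_, ?_, ?_⟩, ?_⟩
  · intro w hw
    obtain ⟨r, hr, v, hv, e, he, hve, rfl⟩ := (hmemV w).1 hw
    obtain ⟨h1, h2⟩ := (hC _ (hRm r hr)).2 v hv
    obtain ⟨hl, hv'⟩ := mem_FW.1 h1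
    rw [mem_FW]
    refine ⟨by simp [hl], ?_⟩
    intro e' he'
    rw [List.mem_append, List.mem_singleton] at he'
    rcases he' with h | rfl
    · exact hv' e' h
    · rw [mem_Icc] at he
      exact ⟨he.1, he.2.trans hE⟩
  · intro x hx
    exact hcard (fun w x => Vd q w x) q (fun w x h => h)
      (fun v e x h => ⟨fun h' => ((Vd_append hq hq2 v [e] x).1 h').2,
        fun h' => (Vd_append hq hq2 v [e] x).2 ⟨h.1, h'⟩⟩)
      (fun y hy => card_letters_valid hq hq2 hP hy) x hx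
  · intro x hx
    exact hcard (fun w x => Lv q w x) (q - 1) (fun w x h => h.1)
      (fun v e x h => ⟨fun h' => ((Lv_append hq hq2 (by simp) x).1 h').2,
        fun h' => (Lv_append hq hq2 (by simp) x).2 ⟨h, h'⟩⟩)
      (fun y hy => card_letters_live hq hq2 hP hy) x hx
  · intro w hw
    obtain ⟨r, hr, v, hv, e, he, hve, rfl⟩ := (hmemV w).1 hw
    exact ⟨r, hRm r hr, v, hv, e, he, rfl⟩

/-- from growth at every start to balanced block families -/
theorem exists_bal {q E : ℕ} (hq : q.Prime) (hq2 : q ≠ 2) (hP : Prim q) (hE : q * (q - 1) ≤ E)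
    {g a : ℝ} (_hg : 0 < g) (h : Pr q E g a) {ε : ℝ} (hε : 0 < ε) :
    ∃ b₀ : ℕ, ∀ b : ℕ, b₀ ≤ b → ∃ (V : Finset (List ℕ)) (M : ℕ), Bal q E b V M ∧
      Real.exp ((g - ε) * b) ≤ M ∧ ∀ w ∈ V, |(w.sum : ℝ) - a * b| ≤ ε * b := by
  classical
  obtain ⟨n₀, hn₀⟩ := h (ε / 4) (by positivity)
  obtain ⟨b₁, hb₁⟩ := exists_nat_ge ((4 / (3 * ε)) * (|g| + |a| + q * (q - 1) + ε))
  refine ⟨max (n₀ + 1) b₁, ?_⟩
  intro b hb
  have hbn : n₀ + 1 ≤ b := (le_max_left _ _).trans hb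
  have hbb : b₁ ≤ b := (le_max_right _ _).trans hb
  obtain ⟨n, rfl⟩ : ∃ n, b = n + 1 := ⟨b - 1, by omega⟩
  have hn : n₀ ≤ n := by omega
  have hbig : |g| + |a| + q * (q - 1) + ε ≤ (3 * ε / 4) * ((n : ℝ) + 1) := by
    have h1 : (4 / (3 * ε)) * (|g| + |a| + q * (q - 1) + ε) ≤ (n : ℝ) + 1 := by
      refine hb₁.trans ?_
      exact_mod_cast hbb
    have h2 := mul_le_mul_of_nonneg_left h1 (by positivity : (0 : ℝ) ≤ 3 * ε / 4)
    have h3 : (3 * ε / 4) * ((4 / (3 * ε)) * (|g| + |a| + q * (q - 1) + ε)) =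
        |g| + |a| + q * (q - 1) + ε := by
      field_simp
    rw [h3] at h2
    exact h2
  have hq1 : (1 : ℝ) ≤ q := by exact_mod_cast hq.one_lt.le
  have hqq : (0 : ℝ) ≤ (q : ℝ) * (q - 1) := by
    apply mul_nonneg (by linarith) (by linarith)
  set M : ℕ := ⌈Real.exp ((g - ε) * ((n + 1 : ℕ) : ℝ))⌉₊ with hM
  have hchoose : ∀ x : ℤ, ∃ C : Finset (List ℕ), ¬ (q : ℤ) ∣ x →
      C.card = M ∧ ∀ w ∈ C, (w ∈ FW E n ∧ Lv q w x) ∧ |(w.sum : ℝ) - a * n| ≤ ε / 4 * n := by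
    intro x
    by_cases hx : (q : ℤ) ∣ x
    · exact ⟨∅, fun h => absurd hx h⟩
    · obtain ⟨s, hs, hexp⟩ := hn₀ n hn x hx
      have hMN : M ≤ Nq q E n s x := by
        rw [hM]
        apply Nat.ceil_le.2
        refine le_trans (Real.exp_le_exp.2 ?_) hexp
        push_cast
        have h1 := le_abs_self g
        have h2 := abs_nonneg a
        nlinarith
      unfold Nq at hMN
      obtain ⟨C, hC1, hC2⟩ := Finset.exists_subset_card_eq hMN
      refine ⟨C, fun _ => ⟨hC2, ?_⟩⟩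
      intro w hw
      have h1 := mem_filter.1 (hC1 hw)
      refine ⟨⟨h1.1, h1.2.2⟩, ?_⟩
      rw [h1.2.1]
      exact hs
  choose C hC using hchoose
  obtain ⟨V, hV1, hV2⟩ := bal_of_choice (M := M) hq hq2 hP hE C
    (fun x hx => ⟨(hC x hx).1, fun w hw => ((hC x hx).2 w hw).1⟩)
  refine ⟨V, M, hV1, Nat.le_ceil _, ?_⟩
  intro w hw
  obtain ⟨x, hx, v, hv, e, he, rfl⟩ := hV2 w hw
  have h1 := ((hC x hx).2 v hv).2
  rw [mem_Icc] at he
  have he1 : (e : ℝ) ≤ q * (q - 1) := by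
    have : (e : ℝ) ≤ ((q * (q - 1) : ℕ) : ℝ) := by exact_mod_cast he.2
    rw [Nat.cast_mul, Nat.cast_sub hq.one_lt.le] at this
    simpa using this
  have he0 : (0 : ℝ) ≤ e := Nat.cast_nonneg e
  have hs : (((v ++ [e]).sum : ℕ) : ℝ) = (v.sum : ℝ) + e := by
    rw [List.sum_append, List.sum_singleton, Nat.cast_add]
  rw [hs, Nat.cast_add, Nat.cast_one]
  rw [abs_le] at h1 ⊢
  have ha1 := le_abs_self a
  have ha2 := neg_abs_le a
  have hg0 := abs_nonneg g
  have hn0 : (0 : ℝ) ≤ n := Nat.cast_nonneg n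
  have hεn : 0 ≤ ε * n := by positivity
  obtain ⟨h1a, h1b⟩ := h1
  constructor
  · linarith
  · linarith

end Pool.Agent.H422R2.QA
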