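import Pool.Agent.H422R2.QA.QADefs

/-!
QUENCHED = ANNEALED, Task C1 (FOUR1): the functional `Fb`, `Gm`, `gm`.
-/

set_option autoImplicit false

namespace Pool.Agent.H422R2.QA

open Finset Pool.Agent.H320R2.PD
open scoped NNReal

section basic

variable {ι : Type*}

theorem mc_nonneg (q : ℕ) (s : Finset ι) (v : ι → ℤ) (j : ℕ) (c : ℤ) : 0 ≤ mc q s v j c := by
  unfold mc
  positivity

theorem norm_fc_le (q : ℕ) (s : Finset ι) (v : ι → ℤ) (j : ℕ) (c : ℤ) (ψ : ℕ) :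
    ‖fc q s v j c ψ‖ ≤ mc q s v j c := by
  unfold fc mc
  refine (norm_sum_le _ _).trans ?_
  have h : ∀ i ∈ s.filter (fun i => (q : ℤ) ^ j ∣ v i - c),
      ‖Complex.exp (2 * Real.pi * Complex.I * (ψ * ((v i - c) / (q : ℤ) ^ j : ℤ) / q))‖ = 1 := by
    intro i _
    have : (2 * Real.pi * Complex.I * (ψ * ((v i - c) / (q : ℤ) ^ j : ℤ) / q) : ℂ) =
        ((2 * Real.pi * (ψ * ((v i - c) / (q : ℤ) ^ j : ℤ) / q) : ℝ) : ℂ) * Complex.I := by
      push_cast
      ring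
    rw [this, Complex.norm_exp_ofReal_mul_I]
  rw [Finset.sum_congr rfl h]
  simp

theorem Fb_nonneg (q : ℕ) (s : Finset ι) (v : ι → ℤ) (j : ℕ) (c : ℤ) :
    0 ≤ Fb q s v j c := by
  unfold Fb
  exact NNReal.coe_nonneg _

theorem le_Fb {q : ℕ} (s : Finset ι) (v : ι → ℤ) (j : ℕ) (c : ℤ) {ψ : ℕ}
    (hψ : ψ ∈ Finset.Ico 1 q) :
    ‖fc q s v j c ψ‖ ^ 2 / mc q s v j c ≤ Fb q s v j c := by
  unfold Fb
  have h := Finset.le_sup (f := fun ψ => ‖fc q s v j c ψ‖₊ ^ 2 / (mc q s v j c).toNNReal) hψ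
  have h' := NNReal.coe_le_coe.2 h
  refine le_trans (le_of_eq ?_) h'
  simp [Real.coe_toNNReal _ (mc_nonneg q s v j c)]

theorem Fb_le_of {q : ℕ} (s : Finset ι) (v : ι → ℤ) (j : ℕ) (c : ℤ) {B : ℝ} (hB : 0 ≤ B)
    (h : ∀ ψ ∈ Finset.Ico 1 q, ‖fc q s v j c ψ‖ ^ 2 / mc q s v j c ≤ B) :
    Fb q s v j c ≤ B := by
  unfold Fb
  have h1 : ((Finset.Ico 1 q).sup fun ψ => ‖fc q s v j c ψ‖₊ ^ 2 / (mc q s v j c).toNNReal : ℝ≥0)
      ≤ B.toNNReal := by
    apply Finset.sup_le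
    intro ψ hψ
    rw [← NNReal.coe_le_coe, Real.coe_toNNReal _ hB]
    refine le_trans (le_of_eq ?_) (h ψ hψ)
    simp [Real.coe_toNNReal _ (mc_nonneg q s v j c)]
  have h2 := NNReal.coe_le_coe.2 h1
  rwa [Real.coe_toNNReal _ hB] at h2

theorem Fb_le (q : ℕ) (s : Finset ι) (v : ι → ℤ) (j : ℕ) (c : ℤ) :
    Fb q s v j c ≤ mc q s v j c := by
  apply Fb_le_of _ _ _ _ (mc_nonneg q s v j c)
  intro ψ _
  have h0 := mc_nonneg q s v j c
  have h1 := norm_fc_le q s v j c ψ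
  rcases eq_or_lt_of_le h0 with h | h
  · rw [← h]
    simp
  · rw [div_le_iff₀ h, sq]
    exact mul_le_mul h1 h1 (norm_nonneg _) h0

/-- Titu's inequality (Cauchy-Schwarz) for complex numbers bounded by the masses. -/
theorem titu {κ : Type*} (P : Finset κ) (z : κ → ℂ) (m : κ → ℝ) (h : ∀ p ∈ P, ‖z p‖ ≤ m p) :
    ‖∑ p ∈ P, z p‖ ^ 2 / ∑ p ∈ P, m p ≤ ∑ p ∈ P, ‖z p‖ ^ 2 / m p := by
  have hm : ∀ p ∈ P, 0 ≤ m p := fun p hp => (norm_nonneg _).trans (h p hp)
  have hS : 0 ≤ ∑ p ∈ P, m p := Finset.sum_nonneg hm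
  have hf : ∀ p ∈ P, 0 ≤ ‖z p‖ ^ 2 / m p := fun p hp => div_nonneg (by positivity) (hm p hp)
  rcases eq_or_lt_of_le hS with h0 | h0
  · rw [← h0]
    simp only [div_zero]
    exact Finset.sum_nonneg hf
  · rw [div_le_iff₀ h0]
    calc ‖∑ p ∈ P, z p‖ ^ 2 ≤ (∑ p ∈ P, ‖z p‖) ^ 2 := by
          gcongr
          exact norm_sum_le _ _
      _ ≤ _ := by
          apply Finset.sum_sq_le_sum_mul_sum_of_sq_le_mul P hf hm
          intro p hp
          apply le_of_eq
          rcases eq_or_lt_of_le (hm p hp) with h2 | h2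
          · have h3 : ‖z p‖ ≤ 0 := by
              have := h p hp
              rwa [← h2] at this
            have h4 : ‖z p‖ = 0 := le_antisymm h3 (norm_nonneg _)
            rw [h4, ← h2]
            simp
          · field_simp

/-- every integer is congruent to exactly one natural number below `q^j` -/
theorem class_unique {q : ℕ} (hq : 0 < q) (j : ℕ) (y : ℤ) :
    ∃ c ∈ range (q ^ j), (q : ℤ) ^ j ∣ y - (c : ℤ) ∧
      ∀ d ∈ range (q ^ j), (q : ℤ) ^ j ∣ y - (d : ℤ) → d = c := by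
  have hQ : (0 : ℤ) < (q : ℤ) ^ j := by positivity
  refine ⟨(y % (q : ℤ) ^ j).toNat, ?_, ?_, ?_⟩
  · rw [Finset.mem_range]
    have h1 := Int.emod_nonneg y hQ.ne'
    have h2 := Int.emod_lt_of_pos y hQ
    zify
    rw [Int.toNat_of_nonneg h1]
    exact h2
  · rw [Int.toNat_of_nonneg (Int.emod_nonneg y hQ.ne')]
    exact Int.dvd_self_sub_emod
  · intro d hd hdd
    have h1 : y % (q : ℤ) ^ j = (d : ℤ) := by
      have h3 : y ≡ (d : ℤ) [ZMOD (q : ℤ) ^ j] := by
        exact (Int.modEq_iff_dvd.2 hdd).symm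
      have h4 : (d : ℤ) % (q : ℤ) ^ j = (d : ℤ) := by
        apply Int.emod_eq_of_lt (by positivity)
        rw [Finset.mem_range] at hd
        exact_mod_cast hd
      rw [← h4]
      exact h3
    rw [h1]
    simp

theorem sum_mc {q : ℕ} (hq : 0 < q) (s : Finset ι) (v : ι → ℤ) (j : ℕ) :
    ∑ c ∈ range (q ^ j), mc q s v j (c : ℤ) = s.card := by
  classical
  unfold mc
  have h : ∀ c ∈ range (q ^ j), ((s.filter (fun i => (q : ℤ) ^ j ∣ v i - (c : ℤ))).card : ℝ) =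
      ∑ i ∈ s, if (q : ℤ) ^ j ∣ v i - (c : ℤ) then (1 : ℝ) else 0 := by
    intro c _
    rw [Finset.card_filter]
    push_cast
    rfl
  rw [Finset.sum_congr rfl h, Finset.sum_comm]
  have h2 : ∀ i ∈ s, (∑ c ∈ range (q ^ j), if (q : ℤ) ^ j ∣ v i - (c : ℤ) then (1 : ℝ) else 0) = 1 := by
    intro i _
    obtain ⟨c, hc, hd, hu⟩ := class_unique hq j (v i)
    rw [Finset.sum_eq_single c]
    · simp [hd]
    · intro d hd' hne
      rw [if_neg]
      intro hdd
      exact hne (hu d hd' hdd)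
    · intro hnc
      exact absurd hc hnc
  rw [Finset.sum_congr rfl h2]
  simp

theorem Gm_nonneg (q : ℕ) (s : Finset ι) (v : ι → ℤ) (j : ℕ) : 0 ≤ Gm q s v j :=
  Finset.sum_nonneg fun _ _ => Fb_nonneg _ _ _ _ _

theorem Gm_le_card {q : ℕ} (hq : 0 < q) (s : Finset ι) (v : ι → ℤ) (j : ℕ) :
    Gm q s v j ≤ s.card := by
  rw [← sum_mc hq s v j]
  exact Finset.sum_le_sum fun _ _ => Fb_le _ _ _ _ _

end basic

/-! ### pieces: `Gm` is subadditive, and the convolution inequality -/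

/-- `Fb` of a family cut into pieces, by Titu's inequality -/
theorem fc_fiber {ι κ : Type*} [DecidableEq κ] (q : ℕ) (s : Finset ι) (v : ι → ℤ) (j : ℕ) (c : ℤ)
    (ψ : ℕ) (P : Finset κ) (g : ι → κ)
    (hg : ∀ i ∈ s, (q : ℤ) ^ j ∣ v i - c → g i ∈ P) :
    fc q s v j c ψ = ∑ p ∈ P, fc q (s.filter (fun i => g i = p)) v j c ψ := by
  classical
  unfold fc
  rw [← Finset.sum_fiberwise_of_maps_to (s := s.filter (fun i => (q : ℤ) ^ j ∣ v i - c)) (t := P)
    (g := g)]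
  · apply Finset.sum_congr rfl
    intro p _
    apply Finset.sum_congr
    · ext i
      simp only [Finset.mem_filter]
      tauto
    · intros; rfl
  · intro i hi
    rw [Finset.mem_filter] at hi
    exact hg i hi.1 hi.2

theorem mc_fiber {ι κ : Type*} [DecidableEq κ] (q : ℕ) (s : Finset ι) (v : ι → ℤ) (j : ℕ) (c : ℤ)
    (P : Finset κ) (g : ι → κ)
    (hg : ∀ i ∈ s, (q : ℤ) ^ j ∣ v i - c → g i ∈ P) :
    mc q s v j c = ∑ p ∈ P, mc q (s.filter (fun i => g i = p)) v j c := by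
  classical
  unfold mc
  rw [Finset.card_eq_sum_card_fiberwise (s := s.filter (fun i => (q : ℤ) ^ j ∣ v i - c)) (t := P)
    (f := g)]
  · push_cast
    apply Finset.sum_congr rfl
    intro p _
    congr 2
    ext i
    simp only [Finset.mem_filter]
    tauto
  · intro i hi
    have hi' := Finset.mem_coe.1 hi
    rw [Finset.mem_filter] at hi'
    exact hg i hi'.1 hi'.2

/-- `Gm` is subadditive under partitions -/
theorem Gm_fiber {ι κ : Type*} [DecidableEq κ] (q : ℕ) (s : Finset ι) (v : ι → ℤ) (j : ℕ)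
    (P : Finset κ) (g : ι → κ) (hg : ∀ i ∈ s, g i ∈ P) :
    Gm q s v j ≤ ∑ p ∈ P, Gm q (s.filter (fun i => g i = p)) v j := by
  unfold Gm
  rw [Finset.sum_comm]
  apply Finset.sum_le_sum
  intro c _
  apply Fb_le_of
  · exact Finset.sum_nonneg fun _ _ => Fb_nonneg _ _ _ _ _
  · intro ψ hψ
    rw [fc_fiber q s v j c ψ P g (fun i hi _ => hg i hi), mc_fiber q s v j c P g (fun i hi _ => hg i hi)]
    refine (titu P _ _ (fun p _ => norm_fc_le _ _ _ _ _ _)).trans ?_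
    exact Finset.sum_le_sum fun p _ => le_Fb _ _ _ _ hψ

/-- a map of the index set -/
theorem Gm_image {ι κ : Type*} [DecidableEq κ] (q : ℕ) (s : Finset ι) (f : ι → κ)
    (hf : Set.InjOn f s) (v : κ → ℤ) (j : ℕ) :
    Gm q (s.image f) v j = Gm q s (fun i => v (f i)) j := by
  classical
  have h1 : ∀ c : ℤ, (s.image f).filter (fun i => (q : ℤ) ^ j ∣ v i - c) =
      (s.filter (fun i => (q : ℤ) ^ j ∣ v (f i) - c)).image f := by
    intro c
    rw [Finset.filter_image]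
  have hinj : ∀ c : ℤ, Set.InjOn f (s.filter (fun i => (q : ℤ) ^ j ∣ v (f i) - c)) := by
    intro c x hx y hy hxy
    apply hf _ _ hxy
    · exact (Finset.mem_filter.1 (Finset.mem_coe.1 hx)).1
    · exact (Finset.mem_filter.1 (Finset.mem_coe.1 hy)).1
  have hm : ∀ c : ℤ, mc q (s.image f) v j c = mc q s (fun i => v (f i)) j c := by
    intro c
    unfold mc
    rw [h1, Finset.card_image_of_injOn (hinj c)]
  have hF : ∀ (c : ℤ) (ψ : ℕ), fc q (s.image f) v j c ψ = fc q s (fun i => v (f i)) j c ψ := by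
    intro c ψ
    unfold fc
    rw [h1, Finset.sum_image (hinj c)]
  unfold Gm
  apply Finset.sum_congr rfl
  intro c _
  unfold Fb
  simp only [hm, hF]

/-- `Gm` depends only on the values on the family -/
theorem Gm_congr {ι : Type*} (q : ℕ) (s : Finset ι) (v v' : ι → ℤ) (j : ℕ)
    (h : ∀ i ∈ s, v i = v' i) : Gm q s v j = Gm q s v' j := by
  classical
  have h1 : ∀ c : ℤ, s.filter (fun i => (q : ℤ) ^ j ∣ v i - c) =
      s.filter (fun i => (q : ℤ) ^ j ∣ v' i - c) := by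
    intro c
    apply Finset.filter_congr
    intro i hi
    rw [h i hi]
  have hm : ∀ c : ℤ, mc q s v j c = mc q s v' j c := by
    intro c
    unfold mc
    rw [h1]
  have hF : ∀ (c : ℤ) (ψ : ℕ), fc q s v j c ψ = fc q s v' j c ψ := by
    intro c ψ
    unfold fc
    rw [h1]
    apply Finset.sum_congr rfl
    intro i hi
    rw [h i (Finset.mem_filter.1 hi).1]
  unfold Gm Fb
  simp only [hm, hF]

/-- periodicity of the additive character in the frequency -/
theorem exp_freq {q : ℕ} (hq : 0 < q) (a b : ℕ) (h : a % q = b % q) (D : ℤ) :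
    Complex.exp (2 * Real.pi * Complex.I * (a * (D : ℤ) / q)) =
      Complex.exp (2 * Real.pi * Complex.I * (b * (D : ℤ) / q)) := by
  have hq0 : (q : ℂ) ≠ 0 := by exact_mod_cast hq.ne'
  have h1 : ((a : ℤ) - b) % q = 0 := by
    have : (a : ℤ) % q = (b : ℤ) % q := by exact_mod_cast h
    exact Int.emod_eq_emod_iff_emod_sub_eq_zero.1 this
  obtain ⟨m, hm⟩ := Int.dvd_of_emod_eq_zero h1
  rw [Complex.exp_eq_exp_iff_exists_int]
  refine ⟨m * D, ?_⟩
  have h2 : (a : ℂ) = b + q * m := by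
    have : (a : ℤ) = b + q * m := by linarith
    exact_mod_cast this
  rw [h2]
  push_cast
  field_simp

theorem fc_freq {ι : Type*} {q : ℕ} (hq : 0 < q) (s : Finset ι) (v : ι → ℤ) (j : ℕ) (c : ℤ)
    (a b : ℕ) (h : a % q = b % q) : fc q s v j c a = fc q s v j c b := by
  unfold fc
  apply Finset.sum_congr rfl
  intro i _
  exact exp_freq hq a b h _

/-- the Fourier coefficient of a product piece -/
theorem fc_piece {ι ι' : Type*} {q : ℕ} (hq : 0 < q) (s : Finset ι) (s' : Finset ι')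
    (v : ι → ℤ) (v' : ι' → ℤ) (t k j : ℕ) (a b c : ℤ)
    (hc : (q : ℤ) ^ (k + j) ∣ 2 ^ t * a + (q : ℤ) ^ k * b - c) (ψ : ℕ) :
    ‖∑ p ∈ (s.filter (fun i => (q : ℤ) ^ (k + j) ∣ v i - a)) ×ˢ
        (s'.filter (fun i => (q : ℤ) ^ j ∣ v' i - b)),
      Complex.exp (2 * Real.pi * Complex.I *
        (ψ * ((2 ^ t * v p.1 + (q : ℤ) ^ k * v' p.2 - c) / (q : ℤ) ^ (k + j) : ℤ) / q))‖ =
      ‖fc q s v (k + j) a (2 ^ t * ψ)‖ * ‖fc q s' v' j b ψ‖ := by
  have hq0 : (q : ℂ) ≠ 0 := by exact_mod_cast hq.ne'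
  have hQ : (0 : ℤ) < (q : ℤ) ^ (k + j) := by positivity
  have hQj : (0 : ℤ) < (q : ℤ) ^ j := by positivity
  obtain ⟨C, hC⟩ := hc
  have key : ∀ p ∈ (s.filter (fun i => (q : ℤ) ^ (k + j) ∣ v i - a)) ×ˢ
        (s'.filter (fun i => (q : ℤ) ^ j ∣ v' i - b)),
      Complex.exp (2 * Real.pi * Complex.I *
        (ψ * ((2 ^ t * v p.1 + (q : ℤ) ^ k * v' p.2 - c) / (q : ℤ) ^ (k + j) : ℤ) / q)) =
      Complex.exp (2 * Real.pi * Complex.I * (ψ * (C : ℤ) / q)) *
      (Complex.exp (2 * Real.pi * Complex.I *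
        ((2 ^ t * ψ : ℕ) * ((v p.1 - a) / (q : ℤ) ^ (k + j) : ℤ) / q)) *
      Complex.exp (2 * Real.pi * Complex.I * (ψ * ((v' p.2 - b) / (q : ℤ) ^ j : ℤ) / q))) := by
    rintro ⟨i, i'⟩ hp
    rw [Finset.mem_product, Finset.mem_filter, Finset.mem_filter] at hp
    obtain ⟨⟨_, h1⟩, ⟨_, h2⟩⟩ := hp
    obtain ⟨D, hD⟩ := h1
    obtain ⟨D', hD'⟩ := h2
    simp only at hD hD' ⊢
    have e1 : (2 ^ t * v i + (q : ℤ) ^ k * v' i' - c) / (q : ℤ) ^ (k + j) = 2 ^ t * D + D' + C := by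
      apply Int.ediv_eq_of_eq_mul_right hQ.ne'
      have hv : v i = a + (q : ℤ) ^ (k + j) * D := by linarith
      have hv' : v' i' = b + (q : ℤ) ^ j * D' := by linarith
      rw [hv, hv']
      rw [pow_add] at hC ⊢
      linear_combination hC
    have e2 : (v i - a) / (q : ℤ) ^ (k + j) = D := Int.ediv_eq_of_eq_mul_right hQ.ne' hD
    have e3 : (v' i' - b) / (q : ℤ) ^ j = D' := Int.ediv_eq_of_eq_mul_right hQj.ne' hD'
    rw [e1, e2, e3, ← Complex.exp_add, ← Complex.exp_add]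
    congr 1
    push_cast
    field_simp
    ring
  rw [Finset.sum_congr rfl key, ← Finset.mul_sum, norm_mul]
  have hn : ‖Complex.exp (2 * Real.pi * Complex.I * (ψ * (C : ℤ) / q))‖ = 1 := by
    have : (2 * Real.pi * Complex.I * (ψ * (C : ℤ) / q) : ℂ) =
        ((2 * Real.pi * (ψ * (C : ℤ) / q) : ℝ) : ℂ) * Complex.I := by
      push_cast
      ring
    rw [this, Complex.norm_exp_ofReal_mul_I]
  rw [hn, one_mul, Finset.sum_product, ← norm_mul]
  unfold fc
  rw [Finset.sum_mul_sum]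

theorem Gm_conv {ι ι' : Type*} {q : ℕ} (hq : q.Prime) (hq2 : q ≠ 2) (s : Finset ι) (s' : Finset ι')
    (v : ι → ℤ) (v' : ι' → ℤ) (t k j : ℕ) :
    Gm q (s ×ˢ s') (fun p => 2 ^ t * v p.1 + (q : ℤ) ^ k * v' p.2) (k + j)
      ≤ Gm q s v (k + j) * Gm q s' v' j := by
  classical
  have hq0 : 0 < q := hq.pos
  -- the class maps
  choose ca hca1 hca2 hca3 using fun y : ℤ => class_unique hq0 (k + j) y
  choose cb hcb1 hcb2 hcb3 using fun y : ℤ => class_unique hq0 j y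
  set P : Finset (ℕ × ℕ) := range (q ^ (k + j)) ×ˢ range (q ^ j) with hP
  set Pc : ℤ → Finset (ℕ × ℕ) := fun c =>
    P.filter (fun p => (q : ℤ) ^ (k + j) ∣ 2 ^ t * (p.1 : ℤ) + (q : ℤ) ^ k * (p.2 : ℤ) - c) with hPc
  set V : ι × ι' → ℤ := fun p => 2 ^ t * v p.1 + (q : ℤ) ^ k * v' p.2 with hV
  set g : ι × ι' → ℕ × ℕ := fun p => (ca (v p.1), cb (v' p.2)) with hg
  -- pieces
  have hmaps : ∀ c : ℤ, ∀ i ∈ s ×ˢ s', (q : ℤ) ^ (k + j) ∣ V i - c → g i ∈ Pc c := by
    rintro c ⟨i, i'⟩ _ hd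
    simp only [hPc, hP, hg, Finset.mem_filter, Finset.mem_product]
    refine ⟨⟨hca1 _, hcb1 _⟩, ?_⟩
    have h1 := hca2 (v i)
    have h2 : (q : ℤ) ^ (k + j) ∣ (q : ℤ) ^ k * (v' i' - cb (v' i')) := by
      rw [pow_add]
      exact mul_dvd_mul_left _ (hcb2 _)
    have h3 : 2 ^ t * ((ca (v i) : ℕ) : ℤ) + (q : ℤ) ^ k * ((cb (v' i') : ℕ) : ℤ) - c =
        (2 ^ t * v i + (q : ℤ) ^ k * v' i' - c) - 2 ^ t * (v i - ca (v i)) -
          (q : ℤ) ^ k * (v' i' - cb (v' i')) := by ring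
    rw [h3]
    exact dvd_sub (dvd_sub hd (Dvd.dvd.mul_left h1 _)) h2
  have hpiece : ∀ c : ℤ, ∀ p ∈ Pc c,
      ((s ×ˢ s').filter (fun i => g i = p)).filter (fun i => (q : ℤ) ^ (k + j) ∣ V i - c) =
      (s.filter (fun i => (q : ℤ) ^ (k + j) ∣ v i - (p.1 : ℤ))) ×ˢ
        (s'.filter (fun i => (q : ℤ) ^ j ∣ v' i - (p.2 : ℤ))) := by
    rintro c ⟨a, b⟩ hp
    simp only [hPc, hP, Finset.mem_filter, Finset.mem_product] at hp
    obtain ⟨⟨ha, hb⟩, hd⟩ := hp
    ext ⟨i, i'⟩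
    simp only [Finset.mem_filter, Finset.mem_product, hg, Prod.mk.injEq]
    constructor
    · rintro ⟨⟨⟨hi, hi'⟩, hga, hgb⟩, _⟩
      refine ⟨⟨hi, ?_⟩, hi', ?_⟩
      · rw [← hga]
        exact hca2 _
      · rw [← hgb]
        exact hcb2 _
    · rintro ⟨⟨hi, h1⟩, hi', h2⟩
      refine ⟨⟨⟨hi, hi'⟩, (hca3 _ _ ha h1).symm, (hcb3 _ _ hb h2).symm⟩, ?_⟩
      have h4 : (q : ℤ) ^ (k + j) ∣ (q : ℤ) ^ k * (v' i' - b) := by
        rw [pow_add]
        exact mul_dvd_mul_left _ h2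
      have h3 : V (i, i') - c = (2 ^ t * (a : ℤ) + (q : ℤ) ^ k * (b : ℤ) - c) + 2 ^ t * (v i - a) +
          (q : ℤ) ^ k * (v' i' - b) := by
        simp only [hV]
        ring
      rw [h3]
      exact dvd_add (dvd_add hd (Dvd.dvd.mul_left h1 _)) h4
  -- bound for one class
  have hone : ∀ c : ℤ, Fb q (s ×ˢ s') V (k + j) c ≤
      ∑ p ∈ Pc c, Fb q s v (k + j) (p.1 : ℤ) * Fb q s' v' j (p.2 : ℤ) := by
    intro c
    apply Fb_le_of
    · exact Finset.sum_nonneg fun _ _ => mul_nonneg (Fb_nonneg _ _ _ _ _) (Fb_nonneg _ _ _ _ _)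
    · intro ψ hψ
      rw [fc_fiber q (s ×ˢ s') V (k + j) c ψ (Pc c) g (hmaps c),
        mc_fiber q (s ×ˢ s') V (k + j) c (Pc c) g (hmaps c)]
      refine (titu (Pc c) _ _ (fun p _ => norm_fc_le _ _ _ _ _ _)).trans ?_
      apply Finset.sum_le_sum
      intro p hp
      have hd : (q : ℤ) ^ (k + j) ∣ 2 ^ t * (p.1 : ℤ) + (q : ℤ) ^ k * (p.2 : ℤ) - c := by
        simp only [hPc, Finset.mem_filter] at hp
        exact hp.2
      have h1 : ‖fc q ((s ×ˢ s').filter (fun i => g i = p)) V (k + j) c ψ‖ =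
          ‖fc q s v (k + j) (p.1 : ℤ) (2 ^ t * ψ)‖ * ‖fc q s' v' j (p.2 : ℤ) ψ‖ := by
        rw [← fc_piece hq0 s s' v v' t k j (p.1 : ℤ) (p.2 : ℤ) c hd ψ]
        unfold fc
        rw [hpiece c p hp]
      have h2 : mc q ((s ×ˢ s').filter (fun i => g i = p)) V (k + j) c =
          mc q s v (k + j) (p.1 : ℤ) * mc q s' v' j (p.2 : ℤ) := by
        unfold mc
        rw [hpiece c p hp, Finset.card_product]
        push_cast
        ring
      rw [h1, h2, mul_pow, mul_div_mul_comm]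
      have hψ' : (2 ^ t * ψ) % q ∈ Finset.Ico 1 q := by
        rw [Finset.mem_Ico]
        refine ⟨?_, Nat.mod_lt _ hq0⟩
        rw [Nat.one_le_iff_ne_zero]
        intro h0
        have h3 : q ∣ 2 ^ t * ψ := Nat.dvd_of_mod_eq_zero h0
        rcases (Nat.Prime.dvd_mul hq).1 h3 with h4 | h4
        · have h5 := hq.dvd_of_dvd_pow h4
          exact hq2 ((Nat.prime_dvd_prime_iff_eq hq Nat.prime_two).1 h5)
        · rw [Finset.mem_Ico] at hψ
          exact absurd (Nat.le_of_dvd (by omega) h4) (by omega)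
      have h5 : fc q s v (k + j) (p.1 : ℤ) (2 ^ t * ψ) =
          fc q s v (k + j) (p.1 : ℤ) ((2 ^ t * ψ) % q) :=
        fc_freq hq0 _ _ _ _ _ _ (Nat.mod_mod _ _).symm
      rw [h5]
      exact mul_le_mul (le_Fb _ _ _ _ hψ') (le_Fb _ _ _ _ hψ)
        (div_nonneg (by positivity) (mc_nonneg _ _ _ _ _)) (Fb_nonneg _ _ _ _ _)
  -- sum over the classes
  unfold Gm
  calc ∑ c ∈ range (q ^ (k + j)), Fb q (s ×ˢ s') V (k + j) (c : ℤ)
      ≤ ∑ c ∈ range (q ^ (k + j)), ∑ p ∈ Pc (c : ℤ),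
          Fb q s v (k + j) (p.1 : ℤ) * Fb q s' v' j (p.2 : ℤ) :=
        Finset.sum_le_sum fun c _ => hone _
    _ = ∑ p ∈ P, Fb q s v (k + j) (p.1 : ℤ) * Fb q s' v' j (p.2 : ℤ) := by
        simp only [hPc, Finset.sum_filter]
        rw [Finset.sum_comm]
        apply Finset.sum_congr rfl
        intro p _
        obtain ⟨c, hc, hd, hu⟩ := class_unique hq0 (k + j)
          (2 ^ t * (p.1 : ℤ) + (q : ℤ) ^ k * (p.2 : ℤ))
        rw [Finset.sum_eq_single c]
        · rw [if_pos hd]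
        · intro d hd' hne
          rw [if_neg]
          intro hdd
          exact hne (hu d hd' hdd)
        · intro hnc
          exact absurd hc hnc
    _ = _ := by
        rw [hP, Finset.sum_product, Finset.sum_mul_sum]

/-! ### the normalised functional -/

theorem gm_nonneg (q : ℕ) (T : Finset (List ℕ)) (j : ℕ) : 0 ≤ gm q T j := by
  unfold gm
  exact div_nonneg (Finset.sum_nonneg fun _ _ => Gm_nonneg _ _ _ _) (Nat.cast_nonneg _)

theorem gm_le_one {q : ℕ} (hq : 0 < q) (T : Finset (List ℕ)) (j : ℕ) : gm q T j ≤ 1 := by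
  unfold gm
  apply div_le_one_of_le₀ _ (Nat.cast_nonneg _)
  calc ∑ t ∈ T.image List.sum, Gm q (T.filter (fun w => w.sum = t)) (fun w => (Wq q w : ℤ)) j
      ≤ ∑ t ∈ T.image List.sum, ((T.filter (fun w => w.sum = t)).card : ℝ) :=
        Finset.sum_le_sum fun _ _ => Gm_le_card hq _ _ _
    _ = T.card := by
        rw [Finset.card_eq_sum_card_image List.sum T]
        push_cast
        rfl

private theorem Wq_append_aux (q : ℕ) (u v : List ℕ) :
    Wq q (u ++ v) = 2 ^ v.sum * Wq q u + q ^ u.length * Wq q v := by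
  induction u with
  | nil => simp [Wq]
  | cons a u ih =>
    simp only [List.cons_append, Wq, List.sum_append, List.length_cons, ih]
    ring

theorem cat_injOn {U V : Finset (List ℕ)} {k : ℕ} (hU : ∀ w ∈ U, w.length = k) :
    Set.InjOn (fun p : List ℕ × List ℕ => p.1 ++ p.2) (U ×ˢ V : Finset (List ℕ × List ℕ)) := by
  rintro ⟨u, v⟩ h ⟨u', v'⟩ h' he
  have h1 := Finset.mem_product.1 (Finset.mem_coe.1 h)
  have h2 := Finset.mem_product.1 (Finset.mem_coe.1 h')
  simp only at he h1 h2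
  have hl : u.length = u'.length := by rw [hU _ h1.1, hU _ h2.1]
  obtain ⟨e1, e2⟩ := List.append_inj he hl
  rw [e1, e2]

theorem card_cat {U V : Finset (List ℕ)} {k : ℕ} (hU : ∀ w ∈ U, w.length = k) :
    (cat U V).card = U.card * V.card := by
  unfold cat
  rw [Finset.card_image_of_injOn (cat_injOn hU), Finset.card_product]

/-- submultiplicativity: `U` consists of words of length `k` -/
theorem gm_cat {q : ℕ} (hq : q.Prime) (hq2 : q ≠ 2) {U V : Finset (List ℕ)} {k : ℕ}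
    (hU : ∀ w ∈ U, w.length = k) (j : ℕ) :
    gm q (cat U V) (k + j) ≤ gm q U (k + j) * gm q V j := by
  classical
  unfold gm
  rw [card_cat hU, Nat.cast_mul, div_mul_div_comm]
  apply div_le_div_of_nonneg_right _ (by positivity)
  -- reduce to the sum
  set gU : ℕ → ℝ := fun t => Gm q (U.filter (fun w => w.sum = t)) (fun w => (Wq q w : ℤ)) (k + j)
    with hgU
  set gV : ℕ → ℝ := fun t => Gm q (V.filter (fun w => w.sum = t)) (fun w => (Wq q w : ℤ)) j
    with hgV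
  set P : Finset (ℕ × ℕ) := (U.image List.sum) ×ˢ (V.image List.sum) with hP
  have hone : ∀ t ∈ (cat U V).image List.sum,
      Gm q ((cat U V).filter (fun w => w.sum = t)) (fun w => (Wq q w : ℤ)) (k + j) ≤
        ∑ p ∈ P.filter (fun p => p.1 + p.2 = t), gU p.1 * gV p.2 := by
    intro t _
    have h1 : (cat U V).filter (fun w => w.sum = t) =
        ((U ×ˢ V).filter (fun p => p.1.sum + p.2.sum = t)).image (fun p => p.1 ++ p.2) := by
      unfold cat
      rw [Finset.filter_image]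
      simp only [List.sum_append]
    rw [h1, Gm_image]
    · refine (Gm_fiber q _ _ (k + j) (P.filter (fun p => p.1 + p.2 = t))
        (fun p : List ℕ × List ℕ => (p.1.sum, p.2.sum)) ?_).trans ?_
      · rintro ⟨u, v⟩ h
        simp only [Finset.mem_filter, Finset.mem_product, hP, Finset.mem_image] at h ⊢
        exact ⟨⟨⟨u, h.1.1, rfl⟩, ⟨v, h.1.2, rfl⟩⟩, h.2⟩
      · apply Finset.sum_le_sum
        rintro ⟨t1, t2⟩ hp
        rw [Finset.mem_filter] at hp
        have hfil : ((U ×ˢ V).filter (fun p => p.1.sum + p.2.sum = t)).filter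
            (fun p : List ℕ × List ℕ => (p.1.sum, p.2.sum) = (t1, t2)) =
            (U.filter (fun w => w.sum = t1)) ×ˢ (V.filter (fun w => w.sum = t2)) := by
          ext ⟨u, v⟩
          simp only [Finset.mem_filter, Finset.mem_product, Prod.mk.injEq]
          constructor
          · rintro ⟨⟨⟨h1, h2⟩, _⟩, h3, h4⟩
            exact ⟨⟨h1, h3⟩, h2, h4⟩
          · rintro ⟨⟨h1, h3⟩, h2, h4⟩
            refine ⟨⟨⟨h1, h2⟩, ?_⟩, h3, h4⟩
            rw [h3, h4]
            exact hp.2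
        rw [hfil]
        have hval : ∀ p ∈ (U.filter (fun w => w.sum = t1)) ×ˢ (V.filter (fun w => w.sum = t2)),
            (fun p : List ℕ × List ℕ => ((Wq q (p.1 ++ p.2) : ℕ) : ℤ)) p =
              (fun p : List ℕ × List ℕ =>
                2 ^ t2 * ((fun w : List ℕ => ((Wq q w : ℕ) : ℤ)) p.1) +
                  (q : ℤ) ^ k * ((fun w : List ℕ => ((Wq q w : ℕ) : ℤ)) p.2)) p := by
          rintro ⟨u, v⟩ h
          simp only [Finset.mem_filter, Finset.mem_product] at h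
          simp only
          rw [Wq_append_aux, h.2.2, hU _ h.1.1]
          push_cast
          ring
        have e1 := Gm_congr q ((U.filter (fun w => w.sum = t1)) ×ˢ (V.filter (fun w => w.sum = t2)))
          (fun p : List ℕ × List ℕ => ((Wq q (p.1 ++ p.2) : ℕ) : ℤ)) _ (k + j) hval
        have e2 := Gm_conv hq hq2 (U.filter (fun w => w.sum = t1))
          (V.filter (fun w => w.sum = t2)) (fun w : List ℕ => ((Wq q w : ℕ) : ℤ))
          (fun w : List ℕ => ((Wq q w : ℕ) : ℤ)) t2 k j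
        exact (le_of_eq e1).trans e2
    · intro p hp p' hp' he
      apply cat_injOn (V := V) hU _ _ he
      · exact Finset.mem_coe.2 (Finset.mem_filter.1 (Finset.mem_coe.1 hp)).1
      · exact Finset.mem_coe.2 (Finset.mem_filter.1 (Finset.mem_coe.1 hp')).1
  calc ∑ t ∈ (cat U V).image List.sum,
        Gm q ((cat U V).filter (fun w => w.sum = t)) (fun w => (Wq q w : ℤ)) (k + j)
      ≤ ∑ t ∈ (cat U V).image List.sum, ∑ p ∈ P.filter (fun p => p.1 + p.2 = t), gU p.1 * gV p.2 :=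
        Finset.sum_le_sum hone
    _ = ∑ p ∈ P, gU p.1 * gV p.2 := by
        rw [Finset.sum_fiberwise_of_maps_to]
        rintro ⟨t1, t2⟩ hp
        simp only [hP, Finset.mem_product, Finset.mem_image] at hp
        obtain ⟨⟨u, hu, rfl⟩, ⟨v, hv, rfl⟩⟩ := hp
        simp only [Finset.mem_image]
        refine ⟨u ++ v, ?_, by simp⟩
        unfold cat
        rw [Finset.mem_image]
        exact ⟨(u, v), Finset.mem_product.2 ⟨hu, hv⟩, rfl⟩
    _ = _ := by
        rw [hP, Finset.sum_product, Finset.sum_mul_sum]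

end Pool.Agent.H422R2.QA
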