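import Pool.Agent.H422R2.QA.QADefs
import Pool.Agent.H422R2.QA.QAWords
import Pool.Agent.H422R2.QA.QAFour
import Pool.Agent.H422R2.QA.QAFour2

/-! Task D (ENT): the digits `N ≤ j < (E+2)N` of the offsets of a large family of words carry
entropy, hence are nonuniform less than maximally. -/

set_option autoImplicit false

namespace Pool.Agent.H422R2.QA

open Finset Pool.Agent.H320R2.PD
open scoped NNReal

/-- classes mod `q^j` partition the family -/
theorem entD_sum_mc {ι : Type*} {q : ℕ} (hq : 0 < q) (s : Finset ι) (v : ι → ℤ) (j : ℕ) :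
    ∑ c ∈ range (q ^ j), mc q s v j (c : ℤ) = s.card := by
  classical
  have hQ : (0 : ℤ) < (q : ℤ) ^ j := by positivity
  simp only [mc]
  rw [← Nat.cast_sum]
  congr 1
  rw [Finset.card_eq_sum_card_fiberwise (f := fun i => ((v i) % (q : ℤ) ^ j).toNat)
    (t := range (q ^ j))]
  · refine Finset.sum_congr rfl fun c hc => ?_
    congr 1
    apply Finset.filter_congr
    intro i _
    have h0 : 0 ≤ v i % (q : ℤ) ^ j := Int.emod_nonneg _ hQ.ne'
    have hc' : (c : ℤ) < (q : ℤ) ^ j := by exact_mod_cast Finset.mem_range.mp hc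
    constructor
    · intro h
      have h1 : v i % (q : ℤ) ^ j = (c : ℤ) := by
        have h2 : v i % (q : ℤ) ^ j = (c : ℤ) % (q : ℤ) ^ j :=
          (Int.emod_emod_of_dvd _ (dvd_refl _)).symm.trans
            (by
              have := Int.ModEq.symm ((Int.modEq_iff_dvd.mpr h) : (c : ℤ) ≡ v i [ZMOD (q : ℤ) ^ j])
              unfold Int.ModEq at this
              rw [Int.emod_emod_of_dvd _ (dvd_refl _)]
              exact this)
        rw [h2]
        exact Int.emod_eq_of_lt (by positivity) hc'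
      simp [h1]
    · intro h
      have h1 : v i % (q : ℤ) ^ j = (c : ℤ) := by
        have : ((v i % (q : ℤ) ^ j).toNat : ℤ) = (c : ℤ) := by exact_mod_cast h
        rwa [Int.toNat_of_nonneg h0] at this
      rw [← h1]
      have := Int.emod_add_mul_ediv (v i) ((q : ℤ) ^ j)
      exact ⟨v i / (q : ℤ) ^ j, by linarith⟩
  · intro i _
    have h0 : 0 ≤ v i % (q : ℤ) ^ j := Int.emod_nonneg _ hQ.ne'
    have h1 : v i % (q : ℤ) ^ j < (q : ℤ) ^ j := Int.emod_lt_of_pos _ hQ
    simp only [Finset.coe_range, Set.mem_Iio]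
    zify
    rw [Int.toNat_of_nonneg h0]
    exact_mod_cast h1

/-- members of `FW` -/
theorem entD_FW_spec {A n : ℕ} {w : List ℕ} (hw : w ∈ FW A n) :
    w.length = n ∧ (∀ e ∈ w, 1 ≤ e ∧ e ≤ A) ∧ w.sum ≤ A * n := by
  induction n generalizing w with
  | zero =>
    simp only [FW, Finset.mem_singleton] at hw
    subst hw
    simp
  | succ n ih =>
    simp only [FW, Finset.mem_biUnion, Finset.mem_Icc, Finset.mem_image] at hw
    obtain ⟨e, he, u, hu, rfl⟩ := hw
    obtain ⟨h1, h2, h3⟩ := ih hu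
    refine ⟨by simp [h1], ?_, ?_⟩
    · intro a ha
      rcases List.mem_cons.mp ha with rfl | ha
      · exact he
      · exact h2 a ha
    · simp only [List.sum_cons]
      nlinarith [he.2]

/-- the log sum inequality -/
theorem entD_log_sum {α : Type*} (I : Finset α) (n : α → ℝ) (hn : ∀ t ∈ I, 0 < n t) {k : ℝ}
    (hk : (I.card : ℝ) ≤ k) (hI : I.Nonempty) :
    (∑ t ∈ I, n t) * (Real.log (∑ t ∈ I, n t) - Real.log k) ≤ ∑ t ∈ I, n t * Real.log (n t) := by
  set S := ∑ t ∈ I, n t with hS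
  have hSpos : 0 < S := Finset.sum_pos hn hI
  have hc : (0 : ℝ) < I.card := by exact_mod_cast hI.card_pos
  have hkpos : 0 < k := lt_of_lt_of_le hc hk
  have h1 : ∀ t ∈ I, n t * (Real.log S - Real.log k) + (n t - S / k) ≤ n t * Real.log (n t) := by
    intro t ht
    have hnt := hn t ht
    have h2 : 1 - S / (k * n t) ≤ Real.log (k * n t / S) := by
      have := Real.one_sub_inv_le_log_of_pos (show 0 < k * n t / S by positivity)
      rwa [inv_div] at this
    rw [Real.log_div (by positivity) (by positivity), Real.log_mul (by positivity) (by positivity)]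
      at h2
    have h3 := mul_le_mul_of_nonneg_left h2 hnt.le
    have h4 : n t * (1 - S / (k * n t)) = n t - S / k := by field_simp
    rw [h4] at h3
    nlinarith
  have h5 := Finset.sum_le_sum h1
  rw [Finset.sum_add_distrib, ← Finset.sum_mul, Finset.sum_sub_distrib, ← hS, Finset.sum_const,
    nsmul_eq_mul] at h5
  have h6 : (I.card : ℝ) * (S / k) ≤ S := by
    rw [mul_div_assoc', div_le_iff₀ hkpos]
    nlinarith
  linarith

open scoped Classical in
/-- the entropy of all digits `< L` of an injective family of integers of `[0, q^L)` -/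
theorem entD_ent_total {ι : Type*} {q : ℕ} (hq : 0 < q) (s : Finset ι) (v : ι → ℤ) (L : ℕ)
    (hv : ∀ i ∈ s, 0 ≤ v i ∧ v i < (q : ℤ) ^ L) (hinj : Set.InjOn v s) :
    ∑ i ∈ range L, ∑ c ∈ range (q ^ i), hc q s v i (c : ℤ) = s.card * Real.log s.card := by
  have h := chain_rule hq s v 0 L 0
  have h0 : mc q s v 0 0 = s.card := by
    simp [mc]
  have h1 : ∀ d ∈ range (q ^ L), mc q s v (0 + L) (0 + (q : ℤ) ^ 0 * d) *
      Real.log (mc q s v (0 + L) (0 + (q : ℤ) ^ 0 * d)) = 0 := by
    intro d _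
    have h2 : (s.filter (fun i => (q : ℤ) ^ (0 + L) ∣ v i - (0 + (q : ℤ) ^ 0 * d))).card ≤ 1 := by
      rw [Finset.card_le_one]
      intro a ha b hb
      simp only [Finset.mem_filter, pow_zero, one_mul, zero_add] at ha hb
      apply hinj ha.1 hb.1
      have h3 : (q : ℤ) ^ L ∣ v a - v b := by
        have := dvd_sub ha.2 hb.2
        simpa using this
      have h4 := hv a ha.1
      have h5 := hv b hb.1
      have h6 : |v a - v b| < (q : ℤ) ^ L := by
        rw [abs_lt]; constructor <;> linarith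
      have h7 := Int.eq_zero_of_abs_lt_dvd h3 h6
      linarith
    have h8 : (s.filter (fun i => (q : ℤ) ^ (0 + L) ∣ v i - (0 + (q : ℤ) ^ 0 * d))).card = 0 ∨
      (s.filter (fun i => (q : ℤ) ^ (0 + L) ∣ v i - (0 + (q : ℤ) ^ 0 * d))).card = 1 := by omega
    simp only [mc]
    rcases h8 with h8 | h8
    · rw [h8]; simp
    · rw [h8]; simp
  rw [Finset.sum_eq_zero h1, h0, sub_zero] at h
  rw [← h]
  refine Finset.sum_congr rfl fun i _ => Finset.sum_congr rfl fun c _ => ?_
  simp

/-- Cauchy-Schwarz -/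
theorem entD_cs_kappa {α : Type*} (K : Finset α) (a m d : α → ℝ) {κ : ℝ} (hκ : 0 < κ)
    (ha : ∀ i ∈ K, 0 ≤ a i) (hm : ∀ i ∈ K, 0 ≤ m i) (hd : ∀ i ∈ K, 0 ≤ d i)
    (h : ∀ i ∈ K, κ * a i ^ 2 ≤ m i * d i) :
    κ * (∑ i ∈ K, a i) ^ 2 ≤ (∑ i ∈ K, m i) * ∑ i ∈ K, d i := by
  have h1 : ∑ i ∈ K, a i ≤ ∑ i ∈ K, Real.sqrt (m i) * Real.sqrt (d i / κ) := by
    refine Finset.sum_le_sum fun i hi => ?_
    rw [← Real.sqrt_mul (hm i hi)]
    apply Real.le_sqrt_of_sq_le
    rw [mul_div_assoc', le_div_iff₀ hκ]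
    linarith [h i hi]
  have h2 : (∑ i ∈ K, Real.sqrt (m i) * Real.sqrt (d i / κ)) ^ 2 ≤
      (∑ i ∈ K, m i) * ∑ i ∈ K, d i / κ := by
    refine (Finset.sum_mul_sq_le_sq_mul_sq K _ _).trans (le_of_eq ?_)
    congr 1
    · exact Finset.sum_congr rfl fun i hi => Real.sq_sqrt (hm i hi)
    · exact Finset.sum_congr rfl fun i hi => Real.sq_sqrt (div_nonneg (hd i hi) hκ.le)
  have h3 : (∑ i ∈ K, a i) ^ 2 ≤ (∑ i ∈ K, m i) * ∑ i ∈ K, d i / κ :=
    (pow_le_pow_left₀ (Finset.sum_nonneg ha) h1 2).trans h2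
  rw [← Finset.sum_div, mul_div_assoc', le_div_iff₀ hκ] at h3
  linarith

theorem ent_sum {q : ℕ} (hq : q.Prime) (hq2 : q ≠ 2) (E : ℕ) {h : ℝ} (hh : 0 < h) :
    ∃ (c : ℝ) (N₀ : ℕ), 0 < c ∧ ∀ N : ℕ, N₀ ≤ N → ∀ T : Finset (List ℕ), T ⊆ FW E N →
      (q : ℝ) ^ N * Real.exp (h * N) ≤ T.card →
        c * N ≤ ∑ j ∈ Ico N ((E + 2) * N), (1 - gm q T j) := by
  classical
  obtain ⟨κ, hκ, hF⟩ := Fb_of_ent hq hq2
  have hodd : Odd q := hq.odd_of_ne_two hq2
  have hq3 : 2 ≤ q := hq.two_le
  have hq0 : 0 < q := hq.pos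
  -- choice of `N₀`
  have hlim : ∃ N₁ : ℕ, ∀ N : ℕ, N₁ ≤ N → Real.log ((E : ℝ) * N + 1) ≤ h * N / 2 := by
    refine ⟨⌈16 * ((E : ℝ) + 1) / h ^ 2⌉₊ + 1, fun N hN => ?_⟩
    have h1 : 16 * ((E : ℝ) + 1) / h ^ 2 ≤ N :=
      (Nat.le_ceil _).trans (by exact_mod_cast (by omega : ⌈16 * ((E : ℝ) + 1) / h ^ 2⌉₊ ≤ N))
    have hNR : (1 : ℝ) ≤ N := by exact_mod_cast (by omega : 1 ≤ N)
    have h2 : Real.log ((E : ℝ) * N + 1) ≤ 2 * Real.sqrt ((E : ℝ) * N + 1) := by
      have h3 : Real.log ((E : ℝ) * N + 1) = 2 * Real.log (Real.sqrt ((E : ℝ) * N + 1)) := by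
        rw [Real.log_sqrt (by positivity)]; ring
      have h4 := Real.log_le_sub_one_of_pos (Real.sqrt_pos.mpr (show 0 < (E : ℝ) * N + 1 by positivity))
      linarith
    have h3 : Real.sqrt ((E : ℝ) * N + 1) ≤ h * N / 4 := by
      rw [Real.sqrt_le_left (by positivity)]
      rw [div_le_iff₀ (by positivity)] at h1
      nlinarith
    linarith
  obtain ⟨N₁, hN₁⟩ := hlim
  refine ⟨κ * h ^ 2 / (4 * (E + 1)), N₁ + 1, by positivity, ?_⟩
  intro N hN T hT hcard
  have hN1 : 1 ≤ N := by omega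
  have hNlog := hN₁ N (by omega)
  have hNR : (1 : ℝ) ≤ N := by exact_mod_cast hN1
  set L := (E + 2) * N with hL
  have hTpos : (0 : ℝ) < T.card := lt_of_lt_of_le (by positivity) hcard
  have hTne : T.Nonempty := by
    rw [← Finset.card_pos]; exact_mod_cast hTpos
  set I := T.image List.sum with hI
  let Tt : ℕ → Finset (List ℕ) := fun t => T.filter (fun w => w.sum = t)
  let v : List ℕ → ℤ := fun w => (Wq q w : ℤ)
  have hcardT : ∑ t ∈ I, ((Tt t).card : ℝ) = T.card := by
    rw [← Nat.cast_sum]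
    congr 1
    exact (Finset.card_eq_sum_card_image List.sum T).symm
  -- the entropy of each size
  have hent : ∀ t ∈ I, ((Tt t).card : ℝ) * Real.log (Tt t).card - N * (Tt t).card * Real.log q ≤
      ∑ j ∈ Ico N L, ∑ c ∈ range (q ^ j), hc q (Tt t) v j (c : ℤ) := by
    intro t _
    have h1 : ∑ i ∈ range L, ∑ c ∈ range (q ^ i), hc q (Tt t) v i (c : ℤ) =
        (Tt t).card * Real.log (Tt t).card := by
      apply entD_ent_total hq0
      · intro w hw
        refine ⟨by positivity, ?_⟩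
        have hwT : w ∈ FW E N := hT (Finset.mem_filter.mp hw).1
        obtain ⟨hw1, hw2, hw3⟩ := entD_FW_spec hwT
        have h2 : Wq q w ≤ 2 ^ w.sum * q ^ w.length := Wq_le hq0 w hq.two_le
        have h3 : 2 ^ w.sum * q ^ w.length < q ^ L := by
          calc 2 ^ w.sum * q ^ w.length ≤ q ^ (E * N) * q ^ N := by
                rw [hw1]
                apply Nat.mul_le_mul_right
                calc 2 ^ w.sum ≤ q ^ w.sum := Nat.pow_le_pow_left hq3 _
                  _ ≤ q ^ (E * N) := Nat.pow_le_pow_right hq0 hw3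
            _ = q ^ (E * N + N) := (pow_add _ _ _).symm
            _ < q ^ L := by
                apply Nat.pow_lt_pow_right (by omega)
                rw [hL]; nlinarith
        have h4 : Wq q w < q ^ L := lt_of_le_of_lt h2 h3
        show (Wq q w : ℤ) < (q : ℤ) ^ L
        exact_mod_cast h4
      · intro a ha b hb hab
        simp only [Tt, Finset.coe_filter, Set.mem_setOf_eq] at ha hb
        obtain ⟨ha1, ha2, ha3⟩ := entD_FW_spec (hT ha.1)
        obtain ⟨hb1, hb2, hb3⟩ := entD_FW_spec (hT hb.1)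
        have hab' : (Wq q a : ℤ) = Wq q b := hab
        exact Wq_inj hodd (fun e he => (ha2 e he).1) (fun e he => (hb2 e he).1) (by omega)
          (by omega) (by exact_mod_cast hab')
    have h5 : ∑ i ∈ range N, ∑ c ∈ range (q ^ i), hc q (Tt t) v i (c : ℤ) ≤
        N * (Tt t).card * Real.log q := by
      calc ∑ i ∈ range N, ∑ c ∈ range (q ^ i), hc q (Tt t) v i (c : ℤ)
          ≤ ∑ i ∈ range N, (Tt t).card * Real.log q := by
            refine Finset.sum_le_sum fun i _ => ?_
            rw [← entD_sum_mc hq0 (Tt t) v i, Finset.sum_mul]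
            exact Finset.sum_le_sum fun c _ => hc_le hq0 _ _ _ _
        _ = N * (Tt t).card * Real.log q := by
            rw [Finset.sum_const, Finset.card_range, nsmul_eq_mul]; ring
    have h6 : ∑ i ∈ range L, ∑ c ∈ range (q ^ i), hc q (Tt t) v i (c : ℤ) =
        ∑ i ∈ range N, ∑ c ∈ range (q ^ i), hc q (Tt t) v i (c : ℤ) +
        ∑ i ∈ Ico N L, ∑ c ∈ range (q ^ i), hc q (Tt t) v i (c : ℤ) :=
      (Finset.sum_range_add_sum_Ico _ (by rw [hL]; nlinarith)).symm
    linarith
  -- the total entropy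
  set H := ∑ t ∈ I, ∑ j ∈ Ico N L, ∑ c ∈ range (q ^ j), hc q (Tt t) v j (c : ℤ) with hH
  have hHge : (T.card : ℝ) * (h * N / 2) ≤ H := by
    have h1 := Finset.sum_le_sum hent
    rw [Finset.sum_sub_distrib, ← Finset.sum_mul, ← Finset.mul_sum, hcardT, ← hH] at h1
    have h2 : (I.card : ℝ) ≤ E * N + 1 := by
      have h3 : I ⊆ range (E * N + 1) := by
        intro t ht
        obtain ⟨w, hw, rfl⟩ := Finset.mem_image.mp ht
        have := (entD_FW_spec (hT hw)).2.2
        simp only [Finset.mem_range]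
        omega
      have h4 := Finset.card_le_card h3
      rw [Finset.card_range] at h4
      exact_mod_cast h4
    have h3 := entD_log_sum I (fun t => ((Tt t).card : ℝ)) (by
      intro t ht
      obtain ⟨w, hw, rfl⟩ := Finset.mem_image.mp ht
      have : 0 < (Tt w.sum).card := Finset.card_pos.mpr ⟨w, Finset.mem_filter.mpr ⟨hw, rfl⟩⟩
      exact_mod_cast this) h2 (hTne.image _)
    rw [hcardT] at h3
    have h4 : (N : ℝ) * Real.log q + h * N ≤ Real.log T.card := by
      have h5 := Real.log_le_log (by positivity) hcard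
      rw [Real.log_mul (by positivity) (by positivity), Real.log_pow, Real.log_exp] at h5
      exact h5
    have h5 : (T.card : ℝ) * (h * N / 2) ≤
        T.card * (Real.log T.card - Real.log (E * N + 1)) - N * T.card * Real.log q := by
      have h6 : h * N / 2 ≤ Real.log T.card - Real.log (E * N + 1) - N * Real.log q := by linarith
      calc (T.card : ℝ) * (h * N / 2) ≤
          T.card * (Real.log T.card - Real.log (E * N + 1) - N * Real.log q) :=
            mul_le_mul_of_nonneg_left h6 hTpos.le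
        _ = _ := by ring
    linarith
  -- the mass
  have hmass : ∑ t ∈ I, ∑ j ∈ Ico N L, ∑ c ∈ range (q ^ j), mc q (Tt t) v j (c : ℤ) =
      T.card * ((E + 1) * N) := by
    have h1 : ∀ t ∈ I, ∑ j ∈ Ico N L, ∑ c ∈ range (q ^ j), mc q (Tt t) v j (c : ℤ) =
        (Tt t).card * ((E + 1) * N) := by
      intro t _
      rw [Finset.sum_congr rfl fun j _ => entD_sum_mc hq0 (Tt t) v j, Finset.sum_const, Nat.card_Ico,
        nsmul_eq_mul]
      have h2 : L - N = (E + 1) * N := by
        rw [hL, Nat.sub_eq_iff_eq_add (by nlinarith)]; ring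
      rw [h2]; push_cast; ring
    rw [Finset.sum_congr rfl h1, ← Finset.sum_mul, hcardT]
  -- the deficit
  set D := ∑ t ∈ I, ∑ j ∈ Ico N L, ∑ c ∈ range (q ^ j),
    (mc q (Tt t) v j (c : ℤ) - Fb q (Tt t) v j (c : ℤ)) with hD
  have hCS : κ * H ^ 2 ≤ (T.card * ((E + 1) * N)) * D := by
    simp only [hH, hD, ← hmass, Finset.sum_sigma']
    apply entD_cs_kappa _ _ _ _ hκ
    · intro i _; exact hc_nonneg hq0 _ _ _ _
    · intro i _; simp only [mc]; positivity
    · intro i _; exact sub_nonneg.mpr (Fb_le _ _ _ _ _)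
    · intro i _; exact hF _ _ _ _
  have hgm : ∑ j ∈ Ico N L, (1 - gm q T j) = D / T.card := by
    rw [hD, Finset.sum_comm, Finset.sum_div]
    refine Finset.sum_congr rfl fun j _ => ?_
    have h1 : gm q T j = (∑ t ∈ I, Gm q (Tt t) v j) / T.card := by
      simp only [gm, hI, Tt, v]
    rw [h1, eq_div_iff hTpos.ne', sub_mul, div_mul_cancel₀ _ hTpos.ne', one_mul, ← hcardT,
      ← Finset.sum_sub_distrib]
    refine Finset.sum_congr rfl fun t _ => ?_
    rw [Finset.sum_sub_distrib, entD_sum_mc hq0]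
    rfl
  rw [hgm, le_div_iff₀ hTpos]
  have h1 : κ * (T.card * (h * N / 2)) ^ 2 ≤ (T.card * ((E + 1) * N)) * D := by
    refine le_trans ?_ hCS
    apply mul_le_mul_of_nonneg_left _ hκ.le
    apply pow_le_pow_left₀ (by positivity) hHge
  have h2 : (0 : ℝ) < T.card * ((E + 1) * N) := by positivity
  have h3 : κ * h ^ 2 / (4 * (E + 1)) * N * T.card * (T.card * ((E + 1) * N)) =
      κ * (T.card * (h * N / 2)) ^ 2 := by
    field_simp
    ring
  by_contra hlt
  push_neg at hlt
  have h4 : D * (T.card * ((E + 1) * N)) <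
      κ * h ^ 2 / (4 * (E + 1)) * N * T.card * (T.card * ((E + 1) * N)) :=
    mul_lt_mul_of_pos_right hlt h2
  linarith

end Pool.Agent.H422R2.QA
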