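import Pool.Agent.H422R2.QA.QADefs
import Pool.Agent.H422R2.QA.QAWords
import Pool.Agent.H320R2.PDWords

/-!
QUENCHED = ANNEALED, task B: the capped martingale `FF` and the tilted letter law.
-/

set_option autoImplicit false

namespace Pool.Agent.H422R2.QA

open Finset Pool.Agent.H320R2.PD


/-! ### weights -/

theorem wtu_nil (u : ℕ → ℝ) : wtu u [] = 1 := rfl

theorem wtu_append (u : ℕ → ℝ) (v w : List ℕ) : wtu u (v ++ w) = wtu u v * wtu u w := by
  simp [wtu]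

theorem wtu_cons (u : ℕ → ℝ) (e : ℕ) (w : List ℕ) : wtu u (e :: w) = u e * wtu u w := by
  simp [wtu]

theorem wtu_nonneg_of {u : ℕ → ℝ} {E n : ℕ} (hu : ∀ e ∈ Icc 1 E, 0 ≤ u e) {w : List ℕ}
    (hw : w ∈ FW E n) : 0 ≤ wtu u w := by
  rw [mem_FW] at hw
  refine List.prod_nonneg fun a ha => ?_
  obtain ⟨e, he, rfl⟩ := List.mem_map.mp ha
  exact hu e (mem_Icc.mpr (hw.2 e he))

theorem sum_wtu (u : ℕ → ℝ) (E n : ℕ) :
    ∑ w ∈ FW E n, wtu u w = (∑ e ∈ Icc 1 E, u e) ^ n := by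
  induction n with
  | zero => simp [FW, wtu]
  | succ n ih =>
    rw [sum_FW_succ, pow_succ', sum_mul]
    refine sum_congr rfl fun e _ => ?_
    simp only [wtu_cons, ← mul_sum, ih]

/-! ### validity of a letter -/

theorem Vd_letter (q e : ℕ) (x : ℤ) : Vd q [e] x ↔ (q : ℤ) ∣ 2 ^ e * x - 1 := by
  simp [Vd, Wq]

open scoped Classical in
/-- decomposition of the martingale -/
theorem FF_add {q E : ℕ} (hq : q.Prime) (hq2 : q ≠ 2) (u : ℕ → ℝ) (a b : ℕ) (x : ℤ) :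
    FF q E u (a + b) x =
      ∑ w ∈ FW E a, if Vd q w x then (q : ℝ) ^ a * wtu u w * FF q E u b (Ep q w x) else 0 := by
  unfold FF
  rw [sum_FW_add]
  refine sum_congr rfl fun w _ => ?_
  by_cases hw : Vd q w x
  · rw [if_pos hw, mul_sum]
    refine sum_congr rfl fun v _ => ?_
    by_cases hv : Vd q v (Ep q w x)
    · rw [if_pos hv, if_pos ((Vd_append hq hq2 w v x).mpr ⟨hw, hv⟩), wtu_append]
      ring
    · rw [if_neg hv, if_neg (fun h => hv ((Vd_append hq hq2 w v x).mp h).2), mul_zero]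
  · rw [if_neg hw]
    refine sum_eq_zero fun v _ => ?_
    rw [if_neg (fun h => hw ((Vd_append hq hq2 w v x).mp h).1)]

open scoped Classical in
theorem FF_one (q E : ℕ) (u : ℕ → ℝ) (y : ℤ) :
    FF q E u 1 y = ∑ e ∈ Icc 1 E, if (q : ℤ) ∣ 2 ^ e * y - 1 then (q : ℝ) * u e else 0 := by
  unfold FF
  rw [sum_FW_succ]
  refine sum_congr rfl fun e _ => ?_
  rw [sum_FW_zero]
  simp only [Vd_letter, wtu, List.map_cons, List.map_nil, List.prod_cons, List.prod_nil, mul_one,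
    pow_one]

theorem FF_nonneg {q E : ℕ} {u : ℕ → ℝ} (hu : ∀ e ∈ Icc 1 E, 0 ≤ u e) (n : ℕ) (x : ℤ) :
    0 ≤ FF q E u n x := by
  unfold FF
  refine sum_nonneg fun w hw => ?_
  split_ifs
  · exact mul_nonneg (by positivity) (wtu_nonneg_of hu hw)
  · exact le_rfl

theorem FF_one_le {q E : ℕ} {u : ℕ → ℝ} (hu : ∀ e ∈ Icc 1 E, 0 ≤ u e)
    (hsum : ∑ e ∈ Icc 1 E, u e = 1) (y : ℤ) : FF q E u 1 y ≤ q := by
  classical
  rw [FF_one]
  calc ∑ e ∈ Icc 1 E, (if (q : ℤ) ∣ 2 ^ e * y - 1 then (q : ℝ) * u e else 0)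
      ≤ ∑ e ∈ Icc 1 E, (q : ℝ) * u e := by
        refine sum_le_sum fun e he => ?_
        split_ifs
        · exact le_rfl
        · exact mul_nonneg (by positivity) (hu e he)
    _ = q := by rw [← mul_sum, hsum, mul_one]

theorem FF_one_zero {q E : ℕ} (hq : q.Prime) (hq2 : q ≠ 2) (u : ℕ → ℝ) {y : ℤ}
    (hy : (q : ℤ) ∣ y) :
    FF q E u 1 y = 0 := by
  classical
  rw [FF_one]
  refine sum_eq_zero fun e _ => ?_
  rw [if_neg]
  intro h
  exact Vd_nonempty hq (w := [e]) (by simp) ((Vd_letter q e y).mpr h) hq2 hy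

/-- one letter is valid at exactly one of the `q` lifts -/
theorem card_lift {q : ℕ} (hq : q.Prime) (hq2 : q ≠ 2) (s e : ℕ) (y : ℤ) :
    ((range q).filter (fun d : ℕ => (q : ℤ) ∣ 2 ^ e * (y + 2 ^ s * (d : ℤ)) - 1)).card = 1 := by
  have hcop : IsCoprime ((2 : ℤ) ^ (e + s)) (q : ℤ) := by
    apply IsCoprime.pow_left
    rw [Int.isCoprime_iff_gcd_eq_one]
    have h : Nat.Coprime 2 q := (Nat.coprime_primes Nat.prime_two hq).mpr (fun h => hq2 h.symm)
    exact_mod_cast h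
  obtain ⟨a, b, hab⟩ := hcop
  -- `a` is the inverse of `2^(e+s)`
  have hq0 : (0 : ℤ) < q := by exact_mod_cast hq.pos
  set c : ℤ := (a * (1 - 2 ^ e * y)) % q with hc
  have hc0 : 0 ≤ c := Int.emod_nonneg _ hq0.ne'
  have hc1 : c < q := Int.emod_lt_of_pos _ hq0
  rw [Finset.card_eq_one]
  refine ⟨c.toNat, ?_⟩
  ext d
  simp only [mem_filter, mem_range, mem_singleton]
  constructor
  · rintro ⟨hd, hdvd⟩
    have h1 : (q : ℤ) ∣ (d : ℤ) - a * (1 - 2 ^ e * y) := by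
      have h2 : (d : ℤ) - a * (1 - 2 ^ e * y) =
          a * (2 ^ e * (y + 2 ^ s * (d : ℤ)) - 1) + (b * d) * q := by
        have h3 : (d : ℤ) = (a * 2 ^ (e + s) + b * q) * d := by rw [hab, one_mul]
        calc (d : ℤ) - a * (1 - 2 ^ e * y)
            = (a * 2 ^ (e + s) + b * q) * d - a * (1 - 2 ^ e * y) := by rw [← h3]
          _ = _ := by rw [pow_add]; ring
      rw [h2]
      exact dvd_add (Dvd.dvd.mul_left hdvd _) (Dvd.intro_left _ rfl)
    have h4 : (d : ℤ) % q = c := ((Int.modEq_iff_dvd (n := (q : ℤ))).mpr h1).symm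
    have h5 : (d : ℤ) % q = d := Int.emod_eq_of_lt (by positivity) (by exact_mod_cast hd)
    omega
  · intro hd
    have hd' : (d : ℤ) = c := by rw [hd]; exact Int.toNat_of_nonneg hc0
    refine ⟨by exact_mod_cast (hd' ▸ hc1), ?_⟩
    rw [hd']
    have h1 : (q : ℤ) ∣ a * (1 - 2 ^ e * y) - c :=
      (Int.modEq_iff_dvd (n := (q : ℤ))).mp (by rw [hc]; exact Int.mod_modEq _ _)
    obtain ⟨k, hk⟩ := h1
    have h2 : c = a * (1 - 2 ^ e * y) - q * k := by linarith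
    rw [h2]
    refine ⟨-(b * (1 - 2 ^ e * y)) - 2 ^ (e + s) * k, ?_⟩
    have h3 : (2 : ℤ) ^ e * (y + 2 ^ s * (a * (1 - 2 ^ e * y) - q * k)) - 1 =
        2 ^ e * y - 1 + (a * 2 ^ (e + s)) * (1 - 2 ^ e * y) - 2 ^ (e + s) * q * k := by
      rw [pow_add]; ring
    have h4 : a * 2 ^ (e + s) = 1 - b * q := by linarith
    rw [h3, h4]
    ring

/-- the average over the lifts -/
theorem sum_lift {q E : ℕ} (hq : q.Prime) (hq2 : q ≠ 2) (u : ℕ → ℝ)
    (hsum : ∑ e ∈ Icc 1 E, u e = 1) (s : ℕ) (y : ℤ) :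
    ∑ d ∈ range q, FF q E u 1 (y + 2 ^ s * (d : ℤ)) = q := by
  classical
  simp only [FF_one]
  rw [sum_comm]
  calc ∑ e ∈ Icc 1 E, ∑ d ∈ range q,
        (if (q : ℤ) ∣ 2 ^ e * (y + 2 ^ s * (d : ℤ)) - 1 then (q : ℝ) * u e else 0)
      = ∑ e ∈ Icc 1 E, (q : ℝ) * u e := by
        refine sum_congr rfl fun e _ => ?_
        rw [← sum_filter, sum_const, card_lift hq hq2 s e y, one_smul]
    _ = q := by rw [← mul_sum, hsum, mul_one]

/-- two letters: at least `q² m²` at every point prime to `q` -/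
theorem FF_two_ge {q E : ℕ} (hq : q.Prime) (hq2 : q ≠ 2) (hP : Prim q) (hE : q * (q - 1) ≤ E)
    (u : ℕ → ℝ) {m : ℝ} (hm : 0 < m) (hu : ∀ e ∈ Icc 1 E, m ≤ u e) {y : ℤ}
    (hy : ¬ (q : ℤ) ∣ y) : (q : ℝ) ^ 2 * m ^ 2 ≤ FF q E u 2 y := by
  classical
  have hu0 : ∀ e ∈ Icc 1 E, 0 ≤ u e := fun e he => hm.le.trans (hu e he)
  obtain ⟨e, he, hL, -⟩ := Prim.exists_letter hP hq hq2 hy hy
  obtain ⟨e', he', hL', -⟩ := Prim.exists_letter hP hq hq2 hL.2 hy
  have heE : e ∈ Icc 1 E := by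
    rw [mem_Icc] at he ⊢; exact ⟨he.1, he.2.trans hE⟩
  have heE' : e' ∈ Icc 1 E := by
    rw [mem_Icc] at he' ⊢; exact ⟨he'.1, he'.2.trans hE⟩
  have hmem : [e, e'] ∈ FW E 2 := by
    rw [mem_FW]
    refine ⟨rfl, fun a ha => ?_⟩
    rcases List.mem_cons.mp ha with rfl | ha
    · exact mem_Icc.mp heE
    · rw [List.mem_singleton.mp ha]; exact mem_Icc.mp heE'
  have hval : Vd q [e, e'] y := (Vd_append hq hq2 [e] [e'] y).mpr ⟨hL.1, hL'.1⟩
  unfold FF
  refine le_trans ?_ (single_le_sum (f := fun w => if Vd q w y then (q : ℝ) ^ 2 * wtu u w else 0)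
    (fun w hw => ?_) hmem)
  · simp only [if_pos hval]
    refine mul_le_mul_of_nonneg_left ?_ (by positivity)
    have : wtu u [e, e'] = u e * u e' := by simp [wtu]
    rw [this, pow_two]
    exact mul_le_mul (hu e heE) (hu e' heE') hm.le (hu0 e heE)
  · change 0 ≤ if Vd q w y then (q : ℝ) ^ 2 * wtu u w else 0
    split_ifs
    · exact mul_nonneg (by positivity) (wtu_nonneg_of hu0 hw)
    · exact le_rfl

theorem FF_one_ge {q E : ℕ} (hq : q.Prime) (hq2 : q ≠ 2) (hP : Prim q) (hE : q * (q - 1) ≤ E)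
    (u : ℕ → ℝ) {m : ℝ} (hm : 0 < m) (hu : ∀ e ∈ Icc 1 E, m ≤ u e) {y : ℤ}
    (hy : ¬ (q : ℤ) ∣ y) : (q : ℝ) * m ≤ FF q E u 1 y := by
  classical
  have hu0 : ∀ e ∈ Icc 1 E, 0 ≤ u e := fun e he => hm.le.trans (hu e he)
  obtain ⟨e, he, hL, -⟩ := Prim.exists_letter hP hq hq2 hy hy
  have heE : e ∈ Icc 1 E := by
    rw [mem_Icc] at he ⊢; exact ⟨he.1, he.2.trans hE⟩
  rw [FF_one]
  refine le_trans ?_ (single_le_sum
    (f := fun e => if (q : ℤ) ∣ 2 ^ e * y - 1 then (q : ℝ) * u e else 0) (fun a ha => ?_) heE)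
  · simp only [if_pos ((Vd_letter q e y).mp hL.1)]
    exact mul_le_mul_of_nonneg_left (hu e heE) (by positivity)
  · change 0 ≤ if (q : ℤ) ∣ 2 ^ a * y - 1 then (q : ℝ) * u a else 0
    split_ifs
    · exact mul_nonneg (by positivity) (hu0 a ha)
    · exact le_rfl

theorem length_of_mem_FW {E n : ℕ} {w : List ℕ} (hw : w ∈ FW E n) : w.length = n :=
  (mem_FW.mp hw).1

theorem FF_good {q E : ℕ} (hq : q.Prime) (hq2 : q ≠ 2) (hP : Prim q) (hE : q * (q - 1) ≤ E)
    (u : ℕ → ℝ) {m : ℝ} (hm : 0 < m) (hu : ∀ e ∈ Icc 1 E, m ≤ u e) (hsum : ∑ e ∈ Icc 1 E, u e = 1) :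
    GoodF q (FF q E u) (q * m ^ 2) (q * m) := by
  classical
  have hu0 : ∀ e ∈ Icc 1 E, 0 ≤ u e := fun e he => hm.le.trans (hu e he)
  refine ⟨fun n x => FF_nonneg hu0 n x, ?_, ?_, ?_, fun x hx => FF_one_ge hq hq2 hP hE u hm hu hx⟩
  · intro n x y
    unfold FF
    refine sum_congr rfl fun w hw => ?_
    have h := Vd_shift q w x y
    rw [length_of_mem_FW hw] at h
    simp only [h]
  · intro n x
    simp only [FF_add hq hq2 u n 1]
    rw [sum_comm]
    unfold FF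
    rw [mul_sum]
    refine sum_congr rfl fun w hw => ?_
    have hlen := length_of_mem_FW hw
    by_cases hv : Vd q w x
    · have h1 : ∀ d ∈ range q, (if Vd q w (x + (q : ℤ) ^ n * (d : ℤ)) then
          (q : ℝ) ^ n * wtu u w * FF q E u 1 (Ep q w (x + (q : ℤ) ^ n * (d : ℤ))) else 0) =
          (q : ℝ) ^ n * wtu u w * FF q E u 1 (Ep q w x + 2 ^ w.sum * (d : ℤ)) := by
        intro d _
        have h2 := Vd_shift q w x d
        have h3 := Ep_shift hq.pos w x d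
        rw [hlen] at h2 h3
        rw [if_pos (h2.mpr hv), h3]
      have h4 := sum_congr rfl h1
      unfold FF at h4
      rw [h4, ← mul_sum]
      have h5 := sum_lift hq hq2 u hsum w.sum (Ep q w x)
      unfold FF at h5
      rw [h5, if_pos hv]
      ring
    · rw [if_neg hv, mul_zero]
      refine sum_eq_zero fun d _ => ?_
      have h2 := Vd_shift q w x d
      rw [hlen] at h2
      rw [if_neg (fun h => hv (h2.mp h))]
  · intro n x hn
    obtain ⟨k, rfl⟩ : ∃ k, n = k + 1 := ⟨n - 1, by omega⟩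
    rw [FF_add hq hq2 u k 1, show k + 1 + 1 = k + 2 by ring, FF_add hq hq2 u k 2, mul_sum]
    refine sum_le_sum fun w hw => ?_
    by_cases hv : Vd q w x
    · rw [if_pos hv, if_pos hv]
      have hw0 : 0 ≤ (q : ℝ) ^ k * wtu u w :=
        mul_nonneg (by positivity) (wtu_nonneg_of hu0 hw)
      have h1 : q * m ^ 2 * FF q E u 1 (Ep q w x) ≤ FF q E u 2 (Ep q w x) := by
        by_cases hd : (q : ℤ) ∣ Ep q w x
        · rw [FF_one_zero hq hq2 u hd, mul_zero]
          exact FF_nonneg hu0 _ _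
        · refine le_trans ?_ (FF_two_ge hq hq2 hP hE u hm hu hd)
          have h2 := FF_one_le (q := q) hu0 hsum (Ep q w x)
          have h3 : q * m ^ 2 * FF q E u 1 (Ep q w x) ≤ q * m ^ 2 * q :=
            mul_le_mul_of_nonneg_left h2 (by positivity)
          nlinarith
      calc (q : ℝ) * m ^ 2 * ((q : ℝ) ^ k * wtu u w * FF q E u 1 (Ep q w x))
          = ((q : ℝ) ^ k * wtu u w) * (q * m ^ 2 * FF q E u 1 (Ep q w x)) := by ring
        _ ≤ ((q : ℝ) ^ k * wtu u w) * FF q E u 2 (Ep q w x) := mul_le_mul_of_nonneg_left h1 hw0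
    · rw [if_neg hv, if_neg hv, mul_zero]

open scoped Classical in
/-- words with live endpoints carry at least a proportion `1/q` -/
theorem FF_succ_le {q E : ℕ} (hq : q.Prime) (hq2 : q ≠ 2) (u : ℕ → ℝ)
    (hu : ∀ e, 0 ≤ u e) (hsum : ∑ e ∈ Icc 1 E, u e = 1) (n : ℕ) (x : ℤ) :
    FF q E u (n + 1) x ≤ q * ∑ w ∈ FW E n, if Lv q w x then (q : ℝ) ^ n * wtu u w else 0 := by
  rw [FF_add hq hq2 u n 1, mul_sum]
  refine sum_le_sum fun w hw => ?_
  have hw0 : 0 ≤ (q : ℝ) ^ n * wtu u w :=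
    mul_nonneg (by positivity) (wtu_nonneg_of (fun e _ => hu e) hw)
  by_cases hv : Vd q w x
  · rw [if_pos hv]
    by_cases hd : (q : ℤ) ∣ Ep q w x
    · rw [FF_one_zero hq hq2 u hd, mul_zero, if_neg (fun h : Lv q w x => h.2 hd), mul_zero]
    · rw [if_pos (show Lv q w x from ⟨hv, hd⟩)]
      have h2 := FF_one_le (q := q) (fun e _ => hu e) hsum (Ep q w x)
      calc (q : ℝ) ^ n * wtu u w * FF q E u 1 (Ep q w x) ≤ (q : ℝ) ^ n * wtu u w * q :=
            mul_le_mul_of_nonneg_left h2 hw0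
        _ = q * ((q : ℝ) ^ n * wtu u w) := by ring
  · rw [if_neg hv, if_neg (fun h : Lv q w x => hv h.1), mul_zero]

/-! ### the tilt -/

theorem Az_pos {z : ℝ} (hz : 0 < z) {E : ℕ} (hE : 1 ≤ E) : 0 < Az z E := by
  unfold Az
  exact sum_pos (fun e _ => pow_pos hz e) ⟨1, mem_Icc.mpr ⟨le_rfl, hE⟩⟩

theorem sum_uz {z : ℝ} (hz : 0 < z) {E : ℕ} (hE : 1 ≤ E) : ∑ e ∈ Icc 1 E, uz z E e = 1 := by
  unfold uz
  rw [← sum_div]
  exact div_self (Az_pos hz hE).ne'

theorem uz_pos {z : ℝ} (hz : 0 < z) {E : ℕ} (hE : 1 ≤ E) (e : ℕ) : 0 < uz z E e :=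
  div_pos (pow_pos hz e) (Az_pos hz hE)

theorem az_mem {z : ℝ} (hz : 0 < z) {E : ℕ} (hE : 1 ≤ E) : 1 ≤ az z E ∧ az z E ≤ E := by
  have h1 := sum_uz hz hE
  constructor
  · rw [← h1]
    unfold az
    refine sum_le_sum fun e he => ?_
    have h2 : (1 : ℝ) ≤ e := by exact_mod_cast (mem_Icc.mp he).1
    nlinarith [uz_pos hz hE e]
  · have h3 : az z E ≤ ∑ e ∈ Icc 1 E, (E : ℝ) * uz z E e := by
      unfold az
      refine sum_le_sum fun e he => ?_
      have h2 : (e : ℝ) ≤ E := by exact_mod_cast (mem_Icc.mp he).2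
      exact mul_le_mul_of_nonneg_right h2 (uz_pos hz hE e).le
    rwa [← mul_sum, h1, mul_one] at h3

theorem wtu_uz {z : ℝ} {E : ℕ} (w : List ℕ) :
    wtu (uz z E) w = z ^ w.sum / Az z E ^ w.length := by
  induction w with
  | nil => simp [wtu]
  | cons e w ih =>
    rw [wtu_cons, ih, List.sum_cons, List.length_cons, pow_add, pow_succ']
    unfold uz
    rw [div_mul_div_comm]

/-! ### Chernoff -/

theorem exp_le_quad {t : ℝ} (ht : |t| ≤ 1) : Real.exp t ≤ 1 + t + t ^ 2 := by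
  have h := Real.abs_exp_sub_one_sub_id_le ht
  have h1 := (abs_le.mp h).2
  linarith

theorem wtu_exp (u : ℕ → ℝ) (l a : ℝ) (w : List ℕ) :
    wtu (fun e => u e * Real.exp (l * ((e : ℝ) - a))) w =
      wtu u w * Real.exp (l * ((w.sum : ℝ) - a * w.length)) := by
  induction w with
  | nil => simp [wtu]
  | cons e w ih =>
    rw [wtu_cons, wtu_cons, ih, List.sum_cons, List.length_cons]
    have : Real.exp (l * ((((e + w.sum : ℕ) : ℝ)) - a * ((w.length + 1 : ℕ) : ℝ))) =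
        Real.exp (l * ((e : ℝ) - a)) * Real.exp (l * ((w.sum : ℝ) - a * w.length)) := by
      rw [← Real.exp_add]; congr 1; push_cast; ring
    rw [this]; ring

/-- moment generating function of a letter -/
theorem mgf_le {z : ℝ} (hz : 0 < z) {E : ℕ} (hE : 1 ≤ E) {l : ℝ} (hl : |l| * E ≤ 1) :
    ∑ e ∈ Icc 1 E, uz z E e * Real.exp (l * ((e : ℝ) - az z E)) ≤ Real.exp (l ^ 2 * E ^ 2) := by
  have hmem := az_mem hz hE
  have hsum := sum_uz hz hE
  have haz : ∑ e ∈ Icc 1 E, uz z E e * ((e : ℝ) - az z E) = 0 := by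
    have h1 : ∑ e ∈ Icc 1 E, uz z E e * ((e : ℝ) - az z E) =
        ∑ e ∈ Icc 1 E, (e : ℝ) * uz z E e - az z E * ∑ e ∈ Icc 1 E, uz z E e := by
      rw [mul_sum, ← sum_sub_distrib]
      exact sum_congr rfl fun e _ => by ring
    rw [h1, hsum]
    unfold az
    ring
  have hterm : ∀ e ∈ Icc 1 E, uz z E e * Real.exp (l * ((e : ℝ) - az z E)) ≤
      uz z E e + l * (uz z E e * ((e : ℝ) - az z E)) + uz z E e * (l ^ 2 * E ^ 2) := by
    intro e he
    have he1 : (1 : ℝ) ≤ e := by exact_mod_cast (mem_Icc.mp he).1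
    have he2 : (e : ℝ) ≤ E := by exact_mod_cast (mem_Icc.mp he).2
    have hd : |(e : ℝ) - az z E| ≤ E := by
      rw [abs_le]; constructor <;> linarith [hmem.1, hmem.2]
    have ht : |l * ((e : ℝ) - az z E)| ≤ 1 := by
      rw [abs_mul]
      exact (mul_le_mul_of_nonneg_left hd (abs_nonneg l)).trans hl
    have h1 := exp_le_quad ht
    have h2 : (l * ((e : ℝ) - az z E)) ^ 2 ≤ l ^ 2 * E ^ 2 := by
      rw [mul_pow]
      refine mul_le_mul_of_nonneg_left ?_ (by positivity)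
      rw [← sq_abs ((e : ℝ) - az z E)]
      exact pow_le_pow_left₀ (abs_nonneg _) hd 2
    have h3 := uz_pos hz hE e
    nlinarith
  refine (sum_le_sum hterm).trans ?_
  rw [sum_add_distrib, sum_add_distrib, ← mul_sum, ← sum_mul, haz, hsum]
  have := Real.add_one_le_exp (l ^ 2 * (E : ℝ) ^ 2)
  linarith

/-- the exponential moment of the size -/
theorem mgf_word {z : ℝ} (hz : 0 < z) {E : ℕ} (hE : 1 ≤ E) {l : ℝ} (hl : |l| * E ≤ 1) (n : ℕ) :
    ∑ w ∈ FW E n, wtu (uz z E) w * Real.exp (l * ((w.sum : ℝ) - az z E * n)) ≤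
      Real.exp (l ^ 2 * E ^ 2 * n) := by
  have h1 : ∑ w ∈ FW E n, wtu (uz z E) w * Real.exp (l * ((w.sum : ℝ) - az z E * n)) =
      ∑ w ∈ FW E n, wtu (fun e => uz z E e * Real.exp (l * ((e : ℝ) - az z E))) w := by
    refine sum_congr rfl fun w hw => ?_
    rw [wtu_exp, length_of_mem_FW hw]
  rw [h1, sum_wtu]
  calc (∑ e ∈ Icc 1 E, uz z E e * Real.exp (l * ((e : ℝ) - az z E))) ^ n
      ≤ Real.exp (l ^ 2 * E ^ 2) ^ n := by
        refine pow_le_pow_left₀ (sum_nonneg fun e _ => ?_) (mgf_le hz hE hl) n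
        exact mul_nonneg (uz_pos hz hE e).le (Real.exp_pos _).le
    _ = Real.exp (l ^ 2 * E ^ 2 * n) := by
        rw [← Real.exp_nat_mul]; congr 1; ring

/-- Chernoff: the size of a word of `n` letters is `az * n` up to `ε n`, except for an exponentially
small weight -/
theorem size_dev {z : ℝ} (hz : 0 < z) {E : ℕ} (hE : 1 ≤ E) {ε : ℝ} (hε : 0 < ε) :
    ∃ c : ℝ, 0 < c ∧ ∀ n : ℕ,
      ∑ w ∈ (FW E n).filter (fun w => ε * n < |(w.sum : ℝ) - az z E * n|), wtu (uz z E) w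
        ≤ 2 * Real.exp (-(c * n)) := by
  have hE0 : (0 : ℝ) < E := by exact_mod_cast hE
  set l : ℝ := min (1 / E) (ε / (2 * E ^ 2)) with hl
  have hl0 : 0 < l := lt_min (by positivity) (by positivity)
  have hl1 : l * E ≤ 1 := by
    have h1 : l ≤ 1 / E := min_le_left _ _
    calc l * E ≤ 1 / E * E := mul_le_mul_of_nonneg_right h1 hE0.le
      _ = 1 := by field_simp
  have hl2 : l ^ 2 * E ^ 2 ≤ l * ε / 2 := by
    have h1 : l ≤ ε / (2 * E ^ 2) := min_le_right _ _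
    have h2 : l * (2 * (E : ℝ) ^ 2) ≤ ε := by
      rwa [le_div_iff₀ (by positivity)] at h1
    nlinarith
  refine ⟨l * ε / 2, by positivity, fun n => ?_⟩
  have hw0 : ∀ w ∈ FW E n, 0 ≤ wtu (uz z E) w := fun w hw =>
    wtu_nonneg_of (fun e _ => (uz_pos hz hE e).le) hw
  have key : ∀ w ∈ (FW E n).filter (fun w => ε * n < |(w.sum : ℝ) - az z E * n|),
      wtu (uz z E) w ≤
        wtu (uz z E) w * Real.exp (l * ((w.sum : ℝ) - az z E * n)) * Real.exp (-(l * ε * n)) +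
        wtu (uz z E) w * Real.exp (-l * ((w.sum : ℝ) - az z E * n)) * Real.exp (-(l * ε * n)) := by
    intro w hw
    rw [mem_filter] at hw
    have h0 := hw0 w hw.1
    have h1 : 1 ≤ Real.exp (l * ((w.sum : ℝ) - az z E * n)) * Real.exp (-(l * ε * n)) +
        Real.exp (-l * ((w.sum : ℝ) - az z E * n)) * Real.exp (-(l * ε * n)) := by
      rw [← Real.exp_add, ← Real.exp_add]
      rcases lt_abs.mp hw.2 with h | h
      · have h2 : 0 ≤ l * ((w.sum : ℝ) - az z E * n) + -(l * ε * n) := by nlinarith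
        have h3 := Real.one_le_exp h2
        have h4 := Real.exp_pos (-l * ((w.sum : ℝ) - az z E * n) + -(l * ε * n))
        linarith
      · have h2 : 0 ≤ -l * ((w.sum : ℝ) - az z E * n) + -(l * ε * n) := by nlinarith
        have h3 := Real.one_le_exp h2
        have h4 := Real.exp_pos (l * ((w.sum : ℝ) - az z E * n) + -(l * ε * n))
        linarith
    calc wtu (uz z E) w = wtu (uz z E) w * 1 := (mul_one _).symm
      _ ≤ wtu (uz z E) w * _ := mul_le_mul_of_nonneg_left h1 h0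
      _ = _ := by ring
  refine (sum_le_sum key).trans ?_
  refine (sum_le_sum_of_subset_of_nonneg (filter_subset _ _) fun w hw _ => ?_).trans ?_
  · have h0 := hw0 w hw
    positivity
  · rw [sum_add_distrib, ← sum_mul, ← sum_mul]
    have h1 := mgf_word hz hE (l := l) (by rwa [abs_of_pos hl0]) n
    have h2 := mgf_word hz hE (l := -l) (by rwa [abs_neg, abs_of_pos hl0]) n
    rw [neg_sq] at h2
    have h3 : Real.exp (l ^ 2 * E ^ 2 * n) * Real.exp (-(l * ε * n)) ≤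
        Real.exp (-(l * ε / 2 * n)) := by
      rw [← Real.exp_add]
      apply Real.exp_le_exp.mpr
      have : l ^ 2 * E ^ 2 * n ≤ l * ε / 2 * n := mul_le_mul_of_nonneg_right hl2 (by positivity)
      linarith
    have hp := Real.exp_pos (-(l * ε * n))
    have h4 := mul_le_mul_of_nonneg_right h1 hp.le
    have h5 := mul_le_mul_of_nonneg_right h2 hp.le
    linarith

end Pool.Agent.H422R2.QA
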