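import Pool.Agent.H422R2.QA.QADefs

/-!
OFFSETS (task F): construction of the groups.
-/

set_option autoImplicit false

namespace Pool.Agent.H422R2.QA

open Finset Pool.Agent.H320R2.PD

/-- what the construction of the groups needs from the other files -/
structure OffIn (q E : ℕ) (h c : ℝ) (N₀ : ℕ) : Prop where
  ent : ∀ N : ℕ, N₀ ≤ N → ∀ T : Finset (List ℕ), T ⊆ FW E N →
      (q : ℝ) ^ N * Real.exp (h * N) ≤ T.card →
        c * N ≤ ∑ j ∈ Ico N ((E + 2) * N), (1 - gm q T j)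
  nonneg : ∀ (T : Finset (List ℕ)) (j : ℕ), 0 ≤ gm q T j
  le_one : ∀ (T : Finset (List ℕ)) (j : ℕ), gm q T j ≤ 1
  gcat : ∀ {U V : Finset (List ℕ)} {k : ℕ}, (∀ w ∈ U, w.length = k) → ∀ j : ℕ,
    gm q (cat U V) (k + j) ≤ gm q U (k + j) * gm q V j
  bal : ∀ {b M : ℕ}, 1 ≤ b → ∀ {V : Finset (List ℕ)}, Bal q E b V M →
    ∀ {m r : ℕ} {U : Finset (List ℕ)}, Mix q b V m r U →
      ∃ M' : ℕ, Bal q E (m * b + r) U M' ∧ M ^ m ≤ M'
  bcard : ∀ {n M : ℕ} {V : Finset (List ℕ)}, 1 ≤ n → Bal q E n V M →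
    V.card = (q - 1) * q ^ n * M
  mpw : ∀ (b : ℕ) (V : Finset (List ℕ)) {n : ℕ}, 1 ≤ n → ∃ U : Finset (List ℕ), Mix q b V n 0 U
  gap : ∀ {b : ℕ}, 1 ≤ b → ∀ (V : Finset (List ℕ)) {L : ℕ}, 1 ≤ L →
    ∃ (m r : ℕ) (U : Finset (List ℕ)), Mix q b V m r U ∧ m * b + r = L ∧ r < b + 1

theorem off_length_FW {A : ℕ} : ∀ {n : ℕ} {w : List ℕ}, w ∈ FW A n → w.length = n := by
  intro n
  induction n with
  | zero =>
    intro w h
    simp only [FW, mem_singleton] at h
    simp [h]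
  | succ n ih =>
    intro w h
    simp only [FW, mem_biUnion, mem_image] at h
    obtain ⟨e, _, v, hv, rfl⟩ := h
    simp [ih hv]

theorem OffIn.length {q E : ℕ} {h c : ℝ} {N₀ : ℕ} (I : OffIn q E h c N₀)
    {b M : ℕ} {V : Finset (List ℕ)} (hb : 1 ≤ b) (hV : Bal q E b V M)
    {m r : ℕ} {U : Finset (List ℕ)} (hU : Mix q b V m r U) : ∀ w ∈ U, w.length = m * b + r := by
  intro w hw
  obtain ⟨M', hB, _⟩ := I.bal hb hV hU
  exact off_length_FW (hB.sub hw)

/-- one step: a longer group with a smaller potential -/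
theorem OffIn.step {q E : ℕ} {h c : ℝ} {N₀ : ℕ} (I : OffIn q E h c N₀) (hq : 2 ≤ q) (hc : 0 < c)
    (hc1 : c ≤ 1) {b M : ℕ} {V : Finset (List ℕ)} (hb : 1 ≤ b) (hV : Bal q E b V M)
    (hM : Real.exp (h * b) ≤ M) {m r : ℕ} {U : Finset (List ℕ)} (hU : Mix q b V m r U)
    (A J : ℕ) :
    ∃ (m' r' : ℕ) (U' : Finset (List ℕ)), Mix q b V m' r' U' ∧ r' ≤ r + b ∧
      m' * b + r' + A ≤ (E + 2) * (⌈2 / c⌉₊ * (m * b + r + A + J + 1) + N₀ + b) ∧
      ∑ i ∈ range J, gm q U' (m' * b + r' + A + 1 + i) ≤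
        (1 - c / (2 * (E + 1))) * ∑ i ∈ range J, gm q U (m * b + r + A + 1 + i) := by
  obtain ⟨L, hLdef⟩ : ∃ L : ℕ, L = m * b + r := ⟨_, rfl⟩
  obtain ⟨X, hX⟩ : ∃ X : ℕ, X = ⌈2 / c⌉₊ * (L + A + J + 1) + N₀ := ⟨_, rfl⟩
  obtain ⟨n, hn⟩ : ∃ n : ℕ, n = X / b + 1 := ⟨_, rfl⟩
  have hn1 : 1 ≤ n := by rw [hn]; exact Nat.le_add_left _ _
  obtain ⟨N, hN⟩ : ∃ N : ℕ, N = n * b := ⟨_, rfl⟩
  have hXN : X ≤ N := by
    have := Nat.lt_succ_iff.mp (Nat.lt_succ_of_lt (Nat.lt_mul_div_succ X (show 0 < b by omega)))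
    rw [hN, hn, mul_comm]
    exact this
  have hNX : N ≤ X + b := by
    rw [hN, hn, Nat.add_mul, one_mul]
    have := Nat.div_mul_le_self X b
    omega
  have hN₀ : N₀ ≤ N := by omega
  have hcN : 2 * ((L : ℝ) + A + J + 1) ≤ c * N := by
    have h1 : (2 / c) * ((L : ℝ) + A + J + 1) ≤ N := by
      have h2 : ((⌈2 / c⌉₊ * (L + A + J + 1) : ℕ) : ℝ) ≤ (N : ℝ) := by
        have h0 : ⌈2 / c⌉₊ * (L + A + J + 1) ≤ N :=
          le_trans (by rw [hX]; exact Nat.le_add_right _ _) hXN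
        exact_mod_cast h0
      push_cast at h2
      refine le_trans ?_ h2
      exact mul_le_mul_of_nonneg_right (Nat.le_ceil _) (by positivity)
    have h3 : c * ((2 / c) * ((L : ℝ) + A + J + 1)) ≤ c * N := mul_le_mul_of_nonneg_left h1 hc.le
    have h4 : c * ((2 / c) * ((L : ℝ) + A + J + 1)) = 2 * ((L : ℝ) + A + J + 1) := by
      field_simp
    linarith
  obtain ⟨P, hP⟩ := I.mpw b V hn1
  obtain ⟨M', hPB, hM'⟩ := I.bal hb hV hP
  have hPlen : ∀ w ∈ P, w.length = N := by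
    intro w hw
    have := I.length hb hV hP w hw
    rw [this, hN]
    omega
  have hNpos : 1 ≤ N := by
    rw [hN]
    exact Nat.mul_pos hn1 hb
  have hPsub : P ⊆ FW E N := by
    have := hPB.sub
    rwa [show n * b + 0 = N by omega] at this
  have hPcard : (q : ℝ) ^ N * Real.exp (h * N) ≤ P.card := by
    have h1 := I.bcard (by omega) hPB
    rw [show n * b + 0 = N by omega] at h1
    have h2 : Real.exp (h * N) ≤ (M' : ℝ) := by
      have h3 : Real.exp (h * N) = Real.exp (h * b) ^ n := by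
        rw [← Real.exp_nat_mul, hN]
        push_cast
        ring_nf
      rw [h3]
      calc Real.exp (h * b) ^ n ≤ (M : ℝ) ^ n := pow_le_pow_left₀ (Real.exp_pos _).le hM n
        _ ≤ M' := by exact_mod_cast hM'
    have h4 : ((q ^ N * M' : ℕ) : ℝ) ≤ (P.card : ℝ) := by
      rw [h1]
      exact_mod_cast (by
        have : 1 * q ^ N * M' ≤ (q - 1) * q ^ N * M' :=
          Nat.mul_le_mul_right _ (Nat.mul_le_mul_right _ (by omega))
        simpa using this)
    push_cast at h4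
    refine le_trans ?_ h4
    exact mul_le_mul_of_nonneg_left h2 (by positivity)
  have hent := I.ent N hN₀ P hPsub hPcard
  -- the sum over the offsets, for each digit of the window
  have hoff : ∀ i ∈ range J, c * N / 2 ≤
      ∑ o ∈ Ico (L + A + 1) ((E + 1) * N), (1 - gm q P (N + o + 1 + i)) := by
    intro i hi
    have hiJ : i < J := mem_range.mp hi
    have hnn : ∀ j, 0 ≤ 1 - gm q P j := fun j => by linarith [I.le_one P j]
    have h1 : ∑ o ∈ Ico (L + A + 1) ((E + 1) * N), (1 - gm q P (N + o + 1 + i)) =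
        ∑ j ∈ Ico (L + A + 1 + (N + 1 + i)) ((E + 1) * N + (N + 1 + i)), (1 - gm q P j) := by
      rw [← Finset.sum_Ico_add' (fun j => 1 - gm q P j)]
      refine Finset.sum_congr rfl fun o _ => ?_
      rw [show N + o + 1 + i = o + (N + 1 + i) by omega]
    rw [h1]
    have h2 : Ico N ((E + 2) * N) ⊆ Ico N (L + A + 1 + (N + 1 + i)) ∪
        Ico (L + A + 1 + (N + 1 + i)) ((E + 1) * N + (N + 1 + i)) := by
      intro j hj
      rw [mem_union, mem_Ico, mem_Ico]
      rw [mem_Ico] at hj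
      have : (E + 2) * N = (E + 1) * N + N := by ring
      omega
    have h3 : ∑ j ∈ Ico N ((E + 2) * N), (1 - gm q P j) ≤
        ∑ j ∈ Ico N (L + A + 1 + (N + 1 + i)), (1 - gm q P j) +
        ∑ j ∈ Ico (L + A + 1 + (N + 1 + i)) ((E + 1) * N + (N + 1 + i)), (1 - gm q P j) := by
      refine le_trans (Finset.sum_le_sum_of_subset_of_nonneg h2 fun j _ _ => hnn j) ?_
      rw [Finset.sum_union]
      rw [Finset.disjoint_left]
      intro j hj hj'
      rw [mem_Ico] at hj hj'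
      omega
    have h4 : ∑ j ∈ Ico N (L + A + 1 + (N + 1 + i)), (1 - gm q P j) ≤ (L : ℝ) + A + J + 1 := by
      have h5 : ∑ j ∈ Ico N (L + A + 1 + (N + 1 + i)), (1 - gm q P j) ≤
          ∑ j ∈ Ico N (L + A + 1 + (N + 1 + i)), (1 : ℝ) :=
        Finset.sum_le_sum fun j _ => by linarith [I.nonneg P j]
      refine le_trans h5 ?_
      rw [Finset.sum_const, Nat.card_Ico, nsmul_eq_mul, mul_one]
      have : L + A + 1 + (N + 1 + i) - N ≤ L + A + J + 1 := by omega
      exact_mod_cast this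
    linarith
  -- averaging
  have hΦ : 0 ≤ ∑ i ∈ range J, gm q U (L + A + 1 + i) :=
    Finset.sum_nonneg fun i _ => I.nonneg U _
  have hne : (Ico (L + A + 1) ((E + 1) * N)).Nonempty := by
    rw [Finset.nonempty_Ico]
    have h1 : (2 : ℝ) * ((L : ℝ) + A + J + 1) ≤ N := by
      refine le_trans hcN ?_
      have : (0 : ℝ) ≤ N := by positivity
      nlinarith
    have h2 : 2 * (L + A + J + 1) ≤ N := by exact_mod_cast h1
    have h3 : N ≤ (E + 1) * N := Nat.le_mul_of_pos_left N (by omega)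
    omega
  have hE1 : (0 : ℝ) < (E : ℝ) + 1 := by positivity
  have havg : ∑ o ∈ Ico (L + A + 1) ((E + 1) * N),
      (c / (2 * (E + 1)) * ∑ i ∈ range J, gm q U (L + A + 1 + i)) ≤
      ∑ o ∈ Ico (L + A + 1) ((E + 1) * N),
        ∑ i ∈ range J, gm q U (L + A + 1 + i) * (1 - gm q P (N + o + 1 + i)) := by
    rw [Finset.sum_comm]
    have h1 : ∑ i ∈ range J, gm q U (L + A + 1 + i) * (c * N / 2) ≤
        ∑ i ∈ range J, ∑ o ∈ Ico (L + A + 1) ((E + 1) * N),
          gm q U (L + A + 1 + i) * (1 - gm q P (N + o + 1 + i)) := by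
      refine Finset.sum_le_sum fun i hi => ?_
      rw [← Finset.mul_sum]
      exact mul_le_mul_of_nonneg_left (hoff i hi) (I.nonneg _ _)
    refine le_trans ?_ h1
    rw [Finset.sum_const, Nat.card_Ico, nsmul_eq_mul]
    have h2 : (((E + 1) * N - (L + A + 1) : ℕ) : ℝ) ≤ ((E : ℝ) + 1) * N := by
      have : (E + 1) * N - (L + A + 1) ≤ (E + 1) * N := Nat.sub_le _ _
      exact_mod_cast this
    have h3 : (0 : ℝ) ≤ c / (2 * (E + 1)) * ∑ i ∈ range J, gm q U (L + A + 1 + i) := by positivity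
    have h4 := mul_le_mul_of_nonneg_right h2 h3
    refine le_trans h4 (le_of_eq ?_)
    rw [← Finset.sum_mul]
    field_simp
  obtain ⟨o, ho, hoo⟩ := Finset.exists_le_of_sum_le hne havg
  rw [mem_Ico] at ho
  obtain ⟨mw, rw', W, hW, hWl, hWr⟩ := I.gap hb V (show 1 ≤ o - (L + A) by omega)
  have hWlen : ∀ w ∈ W, w.length = o - (L + A) := by
    intro w hw
    rw [← hWl]
    exact I.length hb hV hW w hw
  have hlen : (n + (mw + m)) * b + (0 + (rw' + r)) = N + (o - (L + A)) + L := by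
    rw [← hWl, hN, hLdef]
    ring
  refine ⟨n + (mw + m), 0 + (rw' + r), cat P (cat W U), Mix.cat hP (Mix.cat hW hU), by omega,
    ?_, ?_⟩
  · rw [hlen, ← hLdef, ← hX]
    have h1 : N + (o - (L + A)) + L + A ≤ (E + 2) * N := by
      have : (E + 2) * N = (E + 1) * N + N := by ring
      omega
    exact le_trans h1 (Nat.mul_le_mul_left _ hNX)
  · rw [hlen, ← hLdef]
    have h1 : ∀ i ∈ range J, gm q (cat P (cat W U)) (N + (o - (L + A)) + L + A + 1 + i) ≤
        gm q U (L + A + 1 + i) -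
          gm q U (L + A + 1 + i) * (1 - gm q P (N + o + 1 + i)) := by
      intro i _
      have e1 : N + (o - (L + A)) + L + A + 1 + i = N + (o + 1 + i) := by omega
      have e2 : o + 1 + i = (o - (L + A)) + (L + A + 1 + i) := by omega
      have h2 := I.gcat (V := cat W U) hPlen (o + 1 + i)
      have h3 := I.gcat (V := U) hWlen (L + A + 1 + i)
      rw [← e2] at h3
      rw [e1]
      have h4 : gm q (cat W U) (o + 1 + i) ≤ gm q U (L + A + 1 + i) := by
        refine le_trans h3 ?_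
        have := mul_le_mul_of_nonneg_right (I.le_one W (o + 1 + i)) (I.nonneg U (L + A + 1 + i))
        linarith
      have h5 := mul_le_mul_of_nonneg_left h4 (I.nonneg P (N + (o + 1 + i)))
      have e3 : N + o + 1 + i = N + (o + 1 + i) := by omega
      rw [e3]
      linarith
    refine le_trans (Finset.sum_le_sum h1) ?_
    rw [Finset.sum_sub_distrib]
    linarith

/-- constant of growth of the lengths at one step -/
noncomputable def offC (E : ℕ) (c : ℝ) : ℕ := (E + 2) * (2 * ⌈2 / c⌉₊ + 1) + 1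

/-- `k` steps -/
theorem OffIn.iter {q E : ℕ} {h c : ℝ} {N₀ : ℕ} (I : OffIn q E h c N₀) (hq : 2 ≤ q) (hc : 0 < c)
    (hc1 : c ≤ 1) {b M : ℕ} {V : Finset (List ℕ)} (hb : 1 ≤ b) (hV : Bal q E b V M)
    (hM : Real.exp (h * b) ≤ M) (A J : ℕ) (hJ : N₀ + b ≤ J) (k : ℕ) :
    ∃ (m r : ℕ) (U : Finset (List ℕ)), Mix q b V m r U ∧ r ≤ 1 + k * b ∧
      m * b + r + A + J ≤ offC E c ^ k * (1 + A + J) ∧
      ∑ i ∈ range J, gm q U (m * b + r + A + 1 + i) ≤ (1 - c / (2 * (E + 1))) ^ k * J := by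
  induction k with
  | zero =>
    refine ⟨0, 1, one q, Mix.letter, by omega, by simp, ?_⟩
    simp only [pow_zero, one_mul]
    calc ∑ i ∈ range J, gm q (one q) (0 * b + 1 + A + 1 + i) ≤ ∑ i ∈ range J, (1 : ℝ) :=
          Finset.sum_le_sum fun i _ => I.le_one _ _
      _ = J := by simp
  | succ k ih =>
    obtain ⟨m, r, U, hU, hr, hL, hΦ⟩ := ih
    obtain ⟨m', r', U', hU', hr', hL', hΦ'⟩ := I.step hq hc hc1 hb hV hM hU A J
    refine ⟨m', r', U', hU', ?_, ?_, ?_⟩
    · calc r' ≤ r + b := hr'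
        _ ≤ 1 + k * b + b := by omega
        _ = 1 + (k + 1) * b := by ring
    · obtain ⟨x, hx⟩ : ∃ x : ℕ, x = m * b + r + A + J := ⟨_, rfl⟩
      have hxJ : J ≤ x := by omega
      have h1 : m' * b + r' + A + J ≤ (E + 2) * (⌈2 / c⌉₊ * (x + 1) + N₀ + b) + J := by
        rw [hx]
        omega
      have h2 : (E + 2) * (⌈2 / c⌉₊ * (x + 1) + N₀ + b) + J ≤ offC E c * x := by
        have h3 : ⌈2 / c⌉₊ * (x + 1) ≤ ⌈2 / c⌉₊ * (2 * x) := Nat.mul_le_mul_left _ (by omega)
        have h4 : ⌈2 / c⌉₊ * (x + 1) + N₀ + b ≤ (2 * ⌈2 / c⌉₊ + 1) * x := by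
          calc ⌈2 / c⌉₊ * (x + 1) + N₀ + b ≤ ⌈2 / c⌉₊ * (2 * x) + x := by omega
            _ = (2 * ⌈2 / c⌉₊ + 1) * x := by ring
        calc (E + 2) * (⌈2 / c⌉₊ * (x + 1) + N₀ + b) + J
            ≤ (E + 2) * ((2 * ⌈2 / c⌉₊ + 1) * x) + x :=
              Nat.add_le_add (Nat.mul_le_mul_left _ h4) hxJ
          _ = offC E c * x := by rw [offC]; ring
      calc m' * b + r' + A + J ≤ offC E c * x := le_trans h1 h2
        _ ≤ offC E c * (offC E c ^ k * (1 + A + J)) := Nat.mul_le_mul_left _ (by rw [hx]; exact hL)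
        _ = offC E c ^ (k + 1) * (1 + A + J) := by ring
    · refine le_trans hΦ' ?_
      have hE1 : (0 : ℝ) < (E : ℝ) + 1 := by positivity
      have h1 : 0 ≤ 1 - c / (2 * (E + 1)) := by
        rw [sub_nonneg, div_le_one (by positivity)]
        have : (0 : ℝ) ≤ E := by positivity
        linarith
      calc (1 - c / (2 * (E + 1))) * ∑ i ∈ range J, gm q U (m * b + r + A + 1 + i)
          ≤ (1 - c / (2 * (E + 1))) * ((1 - c / (2 * (E + 1))) ^ k * J) :=
            mul_le_mul_of_nonneg_left hΦ h1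
        _ = (1 - c / (2 * (E + 1))) ^ (k + 1) * J := by ring

theorem off_AA {K : ℕ} (f : ℕ → ℕ) (g : Fin K) :
    AA (fun i : Fin K => f i) g = ∑ i ∈ range g, f i := by
  unfold AA
  refine Finset.sum_bij (fun i _ => (i : ℕ)) ?_ ?_ ?_ ?_
  · intro i hi
    rw [mem_filter] at hi
    exact mem_range.mpr hi.2
  · intro i _ j _ hij
    exact Fin.ext hij
  · intro i hi
    rw [mem_range] at hi
    exact ⟨⟨i, lt_trans hi g.2⟩, mem_filter.mpr ⟨mem_univ _, hi⟩, rfl⟩
  · intro i _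
    rfl

theorem groups_of {q : ℕ} (hq : 2 ≤ q) {E : ℕ} {h c : ℝ} {N₀ : ℕ} (I : OffIn q E h c N₀)
    (hc : 0 < c) {K : ℕ} (hK : 1 ≤ K) {ε : ℝ} (hε : 0 < ε) :
    ∃ R : ℕ, 1 ≤ R ∧ ∀ (b M : ℕ) (V : Finset (List ℕ)), 1 ≤ b → Bal q E b V M →
      Real.exp (h * b) ≤ M → ∃ J₀ r₀ : ℕ, ∀ J : ℕ, J₀ ≤ J →
        ∃ (T : Fin K → Finset (List ℕ)) (m r : Fin K → ℕ),
          (∀ g, Mix q b V (m g) (r g) (T g)) ∧
          (∑ g, (m g * b + r g) = R * J) ∧ (∀ g, r g ≤ r₀) ∧
          ∀ g, ∑ i ∈ range J, gm q (T g)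
            ((m g * b + r g) + AA (fun g => m g * b + r g) g + 1 + i) ≤ ε * J := by
  -- wlog c ≤ 1
  obtain ⟨c', hc', hc1, I'⟩ : ∃ c' : ℝ, 0 < c' ∧ c' ≤ 1 ∧ OffIn q E h c' N₀ := by
    refine ⟨min c 1, lt_min hc one_pos, min_le_right _ _, ?_⟩
    exact { ent := fun N hN T hT hcard =>
              le_trans (mul_le_mul_of_nonneg_right (min_le_left _ _) (by positivity))
                (I.ent N hN T hT hcard)
            nonneg := I.nonneg
            le_one := I.le_one
            gcat := I.gcat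
            bal := I.bal
            bcard := I.bcard
            mpw := I.mpw
            gap := I.gap }
  clear I hc
  obtain ⟨k, hk⟩ : ∃ k : ℕ, (1 - c' / (2 * ((E : ℝ) + 1))) ^ k ≤ ε := by
    have hE1 : (0 : ℝ) < (E : ℝ) + 1 := by positivity
    have h0 : 0 ≤ 1 - c' / (2 * ((E : ℝ) + 1)) := by
      rw [sub_nonneg, div_le_one (by positivity)]
      have : (0 : ℝ) ≤ E := by positivity
      linarith
    have h1 : 1 - c' / (2 * ((E : ℝ) + 1)) < 1 := by
      have : 0 < c' / (2 * ((E : ℝ) + 1)) := by positivity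
      linarith
    obtain ⟨k, hk⟩ := exists_pow_lt_of_lt_one hε h1
    exact ⟨k, hk.le⟩
  obtain ⟨D, hD⟩ : ∃ D : ℕ, D = 2 * offC E c' ^ k := ⟨_, rfl⟩
  have hD1 : 1 ≤ D := by
    have : 1 ≤ offC E c' ^ k := Nat.one_le_pow _ _ (by unfold offC; omega)
    omega
  refine ⟨D ^ K, Nat.one_le_pow _ _ hD1, ?_⟩
  intro b M V hb hV hM
  refine ⟨N₀ + b, 1 + k * b + b, ?_⟩
  intro J hJ
  have hJ1 : 1 ≤ J := by omega
  -- one group after `A` letters
  have key : ∀ A : ℕ, ∃ (m r : ℕ) (U : Finset (List ℕ)), Mix q b V m r U ∧ r ≤ 1 + k * b ∧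
      m * b + r + A + J ≤ D * (A + J) ∧
      ∑ i ∈ range J, gm q U (m * b + r + A + 1 + i) ≤ ε * J := by
    intro A
    obtain ⟨m, r, U, hU, hr, hL, hΦ⟩ := I'.iter hq hc' hc1 hb hV hM A J hJ k
    refine ⟨m, r, U, hU, hr, ?_, le_trans hΦ (mul_le_mul_of_nonneg_right hk (by positivity))⟩
    refine le_trans hL ?_
    calc offC E c' ^ k * (1 + A + J) ≤ offC E c' ^ k * (2 * (A + J)) :=
          Nat.mul_le_mul_left _ (by omega)
      _ = D * (A + J) := by rw [hD]; ring
  choose mm rr UU hmix hrr hlen hgm using key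
  -- the positions
  let pos : ℕ → ℕ := fun n => Nat.rec 0 (fun _ a => a + (mm a * b + rr a)) n
  have pos0 : pos 0 = 0 := rfl
  have possucc : ∀ n, pos (n + 1) = pos n + (mm (pos n) * b + rr (pos n)) := fun n => rfl
  have possum : ∀ n, ∑ i ∈ range n, (mm (pos i) * b + rr (pos i)) = pos n := by
    intro n
    induction n with
    | zero => simp [pos0]
    | succ n ih => rw [Finset.sum_range_succ, ih, possucc]
  have posle : ∀ n, pos n + J ≤ D ^ n * J := by
    intro n
    induction n with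
    | zero => simp [pos0]
    | succ n ih =>
      rw [possucc]
      calc pos n + (mm (pos n) * b + rr (pos n)) + J
          = mm (pos n) * b + rr (pos n) + pos n + J := by ring
        _ ≤ D * (pos n + J) := hlen (pos n)
        _ ≤ D * (D ^ n * J) := Nat.mul_le_mul_left _ ih
        _ = D ^ (n + 1) * J := by ring
  -- the final gap
  have hgapL : 1 ≤ D ^ K * J - pos K := by
    have := posle K
    omega
  obtain ⟨mw, rw', W, hW, hWl, hWr⟩ := I'.gap hb V hgapL
  have hWlen : ∀ w ∈ W, w.length = D ^ K * J - pos K := by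
    intro w hw
    rw [← hWl]
    exact I'.length hb hV hW w hw
  let TT : ℕ → Finset (List ℕ) := fun g =>
    if g + 1 = K then cat W (UU (pos g)) else UU (pos g)
  let ms : ℕ → ℕ := fun g => if g + 1 = K then mw + mm (pos g) else mm (pos g)
  let rs : ℕ → ℕ := fun g => if g + 1 = K then rw' + rr (pos g) else rr (pos g)
  have hpre : ∀ g : ℕ, g < K → ∑ i ∈ range g, (ms i * b + rs i) = pos g := by
    intro g hg
    rw [← possum g]
    refine Finset.sum_congr rfl fun i hi => ?_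
    have hi' : ¬ (i + 1 = K) := by
      have := mem_range.mp hi
      omega
    simp only [ms, rs, if_neg hi']
  refine ⟨fun g => TT g, fun g => ms g, fun g => rs g, ?_, ?_, ?_, ?_⟩
  · intro g
    by_cases hg : (g : ℕ) + 1 = K
    · simp only [TT, ms, rs, if_pos hg]
      exact Mix.cat hW (hmix _)
    · simp only [TT, ms, rs, if_neg hg]
      exact hmix _
  · rw [Fin.sum_univ_eq_sum_range (fun g => ms g * b + rs g) K]
    obtain ⟨K', rfl⟩ : ∃ K', K = K' + 1 := ⟨K - 1, by omega⟩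
    rw [Finset.sum_range_succ, hpre K' (by omega)]
    simp only [ms, rs, if_true]
    have h1 := possucc K'
    have h2 := posle (K' + 1)
    have h3 : (mw + mm (pos K')) * b + (rw' + rr (pos K')) =
        (mw * b + rw') + (mm (pos K') * b + rr (pos K')) := by ring
    rw [h3, hWl]
    omega
  · intro g
    by_cases hg : (g : ℕ) + 1 = K
    · simp only [rs, if_pos hg]
      have := hrr (pos g)
      omega
    · simp only [rs, if_neg hg]
      have := hrr (pos g)
      omega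
  · intro g
    have hAA : AA (fun g : Fin K => ms g * b + rs g) g = pos g := by
      rw [off_AA (fun g => ms g * b + rs g) g, hpre g g.2]
    simp only [hAA]
    by_cases hg : (g : ℕ) + 1 = K
    · simp only [TT, ms, rs, if_pos hg]
      refine le_trans (Finset.sum_le_sum fun i _ => ?_) (hgm (pos g))
      have h1 := I'.gcat (V := UU (pos g)) hWlen (mm (pos g) * b + rr (pos g) + pos g + 1 + i)
      have h2 : (mw + mm (pos g)) * b + (rw' + rr (pos g)) + pos g + 1 + i =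
          (D ^ K * J - pos K) + (mm (pos g) * b + rr (pos g) + pos g + 1 + i) := by
        rw [← hWl]
        ring
      rw [h2]
      refine le_trans h1 ?_
      have := mul_le_mul_of_nonneg_right (I'.le_one W
        (D ^ K * J - pos K + (mm (pos g) * b + rr (pos g) + pos g + 1 + i)))
        (I'.nonneg (UU (pos g)) (mm (pos g) * b + rr (pos g) + pos g + 1 + i))
      linarith
    · simp only [TT, ms, rs, if_neg hg]
      exact hgm (pos g)

end Pool.Agent.H422R2.QA
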