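import Pool.Agent.H422R2.QA.QADefs
import Pool.Agent.H320R2.PDWords
import Pool.Agent.H422R2.QA.QAWords
import Pool.Agent.H422R2.QA.QAStepAvg
import Pool.Agent.H422R2.QA.QAAll

/-! Task M (MAIN): the iteration, QUENCHED = ANNEALED from every start. -/

set_option autoImplicit false

namespace Pool.Agent.H422R2.QA
open Finset Pool.Agent.H320R2.PD Pool.Agent.H412R2

theorem not_dvd_one {q : ℕ} (hq : q.Prime) : ¬ (q : ℤ) ∣ (1 : ℤ) := by
  intro h
  have : (q : ℕ) ∣ 1 := by exact_mod_cast h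
  exact hq.one_lt.ne' (Nat.dvd_one.1 this)

open scoped Classical in
/-- the average size of the words is between `1` and `E` -/
theorem Pr_bounds {q E : ℕ} (hq : q.Prime) {g a : ℝ} (h : Pr q E g a) : 1 ≤ a ∧ a ≤ E := by
  have key : ∀ ε : ℝ, 0 < ε → 1 - ε ≤ a ∧ a ≤ E + ε := by
    intro ε hε
    obtain ⟨n₀, hn₀⟩ := h ε hε
    obtain ⟨s, hs, hN⟩ := hn₀ (n₀ + 1) (by omega) 1 (not_dvd_one hq)
    set n := n₀ + 1 with hn
    have hnpos : (0 : ℝ) < n := by rw [hn]; positivity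
    have hpos : 0 < Nq q E n s 1 := by
      have : (0 : ℝ) < (Nq q E n s 1 : ℝ) := lt_of_lt_of_le (Real.exp_pos _) hN
      exact_mod_cast this
    unfold Nq at hpos
    obtain ⟨w, hw⟩ := Finset.card_pos.1 hpos
    rw [Finset.mem_filter] at hw
    obtain ⟨hw1, hw2, -⟩ := hw
    obtain ⟨h1, h2⟩ := sum_le_of_mem hw1
    rw [hw2] at h1 h2
    have h1' : (n : ℝ) ≤ s := by exact_mod_cast h1
    have h2' : (s : ℝ) ≤ n * E := by exact_mod_cast h2
    rw [abs_le] at hs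
    constructor
    · by_contra hc
      push Not at hc
      nlinarith [hs.1, hs.2]
    · by_contra hc
      push Not at hc
      nlinarith [hs.1, hs.2]
  constructor
  · refine le_of_forall_pos_le_add (fun ε hε => ?_)
    linarith [(key ε hε).1]
  · refine le_of_forall_pos_le_add (fun ε hε => ?_)
    exact (key ε hε).2

/-- one step of the iteration -/
theorem step {q : ℕ} (hq : q.Prime) (hq2 : q ≠ 2) (hP : Prim q) {E m C : ℕ}
    (hE : q * (q - 1) ≤ E) (hC : Conn q E m C) {z : ℝ} (hz : 0 < z) {h₀ ε₁ : ℝ}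
    (hh : 0 < h₀) (hε₁ : 0 < ε₁) : ∃ R : ℕ, 1 ≤ R ∧ ∀ g a : ℝ, h₀ ≤ g → 0 ≤ a → a ≤ E →
      Pr q E g a → ∃ g₁ a₁ : ℝ, (R * g + (Gz q z E - ε₁)) / (R + 1) ≤ g₁ ∧
        |a₁ - (R * a + az z E) / (R + 1)| ≤ ε₁ / (R + 1) ∧ Pr q E g₁ a₁ := by
  obtain ⟨R, hR, hstep⟩ := step_avg (q := q) hq hq2 hP (E := E) hE (z := z) hz (h₀ := h₀)
    (ε₁ := ε₁ / 2) hh (by linarith)
  refine ⟨R, hR, fun g a hg ha haE hPr => ?_⟩
  have hR1 : (0 : ℝ) < (R : ℝ) + 1 := by positivity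
  set A : ℝ := (R * g + (Gz q z E - ε₁ / 2)) / (R + 1) with hA
  set B : ℝ := (R * a + az z E) / (R + 1) with hB
  -- how large `n` must be
  obtain ⟨n₁, hn₁⟩ := exists_nat_gt
    (max ((|A| * m) / (ε₁ / (2 * (R + 1)))) ((C + |B| * m) / (ε₁ / (2 * (R + 1)))))
  obtain ⟨n, hnn₁, S, hS, hN, hlog, hsize⟩ := hstep g a hg ha haE hPr (n₁ + 1)
  have hn1 : 1 ≤ n := by omega
  have hnpos : (0 : ℝ) < n := by exact_mod_cast hn1
  have hε2 : 0 < ε₁ / (2 * ((R : ℝ) + 1)) := by positivity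
  have hn₁n : (n₁ : ℝ) ≤ n := by exact_mod_cast (by omega : n₁ ≤ n)
  have hA1 : |A| * m ≤ ε₁ / (2 * (R + 1)) * n := by
    have h1 : (|A| * m) / (ε₁ / (2 * (R + 1))) < n :=
      lt_of_le_of_lt (le_max_left _ _) (lt_of_lt_of_le hn₁ hn₁n)
    rw [div_lt_iff₀ hε2] at h1
    linarith
  have hB1 : C + |B| * m ≤ ε₁ / (2 * (R + 1)) * n := by
    have h1 : (C + |B| * m) / (ε₁ / (2 * (R + 1))) < n :=
      lt_of_le_of_lt (le_max_right _ _) (lt_of_lt_of_le hn₁ hn₁n)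
    rw [div_lt_iff₀ hε2] at h1
    linarith
  have hall := all_of_avg hq hq2 hP hE hC hn1 S hS hN
  refine ⟨_, _, ?_, ?_, hall⟩
  · -- growth
    have hnm : (0 : ℝ) < (n : ℝ) + m := by positivity
    rw [le_div_iff₀ hnm]
    have hlogq : 0 ≤ Real.log (q - 1) := by
      apply Real.log_nonneg
      have : (2 : ℝ) ≤ q := by exact_mod_cast hq.two_le
      linarith
    have hAeq : (R * g + (Gz q z E - ε₁)) / (R + 1) = A - ε₁ / (2 * (R + 1)) := by
      rw [hA]; field_simp; ring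
    rw [hAeq]
    have hAm : A * m ≤ |A| * m := mul_le_mul_of_nonneg_right (le_abs_self A) (by positivity)
    have hm0 : 0 ≤ ε₁ / (2 * ((R : ℝ) + 1)) * m := by positivity
    nlinarith [hlog]
  · -- size
    have hnm : (0 : ℝ) < (n : ℝ) + m := by positivity
    rw [abs_le] at hsize
    have hBm : B * m ≤ |B| * m := mul_le_mul_of_nonneg_right (le_abs_self B) (by positivity)
    have hBm' : -(|B| * m) ≤ B * m := by
      have := mul_le_mul_of_nonneg_right (neg_abs_le B) (by positivity : (0 : ℝ) ≤ (m : ℝ))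
      linarith
    have hm0 : 0 ≤ ε₁ / (2 * ((R : ℝ) + 1)) * m := by positivity
    have hC0 : (0 : ℝ) ≤ C := by positivity
    have he : ε₁ / 2 / ((R : ℝ) + 1) = ε₁ / (2 * (R + 1)) := by field_simp
    have he2 : ε₁ / ((R : ℝ) + 1) = ε₁ / (2 * (R + 1)) + ε₁ / (2 * (R + 1)) := by
      field_simp; ring
    rw [he] at hsize
    have hx : (avU q n (fun x => (S x : ℝ)) + C) / (n + m) - B =
        (avU q n (fun x => (S x : ℝ)) + C - B * (n + m)) / (n + m) := by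
      field_simp
    rw [hx, abs_le, he2]
    constructor
    · rw [le_div_iff₀ hnm]
      nlinarith [hsize.1]
    · rw [div_le_iff₀ hnm]
      nlinarith [hsize.2]

open scoped Classical in
/-- growth from every start, first bound -/
theorem base {q : ℕ} (hq : q.Prime) (hq2 : q ≠ 2) (hP : Prim q) {E m C : ℕ}
    (hE : q * (q - 1) ≤ E) (hC : Conn q E m C) : ∃ g a : ℝ, 0 < g ∧ Pr q E g a := by
  have hq0 : 0 < q := hq.pos
  have h3 : 3 ≤ q := by
    have := hq.two_le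
    omega
  let f : ℤ → ℕ := fun x =>
    if h : ∃ e ∈ Finset.Icc 1 (q * (q - 1)), Lv q [e] x then h.choose else 0
  have hf : ∀ x : ℤ, ¬ (q : ℤ) ∣ x → f x ∈ Finset.Icc 1 (q * (q - 1)) ∧ Lv q [f x] x := by
    intro x hx
    have h : ∃ e ∈ Finset.Icc 1 (q * (q - 1)), Lv q [e] x := by
      obtain ⟨e, he, hL, -⟩ := Prim.exists_letter hP hq hq2 hx (not_dvd_one hq)
      exact ⟨e, he, hL⟩
    have : f x = h.choose := by simp only [f, dif_pos h]
    rw [this]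
    exact h.choose_spec
  let S : ℤ → ℕ := fun x => f (x % (q : ℤ) ^ 2)
  have hdvd : ∀ x : ℤ, ¬ (q : ℤ) ∣ x → ¬ (q : ℤ) ∣ x % (q : ℤ) ^ 2 := by
    intro x hx h
    apply hx
    have h2 : (q : ℤ) ∣ (q : ℤ) ^ 2 * (x / (q : ℤ) ^ 2) := Dvd.dvd.mul_right (dvd_pow_self _ (by norm_num)) _
    have h3 := Int.emod_add_mul_ediv x ((q : ℤ) ^ 2)
    rw [← h3]
    exact dvd_add h h2
  have hS : ∀ x y : ℤ, ¬ (q : ℤ) ∣ x → S (x + (q : ℤ) ^ (1 + 1) * y) = S x := by
    intro x y _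
    simp only [S]
    congr 1
    rw [Int.add_mul_emod_self_left]
  have hSL : ∀ x : ℤ, ¬ (q : ℤ) ∣ x → Lv q [S x] x := by
    intro x hx
    have h1 := (hf _ (hdvd x hx)).2
    have h3 := Int.emod_add_mul_ediv x ((q : ℤ) ^ 2)
    have h4 := Lv_shift hq0 [S x] (x % (q : ℤ) ^ 2) (x / (q : ℤ) ^ 2)
    simp only [List.length_singleton] at h4
    rw [show (1 + 1 : ℕ) = 2 from rfl, h3] at h4
    exact h4.2 h1
  have hSE : ∀ x : ℤ, ¬ (q : ℤ) ∣ x → 1 ≤ S x ∧ S x ≤ E := by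
    intro x hx
    have h1 := (hf _ (hdvd x hx)).1
    rw [Finset.mem_Icc] at h1
    exact ⟨h1.1, h1.2.trans hE⟩
  have hN : ∀ x : ℤ, ¬ (q : ℤ) ∣ x → 1 ≤ Nq q E 1 (S x) x := by
    intro x hx
    unfold Nq
    apply Finset.card_pos.2
    refine ⟨[S x], ?_⟩
    rw [Finset.mem_filter, mem_FW]
    refine ⟨⟨rfl, ?_⟩, by simp, hSL x hx⟩
    intro e he
    rw [List.mem_singleton] at he
    rw [he]
    exact hSE x hx
  have hall := all_of_avg hq hq2 hP hE hC (le_refl 1) S hS hN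
  refine ⟨_, _, ?_, hall⟩
  have hlogq : 0 < Real.log (q - 1) := by
    apply Real.log_pos
    have : (3 : ℝ) ≤ q := by exact_mod_cast h3
    linarith
  have hav : 0 ≤ avU q 1 (fun x => Real.log (Nq q E 1 (S x) x)) := by
    unfold avU
    apply div_nonneg
    · apply Finset.sum_nonneg
      intro x _
      exact Real.log_natCast_nonneg _
    · have : (3 : ℝ) ≤ q := by exact_mod_cast h3
      have h1 : (0 : ℝ) ≤ (q : ℝ) - 1 := by linarith
      positivity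
  apply div_pos
  · linarith
  · positivity

/-- iterating `step` -/
theorem iterate {q : ℕ} (hq : q.Prime) (hq2 : q ≠ 2) (hP : Prim q) {E m C : ℕ}
    (hE : q * (q - 1) ≤ E) (hC : Conn q E m C) {z : ℝ} (hz : 0 < z) {ε₁ : ℝ}
    (hε₁ : 0 < ε₁) (hG : ε₁ < Gz q z E) :
    ∃ g a : ℝ, Gz q z E - 2 * ε₁ ≤ g ∧ |a - az z E| ≤ 2 * ε₁ ∧ Pr q E g a := by
  obtain ⟨g₀, a₀, hg₀, hPr₀⟩ := base hq hq2 hP hE hC
  set G' := Gz q z E - ε₁ with hG'
  have hG'pos : 0 < G' := by rw [hG']; linarith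
  set h₀ := min g₀ G' with hh₀
  have hh : 0 < h₀ := lt_min hg₀ hG'pos
  obtain ⟨R, hR, hstep⟩ := step hq hq2 hP hE hC hz (h₀ := h₀) (ε₁ := ε₁) hh hε₁
  have hR1 : (0 : ℝ) < (R : ℝ) + 1 := by positivity
  set ρ : ℝ := R / (R + 1) with hρ
  have hρ0 : 0 ≤ ρ := by positivity
  have hρ1 : ρ < 1 := by rw [hρ, div_lt_one hR1]; linarith
  set D : ℝ := max (G' - g₀) 0 with hD
  have hD0 : 0 ≤ D := le_max_right _ _
  set e₀ : ℝ := |a₀ - az z E| with he₀
  have he₀0 : 0 ≤ e₀ := abs_nonneg _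
  have hiter : ∀ k : ℕ, ∃ g a : ℝ, Pr q E g a ∧ h₀ ≤ g ∧ G' - g ≤ ρ ^ k * D ∧
      |a - az z E| ≤ ε₁ + ρ ^ k * e₀ := by
    intro k
    induction k with
    | zero =>
      refine ⟨g₀, a₀, hPr₀, min_le_left _ _, ?_, ?_⟩
      · rw [pow_zero, one_mul]; exact le_max_left _ _
      · rw [pow_zero, one_mul]; linarith
    | succ k ih =>
      obtain ⟨g, a, hPr, hg, hgD, hae⟩ := ih
      obtain ⟨ha1, haE⟩ := Pr_bounds hq hPr
      obtain ⟨g₁, a₁, hg₁, ha₁, hPr₁⟩ := hstep g a hg (by linarith) haE hPr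
      have hkey : (R * g + (Gz q z E - ε₁)) / (R + 1) = ρ * g + (1 - ρ) * G' := by
        rw [hρ, hG']; field_simp; ring
      rw [hkey] at hg₁
      refine ⟨g₁, a₁, hPr₁, ?_, ?_, ?_⟩
      · have h1 : h₀ ≤ G' := min_le_right _ _
        nlinarith
      · rw [pow_succ]
        nlinarith
      · have hB : (R * a + az z E) / (R + 1) - az z E = ρ * (a - az z E) := by
          rw [hρ]; field_simp; ring
        have hε : ε₁ / ((R : ℝ) + 1) = (1 - ρ) * ε₁ := by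
          rw [hρ]; field_simp; ring
        rw [hε] at ha₁
        calc |a₁ - az z E| ≤ |a₁ - (R * a + az z E) / (R + 1)| +
              |(R * a + az z E) / (R + 1) - az z E| := abs_sub_le _ _ _
          _ ≤ (1 - ρ) * ε₁ + ρ * |a - az z E| := by
              rw [hB, abs_mul, abs_of_nonneg hρ0]; linarith
          _ ≤ (1 - ρ) * ε₁ + ρ * (ε₁ + ρ ^ k * e₀) := by
              have := mul_le_mul_of_nonneg_left hae hρ0
              linarith
          _ = ε₁ + ρ ^ (k + 1) * e₀ := by rw [pow_succ]; ring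
  obtain ⟨k, hk⟩ := exists_pow_lt_of_lt_one
    (show (0 : ℝ) < ε₁ / (D + e₀ + 1) by positivity) hρ1
  obtain ⟨g, a, hPr, -, hgD, hae⟩ := hiter k
  have hpk : 0 ≤ ρ ^ k := pow_nonneg hρ0 k
  rw [lt_div_iff₀ (by positivity)] at hk
  refine ⟨g, a, ?_, ?_, hPr⟩
  · have : ρ ^ k * D ≤ ε₁ := by nlinarith
    rw [hG'] at hgD
    linarith
  · have : ρ ^ k * e₀ ≤ ε₁ := by nlinarith
    linarith

/-- QUENCHED = ANNEALED from every start -/
theorem main {q : ℕ} (hq : q.Prime) (hq2 : q ≠ 2) (hP : Prim q) {E m C : ℕ}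
    (hE : q * (q - 1) ≤ E) (hC : Conn q E m C) {z : ℝ} (hz : 0 < z) (hG : 0 < Gz q z E) :
    Pr q E (Gz q z E) (az z E) := by
  intro ε hε
  obtain ⟨g, a, hg, ha, hPr⟩ := iterate hq hq2 hP hE hC hz
    (ε₁ := min (ε / 4) (Gz q z E / 2)) (by positivity)
    (lt_of_le_of_lt (min_le_right _ _) (by linarith))
  have h1 : min (ε / 4) (Gz q z E / 2) ≤ ε / 4 := min_le_left _ _
  obtain ⟨n₀, hn₀⟩ := hPr (ε / 2) (by linarith)
  refine ⟨n₀, fun n hn x hx => ?_⟩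
  obtain ⟨s, hs, hN⟩ := hn₀ n hn x hx
  have hn0 : (0 : ℝ) ≤ n := by positivity
  refine ⟨s, ?_, ?_⟩
  · calc |(s : ℝ) - az z E * n| ≤ |(s : ℝ) - a * n| + |a * n - az z E * n| := abs_sub_le _ _ _
      _ ≤ ε / 2 * n + (2 * min (ε / 4) (Gz q z E / 2)) * n := by
          rw [← sub_mul, abs_mul, abs_of_nonneg hn0]
          have := mul_le_mul_of_nonneg_right ha hn0
          linarith
      _ ≤ ε * n := by nlinarith
  · refine le_trans (Real.exp_le_exp.2 ?_) hN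
    apply mul_le_mul_of_nonneg_right _ hn0
    linarith

end Pool.Agent.H422R2.QA
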