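import Pool.Agent.H422R2.QA.QADefs
import Pool.Agent.H422R2.QA.QAMain
import Pool.Agent.H422R2.QA.QAApp
import Pool.Agent.H422R2.QA.QAKer

set_option autoImplicit false

namespace Pool.Agent.H422R2.QA
open Finset Pool.Agent.H320R2.PD

namespace App
open Filter Topology

theorem sum_Icc_one (f : ℕ → ℝ) (E : ℕ) :
    ∑ e ∈ Finset.Icc 1 E, f e = (∑ e ∈ Finset.range (E + 1), f e) - f 0 := by
  rw [Finset.sum_range_succ', add_sub_cancel_right]
  rw [Finset.range_eq_Ico, Finset.sum_Ico_add' f 0 E 1]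
  rfl

theorem Az_tendsto {z : ℝ} (hz : 0 < z) (hz1 : z < 1) :
    Tendsto (fun E : ℕ => Az z E) atTop (𝓝 (z / (1 - z))) := by
  have h := (hasSum_geometric_of_lt_one hz.le hz1).tendsto_sum_nat
  have h1 := (h.comp (tendsto_add_atTop_nat 1)).sub_const 1
  have e : (1 - z)⁻¹ - 1 = z / (1 - z) := by
    have : (1 - z) ≠ 0 := by linarith
    field_simp
    ring
  rw [e] at h1
  refine h1.congr fun E => ?_
  simp only [Function.comp, Az]
  rw [sum_Icc_one, pow_zero]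

theorem eAz_tendsto {z : ℝ} (hz : 0 < z) (hz1 : z < 1) :
    Tendsto (fun E : ℕ => ∑ e ∈ Finset.Icc 1 E, (e : ℝ) * z ^ e) atTop (𝓝 (z / (1 - z) ^ 2)) := by
  have hn : ‖z‖ < 1 := by rw [Real.norm_eq_abs, abs_of_pos hz]; exact hz1
  have h := (hasSum_coe_mul_geometric_of_norm_lt_one hn).tendsto_sum_nat
  have h1 := (h.comp (tendsto_add_atTop_nat 1))
  refine h1.congr fun E => ?_
  simp only [Function.comp]
  rw [sum_Icc_one]
  simp

theorem az_tendsto {z : ℝ} (hz : 0 < z) (hz1 : z < 1) :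
    Tendsto (fun E : ℕ => az z E) atTop (𝓝 (1 / (1 - z))) := by
  have h1z : (1 - z) ≠ 0 := by linarith
  have hne : z / (1 - z) ≠ 0 := div_ne_zero hz.ne' h1z
  have h := (eAz_tendsto hz hz1).div (Az_tendsto hz hz1) hne
  have e : z / (1 - z) ^ 2 / (z / (1 - z)) = 1 / (1 - z) := by
    field_simp
  rw [e] at h
  refine h.congr fun E => ?_
  simp only [az, uz, Pi.div_apply]
  rw [Finset.sum_div]
  apply Finset.sum_congr rfl
  intro e _
  ring

theorem Gz_tendsto (q : ℕ) {z : ℝ} (hz : 0 < z) (hz1 : z < 1) :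
    Tendsto (fun E : ℕ => Gz q z E) atTop
      (𝓝 (Real.log (z / (1 - z)) - 1 / (1 - z) * Real.log z - Real.log q)) := by
  have hne : z / (1 - z) ≠ 0 := div_ne_zero hz.ne' (by linarith)
  have h1 := (Az_tendsto hz hz1).log hne
  have h2 := (az_tendsto hz hz1).mul_const (Real.log z)
  exact (h1.sub h2).sub_const _

theorem conn_exists {q : ℕ} (hq : q = 3 ∨ q = 5) : q.Prime ∧ q ≠ 2 ∧ Prim q ∧
    ∃ E₀ m C : ℕ, q * (q - 1) ≤ E₀ ∧ ∀ E : ℕ, E₀ ≤ E → Conn q E m C := by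
  rcases hq with rfl | rfl
  · exact ⟨by norm_num, by norm_num, prim_three, 16, 3, 16, by norm_num, fun E hE => conn_three hE⟩
  · exact ⟨by norm_num, by norm_num, prim_five, 54, 3, 54, by norm_num, fun E hE => conn_five hE⟩

/-- annealed growth rate of words with mean letter `a` -/
noncomputable def Ga (q : ℕ) (a : ℝ) : ℝ :=
  a * Real.log a - (a - 1) * Real.log (a - 1) - Real.log q

/-- QUENCHED = ANNEALED in the limit of large caps, in terms of the mean letter `a` -/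
theorem quenched {q : ℕ} (hq : q = 3 ∨ q = 5) {a : ℝ} (ha : 1 < a) (hG : 0 < Ga q a) {ε : ℝ}
    (hε : 0 < ε) : ∃ E n₀ : ℕ, ∀ n : ℕ, n₀ ≤ n → ∀ x : ℤ, ¬ (q : ℤ) ∣ x →
      ∃ s : ℕ, |(s : ℝ) - a * n| ≤ ε * n ∧ Real.exp ((Ga q a - ε) * n) ≤ (Nq q E n s x : ℝ) := by
  obtain ⟨hqp, hq2, hP, E₀, m, C, hE0, hC⟩ := conn_exists hq
  set z : ℝ := (a - 1) / a with hz
  have ha0 : 0 < a := by linarith
  have hz0 : 0 < z := div_pos (by linarith) ha0
  have hz1 : z < 1 := by rw [hz, div_lt_one ha0]; linarith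
  have h1z : 1 - z = 1 / a := by rw [hz]; field_simp; ring
  have hG' : Real.log (z / (1 - z)) - 1 / (1 - z) * Real.log z - Real.log q = Ga q a := by
    rw [h1z, hz, Real.log_div (by linarith) ha0.ne']
    have : (a - 1) / a / (1 / a) = a - 1 := by field_simp
    rw [this, Ga]
    field_simp
    ring
  have ha' : 1 / (1 - z) = a := by rw [h1z]; field_simp
  have t1 := az_tendsto hz0 hz1
  have t2 := Gz_tendsto q hz0 hz1
  rw [ha'] at t1
  rw [hG'] at t2
  have e1 : ∀ᶠ E : ℕ in atTop, |az z E - a| < ε / 2 := by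
    have := (Metric.tendsto_nhds.1 t1) (ε / 2) (by positivity)
    simpa [Real.dist_eq] using this
  have e2 : ∀ᶠ E : ℕ in atTop, |Gz q z E - Ga q a| < min (ε / 2) (Ga q a) := by
    have := (Metric.tendsto_nhds.1 t2) (min (ε / 2) (Ga q a)) (lt_min (by positivity) hG)
    simpa only [Real.dist_eq] using this
  obtain ⟨E, h1, h2, hE⟩ := (e1.and (e2.and (eventually_ge_atTop E₀))).exists
  have hGE : 0 < Gz q z E := by
    have := lt_of_lt_of_le h2 (min_le_right _ _)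
    rw [abs_lt] at this
    linarith
  have h2' := lt_of_lt_of_le h2 (min_le_left _ _)
  rw [abs_lt] at h1 h2'
  obtain ⟨n₀, hn⟩ := main hqp hq2 hP (hE0.trans hE) (hC E hE) hz0 hGE (ε / 2) (by positivity)
  refine ⟨E, n₀, fun n hnn x hx => ?_⟩
  obtain ⟨s, hs, hN⟩ := hn n hnn x hx
  have hn0 : (0 : ℝ) ≤ n := Nat.cast_nonneg n
  refine ⟨s, ?_, le_trans (Real.exp_le_exp.2 ?_) hN⟩
  · calc |(s : ℝ) - a * n| = |((s : ℝ) - az z E * n) + (az z E - a) * n| := by congr 1; ring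
      _ ≤ |(s : ℝ) - az z E * n| + |(az z E - a) * n| := abs_add_le _ _
      _ ≤ ε / 2 * n + ε / 2 * n := by
          rw [abs_mul, abs_of_nonneg hn0]
          apply add_le_add hs
          apply mul_le_mul_of_nonneg_right _ hn0
          rw [abs_le]; constructor <;> linarith
      _ = ε * n := by ring
  · apply mul_le_mul_of_nonneg_right _ hn0
    linarith


theorem exists_aper {q : ℕ} {r : ℤ} (hr0 : r ≠ 0) :
    ∃ j : ℕ, ∀ k : ℕ, 0 < k → (TZ q)^[k] (2 ^ j * r) ≠ 2 ^ j * r := by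
  by_contra hcon
  push Not at hcon
  obtain ⟨k0, hk0, h0⟩ := hcon 0
  rw [pow_zero, one_mul] at h0
  have hfin : (Set.range fun i : ℕ => (TZ q)^[i] r).Finite := by
    apply Set.Finite.subset ((Finset.range k0).image fun i : ℕ => (TZ q)^[i] r).finite_toSet
    rintro _ ⟨i, rfl⟩
    simp only [coe_image, Set.mem_image, mem_coe, mem_range]
    refine ⟨i % k0, Nat.mod_lt _ hk0, ?_⟩
    exact Function.IsPeriodicPt.iterate_mod_apply (f := TZ q) (x := r) (n := k0) h0 i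
  have hinj : Function.Injective fun j : ℕ => (2 : ℤ) ^ j * r := by
    intro i j h
    have h1 : (2 : ℤ) ^ i = 2 ^ j := mul_right_cancel₀ hr0 h
    have h2 : (2 : ℕ) ^ i = 2 ^ j := by exact_mod_cast h1
    exact Nat.pow_right_injective (le_refl 2) h2
  have hinf := Set.infinite_range_of_injective hinj
  apply hinf
  apply hfin.subset
  rintro _ ⟨j, rfl⟩
  obtain ⟨k, hk, h⟩ := hcon j
  refine ⟨k * (j + 1) - j, ?_⟩
  have hp : Function.IsPeriodicPt (TZ q) (k * (j + 1)) (2 ^ j * r) :=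
    Function.IsPeriodicPt.mul_const h (j + 1)
  have hle : j ≤ k * (j + 1) := by nlinarith
  have : (TZ q)^[k * (j + 1)] (2 ^ j * r) = (TZ q)^[k * (j + 1) - j] r := by
    conv_lhs => rw [show k * (j + 1) = (k * (j + 1) - j) + j by omega]
    rw [Function.iterate_add_apply, TZ_two_pow]
  simp only
  rw [← this]
  exact hp

/-- the successive endpoints along a word -/
def pts (q : ℕ) : List ℕ → ℤ → List ℤ
  | [], _ => []
  | e :: w, x => Ep q [e] x :: pts q w (Ep q [e] x)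

theorem pts_length (q : ℕ) (w : List ℕ) (x : ℤ) : (pts q w x).length = w.length := by
  induction w generalizing x with
  | nil => rfl
  | cons e w ih => simp [pts, ih]

theorem iter_letter {q : ℕ} (hq : q.Prime) (hq2 : q ≠ 2) {e : ℕ} (he : 1 ≤ e) {x : ℤ}
    (h : Vd q [e] x) : (TZ q)^[e] (Ep q [e] x) = x := by
  have := iter_Ep hq hq2 [e] (by simpa using he) x h
  simpa using this

theorem pts_orbit {q : ℕ} (hq : q.Prime) (hq2 : q ≠ 2) (w : List ℕ) (hw : ∀ e ∈ w, 1 ≤ e) (x : ℤ)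
    (h : Vd q w x) : ∀ y ∈ pts q w x, ∃ k, 1 ≤ k ∧ (TZ q)^[k] y = x := by
  induction w generalizing x with
  | nil => intro y hy; simp [pts] at hy
  | cons e w ih =>
    rw [Vd_cons hq hq2] at h
    have he : 1 ≤ e := hw e List.mem_cons_self
    have h1 := iter_letter hq hq2 he h.1
    intro y hy
    simp only [pts, List.mem_cons] at hy
    rcases hy with rfl | hy
    · exact ⟨e, he, h1⟩
    · obtain ⟨k, hk, hky⟩ := ih (fun a ha => hw a (List.mem_cons_of_mem _ ha)) _ h.2 y hy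
      exact ⟨e + k, by omega, by rw [Function.iterate_add_apply, hky, h1]⟩

theorem pts_nodup {q : ℕ} (hq : q.Prime) (hq2 : q ≠ 2) (w : List ℕ) (hw : ∀ e ∈ w, 1 ≤ e) (x : ℤ)
    (h : Vd q w x) (hap : ∀ k : ℕ, 0 < k → (TZ q)^[k] x ≠ x) : (pts q w x).Nodup := by
  induction w generalizing x with
  | nil => simp [pts]
  | cons e w ih =>
    rw [Vd_cons hq hq2] at h
    have he : 1 ≤ e := hw e List.mem_cons_self
    have h1 := iter_letter hq hq2 he h.1
    have hap' : ∀ k : ℕ, 0 < k → (TZ q)^[k] (Ep q [e] x) ≠ Ep q [e] x := by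
      intro k hk hcon
      apply hap k hk
      calc (TZ q)^[k] x = (TZ q)^[k] ((TZ q)^[e] (Ep q [e] x)) := by rw [h1]
        _ = (TZ q)^[e] ((TZ q)^[k] (Ep q [e] x)) := by
            rw [← Function.iterate_add_apply, ← Function.iterate_add_apply, add_comm]
        _ = x := by rw [hcon, h1]
    simp only [pts, List.nodup_cons]
    refine ⟨?_, ih (fun a ha => hw a (List.mem_cons_of_mem _ ha)) _ h.2 hap'⟩
    intro hmem
    obtain ⟨k, hk, hky⟩ := pts_orbit hq hq2 w (fun a ha => hw a (List.mem_cons_of_mem _ ha)) _ h.2 _ hmem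
    exact hap' k hk hky

/-- sign of the endpoints -/
theorem Ep_sign {q : ℕ} (hq : q.Prime) (hq2 : q ≠ 2) {e : ℕ} (he : 1 ≤ e) {x : ℤ} (hx : x ≠ 0)
    (h : Vd q [e] x) : 0 < Ep q [e] x * x := by
  have h1 := Ep_single h
  have hq0 : (0 : ℤ) < q := by exact_mod_cast hq.pos
  have h2 : (2 : ℤ) ≤ 2 ^ e := by
    calc (2 : ℤ) = 2 ^ 1 := by norm_num
      _ ≤ 2 ^ e := pow_le_pow_right₀ (by norm_num) he
  rcases lt_or_gt_of_ne hx with h0 | h0
  · have h3 : (2 : ℤ) ^ e * x ≤ -2 := by nlinarith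
    have : Ep q [e] x < 0 := by
      by_contra hcon
      push Not at hcon
      nlinarith
    nlinarith
  · have h3 : 2 ≤ (2 : ℤ) ^ e * x := by nlinarith
    have : 0 < Ep q [e] x := by
      by_contra hcon
      push Not at hcon
      nlinarith
    nlinarith

theorem pts_sign {q : ℕ} (hq : q.Prime) (hq2 : q ≠ 2) (w : List ℕ) (hw : ∀ e ∈ w, 1 ≤ e) (x : ℤ)
    (hx : x ≠ 0) (h : Vd q w x) : (∀ y ∈ pts q w x, 0 < y * x) ∧ 0 < Ep q w x * x := by
  induction w generalizing x with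
  | nil =>
    refine ⟨fun y hy => by simp [pts] at hy, ?_⟩
    simp [Ep, Wq]
    positivity
  | cons e w ih =>
    rw [Vd_cons hq hq2] at h
    have he : 1 ≤ e := hw e List.mem_cons_self
    have h1 := Ep_sign hq hq2 he hx h.1
    have hy0 : Ep q [e] x ≠ 0 := by
      intro h0; rw [h0] at h1; simp at h1
    obtain ⟨h2, h3⟩ := ih (fun a ha => hw a (List.mem_cons_of_mem _ ha)) _ hy0 h.2
    have key : ∀ y : ℤ, 0 < y * Ep q [e] x → 0 < y * x := by
      intro y hy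
      rcases lt_or_gt_of_ne hy0 with h0 | h0
      · have : y < 0 := by
          by_contra hcon; push Not at hcon; nlinarith
        have : x < 0 := by
          by_contra hcon; push Not at hcon; nlinarith
        nlinarith
      · have : 0 < y := by
          by_contra hcon; push Not at hcon; nlinarith
        have : 0 < x := by
          by_contra hcon; push Not at hcon; nlinarith
        nlinarith
    constructor
    · intro y hy
      simp only [pts, List.mem_cons] at hy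
      rcases hy with rfl | hy
      · exact h1
      · exact key y (h2 y hy)
    · rw [Ep_cons hq hq2 h.1]
      exact key _ h3

/-- size of the endpoint, up to the product of the correction factors -/
theorem Ep_size {q : ℕ} (hq : q.Prime) (hq2 : q ≠ 2) (w : List ℕ) (hw : ∀ e ∈ w, 1 ≤ e) (x : ℤ)
    (hx : x ≠ 0) (h : Vd q w x) :
    (2 : ℝ) ^ w.sum * |(x : ℝ)| ≤ (q : ℝ) ^ w.length * |(Ep q w x : ℝ)| *
        ((pts q w x).map fun y : ℤ => 1 + 1 / |(y : ℝ)|).prod ∧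
      (q : ℝ) ^ w.length * |(Ep q w x : ℝ)| ≤ (2 : ℝ) ^ w.sum * |(x : ℝ)| *
        ((pts q w x).map fun y : ℤ => 1 + 1 / |(y : ℝ)|).prod := by
  induction w generalizing x with
  | nil => simp [Ep, Wq, pts]
  | cons e w ih =>
    rw [Vd_cons hq hq2] at h
    have he : 1 ≤ e := hw e List.mem_cons_self
    have h1 := Ep_sign hq hq2 he hx h.1
    have hs := Ep_single h.1
    have hy0 : Ep q [e] x ≠ 0 := by
      intro h0; rw [h0] at h1; simp at h1
    obtain ⟨h2, h3⟩ := ih (fun a ha => hw a (List.mem_cons_of_mem _ ha)) _ hy0 h.2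
    rw [Ep_cons hq hq2 h.1]
    simp only [pts, List.map_cons, List.prod_cons, List.sum_cons, List.length_cons]
    set y := Ep q [e] x with hy
    set P := ((pts q w y).map fun y : ℤ => 1 + 1 / |(y : ℝ)|).prod with hP
    have hP0 : 0 ≤ P := by
      apply List.prod_nonneg
      intro t ht
      rw [List.mem_map] at ht
      obtain ⟨u, -, rfl⟩ := ht
      positivity
    have hs' : (q : ℝ) * y + 1 = 2 ^ e * x := by exact_mod_cast hs
    have hyR : (1 : ℝ) ≤ |(y : ℝ)| := by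
      have : 1 ≤ |y| := Int.one_le_abs hy0
      exact_mod_cast this
    have hq1 : (2 : ℝ) ≤ q := by exact_mod_cast hq.two_le
    have hA : (2 : ℝ) ^ e * |(x : ℝ)| ≤ q * |(y : ℝ)| * (1 + 1 / |(y : ℝ)|) := by
      have : (2 : ℝ) ^ e * |(x : ℝ)| = |(q : ℝ) * y + 1| := by
        rw [hs', abs_mul, abs_of_pos (by positivity : (0 : ℝ) < 2 ^ e)]
      rw [this]
      calc |(q : ℝ) * y + 1| ≤ |(q : ℝ) * y| + |(1 : ℝ)| := abs_add_le _ _
        _ = q * |(y : ℝ)| + 1 := by rw [abs_mul, abs_of_pos (by linarith : (0 : ℝ) < q), abs_one]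
        _ ≤ q * |(y : ℝ)| * (1 + 1 / |(y : ℝ)|) := by
            have : (q : ℝ) * |(y : ℝ)| * (1 + 1 / |(y : ℝ)|) = q * |(y : ℝ)| + q := by
              field_simp
            rw [this]; linarith
    have hB : (q : ℝ) * |(y : ℝ)| ≤ 2 ^ e * |(x : ℝ)| * (1 + 1 / |(y : ℝ)|) := by
      have e1 : (2 : ℝ) ^ e * |(x : ℝ)| = |(q : ℝ) * y + 1| := by
        rw [hs', abs_mul, abs_of_pos (by positivity : (0 : ℝ) < 2 ^ e)]
      rw [e1]
      have e2 : (q : ℝ) * |(y : ℝ)| - 1 ≤ |(q : ℝ) * y + 1| := by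
        have h5 : (q : ℝ) * |(y : ℝ)| = |((q : ℝ) * y + 1) + (-1)| := by
          rw [add_neg_cancel_right, abs_mul, abs_of_pos (by linarith : (0 : ℝ) < q)]
        have h6 := abs_add_le ((q : ℝ) * y + 1) (-1)
        rw [← h5, abs_neg, abs_one] at h6
        linarith
      have e3 : ((q : ℝ) * |(y : ℝ)| - 1) * (1 + 1 / |(y : ℝ)|) ≤ |(q : ℝ) * y + 1| * (1 + 1 / |(y : ℝ)|) := by
        apply mul_le_mul_of_nonneg_right e2; positivity
      refine le_trans ?_ e3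
      have h7 : ((q : ℝ) * |(y : ℝ)| - 1) * (1 + 1 / |(y : ℝ)|) = q * |(y : ℝ)| + (q - 1 - 1 / |(y : ℝ)|) := by
        field_simp
        ring
      rw [h7]
      have h8 : 1 / |(y : ℝ)| ≤ 1 := by
        rw [div_le_one (by linarith)]; exact hyR
      linarith
    constructor
    · calc (2 : ℝ) ^ (e + w.sum) * |(x : ℝ)| = 2 ^ w.sum * (2 ^ e * |(x : ℝ)|) := by rw [pow_add]; ring
        _ ≤ 2 ^ w.sum * (q * |(y : ℝ)| * (1 + 1 / |(y : ℝ)|)) := by gcongr
        _ = (q * (1 + 1 / |(y : ℝ)|)) * (2 ^ w.sum * |(y : ℝ)|) := by ring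
        _ ≤ (q * (1 + 1 / |(y : ℝ)|)) * (q ^ w.length * |(Ep q w y : ℝ)| * P) := by
            gcongr
        _ = q ^ (w.length + 1) * |(Ep q w y : ℝ)| * ((1 + 1 / |(y : ℝ)|) * P) := by rw [pow_succ]; ring
    · calc (q : ℝ) ^ (w.length + 1) * |(Ep q w y : ℝ)| = q * (q ^ w.length * |(Ep q w y : ℝ)|) := by
            rw [pow_succ]; ring
        _ ≤ q * (2 ^ w.sum * |(y : ℝ)| * P) := by gcongr
        _ = (2 ^ w.sum * P) * (q * |(y : ℝ)|) := by ring
        _ ≤ (2 ^ w.sum * P) * (2 ^ e * |(x : ℝ)| * (1 + 1 / |(y : ℝ)|)) := by gcongr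
        _ = 2 ^ (e + w.sum) * |(x : ℝ)| * ((1 + 1 / |(y : ℝ)|) * P) := by rw [pow_add]; ring

theorem prod_distinct (S : Finset ℕ) (hS : ∀ k ∈ S, 1 ≤ k) :
    ∏ k ∈ S, (1 + 1 / (k : ℝ)) ≤ S.card + 1 := by
  induction hn : S.card generalizing S with
  | zero =>
    rw [Finset.card_eq_zero] at hn
    simp [hn]
  | succ n ih =>
    have hne : S.Nonempty := by rw [← Finset.card_pos]; omega
    set M := S.max' hne
    have hM : M ∈ S := S.max'_mem hne
    have hcard : (S.erase M).card = n := by rw [Finset.card_erase_of_mem hM]; omega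
    have h1 := ih (S.erase M) (fun k hk => hS k (Finset.mem_of_mem_erase hk)) hcard
    have hMn : n + 1 ≤ M := by
      have hsub : S ⊆ Finset.Icc 1 M := fun k hk =>
        Finset.mem_Icc.2 ⟨hS k hk, S.le_max' k hk⟩
      have := Finset.card_le_card hsub
      rw [Nat.card_Icc] at this
      omega
    rw [← Finset.mul_prod_erase S _ hM]
    have hM1 : (0 : ℝ) < M := by exact_mod_cast (hS M hM)
    have h2 : 1 + 1 / (M : ℝ) ≤ 1 + 1 / ((n : ℝ) + 1) := by
      have : (n : ℝ) + 1 ≤ M := by exact_mod_cast hMn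
      gcongr
    calc (1 + 1 / (M : ℝ)) * ∏ x ∈ S.erase M, (1 + 1 / (x : ℝ)) ≤ (1 + 1 / ((n : ℝ) + 1)) * (n + 1) := by
          apply mul_le_mul h2 h1 (Finset.prod_nonneg fun k _ => by positivity) (by positivity)
      _ = ((n + 1 : ℕ) : ℝ) + 1 := by push_cast; field_simp

theorem prod_pts_le {q : ℕ} (hq : q.Prime) (hq2 : q ≠ 2) (w : List ℕ) (hw : ∀ e ∈ w, 1 ≤ e) (x : ℤ)
    (hx : x ≠ 0) (h : Vd q w x) (hap : ∀ k : ℕ, 0 < k → (TZ q)^[k] x ≠ x) :
    ((pts q w x).map fun y : ℤ => 1 + 1 / |(y : ℝ)|).prod ≤ w.length + 1 := by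
  classical
  have hnd := pts_nodup hq hq2 w hw x h hap
  have hsg := (pts_sign hq hq2 w hw x hx h).1
  have hinj : ∀ a ∈ pts q w x, ∀ b ∈ pts q w x, a.natAbs = b.natAbs → a = b := by
    intro a ha b hb hab
    have h1 := hsg a ha
    have h2 := hsg b hb
    rcases Int.natAbs_eq_natAbs_iff.1 hab with h3 | h3
    · exact h3
    · rw [h3] at h1; nlinarith
  have e1 : (pts q w x).map (fun y : ℤ => 1 + 1 / |(y : ℝ)|) =
      ((pts q w x).map Int.natAbs).map (fun k : ℕ => 1 + 1 / (k : ℝ)) := by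
    rw [List.map_map]
    apply List.map_congr_left
    intro y _
    simp only [Function.comp]
    rw [Nat.cast_natAbs, Int.cast_abs]
  have hnd' : ((pts q w x).map Int.natAbs).Nodup := by
    apply List.Nodup.map_on _ hnd
    exact hinj
  rw [e1]
  set L := (pts q w x).map Int.natAbs with hL
  have e2 : (L.map (fun k : ℕ => 1 + 1 / (k : ℝ))).prod = ∏ k ∈ L.toFinset, (1 + 1 / (k : ℝ)) := by
    rw [List.prod_toFinset _ hnd']
  rw [e2]
  have e3 : L.toFinset.card = w.length := by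
    rw [List.toFinset_card_of_nodup hnd', hL, List.length_map, pts_length]
  rw [← e3]
  apply prod_distinct
  intro k hk
  rw [List.mem_toFinset, hL, List.mem_map] at hk
  obtain ⟨y, hy, rfl⟩ := hk
  have := hsg y hy
  have hy0 : y ≠ 0 := by rintro rfl; simp at this
  omega

/-- endpoints of aperiodic roots: two-sided size estimate -/
theorem Ep_bounds {q : ℕ} (hq : q.Prime) (hq2 : q ≠ 2) (w : List ℕ) (hw : ∀ e ∈ w, 1 ≤ e) (x : ℤ)
    (hx : x ≠ 0) (h : Vd q w x) (hap : ∀ k : ℕ, 0 < k → (TZ q)^[k] x ≠ x) :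
    (2 : ℝ) ^ w.sum * |(x : ℝ)| ≤ (q : ℝ) ^ w.length * |(Ep q w x : ℝ)| * (w.length + 1) ∧
      (q : ℝ) ^ w.length * |(Ep q w x : ℝ)| ≤ (2 : ℝ) ^ w.sum * |(x : ℝ)| * (w.length + 1) := by
  obtain ⟨h1, h2⟩ := Ep_size hq hq2 w hw x hx h
  have hP := prod_pts_le hq hq2 w hw x hx h hap
  constructor
  · refine h1.trans ?_
    gcongr
  · refine h2.trans ?_
    gcongr


open scoped Classical in
/-- counting the endpoints of an aperiodic root, with their sizes -/
theorem Nq_le_card_aper {q : ℕ} (hq : q.Prime) (hq2 : q ≠ 2) (E n s : ℕ) (x : ℤ) (hx : x ≠ 0)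
    (hap : ∀ k : ℕ, 0 < k → (TZ q)^[k] x ≠ x) :
    Nq q E n s x ≤ {m : ℤ | (TZ q)^[s] m = x ∧ ¬ (q : ℤ) ∣ m ∧ 0 < m * x ∧
      (2 : ℝ) ^ s * |(x : ℝ)| ≤ (q : ℝ) ^ n * |(m : ℝ)| * (n + 1) ∧
      (q : ℝ) ^ n * |(m : ℝ)| ≤ (2 : ℝ) ^ s * |(x : ℝ)| * (n + 1)}.ncard := by
  unfold Nq
  have hfin : {m : ℤ | (TZ q)^[s] m = x ∧ ¬ (q : ℤ) ∣ m ∧ 0 < m * x ∧
      (2 : ℝ) ^ s * |(x : ℝ)| ≤ (q : ℝ) ^ n * |(m : ℝ)| * (n + 1) ∧
      (q : ℝ) ^ n * |(m : ℝ)| ≤ (2 : ℝ) ^ s * |(x : ℝ)| * (n + 1)}.Finite := by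
    apply Set.Finite.subset (Set.finite_Icc (-((2 : ℤ) ^ s * |x| * (n + 1))) ((2 : ℤ) ^ s * |x| * (n + 1)))
    rintro m ⟨-, -, -, -, hm⟩
    have hq1 : (1 : ℝ) ≤ (q : ℝ) ^ n := one_le_pow₀ (by exact_mod_cast hq.one_lt.le)
    have h1 : |(m : ℝ)| ≤ (2 : ℝ) ^ s * |(x : ℝ)| * (n + 1) := by
      refine le_trans ?_ hm
      nlinarith [abs_nonneg (m : ℝ)]
    have h2 : |m| ≤ (2 : ℤ) ^ s * |x| * (n + 1) := by exact_mod_cast h1
    exact Set.mem_Icc.2 (abs_le.1 h2)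
  rw [← Set.ncard_coe_finset]
  apply Set.ncard_le_ncard_of_injOn (fun w => Ep q w x) _ _ hfin
  · intro w hw
    simp only [coe_filter, Set.mem_ofPred_eq] at hw
    obtain ⟨hw, hs, hv, hl⟩ := hw
    have h1 := iter_Ep hq hq2 w (FW_pos hw) x hv
    have h2 := Ep_bounds hq hq2 w (FW_pos hw) x hx hv hap
    have h3 := (pts_sign hq hq2 w (FW_pos hw) x hx hv).2
    rw [hs, FW_len hw] at h2
    rw [hs] at h1
    exact ⟨h1, hl, h3, h2.1, h2.2⟩
  · intro u hu v hv h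
    simp only [coe_filter, Set.mem_ofPred_eq] at hu hv
    exact Ep_inj hq hq2 (FW_pos hu.1) (FW_pos hv.1) (by rw [FW_len hu.1, FW_len hv.1])
      (by rw [hu.2.1, hv.2.1]) hu.2.2.1 hv.2.2.1 h

/-- first hitting times from an aperiodic node above the root -/
theorem hit_time {q : ℕ} {r x : ℤ} {j : ℕ} (hj : (TZ q)^[j] x = r)
    (hap : ∀ k : ℕ, 0 < k → (TZ q)^[k] x ≠ x) {s : ℕ} {m : ℤ} (hm : (TZ q)^[s] m = x) :
    ∃ k, s ≤ k ∧ k ≤ s + j ∧ (TZ q)^[k] m = r ∧ ∀ i < k, (TZ q)^[i] m ≠ r := by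
  have hex : ∃ k, (TZ q)^[k] m = r := ⟨j + s, by rw [Function.iterate_add_apply, hm, hj]⟩
  classical
  refine ⟨Nat.find hex, ?_, ?_, Nat.find_spec hex, fun i hi => Nat.find_min hex hi⟩
  · by_contra hcon
    push Not at hcon
    set i := Nat.find hex with hi
    have hir : (TZ q)^[i] m = r := Nat.find_spec hex
    have h1 : (TZ q)^[s - i] r = x := by
      rw [← hir, ← Function.iterate_add_apply, Nat.sub_add_cancel hcon.le, hm]
    apply hap (s - i + j) (by omega)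
    rw [Function.iterate_add_apply, hj, h1]
  · apply Nat.find_min'
    rw [add_comm, Function.iterate_add_apply, hm, hj]

/-- LARGE DEVIATIONS of hitting times, lower bound, for `3x+1` and `5x+1`, from every root -/
theorem LDZ {q : ℕ} (hq : q = 3 ∨ q = 5) {r : ℤ} (hr : ¬ (q : ℤ) ∣ r) {a : ℝ} (ha : 1 < a)
    (hG : 0 < Ga q a) (hD : Real.log q < a * Real.log 2) {ε : ℝ} (hε : 0 < ε) :
    ∃ X₀ : ℝ, ∀ X : ℝ, X₀ ≤ X →
      X ^ (Ga q a / (a * Real.log 2 - Real.log q) - ε) ≤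
        ({m : ℤ | |(m : ℝ)| ≤ X ∧ 0 < m * r ∧ ¬ (q : ℤ) ∣ m ∧ ∃ k : ℕ, (TZ q)^[k] m = r ∧
          (∀ j < k, (TZ q)^[j] m ≠ r) ∧
          |(k : ℝ) - a / (a * Real.log 2 - Real.log q) * Real.log (|(m : ℝ)|)| ≤
            ε * Real.log (|(m : ℝ)|)}.ncard : ℝ) := by
  obtain ⟨hqp, hq2, -, -⟩ := conn_exists hq
  have hr0 : r ≠ 0 := by rintro rfl; exact hr (dvd_zero _)
  obtain ⟨j, hap⟩ := exists_aper (q := q) hr0
  set x : ℤ := 2 ^ j * r with hxdef
  have hx0 : x ≠ 0 := by rw [hxdef]; positivity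
  have hqx : ¬ (q : ℤ) ∣ x := by
    intro h
    have hp : Prime (q : ℤ) := Nat.prime_iff_prime_int.1 hqp
    rcases hp.dvd_or_dvd h with h1 | h1
    · have h2 := hp.dvd_of_dvd_pow h1
      have h3 : q ∣ 2 := by exact_mod_cast h2
      rcases (Nat.dvd_prime Nat.prime_two).1 h3 with h4 | h4
      · exact hqp.one_lt.ne' h4
      · exact hq2 h4
    · exact hr h1
  have hxr : (TZ q)^[j] x = r := TZ_two_pow q j r
  set D : ℝ := a * Real.log 2 - Real.log q with hDdef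
  have hD0 : 0 < D := by rw [hDdef]; linarith
  set α : ℝ := a / D with hα
  have hα0 : 0 < α := div_pos (by linarith) hD0
  have hαD : α * D = a := by rw [hα]; field_simp
  set G : ℝ := Ga q a with hGdef
  set β : ℝ := G / D with hβ
  have hβ0 : 0 < β := div_pos hG hD0
  have hβD : β * D = G := by rw [hβ]; field_simp
  set ε₁ : ℝ := min (min (D / 4) (ε * D / (4 * (1 + α)))) (min (G / 2) (ε * D / (2 * (1 + 2 * β))))
    with hε₁
  have hε₁0 : 0 < ε₁ := by
    rw [hε₁]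
    refine lt_min (lt_min (by positivity) (by positivity)) (lt_min (by positivity) (by positivity))
  have b1 : ε₁ ≤ D / 4 := (min_le_left _ _).trans (min_le_left _ _)
  have b2 : ε₁ * (4 * (1 + α)) ≤ ε * D := by
    have : ε₁ ≤ ε * D / (4 * (1 + α)) := (min_le_left _ _).trans (min_le_right _ _)
    rwa [le_div_iff₀ (by positivity)] at this
  have b3 : ε₁ ≤ G / 2 := (min_le_right _ _).trans (min_le_left _ _)
  have b4 : ε₁ * (2 * (1 + 2 * β)) ≤ ε * D := by
    have : ε₁ ≤ ε * D / (2 * (1 + 2 * β)) := (min_le_right _ _).trans (min_le_right _ _)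
    rwa [le_div_iff₀ (by positivity)] at this
  obtain ⟨E, n₀, hn₀⟩ := quenched hq ha hG hε₁0
  -- log (n+1) + log |x| ≤ ε₁ n for large n
  have hlog : ∀ᶠ n : ℕ in atTop, Real.log ((n : ℝ) + 1) + |Real.log (|(x : ℝ)|)| + j ≤ ε₁ * n := by
    have h1 : Tendsto (fun n : ℕ => Real.log ((n : ℝ) + 1) / ((n : ℝ) + 1)) atTop (𝓝 0) := by
      have h2 : Tendsto (fun y : ℝ => Real.log y / y) atTop (𝓝 0) := by
        have := Real.isLittleO_log_id_atTop.tendsto_div_nhds_zero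
        simpa using this
      exact h2.comp (tendsto_atTop_add_const_right _ 1 tendsto_natCast_atTop_atTop)
    have h3 : ∀ᶠ n : ℕ in atTop, Real.log ((n : ℝ) + 1) / ((n : ℝ) + 1) < ε₁ / 2 :=
      h1.eventually_lt_const (by positivity)
    have h4 : ∀ᶠ n : ℕ in atTop, ε₁ / 2 + |Real.log (|(x : ℝ)|)| + j ≤ ε₁ / 2 * n := by
      have h5 : Tendsto (fun n : ℕ => ε₁ / 2 * (n : ℝ)) atTop atTop :=
        tendsto_natCast_atTop_atTop.const_mul_atTop (by positivity)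
      exact h5.eventually_ge_atTop _
    filter_upwards [h3, h4] with n h5 h6
    rw [div_lt_iff₀ (by positivity)] at h5
    linarith
  obtain ⟨n₁, hn₁⟩ := eventually_atTop.1 hlog
  -- thresholds for X
  set N := max n₀ n₁ + 1 with hN
  refine ⟨max (Real.exp ((D + 2 * ε₁) * (N + 1))) (Real.exp (2 * G / ε)), fun X hX => ?_⟩
  have hX1 : Real.exp ((D + 2 * ε₁) * (N + 1)) ≤ X := (le_max_left _ _).trans hX
  have hX2 : Real.exp (2 * G / ε) ≤ X := (le_max_right _ _).trans hX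
  have hX0 : 0 < X := lt_of_lt_of_le (Real.exp_pos _) hX1
  set L := Real.log X with hL
  have hL1 : (D + 2 * ε₁) * (N + 1) ≤ L := by
    rw [hL, Real.le_log_iff_exp_le hX0]; exact hX1
  have hL2 : 2 * G / ε ≤ L := by rw [hL, Real.le_log_iff_exp_le hX0]; exact hX2
  have hD2 : 0 < D + 2 * ε₁ := by positivity
  set n := ⌊L / (D + 2 * ε₁)⌋₊ with hn
  have hL0 : 0 ≤ L := le_trans (by positivity) hL1
  have hnle : (n : ℝ) ≤ L / (D + 2 * ε₁) := Nat.floor_le (by positivity)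
  have hnge : L / (D + 2 * ε₁) - 1 ≤ n := by
    have := Nat.lt_floor_add_one (L / (D + 2 * ε₁))
    linarith
  have hnN : N ≤ n := by
    apply Nat.le_floor
    rw [le_div_iff₀ hD2]
    have : (N : ℝ) * (D + 2 * ε₁) = (D + 2 * ε₁) * (N + 1) - (D + 2 * ε₁) := by ring
    linarith
  have hnn0 : n₀ ≤ n := le_trans (le_trans (le_max_left _ _) (Nat.le_succ _)) hnN
  have hnn1 : n₁ ≤ n := le_trans (le_trans (le_max_right _ _) (Nat.le_succ _)) hnN
  have hnL : (n : ℝ) * (D + 2 * ε₁) ≤ L := by rwa [le_div_iff₀ hD2] at hnle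
  obtain ⟨s, hs, hcount⟩ := hn₀ n hnn0 x hqx
  have hlogn := hn₁ n hnn1
  have hn0 : (0 : ℝ) ≤ n := Nat.cast_nonneg n
  have hn1 : (1 : ℝ) ≤ n := by
    have : 1 ≤ n := le_trans (by omega) hnN
    exact_mod_cast this
  have hlogn0 : 0 ≤ Real.log ((n : ℝ) + 1) := Real.log_nonneg (by linarith)
  have hj0 : (0 : ℝ) ≤ j := Nat.cast_nonneg j
  have hlx := abs_nonneg (Real.log (|(x : ℝ)|))
  have hlx1 := neg_abs_le (Real.log (|(x : ℝ)|))
  have hlx2 := le_abs_self (Real.log (|(x : ℝ)|))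
  have hxabs : 0 < |(x : ℝ)| := by positivity
  rw [abs_le] at hs
  have hlog2 : Real.log 2 < 1 := by
    have := Real.log_two_lt_d9
    linarith
  have hlog20 : 0 < Real.log 2 := Real.log_pos (by norm_num)
  have hq0 : (0 : ℝ) < q := by exact_mod_cast hqp.pos
  -- the target set
  have hfin : {m : ℤ | |(m : ℝ)| ≤ X ∧ 0 < m * r ∧ ¬ (q : ℤ) ∣ m ∧ ∃ k : ℕ, (TZ q)^[k] m = r ∧
          (∀ j < k, (TZ q)^[j] m ≠ r) ∧
          |(k : ℝ) - α * Real.log (|(m : ℝ)|)| ≤ ε * Real.log (|(m : ℝ)|)}.Finite := by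
    apply Set.Finite.subset (Set.finite_Icc (-⌈X⌉) ⌈X⌉)
    rintro m ⟨hm, -⟩
    have : |(m : ℝ)| ≤ (⌈X⌉ : ℤ) := hm.trans (Int.le_ceil X)
    have h2 : |m| ≤ ⌈X⌉ := by exact_mod_cast this
    exact Set.mem_Icc.2 (abs_le.1 h2)
  have hsub : {m : ℤ | (TZ q)^[s] m = x ∧ ¬ (q : ℤ) ∣ m ∧ 0 < m * x ∧
      (2 : ℝ) ^ s * |(x : ℝ)| ≤ (q : ℝ) ^ n * |(m : ℝ)| * (n + 1) ∧
      (q : ℝ) ^ n * |(m : ℝ)| ≤ (2 : ℝ) ^ s * |(x : ℝ)| * (n + 1)} ⊆
      {m : ℤ | |(m : ℝ)| ≤ X ∧ 0 < m * r ∧ ¬ (q : ℤ) ∣ m ∧ ∃ k : ℕ, (TZ q)^[k] m = r ∧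
          (∀ j < k, (TZ q)^[j] m ≠ r) ∧
          |(k : ℝ) - α * Real.log (|(m : ℝ)|)| ≤ ε * Real.log (|(m : ℝ)|)} := by
    rintro m ⟨h1, h2, h3, h4, h5⟩
    have hm0 : m ≠ 0 := by rintro rfl; simp at h3
    have hmabs : 0 < |(m : ℝ)| := by positivity
    have hm1 : (1 : ℝ) ≤ |(m : ℝ)| := by
      have : 1 ≤ |m| := Int.one_le_abs hm0
      exact_mod_cast this
    -- logarithms
    have l4 : s * Real.log 2 + Real.log (|(x : ℝ)|) ≤
        n * Real.log q + Real.log (|(m : ℝ)|) + Real.log ((n : ℝ) + 1) := by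
      have := Real.log_le_log (by positivity) h4
      rw [Real.log_mul (by positivity) (by positivity), Real.log_pow,
        Real.log_mul (by positivity) (by positivity), Real.log_mul (by positivity) (by positivity),
        Real.log_pow] at this
      exact this
    have l5 : n * Real.log q + Real.log (|(m : ℝ)|) ≤
        s * Real.log 2 + Real.log (|(x : ℝ)|) + Real.log ((n : ℝ) + 1) := by
      have := Real.log_le_log (by positivity) h5
      rw [Real.log_mul (by positivity) (by positivity), Real.log_pow,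
        Real.log_mul (by positivity) (by positivity), Real.log_mul (by positivity) (by positivity),
        Real.log_pow] at this
      exact this
    have u1 : Real.log (|(m : ℝ)|) ≤ n * (D + 2 * ε₁) := by
      have : (s : ℝ) * Real.log 2 ≤ (a * n + ε₁ * n) * Real.log 2 :=
        mul_le_mul_of_nonneg_right (by linarith) hlog20.le
      have h6 : ε₁ * n * Real.log 2 ≤ ε₁ * n := by
        have : 0 ≤ ε₁ * n := by positivity
        exact mul_le_of_le_one_right this hlog2.le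
      have : Real.log (|(m : ℝ)|) ≤ n * D + ε₁ * n + (Real.log ((n : ℝ) + 1) + |Real.log (|(x : ℝ)|)|) := by
        rw [hDdef]; linarith
      linarith
    have u2 : n * (D - 2 * ε₁) ≤ Real.log (|(m : ℝ)|) := by
      have : (a * n - ε₁ * n) * Real.log 2 ≤ (s : ℝ) * Real.log 2 :=
        mul_le_mul_of_nonneg_right (by linarith) hlog20.le
      have h6 : ε₁ * n * Real.log 2 ≤ ε₁ * n := by
        have : 0 ≤ ε₁ * n := by positivity
        exact mul_le_of_le_one_right this hlog2.le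
      have : n * D - ε₁ * n - (Real.log ((n : ℝ) + 1) + |Real.log (|(x : ℝ)|)|) ≤ Real.log (|(m : ℝ)|) := by
        rw [hDdef]; linarith
      linarith
    obtain ⟨k, hk1, hk2, hk3, hk4⟩ := hit_time hxr hap h1
    refine ⟨?_, ?_, h2, k, hk3, hk4, ?_⟩
    · have : Real.log (|(m : ℝ)|) ≤ Real.log X := u1.trans hnL
      exact (Real.log_le_log_iff hmabs hX0).1 this
    · rw [hxdef] at h3
      have h6 : 0 < 2 ^ j * (m * r) := by
        calc 0 < m * (2 ^ j * r) := h3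
          _ = 2 ^ j * (m * r) := by ring
      exact pos_of_mul_pos_right h6 (by positivity)
    · have c1 : (s : ℝ) ≤ k := by exact_mod_cast hk1
      have c2 : (k : ℝ) ≤ s + j := by exact_mod_cast hk2
      have c3 : |(k : ℝ) - a * n| ≤ 2 * ε₁ * n := by
        rw [abs_le]; constructor <;> linarith
      have c4 : |a * n - α * Real.log (|(m : ℝ)|)| ≤ α * (2 * ε₁ * n) := by
        have : a * n - α * Real.log (|(m : ℝ)|) = α * (n * D - Real.log (|(m : ℝ)|)) := by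
          rw [← hαD]; ring
        rw [this, abs_mul, abs_of_pos hα0]
        apply mul_le_mul_of_nonneg_left _ hα0.le
        rw [abs_le]; constructor <;> linarith
      have c5 : |(k : ℝ) - α * Real.log (|(m : ℝ)|)| ≤ 2 * ε₁ * n + α * (2 * ε₁ * n) := by
        calc |(k : ℝ) - α * Real.log (|(m : ℝ)|)| = |((k : ℝ) - a * n) + (a * n - α * Real.log (|(m : ℝ)|))| := by
              congr 1; ring
          _ ≤ _ := (abs_add_le _ _).trans (add_le_add c3 c4)
      refine c5.trans ?_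
      have c6 : 2 * ε₁ * n + α * (2 * ε₁ * n) = (ε₁ * (4 * (1 + α))) / 2 * n := by ring
      rw [c6]
      have c7 : (ε₁ * (4 * (1 + α))) / 2 * n ≤ ε * D / 2 * n := by
        apply mul_le_mul_of_nonneg_right _ hn0; linarith
      have c8 : ε * D / 2 * n ≤ ε * (n * (D - 2 * ε₁)) := by
        have : D / 2 * n ≤ n * (D - 2 * ε₁) := by
          have := mul_le_mul_of_nonneg_left b1 hn0
          linarith
        calc ε * D / 2 * n = ε * (D / 2 * n) := by ring
          _ ≤ _ := mul_le_mul_of_nonneg_left this hε.le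
      exact c7.trans (c8.trans (mul_le_mul_of_nonneg_left u2 hε.le))
  have hmain : Real.exp ((G - ε₁) * n) ≤ ({m : ℤ | |(m : ℝ)| ≤ X ∧ 0 < m * r ∧ ¬ (q : ℤ) ∣ m ∧
      ∃ k : ℕ, (TZ q)^[k] m = r ∧ (∀ j < k, (TZ q)^[j] m ≠ r) ∧
          |(k : ℝ) - α * Real.log (|(m : ℝ)|)| ≤ ε * Real.log (|(m : ℝ)|)}.ncard : ℝ) := by
    refine hcount.trans ?_
    exact_mod_cast (Nq_le_card_aper hqp hq2 E n s x hx0 hap).trans (Set.ncard_le_ncard hsub hfin)
  refine le_trans ?_ hmain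
  rw [Real.rpow_def_of_pos hX0]
  apply Real.exp_le_exp.2
  rw [← hL]
  have d1 : (β - ε / 2) * (D + 2 * ε₁) ≤ G - ε₁ := by
    have : (β - ε / 2) * (D + 2 * ε₁) = β * D + 2 * ε₁ * β - ε * D / 2 - ε * ε₁ := by ring
    rw [this, hβD]
    have : 0 < ε * ε₁ := by positivity
    linarith
  have d2 : (β - ε / 2) * L ≤ (G - ε₁) * (L / (D + 2 * ε₁)) := by
    have : (G - ε₁) * (L / (D + 2 * ε₁)) = (G - ε₁) / (D + 2 * ε₁) * L := by ring
    rw [this]
    apply mul_le_mul_of_nonneg_right _ hL0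
    rw [le_div_iff₀ hD2]; exact d1
  have d3 : G ≤ ε / 2 * L := by
    have : 2 * G ≤ L * ε := by rwa [div_le_iff₀ hε] at hL2
    linarith
  have d4 : (G - ε₁) * (L / (D + 2 * ε₁) - 1) ≤ (G - ε₁) * n :=
    mul_le_mul_of_nonneg_left hnge (by linarith)
  linarith

theorem TZ_preimages {q : ℕ} (hq : Odd q) (k : ℕ) (a : ℤ) : {m : ℤ | (TZ q)^[k] m = a}.Finite := by
  induction k generalizing a with
  | zero => simp
  | succ k ih =>
    have h : {m : ℤ | (TZ q)^[k + 1] m = a} ⊆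
        {m : ℤ | (TZ q)^[k] m = 2 * a} ∪ {m : ℤ | (TZ q)^[k] m = (2 * a - 1) / q} := by
      intro m hm
      simp only [Set.mem_ofPred_eq, Function.iterate_succ_apply'] at hm
      set b := (TZ q)^[k] m with hb
      unfold TZ at hm
      by_cases h0 : b % 2 = 0
      · rw [if_pos h0] at hm
        left
        show (TZ q)^[k] m = 2 * a
        rw [← hb]; omega
      · rw [if_neg h0] at hm
        right
        show (TZ q)^[k] m = (2 * a - 1) / q
        rw [← hb]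
        obtain ⟨c, hc⟩ := hq
        obtain ⟨d, hd⟩ : ∃ d, b = 2 * d + 1 := ⟨b / 2, by omega⟩
        have h1 : (q : ℤ) * b + 1 = 2 * (2 * c * d + c + d + 1) := by
          rw [hc, hd]; push_cast; ring
        rw [h1, Int.mul_ediv_cancel_left _ (by norm_num)] at hm
        have h2 : 2 * a - 1 = (q : ℤ) * b := by
          rw [hc, hd, ← hm]; push_cast; ring
        have hq0 : (q : ℤ) ≠ 0 := by rw [hc]; push_cast; omega
        rw [h2, Int.mul_ediv_cancel_left _ hq0]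
    exact ((ih _).union (ih _)).subset h

/-- halvings: the number of preimages of order `k` prime to `q` is nondecreasing in `k` -/
theorem card_mono {q : ℕ} (hq : q.Prime) (hq2 : q ≠ 2) {s k : ℕ} (h : s ≤ k) (a : ℤ) :
    {m : ℤ | (TZ q)^[s] m = a ∧ ¬ (q : ℤ) ∣ m}.ncard ≤ {m : ℤ | (TZ q)^[k] m = a ∧ ¬ (q : ℤ) ∣ m}.ncard := by
  refine Set.ncard_le_ncard_of_injOn (fun m => 2 ^ (k - s) * m) ?_ ?_
    ((TZ_preimages (hq.odd_of_ne_two hq2) k a).subset fun m hm => hm.1)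
  · rintro m ⟨h1, h2⟩
    refine ⟨?_, ?_⟩
    · show (TZ q)^[k] (2 ^ (k - s) * m) = a
      rw [show k = s + (k - s) by omega, Function.iterate_add_apply, Nat.add_sub_cancel_left,
        TZ_two_pow, h1]
    · intro h3
      have hp : Prime (q : ℤ) := Nat.prime_iff_prime_int.1 hq
      rcases hp.dvd_or_dvd h3 with h4 | h4
      · have h5 := hp.dvd_of_dvd_pow h4
        have h6 : q ∣ 2 := by exact_mod_cast h5
        rcases (Nat.dvd_prime Nat.prime_two).1 h6 with h7 | h7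
        · exact hq.one_lt.ne' h7
        · exact hq2 h7
      · exact h2 h4
  · intro m _ m' _ h1
    exact mul_left_cancel₀ (by positivity) h1

/-- GROWTH OF INVERSE TREES, lower half, uniformly in the root: for `q = 3, 5` every integer prime
to `q` has at least `((q+1)/q)^((1-ε)k)` preimages of order `k` prime to `q` -/
theorem tree_lower {q : ℕ} (hq : q = 3 ∨ q = 5) {ε : ℝ} (hε : 0 < ε) :
    ∃ k₀ : ℕ, ∀ k : ℕ, k₀ ≤ k → ∀ a : ℤ, ¬ (q : ℤ) ∣ a →
      (((q : ℝ) + 1) / q) ^ ((1 - ε) * k) ≤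
        ({m : ℤ | (TZ q)^[k] m = a ∧ ¬ (q : ℤ) ∣ m}.ncard : ℝ) := by
  obtain ⟨hqp, hq2, -, -⟩ := conn_exists hq
  have hq1 : (1 : ℝ) < q := by exact_mod_cast hqp.one_lt
  set a₀ : ℝ := (q : ℝ) + 1 with ha₀
  set Λ : ℝ := Real.log (((q : ℝ) + 1) / q) with hΛ
  have hΛ0 : 0 < Λ := Real.log_pos (by rw [lt_div_iff₀ (by linarith)]; linarith)
  have hGa : Ga q a₀ = a₀ * Λ := by
    rw [Ga, hΛ, Real.log_div (by linarith) (by linarith), ha₀]
    ring_nf
  have hG0 : 0 < Ga q a₀ := by rw [hGa]; positivity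
  set ε₁ : ℝ := ε * Λ * a₀ / (2 * (1 + Λ)) with hε₁
  have hε₁0 : 0 < ε₁ := by positivity
  have hb : ε₁ * (1 + Λ) = ε * Λ * a₀ / 2 := by
    rw [hε₁]; field_simp
  obtain ⟨E, n₀, hn₀⟩ := quenched hq (a := a₀) (by rw [ha₀]; linarith) hG0 hε₁0
  have hA : 0 < a₀ + ε₁ := by positivity
  refine ⟨⌈(a₀ + ε₁) * (n₀ + 1)⌉₊ + ⌈2 * a₀ / ε⌉₊, fun k hk a ha => ?_⟩
  have hk' : (⌈(a₀ + ε₁) * (n₀ + 1)⌉₊ : ℝ) + ⌈2 * a₀ / ε⌉₊ ≤ k := by exact_mod_cast hk
  have hk1 : (a₀ + ε₁) * (n₀ + 1) ≤ k := by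
    have h1 := Nat.le_ceil ((a₀ + ε₁) * (n₀ + 1))
    have h2 : (0 : ℝ) ≤ ⌈2 * a₀ / ε⌉₊ := Nat.cast_nonneg _
    linarith
  have hk2 : 2 * a₀ / ε ≤ k := by
    have h1 := Nat.le_ceil (2 * a₀ / ε)
    have h2 : (0 : ℝ) ≤ ⌈(a₀ + ε₁) * (n₀ + 1)⌉₊ := Nat.cast_nonneg _
    linarith
  rw [div_le_iff₀ hε] at hk2
  set n := ⌊(k : ℝ) / (a₀ + ε₁)⌋₊ with hn
  have hk0 : (0 : ℝ) ≤ k := Nat.cast_nonneg k
  have hnle : (n : ℝ) ≤ k / (a₀ + ε₁) := Nat.floor_le (by positivity)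
  have hnge : (k : ℝ) / (a₀ + ε₁) - 1 ≤ n := by
    have := Nat.lt_floor_add_one ((k : ℝ) / (a₀ + ε₁))
    linarith
  have hnn : n₀ ≤ n := by
    apply Nat.le_floor
    rw [le_div_iff₀ hA]
    have : (n₀ : ℝ) * (a₀ + ε₁) = (a₀ + ε₁) * (n₀ + 1) - (a₀ + ε₁) := by ring
    linarith
  obtain ⟨s, hs, hcount⟩ := hn₀ n hnn a ha
  have hsk : s ≤ k := by
    rw [le_div_iff₀ hA] at hnle
    have h1 := (abs_le.1 hs).2
    have : (s : ℝ) ≤ k := by linarith
    exact_mod_cast this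
  have h1 : (Nq q E n s a : ℝ) ≤ ({m : ℤ | (TZ q)^[k] m = a ∧ ¬ (q : ℤ) ∣ m}.ncard : ℝ) := by
    exact_mod_cast (Nq_le_card_int hqp hq2 E n s a
      (TZ_preimages (hqp.odd_of_ne_two hq2) s a)).trans (card_mono hqp hq2 hsk a)
  refine le_trans ?_ (hcount.trans h1)
  rw [Real.rpow_def_of_pos (by positivity), ← hΛ]
  apply Real.exp_le_exp.2
  by_cases hneg : 1 - ε ≤ 0
  · -- trivial case
    have h2 : Λ * ((1 - ε) * k) ≤ 0 := by
      apply mul_nonpos_of_nonneg_of_nonpos hΛ0.le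
      exact mul_nonpos_of_nonpos_of_nonneg hneg hk0
    by_cases h3 : 0 ≤ Ga q a₀ - ε₁
    · have : 0 ≤ (Ga q a₀ - ε₁) * n := mul_nonneg h3 (Nat.cast_nonneg n)
      linarith
    · push Not at h3
      -- here `ε₁ > Ga`; compare directly
      have h4 : (Ga q a₀ - ε₁) * (k / (a₀ + ε₁)) ≤ (Ga q a₀ - ε₁) * n :=
        mul_le_mul_of_nonpos_left hnle h3.le
      refine le_trans ?_ h4
      have h5 : (1 - ε) * Λ * (a₀ + ε₁) ≤ Ga q a₀ - ε₁ := by
        rw [hGa]
        have h6 : (1 - ε) * Λ * (a₀ + ε₁) = a₀ * Λ - ε * Λ * a₀ + (1 - ε) * (Λ * ε₁) := by ring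
        have h7 : (1 - ε) * (Λ * ε₁) ≤ 0 :=
          mul_nonpos_of_nonpos_of_nonneg hneg (by positivity)
        have h8 : ε₁ ≤ ε * Λ * a₀ / 2 := by
          rw [← hb]; nlinarith
        have h9 : 0 < ε * Λ * a₀ := by positivity
        rw [h6]; linarith
      have h6 : Λ * ((1 - ε) * k) = ((1 - ε) * Λ * (a₀ + ε₁)) * (k / (a₀ + ε₁)) := by
        field_simp
      rw [h6]
      apply mul_le_mul_of_nonneg_right h5 (by positivity)
  · push Not at hneg
    have h2 : (1 - ε / 2) * Λ * (a₀ + ε₁) ≤ Ga q a₀ - ε₁ := by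
      rw [hGa]
      have h6 : (1 - ε / 2) * Λ * (a₀ + ε₁) =
          a₀ * Λ - ε * Λ * a₀ / 2 + ε₁ * Λ - ε / 2 * (Λ * ε₁) := by ring
      have h7 : 0 ≤ ε / 2 * (Λ * ε₁) := by positivity
      have h8 : ε₁ * (1 + Λ) = ε₁ + ε₁ * Λ := by ring
      rw [h6]; linarith
    have h3 : 0 ≤ Ga q a₀ - ε₁ := by
      refine le_trans ?_ h2
      have : 0 < 1 - ε / 2 := by linarith
      positivity
    have h4 : (Ga q a₀ - ε₁) * (k / (a₀ + ε₁) - 1) ≤ (Ga q a₀ - ε₁) * n :=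
      mul_le_mul_of_nonneg_left hnge h3
    refine le_trans ?_ h4
    have h5 : (1 - ε / 2) * Λ * k ≤ (Ga q a₀ - ε₁) * (k / (a₀ + ε₁)) := by
      have h6 : (1 - ε / 2) * Λ * k = ((1 - ε / 2) * Λ * (a₀ + ε₁)) * (k / (a₀ + ε₁)) := by
        field_simp
      rw [h6]
      exact mul_le_mul_of_nonneg_right h2 (by positivity)
    have h7 : Ga q a₀ ≤ ε / 2 * Λ * k := by
      rw [hGa]
      have : Λ * (2 * a₀) ≤ Λ * (k * ε) := mul_le_mul_of_nonneg_left hk2 hΛ0.le
      linarith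
    linarith

end App
end Pool.Agent.H422R2.QA
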