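import Mathlib
import Pool.Agent.H412R2.Defs
import Pool.Agent.H320R2.PDDefs

/-!
QUENCHED = ANNEALED for the backward trees of the `q x + 1` map: shared definitions.

Words are lists of letters `e ≥ 1` (first letter first). A word `w` of length `n`, size `s = w.sum`,
offset `Wq q w` is valid at the integer `x` iff `q^n ∣ 2^s x - Wq q w`; its endpoint is
`(2^s x - Wq q w)/q^n` (iterating the letter map `x ↦ b`, `q b + 1 = 2^e x`).
`Pool.Agent.H320R2.PD.FW A n` is the set of all words of length `n` with letters in `[1,A]`.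
-/

set_option autoImplicit false

namespace Pool.Agent.H422R2.QA

open Finset Pool.Agent.H320R2.PD
open scoped NNReal

/-- offset of a word (first letter first) in the backward tree of `q x + 1` -/
def Wq (q : ℕ) : List ℕ → ℕ
  | [] => 0
  | _ :: w => 2 ^ w.sum + q * Wq q w

/-- the word `w` is valid at `x` -/
def Vd (q : ℕ) (w : List ℕ) (x : ℤ) : Prop := (q : ℤ) ^ w.length ∣ 2 ^ w.sum * x - Wq q w

/-- endpoint of `w` at `x` -/
def Ep (q : ℕ) (w : List ℕ) (x : ℤ) : ℤ := (2 ^ w.sum * x - Wq q w) / (q : ℤ) ^ w.length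

/-- `w` is live at `x`: valid, and the endpoint is prime to `q` -/
def Lv (q : ℕ) (w : List ℕ) (x : ℤ) : Prop := Vd q w x ∧ ¬ (q : ℤ) ∣ Ep q w x

open scoped Classical in
/-- number of live words of length `n`, size `s`, letters `≤ E`, at `x` -/
noncomputable def Nq (q E n s : ℕ) (x : ℤ) : ℕ :=
  ((FW E n).filter (fun w => w.sum = s ∧ Lv q w x)).card

/-- `2` is a primitive root mod `q^2` (true for `q = 3, 5`) -/
def Prim (q : ℕ) : Prop :=
  ∀ y : ℤ, ¬ (q : ℤ) ∣ y → ∃ e ∈ Finset.Icc 1 (q * (q - 1)), (q : ℤ) ^ 2 ∣ 2 ^ e - y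

/-- weight of a word for the letter weights `u` -/
noncomputable def wtu (u : ℕ → ℝ) (w : List ℕ) : ℝ := (w.map u).prod

open scoped Classical in
/-- the capped martingale `F_n(x) = ∑_{w valid at x, n letters} q^n u(w)` -/
noncomputable def FF (q E : ℕ) (u : ℕ → ℝ) (n : ℕ) (x : ℤ) : ℝ :=
  ∑ w ∈ FW E n, if Vd q w x then (q : ℝ) ^ n * wtu u w else 0

/-- abstract properties of the martingale used by the robust lemma -/
structure GoodF (q : ℕ) (F : ℕ → ℤ → ℝ) (c₀ c₁ : ℝ) : Prop where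
  nonneg : ∀ n x, 0 ≤ F n x
  per : ∀ (n : ℕ) (x y : ℤ), F n (x + (q : ℤ) ^ n * y) = F n x
  avg : ∀ (n : ℕ) (x : ℤ), ∑ d ∈ Finset.range q, F (n + 1) (x + (q : ℤ) ^ n * (d : ℤ)) = q * F n x
  low : ∀ (n : ℕ) (x : ℤ), 1 ≤ n → c₀ * F n x ≤ F (n + 1) x
  one : ∀ x : ℤ, ¬ (q : ℤ) ∣ x → c₁ ≤ F 1 x

/-- normalising constant of the tilt `z` -/
noncomputable def Az (z : ℝ) (E : ℕ) : ℝ := ∑ e ∈ Finset.Icc 1 E, z ^ e

/-- geometric letter law `u(e) = z^e / Az` on `[1,E]` -/
noncomputable def uz (z : ℝ) (E : ℕ) (e : ℕ) : ℝ := z ^ e / Az z E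

/-- mean letter of the tilt `z` -/
noncomputable def az (z : ℝ) (E : ℕ) : ℝ := ∑ e ∈ Finset.Icc 1 E, (e : ℝ) * uz z E e

/-- entropy of the tilt `z` minus `log q`: the annealed growth rate -/
noncomputable def Gz (q : ℕ) (z : ℝ) (E : ℕ) : ℝ :=
  Real.log (Az z E) - az z E * Real.log z - Real.log q

/-- growth from EVERY start: at every `x` prime to `q` there are, for all large `n`, at least
`exp((g-ε)n)` live words with `n` letters and one common size `s`, `|s - a n| ≤ ε n`. -/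
def Pr (q E : ℕ) (g a : ℝ) : Prop :=
  ∀ ε : ℝ, 0 < ε → ∃ n₀ : ℕ, ∀ n : ℕ, n₀ ≤ n → ∀ x : ℤ, ¬ (q : ℤ) ∣ x →
    ∃ s : ℕ, |(s : ℝ) - a * n| ≤ ε * n ∧ Real.exp ((g - ε) * n) ≤ (Nq q E n s x : ℝ)

open scoped Classical in
/-- average over the classes mod `q^(n+1)` prime to `q` -/
noncomputable def avU (q n : ℕ) (f : ℤ → ℝ) : ℝ :=
  (∑ x ∈ (Finset.range (q ^ (n + 1))).filter (fun x : ℕ => ¬ (q : ℤ) ∣ (x : ℤ)), f (x : ℤ)) /
    ((q - 1) * (q : ℝ) ^ n)

/-- connecting words: from every `y` prime to `q` to every class `d` prime to `q` there is a live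
word with `m` letters and total size exactly `C` -/
def Conn (q E m C : ℕ) : Prop :=
  ∀ y d : ℤ, ¬ (q : ℤ) ∣ y → ¬ (q : ℤ) ∣ d →
    ∃ w ∈ FW E m, w.sum = C ∧ Lv q w y ∧ (q : ℤ) ∣ Ep q w y - d

open scoped Classical in
/-- balanced family of words of length `n`: `q M` words are valid, `(q-1) M` words are live,
at every `x` prime to `q` -/
structure Bal (q E n : ℕ) (V : Finset (List ℕ)) (M : ℕ) : Prop where
  sub : V ⊆ FW E n
  val : ∀ x : ℤ, ¬ (q : ℤ) ∣ x → (V.filter (fun w => Vd q w x)).card = q * M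
  live : ∀ x : ℤ, ¬ (q : ℤ) ∣ x → (V.filter (fun w => Lv q w x)).card = (q - 1) * M

/-- concatenation of two families of words (the words of `U` come first) -/
def cat (U V : Finset (List ℕ)) : Finset (List ℕ) := (U ×ˢ V).image (fun p => p.1 ++ p.2)

/-- the `n`-fold concatenation of a family -/
def pw (V : Finset (List ℕ)) : ℕ → Finset (List ℕ)
  | 0 => {[]}
  | n + 1 => cat V (pw V n)

/-- the balanced family of one-letter words with letters in `[1, q(q-1)]` -/
def one (q : ℕ) : Finset (List ℕ) := (Finset.Icc 1 (q * (q - 1))).image (fun e => [e])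

/-- concatenations of `m` copies of the block family `V` (of length `b`) and of `r` copies of the
one-letter family, in some order; `L` is the length -/
inductive Mix (q b : ℕ) (V : Finset (List ℕ)) : ℕ → ℕ → Finset (List ℕ) → Prop
  | block : Mix q b V 1 0 V
  | letter : Mix q b V 0 1 (one q)
  | cat {m r m' r' : ℕ} {U U' : Finset (List ℕ)} :
      Mix q b V m r U → Mix q b V m' r' U' → Mix q b V (m + m') (r + r') (cat U U')

/-! ### digits -/

open scoped Classical in
/-- number of members of a finite family in the class of `c` mod `q^j` -/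
noncomputable def mc {ι : Type*} (q : ℕ) (s : Finset ι) (v : ι → ℤ) (j : ℕ) (c : ℤ) : ℝ :=
  ((s.filter (fun i => (q : ℤ) ^ j ∣ v i - c)).card : ℝ)

open scoped Classical in
/-- Fourier coefficient of the digit number `j` in the class of `c` mod `q^j` -/
noncomputable def fc {ι : Type*} (q : ℕ) (s : Finset ι) (v : ι → ℤ) (j : ℕ) (c : ℤ) (ψ : ℕ) : ℂ :=
  ∑ i ∈ s.filter (fun i => (q : ℤ) ^ j ∣ v i - c),
    Complex.exp (2 * Real.pi * Complex.I * (ψ * ((v i - c) / (q : ℤ) ^ j : ℤ) / q))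

/-- nonuniformity of the digit number `j` in the class of `c` mod `q^j` -/
noncomputable def Fb {ι : Type*} (q : ℕ) (s : Finset ι) (v : ι → ℤ) (j : ℕ) (c : ℤ) : ℝ :=
  (((Finset.Ico 1 q).sup fun ψ => ‖fc q s v j c ψ‖₊ ^ 2 / (mc q s v j c).toNNReal : ℝ≥0) : ℝ)

/-- total nonuniformity of the digit number `j` given the lower digits -/
noncomputable def Gm {ι : Type*} (q : ℕ) (s : Finset ι) (v : ι → ℤ) (j : ℕ) : ℝ :=
  ∑ c ∈ range (q ^ j), Fb q s v j (c : ℤ)

/-- normalised nonuniformity of the digit `j` of the offset of a word of the family `T`,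
given the size and the lower digits; between `0` and `1` -/
noncomputable def gm (q : ℕ) (T : Finset (List ℕ)) (j : ℕ) : ℝ :=
  (∑ t ∈ T.image List.sum, Gm q (T.filter (fun w => w.sum = t)) (fun w => (Wq q w : ℤ)) j) / T.card

/-- entropy (times the mass) of the digit `j` in the class of `c` mod `q^j` -/
noncomputable def hc {ι : Type*} (q : ℕ) (s : Finset ι) (v : ι → ℤ) (j : ℕ) (c : ℤ) : ℝ :=
  mc q s v j c * Real.log (mc q s v j c) -
    ∑ d ∈ range q, mc q s v (j + 1) (c + (q : ℤ) ^ j * d) *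
      Real.log (mc q s v (j + 1) (c + (q : ℤ) ^ j * d))

/-- Hellinger (Bhattacharyya) divergence of the digit `i` in the class of `c` mod `q^i` from the
uniform law -/
noncomputable def Lam {ι : Type*} (q : ℕ) (s : Finset ι) (Y : ι → ℤ) (i : ℕ) (c : ℤ) : ℝ :=
  -Real.log (∑ d ∈ range q,
    Real.sqrt (mc q s Y (i + 1) (c + (q : ℤ) ^ i * d) / (q * mc q s Y i c)))

/-- concatenation of `K` words, the last one first: `τ_{K-1} ++ ... ++ τ_0` -/
def cc : (K : ℕ) → (Fin K → List ℕ) → List ℕ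
  | 0, _ => []
  | K + 1, τ => τ (Fin.last K) ++ cc K (fun i => τ i.castSucc)

/-- total length of the groups number `< g` -/
def AA {K : ℕ} (l : Fin K → ℕ) (g : Fin K) : ℕ := ∑ i ∈ Finset.univ.filter (fun i => i < g), l i

open scoped Classical in
/-- past words `τ_{K-1} ++ ... ++ τ_0` live at `x`, followed by the martingale at the endpoint -/
noncomputable def HH (q : ℕ) {K : ℕ} (T : Fin K → Finset (List ℕ)) (F : ℕ → ℤ → ℝ) (J : ℕ) (x : ℤ) :
    ℝ :=
  ∑ τ ∈ Fintype.piFinset T, if Lv q (cc K τ) x then F (J + 1) (Ep q (cc K τ) x) else 0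

end Pool.Agent.H422R2.QA
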