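import Pool.Agent.H422R2.QA.QAWords
import Pool.Agent.H320R2.PDWords

/-! Task K3 (ALL), part 1: law of large numbers along a kernel through exponential moments. -/

set_option autoImplicit false

namespace Pool.Agent.H422R2.QA
open Finset Pool.Agent.H320R2.PD Pool.Agent.H412R2

namespace K3

variable {q R : ℕ}

theorem P_congr (κ : Ker q R) {f g : ℤ → ℝ} (h : ∀ x : ℤ, ¬ (q : ℤ) ∣ x → f x = g x) {x : ℤ}
    (hx : ¬ (q : ℤ) ∣ x) : κ.P f x = κ.P g x := by
  unfold Ker.P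
  rw [Finset.sum_congr rfl fun b hb => h b (κ.hlive x b hx hb)]

theorem P_mono (κ : Ker q R) {f g : ℤ → ℝ} (h : ∀ x : ℤ, ¬ (q : ℤ) ∣ x → f x ≤ g x) {x : ℤ}
    (hx : ¬ (q : ℤ) ∣ x) : κ.P f x ≤ κ.P g x := by
  unfold Ker.P
  exact div_le_div_of_nonneg_right (Finset.sum_le_sum fun b hb => h b (κ.hlive x b hx hb))
    (Nat.cast_nonneg _)

theorem Kcard_pos (κ : Ker q R) {x : ℤ} (hx : ¬ (q : ℤ) ∣ x) : (0 : ℝ) < (κ.K x).card := by
  have := κ.hcard x hx
  exact_mod_cast (by omega : 0 < (κ.K x).card)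

theorem P_const (κ : Ker q R) (c : ℝ) {x : ℤ} (hx : ¬ (q : ℤ) ∣ x) : κ.P (fun _ => c) x = c := by
  unfold Ker.P
  rw [Finset.sum_const, nsmul_eq_mul, mul_div_cancel_left₀ _ (Kcard_pos κ hx).ne']

theorem P_add (κ : Ker q R) (f g : ℤ → ℝ) (x : ℤ) :
    κ.P (fun y => f y + g y) x = κ.P f x + κ.P g x := by
  unfold Ker.P
  rw [Finset.sum_add_distrib, add_div]

theorem P_sub (κ : Ker q R) (f g : ℤ → ℝ) (x : ℤ) :
    κ.P (fun y => f y - g y) x = κ.P f x - κ.P g x := by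
  unfold Ker.P
  rw [Finset.sum_sub_distrib, sub_div]

theorem P_mul (κ : Ker q R) (c : ℝ) (f : ℤ → ℝ) (x : ℤ) :
    κ.P (fun y => c * f y) x = c * κ.P f x := by
  unfold Ker.P
  rw [← Finset.mul_sum, mul_div_assoc]

theorem P_sum (κ : Ker q R) {ι : Type*} (s : Finset ι) (f : ι → ℤ → ℝ) (x : ℤ) :
    κ.P (fun y => ∑ i ∈ s, f i y) x = ∑ i ∈ s, κ.P (f i) x := by
  unfold Ker.P
  rw [Finset.sum_comm, Finset.sum_div]

theorem iter_congr (κ : Ker q R) {f g : ℤ → ℝ} (h : ∀ x : ℤ, ¬ (q : ℤ) ∣ x → f x = g x) (i : ℕ) :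
    ∀ x : ℤ, ¬ (q : ℤ) ∣ x → (κ.P)^[i] f x = (κ.P)^[i] g x := by
  induction i with
  | zero => exact h
  | succ i ih =>
    intro x hx
    rw [Function.iterate_succ_apply', Function.iterate_succ_apply']
    exact P_congr κ ih hx

theorem iter_sub_const (κ : Ker q R) (f : ℤ → ℝ) (m : ℝ) (i : ℕ) :
    ∀ x : ℤ, ¬ (q : ℤ) ∣ x → (κ.P)^[i] (fun y => f y - m) x = (κ.P)^[i] f x - m := by
  induction i with
  | zero => intro x _; rfl
  | succ i ih =>
    intro x hx
    rw [Function.iterate_succ_apply', Function.iterate_succ_apply', P_congr κ ih hx, P_sub,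
      P_const κ m hx]

theorem iter_bound (κ : Ker q R) {f : ℤ → ℝ} {C : ℝ} (h : ∀ x : ℤ, ¬ (q : ℤ) ∣ x → |f x| ≤ C)
    (i : ℕ) : ∀ x : ℤ, ¬ (q : ℤ) ∣ x → |(κ.P)^[i] f x| ≤ C := by
  induction i with
  | zero => exact h
  | succ i ih =>
    intro x hx
    rw [Function.iterate_succ_apply', abs_le]
    constructor
    · have := P_mono κ (f := fun _ => -C) (g := (κ.P)^[i] f)
        (fun y hy => (abs_le.mp (ih y hy)).1) hx
      rwa [P_const κ _ hx] at this
    · have := P_mono κ (g := fun _ => C) (f := (κ.P)^[i] f)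
        (fun y hy => (abs_le.mp (ih y hy)).2) hx
      rwa [P_const κ _ hx] at this

/-- the corrector: `ψ - m = h - P h + err` -/
theorem corrector (κ : Ker q R) {ψ : ℤ → ℝ} {C m ε : ℝ} (hC0 : 0 ≤ C)
    (hC : ∀ x : ℤ, ¬ (q : ℤ) ∣ x → |ψ x - m| ≤ C) {N : ℕ} (hN : 1 ≤ N)
    (hε : ∀ x : ℤ, ¬ (q : ℤ) ∣ x → |∑ i ∈ range N, (κ.P)^[i] ψ x - N * m| ≤ ε * N) :
    ∃ (h : ℤ → ℝ) (H : ℝ), 0 ≤ H ∧ (∀ x : ℤ, ¬ (q : ℤ) ∣ x → |h x| ≤ H) ∧
      ∀ x : ℤ, ¬ (q : ℤ) ∣ x → |ψ x - m + κ.P h x - h x| ≤ ε := by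
  have hNpos : (0 : ℝ) < N := by exact_mod_cast hN
  refine ⟨fun x => (∑ k ∈ range N, ∑ i ∈ range k, (κ.P)^[i] (fun y => ψ y - m) x) / N, N * C,
    by positivity, ?_, ?_⟩
  · intro x hx
    rw [abs_div, abs_of_pos hNpos, div_le_iff₀ hNpos]
    calc |∑ k ∈ range N, ∑ i ∈ range k, (κ.P)^[i] (fun y => ψ y - m) x|
        ≤ ∑ k ∈ range N, |∑ i ∈ range k, (κ.P)^[i] (fun y => ψ y - m) x| :=
          Finset.abs_sum_le_sum_abs _ _
      _ ≤ ∑ k ∈ range N, (N * C : ℝ) := by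
          refine Finset.sum_le_sum fun k hk => ?_
          calc |∑ i ∈ range k, (κ.P)^[i] (fun y => ψ y - m) x|
              ≤ ∑ i ∈ range k, |(κ.P)^[i] (fun y => ψ y - m) x| := Finset.abs_sum_le_sum_abs _ _
            _ ≤ ∑ i ∈ range k, C := Finset.sum_le_sum fun i _ => iter_bound κ hC i x hx
            _ = k * C := by rw [Finset.sum_const, card_range, nsmul_eq_mul]
            _ ≤ N * C := by
              have : (k : ℝ) ≤ N := by exact_mod_cast (mem_range.mp hk).le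
              nlinarith
      _ = N * C * N := by rw [Finset.sum_const, card_range, nsmul_eq_mul]; ring
  · intro x hx
    have h1 : κ.P (fun x => (∑ k ∈ range N, ∑ i ∈ range k, (κ.P)^[i] (fun y => ψ y - m) x) / N) x =
        (∑ k ∈ range N, ∑ i ∈ range k, (κ.P)^[i + 1] (fun y => ψ y - m) x) / N := by
      have : (fun x => (∑ k ∈ range N, ∑ i ∈ range k, (κ.P)^[i] (fun y => ψ y - m) x) / (N : ℝ)) =
          fun x => (1 / (N : ℝ)) * ∑ k ∈ range N, ∑ i ∈ range k, (κ.P)^[i] (fun y => ψ y - m) x := by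
        funext x; ring
      rw [this, P_mul, P_sum, one_div, inv_mul_eq_div]
      congr 1
      refine Finset.sum_congr rfl fun k _ => ?_
      rw [P_sum]
      refine Finset.sum_congr rfl fun i _ => ?_
      rw [Function.iterate_succ_apply']
    have h2 : ∀ k, ∑ i ∈ range k, (κ.P)^[i + 1] (fun y => ψ y - m) x -
        ∑ i ∈ range k, (κ.P)^[i] (fun y => ψ y - m) x =
        (κ.P)^[k] (fun y => ψ y - m) x - (ψ x - m) := by
      intro k
      rw [← Finset.sum_sub_distrib, Finset.sum_range_sub (fun i => (κ.P)^[i] (fun y => ψ y - m) x)]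
      rfl
    have h3 : ψ x - m + κ.P (fun x => (∑ k ∈ range N, ∑ i ∈ range k,
        (κ.P)^[i] (fun y => ψ y - m) x) / N) x -
        (∑ k ∈ range N, ∑ i ∈ range k, (κ.P)^[i] (fun y => ψ y - m) x) / N =
        (∑ k ∈ range N, (κ.P)^[k] ψ x - N * m) / N := by
      rw [h1, add_sub_assoc, ← sub_div, ← Finset.sum_sub_distrib,
        Finset.sum_congr rfl fun k _ => h2 k, Finset.sum_sub_distrib,
        Finset.sum_congr rfl fun k _ => iter_sub_const κ ψ m k x hx, Finset.sum_sub_distrib]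
      simp only [Finset.sum_const, card_range, nsmul_eq_mul]
      field_simp
      ring
    rw [h3, abs_div, abs_of_pos hNpos, div_le_iff₀ hNpos]
    exact hε x hx

/-- exponential moments of the sums of `ψ` along the paths of the kernel -/
noncomputable def UU (κ : Ker q R) (ψ : ℤ → ℝ) : ℕ → ℤ → ℝ
  | 0 => fun _ => 1
  | k + 1 => fun x => Real.exp (ψ x) * κ.P (UU κ ψ k) x

theorem exp_le_quad {u : ℝ} (hu : |u| ≤ 1) : Real.exp u ≤ 1 + u + u ^ 2 := by
  have := Real.abs_exp_sub_one_sub_id_le hu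
  have := (abs_le.mp this).2
  linarith

theorem UU_le (κ : Ker q R) {ψ h : ℤ → ℝ} {m ε H t : ℝ} (ht : 0 ≤ t)
    (hh : ∀ x : ℤ, ¬ (q : ℤ) ∣ x → |h x| ≤ H)
    (he : ∀ x : ℤ, ¬ (q : ℤ) ∣ x → |ψ x - m + κ.P h x - h x| ≤ ε) (htH : t * H ≤ 1) (k : ℕ) :
    ∀ x : ℤ, ¬ (q : ℤ) ∣ x → UU κ (fun y => t * ψ y) k x ≤
      Real.exp (t * (h x + H)) * Real.exp (k * (t * (m + ε) + (t * H) ^ 2)) := by
  induction k with
  | zero =>
    intro x hx
    have := (abs_le.mp (hh x hx)).1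
    simp only [UU, Nat.cast_zero, zero_mul, Real.exp_zero, mul_one]
    apply Real.one_le_exp
    apply mul_nonneg ht; linarith
  | succ k ih =>
    intro x hx
    have h1 : κ.P (UU κ (fun y => t * ψ y) k) x ≤
        Real.exp (k * (t * (m + ε) + (t * H) ^ 2)) * Real.exp (t * H) * 
          κ.P (fun y => 1 + t * h y + (t * H) ^ 2) x := by
      rw [← P_mul]
      refine P_mono κ (fun y hy => (ih y hy).trans ?_) hx
      have hb := hh y hy
      have h2 : Real.exp (t * h y) ≤ 1 + t * h y + (t * H) ^ 2 := by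
        have h3 : |t * h y| ≤ t * H := by
          rw [abs_mul, abs_of_nonneg ht]; exact mul_le_mul_of_nonneg_left hb ht
        have h4 := exp_le_quad (h3.trans htH)
        have h5 : (t * h y) ^ 2 ≤ (t * H) ^ 2 := by
          rw [← sq_abs (t * h y)]
          exact pow_le_pow_left₀ (abs_nonneg _) h3 2
        linarith
      rw [mul_add, Real.exp_add]
      have h6 : 0 < Real.exp (k * (t * (m + ε) + (t * H) ^ 2)) := Real.exp_pos _
      have h7 : 0 < Real.exp (t * H) := Real.exp_pos _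
      calc Real.exp (t * h y) * Real.exp (t * H) * Real.exp (k * (t * (m + ε) + (t * H) ^ 2))
          = Real.exp (k * (t * (m + ε) + (t * H) ^ 2)) * Real.exp (t * H) * Real.exp (t * h y) := by
            ring
        _ ≤ _ := mul_le_mul_of_nonneg_left h2 (by positivity)
    have h8 : κ.P (fun y => 1 + t * h y + (t * H) ^ 2) x = 1 + t * κ.P h x + (t * H) ^ 2 := by
      rw [P_add, P_add, P_mul, P_const κ _ hx, P_const κ _ hx]
    have h9 : 1 + t * κ.P h x + (t * H) ^ 2 ≤ Real.exp (t * κ.P h x + (t * H) ^ 2) := by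
      have := Real.add_one_le_exp (t * κ.P h x + (t * H) ^ 2)
      linarith
    rw [h8] at h1
    simp only [UU]
    calc Real.exp (t * ψ x) * κ.P (UU κ (fun y => t * ψ y) k) x
        ≤ Real.exp (t * ψ x) * (Real.exp (k * (t * (m + ε) + (t * H) ^ 2)) * Real.exp (t * H) *
            Real.exp (t * κ.P h x + (t * H) ^ 2)) := by
          refine mul_le_mul_of_nonneg_left (h1.trans ?_) (Real.exp_pos _).le
          exact mul_le_mul_of_nonneg_left h9 (by positivity)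
      _ = Real.exp (t * (ψ x + κ.P h x) + t * H + (k * (t * (m + ε) + (t * H) ^ 2) + (t * H) ^ 2)) := by
          rw [← Real.exp_add, ← Real.exp_add, ← Real.exp_add]; congr 1; ring
      _ ≤ Real.exp (t * (h x + H)) * Real.exp ((k + 1 : ℕ) * (t * (m + ε) + (t * H) ^ 2)) := by
          rw [← Real.exp_add]
          apply Real.exp_le_exp.mpr
          have h10 := (abs_le.mp (he x hx)).2
          have h11 : ψ x + κ.P h x ≤ h x + m + ε := by linarith
          have h12 := mul_le_mul_of_nonneg_left h11 ht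
          push_cast
          nlinarith

theorem UU_nonneg (κ : Ker q R) (ψ : ℤ → ℝ) (k : ℕ) : ∀ x, 0 ≤ UU κ ψ k x := by
  induction k with
  | zero => intro x; simp [UU]
  | succ k ih =>
    intro x
    simp only [UU]
    refine mul_nonneg (Real.exp_pos _).le ?_
    unfold Ker.P
    exact div_nonneg (Finset.sum_nonneg fun b _ => ih b) (Nat.cast_nonneg _)

theorem periodic_bdd (hq : 0 < q) {ψ : ℤ → ℝ}
    (hψ : ∀ x y : ℤ, ¬ (q : ℤ) ∣ x → ψ (x + (q : ℤ) ^ (R + 1) * y) = ψ x) :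
    ∃ C : ℝ, 0 ≤ C ∧ ∀ x : ℤ, ¬ (q : ℤ) ∣ x → |ψ x| ≤ C := by
  refine ⟨∑ r ∈ range (q ^ (R + 1)), |ψ (r : ℤ)|, Finset.sum_nonneg fun _ _ => abs_nonneg _, ?_⟩
  intro x hx
  have hQ : (0 : ℤ) < (q : ℤ) ^ (R + 1) := by positivity
  set r := x % (q : ℤ) ^ (R + 1) with hr
  have hr0 : 0 ≤ r := Int.emod_nonneg _ hQ.ne'
  have hr1 : r < (q : ℤ) ^ (R + 1) := Int.emod_lt_of_pos _ hQ
  have hx' : r + (q : ℤ) ^ (R + 1) * (x / (q : ℤ) ^ (R + 1)) = x := Int.emod_add_mul_ediv _ _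
  have hrx : ¬ (q : ℤ) ∣ r := by
    intro h
    apply hx
    rw [← hx']
    exact dvd_add h (Dvd.dvd.mul_right (dvd_pow_self _ (Nat.succ_ne_zero _)) _)
  have h1 := hψ r (x / (q : ℤ) ^ (R + 1)) hrx
  rw [hx'] at h1
  rw [h1]
  obtain ⟨k, hk⟩ := Int.eq_ofNat_of_zero_le hr0
  rw [hk]
  refine Finset.single_le_sum (f := fun r : ℕ => |ψ (r : ℤ)|) (fun _ _ => abs_nonneg _) ?_
  rw [mem_range]
  rw [hk] at hr1
  exact_mod_cast hr1

theorem expmom (κ : Ker q R) (hq : 0 < q) {ψ : ℤ → ℝ} {m : ℝ}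
    (hψ : ∀ x y : ℤ, ¬ (q : ℤ) ∣ x → ψ (x + (q : ℤ) ^ (R + 1) * y) = ψ x)
    (herg : ∀ ε : ℝ, 0 < ε → ∃ N : ℕ, 1 ≤ N ∧ ∀ x : ℤ, ¬ (q : ℤ) ∣ x →
        |∑ i ∈ range N, (κ.P)^[i] ψ x - N * m| ≤ ε * N) {δ : ℝ} (hδ : 0 < δ) :
    ∃ t₀ : ℝ, 0 < t₀ ∧ ∀ t : ℝ, 0 < t → t ≤ t₀ → ∃ C : ℝ, 0 < C ∧ ∀ (k : ℕ) (x : ℤ),
      ¬ (q : ℤ) ∣ x → UU κ (fun y => t * ψ y) k x ≤ C * Real.exp (k * (t * (m + δ))) := by
  obtain ⟨N, hN, hN2⟩ := herg (δ / 2) (by positivity)
  obtain ⟨C, hC0, hC⟩ := periodic_bdd hq hψ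
  obtain ⟨h, H, hH0, hH, he⟩ := corrector κ (C := C + |m|) (by positivity)
    (fun x hx => (abs_sub _ _).trans (by linarith [hC x hx])) hN hN2
  refine ⟨min (1 / (H + 1)) (δ / (2 * (H + 1) ^ 2)), by positivity, ?_⟩
  intro t ht ht0
  have h1 : t * (H + 1) ≤ 1 := by
    have := ht0.trans (min_le_left _ _)
    rwa [le_div_iff₀ (by positivity)] at this
  have h2 : t * (H + 1) ^ 2 ≤ δ / 2 := by
    have := ht0.trans (min_le_right _ _)
    rw [le_div_iff₀ (by positivity)] at this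
    linarith
  refine ⟨Real.exp (t * (2 * H)), Real.exp_pos _, ?_⟩
  intro k x hx
  refine (UU_le κ ht.le hH he (by nlinarith) k x hx).trans ?_
  have h3 := (abs_le.mp (hH x hx)).2
  refine mul_le_mul (Real.exp_le_exp.mpr ?_) (Real.exp_le_exp.mpr ?_) (Real.exp_pos _).le
    (Real.exp_pos _).le
  · apply mul_le_mul_of_nonneg_left _ ht.le; linarith
  · apply mul_le_mul_of_nonneg_left _ (Nat.cast_nonneg _)
    have h4 : (t * H) ^ 2 ≤ t * (δ / 2) := by
      have h5 : t * H ^ 2 ≤ t * (H + 1) ^ 2 := mul_le_mul_of_nonneg_left (by nlinarith) ht.le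
      have : (t * H) ^ 2 ≤ t * (t * (H + 1) ^ 2) := by
        rw [show (t * H) ^ 2 = t * (t * H ^ 2) by ring]
        exact mul_le_mul_of_nonneg_left h5 ht.le
      exact this.trans (mul_le_mul_of_nonneg_left h2 ht.le)
    nlinarith


open scoped Classical in
/-- number of live words of length `n` whose size lies in the window `[lo, hi]` -/
noncomputable def BB (q E n : ℕ) (x : ℤ) (lo hi : ℝ) : ℕ :=
  ((FW E n).filter (fun w => lo ≤ (w.sum : ℝ) ∧ (w.sum : ℝ) ≤ hi ∧ Lv q w x)).card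

theorem BB_mono {E n : ℕ} {x : ℤ} {lo hi lo' hi' : ℝ} (h1 : lo' ≤ lo) (h2 : hi ≤ hi') :
    BB q E n x lo hi ≤ BB q E n x lo' hi' := by
  classical
  unfold BB
  refine card_le_card fun w hw => ?_
  simp only [mem_filter] at hw ⊢
  exact ⟨hw.1, h1.trans hw.2.1, hw.2.2.1.trans h2, hw.2.2.2⟩

theorem BB_zero {E : ℕ} {x : ℤ} (hx : ¬ (q : ℤ) ∣ x) {lo hi : ℝ} (h1 : lo ≤ 0) (h2 : 0 ≤ hi) :
    BB q E 0 x lo hi = 1 := by
  classical
  unfold BB
  have : (FW E 0).filter (fun w => lo ≤ (w.sum : ℝ) ∧ (w.sum : ℝ) ≤ hi ∧ Lv q w x) = {[]} := by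
    ext w
    simp only [FW, mem_filter, mem_singleton]
    constructor
    · exact fun h => h.1
    · rintro rfl
      refine ⟨rfl, by simpa using h1, by simpa using h2, ?_, ?_⟩
      · simp [Vd, Wq]
      · simpa [Ep, Wq] using hx
  rw [this, card_singleton]

/-- one step of the kernel -/
theorem BB_step (κ : Ker q R) (hq : q.Prime) (hq2 : q ≠ 2) {E : ℕ} 
    (htr : ∀ x b : ℤ, ¬ (q : ℤ) ∣ x → b ∈ κ.K x → b ∈ tr q E R (κ.S x) x) {x : ℤ}
    (hx : ¬ (q : ℤ) ∣ x) (n : ℕ) (lo hi : ℝ) :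
    ∑ b ∈ κ.K x, BB q E n b (lo - κ.S x) (hi - κ.S x) ≤ BB q E (R + n) x lo hi := by
  classical
  have h1 : ∀ b ∈ κ.K x, ∃ w ∈ FW E R, w.sum = κ.S x ∧ Vd q w x ∧ Ep q w x = b := fun b hb =>
    (mem_tr_iff hq hq2).mp (htr x b hx hb)
  choose! wd hwd using h1
  unfold BB
  rw [← Finset.card_sigma]
  refine Finset.card_le_card_of_injOn (fun p : (Σ _ : ℤ, List ℕ) => wd p.1 ++ p.2) ?_ ?_
  · rintro ⟨b, v⟩ hp
    simp only [coe_sigma, Set.mem_sigma_iff, mem_coe, mem_filter] at hp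
    obtain ⟨hb, hv, h2, h3, h4⟩ := hp
    obtain ⟨hw1, hw2, hw3, hw4⟩ := hwd b hb
    simp only [mem_coe, mem_filter]
    rw [mem_FW] at hw1 hv ⊢
    refine ⟨⟨by simp [hw1.1, hv.1], ?_⟩, ?_, ?_, ?_, ?_⟩
    · intro e he
      rcases List.mem_append.mp he with h | h
      · exact hw1.2 e h
      · exact hv.2 e h
    · rw [List.sum_append, hw2, Nat.cast_add]; linarith
    · rw [List.sum_append, hw2, Nat.cast_add]; linarith
    · rw [Vd_append hq hq2, hw4]; exact ⟨hw3, h4.1⟩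
    · rw [Ep_append hq hq2 hw3, hw4]; exact h4.2
  · rintro ⟨b, v⟩ hp ⟨b', v'⟩ hp' heq
    simp only [coe_sigma, Set.mem_sigma_iff, mem_coe, mem_filter] at hp hp'
    obtain ⟨hw1, hw2, hw3, hw4⟩ := hwd b hp.1
    obtain ⟨hw1', hw2', hw3', hw4'⟩ := hwd b' hp'.1
    rw [mem_FW] at hw1 hw1'
    simp only at heq
    obtain ⟨h5, h6⟩ := List.append_inj heq (hw1.1.trans hw1'.1.symm)
    have h7 : b = b' := by rw [← hw4, ← hw4', h5]
    subst h7
    subst h6
    rfl

/-- appending one letter -/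
theorem BB_letter (hq : q.Prime) (hq2 : q ≠ 2) (hP : Prim q) {E : ℕ} (hE : q * (q - 1) ≤ E)
    {x : ℤ} (n : ℕ) (lo hi : ℝ) :
    BB q E n x lo hi ≤ BB q E (n + 1) x lo (hi + E) := by
  classical
  have h1 : ∀ w : List ℕ, Lv q w x → ∃ e ∈ Finset.Icc 1 (q * (q - 1)), Lv q [e] (Ep q w x) := by
    intro w hw
    obtain ⟨e, he, he2, -⟩ := Prim.exists_letter hP hq hq2 (d := 1) hw.2 (by
      intro h
      have := Int.eq_one_of_dvd_one (by positivity) h
      have h2 := hq.one_lt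
      omega)
    exact ⟨e, he, he2⟩
  choose! le hle using h1
  unfold BB
  refine Finset.card_le_card_of_injOn (fun w => w ++ [le w]) ?_ ?_
  · intro w hw
    simp only [mem_coe, mem_filter] at hw ⊢
    obtain ⟨hw1, hw2, hw3, hw4⟩ := hw
    obtain ⟨he, hlv⟩ := hle w hw4
    rw [mem_Icc] at he
    rw [mem_FW] at hw1 ⊢
    have h3 : ((le w : ℕ) : ℝ) ≤ E := by exact_mod_cast he.2.trans hE
    refine ⟨⟨by simp [hw1.1], ?_⟩, ?_, ?_, ?_, ?_⟩
    · intro e he'
      rcases List.mem_append.mp he' with h | h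
      · exact hw1.2 e h
      · rw [List.mem_singleton] at h
        subst h
        exact ⟨he.1, he.2.trans hE⟩
    · rw [List.sum_append, List.sum_singleton, Nat.cast_add]
      have : (0 : ℝ) ≤ (le w : ℕ) := Nat.cast_nonneg _
      linarith
    · rw [List.sum_append, List.sum_singleton, Nat.cast_add]; linarith
    · rw [Vd_append hq hq2]; exact ⟨hw4.1, hlv.1⟩
    · rw [Ep_append hq hq2 hw4.1]; exact hlv.2
  · intro w hw w' hw' heq
    simp only [mem_coe, mem_filter, mem_FW] at hw hw'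
    exact (List.append_inj heq (hw.1.1.trans hw'.1.1.symm)).1

theorem BB_letters (hq : q.Prime) (hq2 : q ≠ 2) (hP : Prim q) {E : ℕ} (hE : q * (q - 1) ≤ E)
    {x : ℤ} (n r : ℕ) (lo hi : ℝ) :
    BB q E n x lo hi ≤ BB q E (n + r) x lo (hi + r * E) := by
  induction r with
  | zero => simp
  | succ r ih =>
    refine ih.trans ((BB_letter hq hq2 hP hE (n + r) lo (hi + r * E)).trans (le_of_eq ?_))
    rw [Nat.add_assoc, Nat.cast_succ]
    congr 1
    ring

/-- pigeonhole over the size -/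
theorem BB_pigeon {E n : ℕ} {x : ℤ} {lo hi : ℝ} (h : 0 < BB q E n x lo hi) :
    ∃ s : ℕ, lo ≤ (s : ℝ) ∧ (s : ℝ) ≤ hi ∧ BB q E n x lo hi ≤ (n * E + 1) * Nq q E n s x := by
  classical
  set A := (FW E n).filter (fun w => lo ≤ (w.sum : ℝ) ∧ (w.sum : ℝ) ≤ hi ∧ Lv q w x) with hA
  have hBA : BB q E n x lo hi = A.card := rfl
  have hmaps : ∀ w ∈ A, w.sum ∈ range (n * E + 1) := by
    intro w hw
    rw [hA, mem_filter, mem_FW] at hw
    rw [mem_range]
    have := List.sum_le_card_nsmul w E (fun e he => (hw.1.2 e he).2)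
    rw [hw.1.1, smul_eq_mul] at this
    omega
  have hne : A.Nonempty := card_pos.mp (hBA ▸ h)
  obtain ⟨s, hs, hs2⟩ := Finset.exists_le_card_fiber_of_nsmul_le_card_of_maps_to (M := ℝ)
    (b := (A.card : ℝ) / (n * E + 1 : ℕ)) hmaps (by simp) (by
      rw [card_range, nsmul_eq_mul, mul_div_cancel₀]
      positivity)
  have hApos : (0 : ℝ) < A.card := by exact_mod_cast card_pos.mpr hne
  have h2 : (0 : ℝ) < ({x ∈ A | x.sum = s}.card : ℝ) := lt_of_lt_of_le (by positivity) hs2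
  have h3 : 0 < {x ∈ A | x.sum = s}.card := by exact_mod_cast h2
  obtain ⟨w, hw⟩ := card_pos.mp h3
  rw [mem_filter, hA, mem_filter] at hw
  refine ⟨s, ?_, ?_, ?_⟩
  · rw [← hw.2]; exact hw.1.2.1
  · rw [← hw.2]; exact hw.1.2.2.1
  · rw [hBA]
    have h4 : {x ∈ A | x.sum = s}.card ≤ Nq q E n s x := by
      unfold Nq
      refine card_le_card fun v hv => ?_
      rw [mem_filter, hA, mem_filter] at hv
      rw [mem_filter]
      exact ⟨hv.1.1, hv.2, hv.1.2.2.2⟩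
    have h5 : (A.card : ℝ) ≤ (n * E + 1 : ℕ) * ({x ∈ A | x.sum = s}.card : ℝ) := by
      rwa [div_le_iff₀ (by positivity), mul_comm] at hs2
    have h6 : A.card ≤ (n * E + 1) * {x ∈ A | x.sum = s}.card := by exact_mod_cast h5
    exact h6.trans (Nat.mul_le_mul_left _ h4)


theorem avU_neg (f : ℤ → ℝ) : avU q R (fun x => -f x) = -avU q R f := by
  unfold avU
  rw [Finset.sum_neg_distrib, neg_div]

theorem K_card_shift (κ : Ker q R) {x : ℤ} (y : ℤ) (hx : ¬ (q : ℤ) ∣ x) :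
    (κ.K (x + (q : ℤ) ^ (R + 1) * y)).card = (κ.K x).card := by
  symm
  refine Finset.card_bij (fun b _ => b + 2 ^ (κ.S x) * ((q : ℤ) * y)) ?_ ?_ ?_
  · intro b hb
    exact (κ.hK x y b hx).mpr hb
  · intro b _ b' _ h
    exact add_right_cancel h
  · intro b hb
    refine ⟨b - 2 ^ (κ.S x) * ((q : ℤ) * y), ?_, by ring⟩
    rw [← κ.hK x y _ hx, sub_add_cancel]
    exact hb

/-- lower bound for the number of words through exponential moments -/
theorem count_lower (κ : Ker q R) (hq : q.Prime) (hq2 : q ≠ 2) {E : ℕ}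
    (htr : ∀ x b : ℤ, ¬ (q : ℤ) ∣ x → b ∈ κ.K x → b ∈ tr q E R (κ.S x) x) {t : ℝ} (ht : 0 < t)
    (k : ℕ) : ∀ (x : ℤ), ¬ (q : ℤ) ∣ x → ∀ (lo hi L : ℝ),
      Real.exp L * (1 - Real.exp (-(t * hi)) * UU κ (fun y => t * (κ.S y : ℝ)) k x
        - Real.exp (t * lo) * UU κ (fun y => t * -(κ.S y : ℝ)) k x
        - Real.exp (t * L) * UU κ (fun y => t * -Real.log (κ.K y).card) k x) ≤
      (BB q E (k * R) x lo hi : ℝ) := by
  induction k with
  | zero =>
    intro x hx lo hi L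
    simp only [UU, mul_one, zero_mul]
    have e1 := Real.exp_pos (-(t * hi))
    have e2 := Real.exp_pos (t * lo)
    have e3 := Real.exp_pos (t * L)
    have e4 := Real.exp_pos L
    by_cases h1 : lo ≤ 0
    · by_cases h2 : 0 ≤ hi
      · rw [BB_zero hx h1 h2, Nat.cast_one]
        rcases le_or_gt L 0 with hL | hL
        · have h3 : Real.exp L ≤ 1 := Real.exp_le_one_iff.mpr hL
          nlinarith
        · have h3 : 1 ≤ Real.exp (t * L) := Real.one_le_exp (by positivity)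
          nlinarith
      · have h3 : 1 ≤ Real.exp (-(t * hi)) := Real.one_le_exp (by rw [not_le] at h2; nlinarith)
        have h4 : (0 : ℝ) ≤ (BB q E 0 x lo hi : ℝ) := Nat.cast_nonneg _
        nlinarith
    · have h3 : 1 ≤ Real.exp (t * lo) := Real.one_le_exp (by rw [not_le] at h1; nlinarith)
      have h4 : (0 : ℝ) ≤ (BB q E 0 x lo hi : ℝ) := Nat.cast_nonneg _
      nlinarith
  | succ k ih =>
    intro x hx lo hi L
    have hcp := Kcard_pos κ hx
    have h1 := BB_step κ hq hq2 htr hx (k * R) lo hi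
    rw [show (k + 1) * R = R + k * R by ring]
    refine le_trans ?_ (Nat.cast_le.mpr h1)
    rw [Nat.cast_sum]
    have h2 : ∀ b ∈ κ.K x, Real.exp L / (κ.K x).card *
        (1 - Real.exp (-(t * hi)) * Real.exp (t * (κ.S x : ℝ)) * UU κ (fun y => t * (κ.S y : ℝ)) k b
        - Real.exp (t * lo) * Real.exp (t * -(κ.S x : ℝ)) * UU κ (fun y => t * -(κ.S y : ℝ)) k b
        - Real.exp (t * L) * Real.exp (t * -Real.log (κ.K x).card) *
          UU κ (fun y => t * -Real.log (κ.K y).card) k b) ≤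
        (BB q E (k * R) b (lo - κ.S x) (hi - κ.S x) : ℝ) := by
      intro b hb
      refine le_trans (le_of_eq ?_) (ih b (κ.hlive x b hx hb) (lo - κ.S x) (hi - κ.S x)
        (L - Real.log (κ.K x).card))
      rw [Real.exp_sub L, Real.exp_log hcp, ← Real.exp_add, ← Real.exp_add, ← Real.exp_add]
      congr 2
      · congr 2
        · congr 2; ring
        · congr 2; ring
      · congr 2; ring
    refine le_trans (le_of_eq ?_) (Finset.sum_le_sum h2)
    rw [← Finset.mul_sum, Finset.sum_sub_distrib, Finset.sum_sub_distrib, Finset.sum_sub_distrib,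
      ← Finset.mul_sum, ← Finset.mul_sum, ← Finset.mul_sum, Finset.sum_const, nsmul_eq_mul, mul_one]
    simp only [UU, Ker.P]
    field_simp

end K3

open K3 in
theorem all_of_kernel {q E R : ℕ} (κ : Ker q R) (hq : q.Prime) (hq2 : q ≠ 2) (hR : 1 ≤ R)
    (hE : q * (q - 1) ≤ E) (hP : Prim q)
    (htr : ∀ x b : ℤ, ¬ (q : ℤ) ∣ x → b ∈ κ.K x → b ∈ tr q E R (κ.S x) x)
    (herg : ∀ φ : ℤ → ℝ, (∀ x y : ℤ, ¬ (q : ℤ) ∣ x → φ (x + (q : ℤ) ^ (R + 1) * y) = φ x) →
      ∀ ε : ℝ, 0 < ε → ∃ N : ℕ, 1 ≤ N ∧ ∀ x : ℤ, ¬ (q : ℤ) ∣ x →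
        |∑ i ∈ range N, (κ.P)^[i] φ x - N * avU q R φ| ≤ ε * N) :
    Pr q E (avU q R (fun x => Real.log ((κ.K x).card)) / R) (avU q R (fun x => (κ.S x : ℝ)) / R) := by
  intro ε hε
  set mS := avU q R (fun x => (κ.S x : ℝ)) with hmS
  set mc := avU q R (fun x => Real.log ((κ.K x).card)) with hmc
  obtain ⟨t1, ht1, H1⟩ := expmom κ hq.pos (ψ := fun x => (κ.S x : ℝ)) (m := mS)
    (fun x y hx => by simp only [κ.hS x y hx]) (herg _ fun x y hx => by simp only [κ.hS x y hx])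
    (show 0 < ε / 4 by positivity)
  obtain ⟨t2, ht2, H2⟩ := expmom κ hq.pos (ψ := fun x => -(κ.S x : ℝ)) (m := -mS)
    (fun x y hx => by simp only [κ.hS x y hx])
    (by rw [hmS, ← avU_neg]; exact herg _ fun x y hx => by simp only [κ.hS x y hx])
    (show 0 < ε / 4 by positivity)
  obtain ⟨t3, ht3, H3⟩ := expmom κ hq.pos (ψ := fun x => -Real.log (κ.K x).card) (m := -mc)
    (fun x y hx => by simp only [K_card_shift κ y hx])
    (by rw [hmc, ← avU_neg]; exact herg _ fun x y hx => by simp only [K_card_shift κ y hx])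
    (show 0 < ε / 4 by positivity)
  set t := min t1 (min t2 t3) with htdef
  have ht : 0 < t := by positivity
  obtain ⟨C1, hC1, H1⟩ := H1 t ht (min_le_left _ _)
  obtain ⟨C2, hC2, H2⟩ := H2 t ht ((min_le_right _ _).trans (min_le_left _ _))
  obtain ⟨C3, hC3, H3⟩ := H3 t ht ((min_le_right _ _).trans (min_le_right _ _))
  -- lower bound for the count at multiples of `R`
  have key : ∃ k₀ : ℕ, ∀ k : ℕ, k₀ ≤ k → ∀ x : ℤ, ¬ (q : ℤ) ∣ x →
      Real.exp (k * (mc - ε / 2)) / 2 ≤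
        (BB q E (k * R) x (k * (mS - ε / 2)) (k * (mS + ε / 2)) : ℝ) := by
    obtain ⟨k₀, hk₀⟩ := exists_nat_ge (2 * (C1 + C2 + C3) / (t * (ε / 4)))
    refine ⟨k₀, fun k hk x hx => ?_⟩
    refine le_trans ?_ (count_lower κ hq hq2 htr ht k x hx _ _ (k * (mc - ε / 2)))
    have e0 := Real.exp_pos (k * (mc - ε / 2))
    have a1 : Real.exp (-(t * (k * (mS + ε / 2)))) * UU κ (fun y => t * (κ.S y : ℝ)) k x ≤
        C1 * Real.exp (-(k * (t * (ε / 4)))) := by
      refine (mul_le_mul_of_nonneg_left (H1 k x hx) (Real.exp_pos _).le).trans (le_of_eq ?_)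
      rw [mul_left_comm, ← Real.exp_add]; congr 2; ring
    have a2 : Real.exp (t * (k * (mS - ε / 2))) * UU κ (fun y => t * -(κ.S y : ℝ)) k x ≤
        C2 * Real.exp (-(k * (t * (ε / 4)))) := by
      refine (mul_le_mul_of_nonneg_left (H2 k x hx) (Real.exp_pos _).le).trans (le_of_eq ?_)
      rw [mul_left_comm, ← Real.exp_add]; congr 2; ring
    have a3 : Real.exp (t * (k * (mc - ε / 2))) * UU κ (fun y => t * -Real.log (κ.K y).card) k x ≤
        C3 * Real.exp (-(k * (t * (ε / 4)))) := by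
      refine (mul_le_mul_of_nonneg_left (H3 k x hx) (Real.exp_pos _).le).trans (le_of_eq ?_)
      rw [mul_left_comm, ← Real.exp_add]; congr 2; ring
    have a4 : (C1 + C2 + C3) * Real.exp (-(k * (t * (ε / 4)))) ≤ 1 / 2 := by
      rw [Real.exp_neg, ← div_eq_mul_inv, div_le_iff₀ (Real.exp_pos _)]
      have h1 : 2 * (C1 + C2 + C3) ≤ k * (t * (ε / 4)) := by
        have : 2 * (C1 + C2 + C3) / (t * (ε / 4)) ≤ k := hk₀.trans (by exact_mod_cast hk)
        rwa [div_le_iff₀ (by positivity)] at this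
      have h2 := Real.add_one_le_exp (k * (t * (ε / 4)))
      linarith
    rw [div_eq_mul_one_div]
    apply mul_le_mul_of_nonneg_left _ e0.le
    nlinarith
  obtain ⟨k₀, key⟩ := key
  obtain ⟨n1, hn1⟩ := exists_nat_ge ((R * E + |mS| + 1) / (ε / 2))
  obtain ⟨n2, hn2⟩ := exists_nat_ge (16 * ((E + 1) * Real.exp |mc|) / ε ^ 2)
  refine ⟨max (max (k₀ * R) n1) (max n2 1), fun n hn x hx => ?_⟩
  have hn_1 : k₀ * R ≤ n := (le_max_left _ _).trans ((le_max_left _ _).trans hn)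
  have hn_2 : n1 ≤ n := (le_max_right _ _).trans ((le_max_left _ _).trans hn)
  have hn_3 : n2 ≤ n := (le_max_left _ _).trans ((le_max_right _ _).trans hn)
  have hn_4 : 1 ≤ n := (le_max_right _ _).trans ((le_max_right _ _).trans hn)
  have hRpos : (0 : ℝ) < R := by exact_mod_cast hR
  set k := n / R with hk
  set r := n % R with hr
  have hnk : n = k * R + r := by rw [hk, hr, mul_comm]; exact (Nat.div_add_mod n R).symm
  have hrR : r < R := Nat.mod_lt _ hR
  have hkk : k₀ ≤ k := by rw [hk, Nat.le_div_iff_mul_le hR]; exact hn_1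
  have hkn : k ≤ n := Nat.div_le_self _ _
  have hknR : (k : ℝ) ≤ n := by exact_mod_cast hkn
  have hk0 : (0 : ℝ) ≤ k := Nat.cast_nonneg _
  have hB := key k hkk x hx
  have hB2 : (BB q E (k * R) x (k * (mS - ε / 2)) (k * (mS + ε / 2)) : ℝ) ≤
      (BB q E n x (k * (mS - ε / 2)) (k * (mS + ε / 2) + r * E) : ℝ) := by
    have := BB_letters hq hq2 hP hE (x := x) (k * R) r (k * (mS - ε / 2)) (k * (mS + ε / 2))
    rw [← hnk] at this
    exact_mod_cast this
  have hBpos : 0 < BB q E n x (k * (mS - ε / 2)) (k * (mS + ε / 2) + r * E) := by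
    have : (0 : ℝ) < (BB q E n x (k * (mS - ε / 2)) (k * (mS + ε / 2) + r * E) : ℝ) :=
      lt_of_lt_of_le (by positivity) (hB.trans hB2)
    exact_mod_cast this
  obtain ⟨s, hs1, hs2, hs3⟩ := BB_pigeon hBpos
  have hnR : (n : ℝ) = k * R + r := by exact_mod_cast hnk
  have hrle : (r : ℝ) ≤ R := by exact_mod_cast hrR.le
  have hr0 : (0 : ℝ) ≤ r := Nat.cast_nonneg _
  have hE0 : (0 : ℝ) ≤ E := Nat.cast_nonneg _
  have hrR1 : (r : ℝ) / R ≤ 1 := by rw [div_le_one hRpos]; exact hrle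
  have hrR0 : 0 ≤ (r : ℝ) / R := by positivity
  refine ⟨s, ?_, ?_⟩
  · have h1 : mS / R * n = k * mS + mS * (r / R) := by
      rw [hnR]; field_simp
    have h2 : |mS * (r / R)| ≤ |mS| := by
      rw [abs_mul, abs_of_nonneg hrR0]
      exact mul_le_of_le_one_right (abs_nonneg _) hrR1
    have h3 := abs_le.mp h2
    have h4 : R * E + |mS| + 1 ≤ (n : ℝ) * (ε / 2) := by
      have : (R * E + |mS| + 1) / (ε / 2) ≤ (n : ℝ) := hn1.trans (by exact_mod_cast hn_2)
      rwa [div_le_iff₀ (by positivity)] at this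
    have h5 : (r : ℝ) * E ≤ R * E := mul_le_mul_of_nonneg_right hrle hE0
    have h6 : (k : ℝ) * (ε / 2) ≤ n * (ε / 2) := mul_le_mul_of_nonneg_right hknR (by positivity)
    have h7 : 0 ≤ (R : ℝ) * E := by positivity
    rw [h1, abs_le]
    constructor
    · nlinarith
    · nlinarith
  · have h1 : mc / R * n = k * mc + mc * (r / R) := by
      rw [hnR]; field_simp
    have h2 : mc * (r / R) ≤ |mc| := by
      refine (le_abs_self _).trans ?_
      rw [abs_mul, abs_of_nonneg hrR0]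
      exact mul_le_of_le_one_right (abs_nonneg _) hrR1
    have h3 : (2 * ((n * E + 1 : ℕ) : ℝ)) * Real.exp |mc| ≤ Real.exp (ε / 2 * n) := by
      have h4 : 16 * ((E + 1) * Real.exp |mc|) ≤ n * ε ^ 2 := by
        have : 16 * ((E + 1) * Real.exp |mc|) / ε ^ 2 ≤ (n : ℝ) :=
          hn2.trans (by exact_mod_cast hn_3)
        rwa [div_le_iff₀ (by positivity)] at this
      have hn_5 : (1 : ℝ) ≤ n := by exact_mod_cast hn_4
      have h5 := Real.quadratic_le_exp_of_nonneg (x := ε / 2 * n) (by positivity)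
      have h6 : 2 * ((n * E + 1 : ℕ) : ℝ) ≤ 2 * (n * (E + 1)) := by push_cast; nlinarith
      have h7 : (2 * ((n * E + 1 : ℕ) : ℝ)) * Real.exp |mc| ≤ 2 * (n * (E + 1)) * Real.exp |mc| :=
        mul_le_mul_of_nonneg_right h6 (Real.exp_pos _).le
      have h8 : 2 * (n * (E + 1)) * Real.exp |mc| = n / 8 * (16 * ((E + 1) * Real.exp |mc|)) := by
        ring
      have h9 : (n : ℝ) / 8 * (16 * ((E + 1) * Real.exp |mc|)) ≤ n / 8 * (n * ε ^ 2) :=
        mul_le_mul_of_nonneg_left h4 (by positivity)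
      have h10 : (0 : ℝ) ≤ ε / 2 * n := by positivity
      have h11 : (n : ℝ) / 8 * (n * ε ^ 2) = (ε / 2 * n) ^ 2 / 2 := by ring
      linarith
    have h4 : Real.exp (k * (mc - ε / 2)) / 2 ≤ (n * E + 1 : ℕ) * (Nq q E n s x : ℝ) := by
      refine (hB.trans hB2).trans ?_
      exact_mod_cast hs3
    have h5 : Real.exp ((mc / R - ε) * n) * Real.exp (ε / 2 * n) ≤
        Real.exp (k * (mc - ε / 2)) * Real.exp |mc| := by
      rw [← Real.exp_add, ← Real.exp_add]
      apply Real.exp_le_exp.mpr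
      have : (mc / R - ε) * n = k * mc + mc * (r / R) - ε * n := by rw [sub_mul, h1]
      rw [this]
      have h6 : (k : ℝ) * (ε / 2) ≤ n * (ε / 2) := mul_le_mul_of_nonneg_right hknR (by positivity)
      linarith
    have hX := Real.exp_pos |mc|
    have hN1 : (0 : ℝ) < 2 * ((n * E + 1 : ℕ) : ℝ) * Real.exp |mc| := by positivity
    have h6 : Real.exp ((mc / R - ε) * n) * (2 * ((n * E + 1 : ℕ) : ℝ) * Real.exp |mc|) ≤
        (Nq q E n s x : ℝ) * (2 * ((n * E + 1 : ℕ) : ℝ) * Real.exp |mc|) := by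
      calc Real.exp ((mc / R - ε) * n) * (2 * ((n * E + 1 : ℕ) : ℝ) * Real.exp |mc|)
          ≤ Real.exp ((mc / R - ε) * n) * Real.exp (ε / 2 * n) :=
            mul_le_mul_of_nonneg_left h3 (Real.exp_pos _).le
        _ ≤ Real.exp (k * (mc - ε / 2)) * Real.exp |mc| := h5
        _ ≤ (2 * ((n * E + 1 : ℕ) * (Nq q E n s x : ℝ))) * Real.exp |mc| :=
            mul_le_mul_of_nonneg_right (by linarith) hX.le
        _ = _ := by ring
    exact le_of_mul_le_mul_right h6 hN1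

namespace K3

variable {q : ℕ}

open scoped Classical in
theorem avU_ext {n : ℕ} {f g : ℤ → ℝ} (h : ∀ x : ℤ, ¬ (q : ℤ) ∣ x → f x = g x) :
    avU q n f = avU q n g := by
  unfold avU
  congr 1
  refine Finset.sum_congr rfl fun x hx => h _ ?_
  exact (Finset.mem_filter.mp hx).2

open scoped Classical in
theorem card_units (hq : q.Prime) (n : ℕ) :
    ((((Finset.range (q ^ (n + 1))).filter (fun x : ℕ => ¬ (q : ℤ) ∣ (x : ℤ))).card : ℕ) : ℝ) =
      (q - 1) * (q : ℝ) ^ n := by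
  have h1 : (Finset.range (q ^ (n + 1))).filter (fun x : ℕ => ¬ (q : ℤ) ∣ (x : ℤ)) =
      (Finset.range (q ^ (n + 1))).filter (fun x => (q ^ (n + 1)).Coprime x) := by
    ext x
    simp only [mem_filter, mem_range, and_congr_right_iff]
    intro _
    rw [Nat.coprime_pow_left_iff (Nat.succ_pos n), hq.coprime_iff_not_dvd, Int.natCast_dvd_natCast]
  rw [h1, ← Nat.totient_eq_card_coprime, Nat.totient_prime_pow_succ hq, Nat.cast_mul, Nat.cast_pow,
    Nat.cast_sub hq.one_lt.le, Nat.cast_one, mul_comm]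

open scoped Classical in
theorem avU_add_const (hq : q.Prime) {n : ℕ} (f : ℤ → ℝ) (c : ℝ) :
    avU q n (fun x => f x + c) = avU q n f + c := by
  have h1 : (0 : ℝ) < (q - 1) * (q : ℝ) ^ n := by
    have : (1 : ℝ) < q := by exact_mod_cast hq.one_lt
    have : (0 : ℝ) < (q : ℝ) ^ n := by positivity
    apply mul_pos _ this
    linarith
  unfold avU
  rw [Finset.sum_add_distrib, Finset.sum_const, nsmul_eq_mul, add_div, card_units hq,
    mul_div_cancel_left₀ _ h1.ne']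

theorem sum_periodic {F : ℕ → ℝ} {Q : ℕ} (hF : ∀ a b : ℕ, F (Q * b + a) = F a) (M : ℕ) :
    ∑ x ∈ range (Q * M), F x = M * ∑ x ∈ range Q, F x := by
  induction M with
  | zero => simp
  | succ M ih =>
    rw [Nat.mul_succ, Finset.sum_range_add, ih, Finset.sum_congr rfl fun x _ => hF x M]
    push_cast
    ring

open scoped Classical in
theorem avU_refine (hq : q.Prime) {n m : ℕ} {f : ℤ → ℝ}
    (hf : ∀ x y : ℤ, ¬ (q : ℤ) ∣ x → f (x + (q : ℤ) ^ (n + 1) * y) = f x) :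
    avU q (n + m) f = avU q n f := by
  have hq0 : (0 : ℝ) < q := by exact_mod_cast hq.pos
  have hq1 : (1 : ℝ) < q := by exact_mod_cast hq.one_lt
  unfold avU
  rw [Finset.sum_filter, Finset.sum_filter, show n + m + 1 = (n + 1) + m by ring, pow_add q (n + 1) m,
    sum_periodic]
  · rw [Nat.cast_pow, pow_add (q : ℝ) n m]
    have : (q : ℝ) - 1 ≠ 0 := by linarith
    field_simp
  · intro a b
    have h1 : ((q ^ (n + 1) * b + a : ℕ) : ℤ) = (a : ℤ) + (q : ℤ) ^ (n + 1) * b := by push_cast; ring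
    rw [h1]
    have h2 : (q : ℤ) ∣ (a : ℤ) + (q : ℤ) ^ (n + 1) * b ↔ (q : ℤ) ∣ (a : ℤ) := by
      rw [dvd_add_left]
      exact Dvd.dvd.mul_right (dvd_pow_self _ (Nat.succ_ne_zero _)) _
    by_cases h3 : (q : ℤ) ∣ (a : ℤ)
    · rw [if_neg (by rw [h2]; exact not_not.mpr h3), if_neg (not_not.mpr h3)]
    · rw [if_pos (by rw [h2]; exact h3), if_pos h3, hf _ _ h3]

end K3

end Pool.Agent.H422R2.QA
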