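import Pool.Agent.H422R2.QA.QALD

/-! The large deviation theorem for the unaccelerated map `m ↦ m/2`, `q m + 1`. -/

set_option autoImplicit false

namespace Pool.Agent.H422R2.QA
open Finset Pool.Agent.H320R2.PD

/-- the unaccelerated `q x + 1` map on the integers -/
def CZ (q : ℕ) (m : ℤ) : ℤ := if m % 2 = 0 then m / 2 else q * m + 1

/-- the unaccelerated `q x + 1` map on the natural numbers -/
def CN (q : ℕ) (m : ℕ) : ℕ := if m % 2 = 0 then m / 2 else q * m + 1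

namespace App
open Filter Topology

theorem CZ_cast (q m : ℕ) : CZ q (m : ℤ) = (CN q m : ℤ) := by
  unfold CZ CN
  by_cases h : m % 2 = 0
  · rw [if_pos h, if_pos (by omega)]; push_cast; rfl
  · rw [if_neg h, if_neg (by omega)]; push_cast; rfl

theorem CZ_iter_cast (q m k : ℕ) : (CZ q)^[k] (m : ℤ) = ((CN q)^[k] m : ℤ) := by
  induction k generalizing m with
  | zero => rfl
  | succ k ih =>
    rw [Function.iterate_succ_apply, Function.iterate_succ_apply, CZ_cast, ih]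

theorem CZ_two_pow (q k : ℕ) (y : ℤ) : (CZ q)^[k] (2 ^ k * y) = y := by
  induction k with
  | zero => simp
  | succ k ih =>
    rw [Function.iterate_succ_apply]
    have : CZ q (2 ^ (k + 1) * y) = 2 ^ k * y := by
      unfold CZ
      have h : (2 : ℤ) ^ (k + 1) * y = 2 * (2 ^ k * y) := by ring
      rw [h, if_pos (by omega)]
      omega
    rw [this, ih]

theorem iterC_Ep {q : ℕ} (hq : q.Prime) (hq2 : q ≠ 2) (w : List ℕ) (hw : ∀ e ∈ w, 1 ≤ e) (x : ℤ)
    (h : Vd q w x) : (CZ q)^[w.sum + w.length] (Ep q w x) = x := by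
  induction w generalizing x with
  | nil => simp [Ep, Wq]
  | cons e w ih =>
    rw [Vd_cons hq hq2] at h
    have e0 : (e :: w).sum + (e :: w).length = (e + 1) + (w.sum + w.length) := by
      rw [List.sum_cons, List.length_cons]; ring
    rw [Ep_cons hq hq2 h.1, e0, Function.iterate_add_apply,
      ih (fun a ha => hw a (List.mem_cons_of_mem _ ha)) _ h.2]
    have h1 := Ep_single h.1
    have he : 1 ≤ e := hw e List.mem_cons_self
    set b := Ep q [e] x
    rw [Function.iterate_succ_apply]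
    have hodd : ¬ b % 2 = 0 := by
      intro hb
      have h2 : (q : ℤ) * b = 2 * ((q : ℤ) * (b / 2)) := by
        have : b = 2 * (b / 2) := by omega
        nth_rewrite 1 [this]; ring
      have h3 : (2 : ℤ) ^ e * x = 2 * (2 ^ (e - 1) * x) := by
        obtain ⟨k, rfl⟩ : ∃ k, e = k + 1 := ⟨e - 1, by omega⟩
        rw [Nat.add_sub_cancel]; ring
      omega
    have : CZ q b = 2 ^ e * x := by
      unfold CZ
      rw [if_neg hodd, h1]
    rw [this, CZ_two_pow]

theorem exists_aperC {q : ℕ} {r : ℤ} (hr0 : r ≠ 0) :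
    ∃ j : ℕ, ∀ k : ℕ, 0 < k → (CZ q)^[k] (2 ^ j * r) ≠ 2 ^ j * r := by
  by_contra hcon
  push Not at hcon
  obtain ⟨k0, hk0, h0⟩ := hcon 0
  rw [pow_zero, one_mul] at h0
  have hfin : (Set.range fun i : ℕ => (CZ q)^[i] r).Finite := by
    apply Set.Finite.subset ((Finset.range k0).image fun i : ℕ => (CZ q)^[i] r).finite_toSet
    rintro _ ⟨i, rfl⟩
    simp only [coe_image, Set.mem_image, mem_coe, mem_range]
    refine ⟨i % k0, Nat.mod_lt _ hk0, ?_⟩
    exact Function.IsPeriodicPt.iterate_mod_apply (f := CZ q) (x := r) (n := k0) h0 i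
  have hinj : Function.Injective fun j : ℕ => (2 : ℤ) ^ j * r := by
    intro i j h
    have h1 : (2 : ℤ) ^ i = 2 ^ j := mul_right_cancel₀ hr0 h
    have h2 : (2 : ℕ) ^ i = 2 ^ j := by exact_mod_cast h1
    exact Nat.pow_right_injective (le_refl 2) h2
  have hinf := Set.infinite_range_of_injective hinj
  apply hinf
  apply hfin.subset
  rintro _ ⟨j, rfl⟩
  obtain ⟨k, hk, h⟩ := hcon j
  refine ⟨k * (j + 1) - j, ?_⟩
  have hp : Function.IsPeriodicPt (CZ q) (k * (j + 1)) (2 ^ j * r) :=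
    Function.IsPeriodicPt.mul_const h (j + 1)
  have hle : j ≤ k * (j + 1) := by nlinarith
  have : (CZ q)^[k * (j + 1)] (2 ^ j * r) = (CZ q)^[k * (j + 1) - j] r := by
    conv_lhs => rw [show k * (j + 1) = (k * (j + 1) - j) + j by omega]
    rw [Function.iterate_add_apply, CZ_two_pow]
  simp only
  rw [← this]
  exact hp

theorem CZ_of_TZ {q : ℕ} (hq : Odd q) (k : ℕ) (m : ℤ) : ∃ o, (CZ q)^[k + o] m = (TZ q)^[k] m := by
  induction k generalizing m with
  | zero => exact ⟨0, rfl⟩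
  | succ k ih =>
    obtain ⟨o, ho⟩ := ih (TZ q m)
    by_cases h : m % 2 = 0
    · refine ⟨o, ?_⟩
      have h1 : CZ q m = TZ q m := by unfold CZ TZ; rw [if_pos h, if_pos h]
      rw [show k + 1 + o = (k + o) + 1 by ring, Function.iterate_succ_apply, h1, ho,
        Function.iterate_succ_apply]
    · refine ⟨o + 1, ?_⟩
      have h1 : CZ q (CZ q m) = TZ q m := by
        obtain ⟨c, hc⟩ := hq
        obtain ⟨d, hd⟩ : ∃ d, m = 2 * d + 1 := ⟨m / 2, by omega⟩
        have h2 : (q : ℤ) * m + 1 = 2 * (2 * c * d + c + d + 1) := by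
          rw [hc, hd]; push_cast; ring
        have h3 : CZ q m = 2 * (2 * c * d + c + d + 1) := by
          unfold CZ; rw [if_neg h, h2]
        rw [h3]
        unfold CZ TZ
        rw [if_neg h, if_pos (by omega), h2]
      rw [show k + 1 + (o + 1) = (k + o) + 1 + 1 by ring, Function.iterate_succ_apply,
        Function.iterate_succ_apply, h1, ho, Function.iterate_succ_apply]

theorem aper_of_aperC {q : ℕ} (hq : Odd q) {x : ℤ} (h : ∀ k : ℕ, 0 < k → (CZ q)^[k] x ≠ x) :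
    ∀ k : ℕ, 0 < k → (TZ q)^[k] x ≠ x := by
  intro k hk hcon
  obtain ⟨o, ho⟩ := CZ_of_TZ hq k x
  exact h (k + o) (by omega) (by rw [ho, hcon])

open scoped Classical in
/-- counting the endpoints of an aperiodic root, with their sizes -/
theorem Nq_le_card_aperC {q : ℕ} (hq : q.Prime) (hq2 : q ≠ 2) (E n s : ℕ) (x : ℤ) (hx : x ≠ 0)
    (hap : ∀ k : ℕ, 0 < k → (TZ q)^[k] x ≠ x) :
    Nq q E n s x ≤ {m : ℤ | (CZ q)^[s + n] m = x ∧ ¬ (q : ℤ) ∣ m ∧ 0 < m * x ∧
      (2 : ℝ) ^ s * |(x : ℝ)| ≤ (q : ℝ) ^ n * |(m : ℝ)| * (n + 1) ∧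
      (q : ℝ) ^ n * |(m : ℝ)| ≤ (2 : ℝ) ^ s * |(x : ℝ)| * (n + 1)}.ncard := by
  unfold Nq
  have hfin : {m : ℤ | (CZ q)^[s + n] m = x ∧ ¬ (q : ℤ) ∣ m ∧ 0 < m * x ∧
      (2 : ℝ) ^ s * |(x : ℝ)| ≤ (q : ℝ) ^ n * |(m : ℝ)| * (n + 1) ∧
      (q : ℝ) ^ n * |(m : ℝ)| ≤ (2 : ℝ) ^ s * |(x : ℝ)| * (n + 1)}.Finite := by
    apply Set.Finite.subset (Set.finite_Icc (-((2 : ℤ) ^ s * |x| * (n + 1))) ((2 : ℤ) ^ s * |x| * (n + 1)))
    rintro m ⟨-, -, -, -, hm⟩
    have hq1 : (1 : ℝ) ≤ (q : ℝ) ^ n := one_le_pow₀ (by exact_mod_cast hq.one_lt.le)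
    have h1 : |(m : ℝ)| ≤ (2 : ℝ) ^ s * |(x : ℝ)| * (n + 1) := by
      refine le_trans ?_ hm
      nlinarith [abs_nonneg (m : ℝ)]
    have h2 : |m| ≤ (2 : ℤ) ^ s * |x| * (n + 1) := by exact_mod_cast h1
    exact Set.mem_Icc.2 (abs_le.1 h2)
  rw [← Set.ncard_coe_finset]
  apply Set.ncard_le_ncard_of_injOn (fun w => Ep q w x) _ _ hfin
  · intro w hw
    simp only [coe_filter, Set.mem_ofPred_eq] at hw
    obtain ⟨hw, hs, hv, hl⟩ := hw
    have h1 := iterC_Ep hq hq2 w (FW_pos hw) x hv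
    have h2 := Ep_bounds hq hq2 w (FW_pos hw) x hx hv hap
    have h3 := (pts_sign hq hq2 w (FW_pos hw) x hx hv).2
    rw [hs, FW_len hw] at h2
    rw [hs, FW_len hw] at h1
    exact ⟨h1, hl, h3, h2.1, h2.2⟩
  · intro u hu v hv h
    simp only [coe_filter, Set.mem_ofPred_eq] at hu hv
    exact Ep_inj hq hq2 (FW_pos hu.1) (FW_pos hv.1) (by rw [FW_len hu.1, FW_len hv.1])
      (by rw [hu.2.1, hv.2.1]) hu.2.2.1 hv.2.2.1 h

/-- first hitting times from an aperiodic node above the root -/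
theorem hit_timeC {q : ℕ} {r x : ℤ} {j : ℕ} (hj : (CZ q)^[j] x = r)
    (hap : ∀ k : ℕ, 0 < k → (CZ q)^[k] x ≠ x) {s : ℕ} {m : ℤ} (hm : (CZ q)^[s] m = x) :
    ∃ k, s ≤ k ∧ k ≤ s + j ∧ (CZ q)^[k] m = r ∧ ∀ i < k, (CZ q)^[i] m ≠ r := by
  have hex : ∃ k, (CZ q)^[k] m = r := ⟨j + s, by rw [Function.iterate_add_apply, hm, hj]⟩
  classical
  refine ⟨Nat.find hex, ?_, ?_, Nat.find_spec hex, fun i hi => Nat.find_min hex hi⟩
  · by_contra hcon
    push Not at hcon
    set i := Nat.find hex with hi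
    have hir : (CZ q)^[i] m = r := Nat.find_spec hex
    have h1 : (CZ q)^[s - i] r = x := by
      rw [← hir, ← Function.iterate_add_apply, Nat.sub_add_cancel hcon.le, hm]
    apply hap (s - i + j) (by omega)
    rw [Function.iterate_add_apply, hj, h1]
  · apply Nat.find_min'
    rw [add_comm, Function.iterate_add_apply, hm, hj]

/-- LARGE DEVIATIONS of hitting times, lower bound, for the unaccelerated maps `CZ q` (Collatz map
for `q = 3`), from every root -/
theorem LDC {q : ℕ} (hq : q = 3 ∨ q = 5) {r : ℤ} (hr : ¬ (q : ℤ) ∣ r) {a : ℝ} (ha : 1 < a)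
    (hG : 0 < Ga q a) (hD : Real.log q < a * Real.log 2) {ε : ℝ} (hε : 0 < ε) :
    ∃ X₀ : ℝ, ∀ X : ℝ, X₀ ≤ X →
      X ^ (Ga q a / (a * Real.log 2 - Real.log q) - ε) ≤
        ({m : ℤ | |(m : ℝ)| ≤ X ∧ 0 < m * r ∧ ¬ (q : ℤ) ∣ m ∧ ∃ k : ℕ, (CZ q)^[k] m = r ∧
          (∀ j < k, (CZ q)^[j] m ≠ r) ∧
          |(k : ℝ) - (a + 1) / (a * Real.log 2 - Real.log q) * Real.log (|(m : ℝ)|)| ≤
            ε * Real.log (|(m : ℝ)|)}.ncard : ℝ) := by
  obtain ⟨hqp, hq2, -, -⟩ := conn_exists hq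
  have hr0 : r ≠ 0 := by rintro rfl; exact hr (dvd_zero _)
  obtain ⟨j, hapC⟩ := exists_aperC (q := q) hr0
  have hap := aper_of_aperC (hqp.odd_of_ne_two hq2) hapC
  set x : ℤ := 2 ^ j * r with hxdef
  have hx0 : x ≠ 0 := by rw [hxdef]; positivity
  have hqx : ¬ (q : ℤ) ∣ x := by
    intro h
    have hp : Prime (q : ℤ) := Nat.prime_iff_prime_int.1 hqp
    rcases hp.dvd_or_dvd h with h1 | h1
    · have h2 := hp.dvd_of_dvd_pow h1
      have h3 : q ∣ 2 := by exact_mod_cast h2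
      rcases (Nat.dvd_prime Nat.prime_two).1 h3 with h4 | h4
      · exact hqp.one_lt.ne' h4
      · exact hq2 h4
    · exact hr h1
  have hxr : (CZ q)^[j] x = r := CZ_two_pow q j r
  set D : ℝ := a * Real.log 2 - Real.log q with hDdef
  have hD0 : 0 < D := by rw [hDdef]; linarith
  set α : ℝ := (a + 1) / D with hα
  have hα0 : 0 < α := div_pos (by linarith) hD0
  have hαD : α * D = a + 1 := by rw [hα]; field_simp
  set G : ℝ := Ga q a with hGdef
  set β : ℝ := G / D with hβ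
  have hβ0 : 0 < β := div_pos hG hD0
  have hβD : β * D = G := by rw [hβ]; field_simp
  set ε₁ : ℝ := min (min (D / 4) (ε * D / (4 * (1 + α)))) (min (G / 2) (ε * D / (2 * (1 + 2 * β))))
    with hε₁
  have hε₁0 : 0 < ε₁ := by
    rw [hε₁]
    refine lt_min (lt_min (by positivity) (by positivity)) (lt_min (by positivity) (by positivity))
  have b1 : ε₁ ≤ D / 4 := (min_le_left _ _).trans (min_le_left _ _)
  have b2 : ε₁ * (4 * (1 + α)) ≤ ε * D := by
    have : ε₁ ≤ ε * D / (4 * (1 + α)) := (min_le_left _ _).trans (min_le_right _ _)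
    rwa [le_div_iff₀ (by positivity)] at this
  have b3 : ε₁ ≤ G / 2 := (min_le_right _ _).trans (min_le_left _ _)
  have b4 : ε₁ * (2 * (1 + 2 * β)) ≤ ε * D := by
    have : ε₁ ≤ ε * D / (2 * (1 + 2 * β)) := (min_le_right _ _).trans (min_le_right _ _)
    rwa [le_div_iff₀ (by positivity)] at this
  obtain ⟨E, n₀, hn₀⟩ := quenched hq ha hG hε₁0
  -- log (n+1) + log |x| ≤ ε₁ n for large n
  have hlog : ∀ᶠ n : ℕ in atTop, Real.log ((n : ℝ) + 1) + |Real.log (|(x : ℝ)|)| + j ≤ ε₁ * n := by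
    have h1 : Tendsto (fun n : ℕ => Real.log ((n : ℝ) + 1) / ((n : ℝ) + 1)) atTop (𝓝 0) := by
      have h2 : Tendsto (fun y : ℝ => Real.log y / y) atTop (𝓝 0) := by
        have := Real.isLittleO_log_id_atTop.tendsto_div_nhds_zero
        simpa using this
      exact h2.comp (tendsto_atTop_add_const_right _ 1 tendsto_natCast_atTop_atTop)
    have h3 : ∀ᶠ n : ℕ in atTop, Real.log ((n : ℝ) + 1) / ((n : ℝ) + 1) < ε₁ / 2 :=
      h1.eventually_lt_const (by positivity)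
    have h4 : ∀ᶠ n : ℕ in atTop, ε₁ / 2 + |Real.log (|(x : ℝ)|)| + j ≤ ε₁ / 2 * n := by
      have h5 : Tendsto (fun n : ℕ => ε₁ / 2 * (n : ℝ)) atTop atTop :=
        tendsto_natCast_atTop_atTop.const_mul_atTop (by positivity)
      exact h5.eventually_ge_atTop _
    filter_upwards [h3, h4] with n h5 h6
    rw [div_lt_iff₀ (by positivity)] at h5
    linarith
  obtain ⟨n₁, hn₁⟩ := eventually_atTop.1 hlog
  -- thresholds for X
  set N := max n₀ n₁ + 1 with hN
  refine ⟨max (Real.exp ((D + 2 * ε₁) * (N + 1))) (Real.exp (2 * G / ε)), fun X hX => ?_⟩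
  have hX1 : Real.exp ((D + 2 * ε₁) * (N + 1)) ≤ X := (le_max_left _ _).trans hX
  have hX2 : Real.exp (2 * G / ε) ≤ X := (le_max_right _ _).trans hX
  have hX0 : 0 < X := lt_of_lt_of_le (Real.exp_pos _) hX1
  set L := Real.log X with hL
  have hL1 : (D + 2 * ε₁) * (N + 1) ≤ L := by
    rw [hL, Real.le_log_iff_exp_le hX0]; exact hX1
  have hL2 : 2 * G / ε ≤ L := by rw [hL, Real.le_log_iff_exp_le hX0]; exact hX2
  have hD2 : 0 < D + 2 * ε₁ := by positivity
  set n := ⌊L / (D + 2 * ε₁)⌋₊ with hn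
  have hL0 : 0 ≤ L := le_trans (by positivity) hL1
  have hnle : (n : ℝ) ≤ L / (D + 2 * ε₁) := Nat.floor_le (by positivity)
  have hnge : L / (D + 2 * ε₁) - 1 ≤ n := by
    have := Nat.lt_floor_add_one (L / (D + 2 * ε₁))
    linarith
  have hnN : N ≤ n := by
    apply Nat.le_floor
    rw [le_div_iff₀ hD2]
    have : (N : ℝ) * (D + 2 * ε₁) = (D + 2 * ε₁) * (N + 1) - (D + 2 * ε₁) := by ring
    linarith
  have hnn0 : n₀ ≤ n := le_trans (le_trans (le_max_left _ _) (Nat.le_succ _)) hnN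
  have hnn1 : n₁ ≤ n := le_trans (le_trans (le_max_right _ _) (Nat.le_succ _)) hnN
  have hnL : (n : ℝ) * (D + 2 * ε₁) ≤ L := by rwa [le_div_iff₀ hD2] at hnle
  obtain ⟨s, hs, hcount⟩ := hn₀ n hnn0 x hqx
  have hlogn := hn₁ n hnn1
  have hn0 : (0 : ℝ) ≤ n := Nat.cast_nonneg n
  have hn1 : (1 : ℝ) ≤ n := by
    have : 1 ≤ n := le_trans (by omega) hnN
    exact_mod_cast this
  have hlogn0 : 0 ≤ Real.log ((n : ℝ) + 1) := Real.log_nonneg (by linarith)
  have hj0 : (0 : ℝ) ≤ j := Nat.cast_nonneg j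
  have hlx := abs_nonneg (Real.log (|(x : ℝ)|))
  have hlx1 := neg_abs_le (Real.log (|(x : ℝ)|))
  have hlx2 := le_abs_self (Real.log (|(x : ℝ)|))
  have hxabs : 0 < |(x : ℝ)| := by positivity
  rw [abs_le] at hs
  have hlog2 : Real.log 2 < 1 := by
    have := Real.log_two_lt_d9
    linarith
  have hlog20 : 0 < Real.log 2 := Real.log_pos (by norm_num)
  have hq0 : (0 : ℝ) < q := by exact_mod_cast hqp.pos
  -- the target set
  have hfin : {m : ℤ | |(m : ℝ)| ≤ X ∧ 0 < m * r ∧ ¬ (q : ℤ) ∣ m ∧ ∃ k : ℕ, (CZ q)^[k] m = r ∧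
          (∀ j < k, (CZ q)^[j] m ≠ r) ∧
          |(k : ℝ) - α * Real.log (|(m : ℝ)|)| ≤ ε * Real.log (|(m : ℝ)|)}.Finite := by
    apply Set.Finite.subset (Set.finite_Icc (-⌈X⌉) ⌈X⌉)
    rintro m ⟨hm, -⟩
    have : |(m : ℝ)| ≤ (⌈X⌉ : ℤ) := hm.trans (Int.le_ceil X)
    have h2 : |m| ≤ ⌈X⌉ := by exact_mod_cast this
    exact Set.mem_Icc.2 (abs_le.1 h2)
  have hsub : {m : ℤ | (CZ q)^[s + n] m = x ∧ ¬ (q : ℤ) ∣ m ∧ 0 < m * x ∧
      (2 : ℝ) ^ s * |(x : ℝ)| ≤ (q : ℝ) ^ n * |(m : ℝ)| * (n + 1) ∧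
      (q : ℝ) ^ n * |(m : ℝ)| ≤ (2 : ℝ) ^ s * |(x : ℝ)| * (n + 1)} ⊆
      {m : ℤ | |(m : ℝ)| ≤ X ∧ 0 < m * r ∧ ¬ (q : ℤ) ∣ m ∧ ∃ k : ℕ, (CZ q)^[k] m = r ∧
          (∀ j < k, (CZ q)^[j] m ≠ r) ∧
          |(k : ℝ) - α * Real.log (|(m : ℝ)|)| ≤ ε * Real.log (|(m : ℝ)|)} := by
    rintro m ⟨h1, h2, h3, h4, h5⟩
    have hm0 : m ≠ 0 := by rintro rfl; simp at h3
    have hmabs : 0 < |(m : ℝ)| := by positivity
    have hm1 : (1 : ℝ) ≤ |(m : ℝ)| := by
      have : 1 ≤ |m| := Int.one_le_abs hm0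
      exact_mod_cast this
    -- logarithms
    have l4 : s * Real.log 2 + Real.log (|(x : ℝ)|) ≤
        n * Real.log q + Real.log (|(m : ℝ)|) + Real.log ((n : ℝ) + 1) := by
      have := Real.log_le_log (by positivity) h4
      rw [Real.log_mul (by positivity) (by positivity), Real.log_pow,
        Real.log_mul (by positivity) (by positivity), Real.log_mul (by positivity) (by positivity),
        Real.log_pow] at this
      exact this
    have l5 : n * Real.log q + Real.log (|(m : ℝ)|) ≤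
        s * Real.log 2 + Real.log (|(x : ℝ)|) + Real.log ((n : ℝ) + 1) := by
      have := Real.log_le_log (by positivity) h5
      rw [Real.log_mul (by positivity) (by positivity), Real.log_pow,
        Real.log_mul (by positivity) (by positivity), Real.log_mul (by positivity) (by positivity),
        Real.log_pow] at this
      exact this
    have u1 : Real.log (|(m : ℝ)|) ≤ n * (D + 2 * ε₁) := by
      have : (s : ℝ) * Real.log 2 ≤ (a * n + ε₁ * n) * Real.log 2 :=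
        mul_le_mul_of_nonneg_right (by linarith) hlog20.le
      have h6 : ε₁ * n * Real.log 2 ≤ ε₁ * n := by
        have : 0 ≤ ε₁ * n := by positivity
        exact mul_le_of_le_one_right this hlog2.le
      have : Real.log (|(m : ℝ)|) ≤ n * D + ε₁ * n + (Real.log ((n : ℝ) + 1) + |Real.log (|(x : ℝ)|)|) := by
        rw [hDdef]; linarith
      linarith
    have u2 : n * (D - 2 * ε₁) ≤ Real.log (|(m : ℝ)|) := by
      have : (a * n - ε₁ * n) * Real.log 2 ≤ (s : ℝ) * Real.log 2 :=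
        mul_le_mul_of_nonneg_right (by linarith) hlog20.le
      have h6 : ε₁ * n * Real.log 2 ≤ ε₁ * n := by
        have : 0 ≤ ε₁ * n := by positivity
        exact mul_le_of_le_one_right this hlog2.le
      have : n * D - ε₁ * n - (Real.log ((n : ℝ) + 1) + |Real.log (|(x : ℝ)|)|) ≤ Real.log (|(m : ℝ)|) := by
        rw [hDdef]; linarith
      linarith
    obtain ⟨k, hk1, hk2, hk3, hk4⟩ := hit_timeC hxr hapC h1
    refine ⟨?_, ?_, h2, k, hk3, hk4, ?_⟩
    · have : Real.log (|(m : ℝ)|) ≤ Real.log X := u1.trans hnL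
      exact (Real.log_le_log_iff hmabs hX0).1 this
    · rw [hxdef] at h3
      have h6 : 0 < 2 ^ j * (m * r) := by
        calc 0 < m * (2 ^ j * r) := h3
          _ = 2 ^ j * (m * r) := by ring
      exact pos_of_mul_pos_right h6 (by positivity)
    · have c1 : (s : ℝ) + n ≤ k := by exact_mod_cast hk1
      have c2 : (k : ℝ) ≤ s + n + j := by exact_mod_cast hk2
      have c3 : |(k : ℝ) - (a + 1) * n| ≤ 2 * ε₁ * n := by
        rw [abs_le]; constructor <;> linarith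
      have c4 : |(a + 1) * n - α * Real.log (|(m : ℝ)|)| ≤ α * (2 * ε₁ * n) := by
        have : (a + 1) * n - α * Real.log (|(m : ℝ)|) = α * (n * D - Real.log (|(m : ℝ)|)) := by
          rw [← hαD]; ring
        rw [this, abs_mul, abs_of_pos hα0]
        apply mul_le_mul_of_nonneg_left _ hα0.le
        rw [abs_le]; constructor <;> linarith
      have c5 : |(k : ℝ) - α * Real.log (|(m : ℝ)|)| ≤ 2 * ε₁ * n + α * (2 * ε₁ * n) := by
        calc |(k : ℝ) - α * Real.log (|(m : ℝ)|)| = |((k : ℝ) - (a + 1) * n) + ((a + 1) * n - α * Real.log (|(m : ℝ)|))| := by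
              congr 1; ring
          _ ≤ _ := (abs_add_le _ _).trans (add_le_add c3 c4)
      refine c5.trans ?_
      have c6 : 2 * ε₁ * n + α * (2 * ε₁ * n) = (ε₁ * (4 * (1 + α))) / 2 * n := by ring
      rw [c6]
      have c7 : (ε₁ * (4 * (1 + α))) / 2 * n ≤ ε * D / 2 * n := by
        apply mul_le_mul_of_nonneg_right _ hn0; linarith
      have c8 : ε * D / 2 * n ≤ ε * (n * (D - 2 * ε₁)) := by
        have : D / 2 * n ≤ n * (D - 2 * ε₁) := by
          have := mul_le_mul_of_nonneg_left b1 hn0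
          linarith
        calc ε * D / 2 * n = ε * (D / 2 * n) := by ring
          _ ≤ _ := mul_le_mul_of_nonneg_left this hε.le
      exact c7.trans (c8.trans (mul_le_mul_of_nonneg_left u2 hε.le))
  have hmain : Real.exp ((G - ε₁) * n) ≤ ({m : ℤ | |(m : ℝ)| ≤ X ∧ 0 < m * r ∧ ¬ (q : ℤ) ∣ m ∧
      ∃ k : ℕ, (CZ q)^[k] m = r ∧ (∀ j < k, (CZ q)^[j] m ≠ r) ∧
          |(k : ℝ) - α * Real.log (|(m : ℝ)|)| ≤ ε * Real.log (|(m : ℝ)|)}.ncard : ℝ) := by
    refine hcount.trans ?_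
    exact_mod_cast (Nq_le_card_aperC hqp hq2 E n s x hx0 hap).trans (Set.ncard_le_ncard hsub hfin)
  refine le_trans ?_ hmain
  rw [Real.rpow_def_of_pos hX0]
  apply Real.exp_le_exp.2
  rw [← hL]
  have d1 : (β - ε / 2) * (D + 2 * ε₁) ≤ G - ε₁ := by
    have : (β - ε / 2) * (D + 2 * ε₁) = β * D + 2 * ε₁ * β - ε * D / 2 - ε * ε₁ := by ring
    rw [this, hβD]
    have : 0 < ε * ε₁ := by positivity
    linarith
  have d2 : (β - ε / 2) * L ≤ (G - ε₁) * (L / (D + 2 * ε₁)) := by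
    have : (G - ε₁) * (L / (D + 2 * ε₁)) = (G - ε₁) / (D + 2 * ε₁) * L := by ring
    rw [this]
    apply mul_le_mul_of_nonneg_right _ hL0
    rw [le_div_iff₀ hD2]; exact d1
  have d3 : G ≤ ε / 2 * L := by
    have : 2 * G ≤ L * ε := by rwa [div_le_iff₀ hε] at hL2
    linarith
  have d4 : (G - ε₁) * (L / (D + 2 * ε₁) - 1) ≤ (G - ε₁) * n :=
    mul_le_mul_of_nonneg_left hnge (by linarith)
  linarith

end App
end Pool.Agent.H422R2.QA
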