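import Pool.Agent.H422R2.QA.QAOff
import Pool.Agent.H422R2.QA.QAEnt
import Pool.Agent.H422R2.QA.QABal
import Pool.Agent.H422R2.QA.QAFour

/-!
OFFSETS (task F): the theorem `groups`, from `groups_of` and the other files.
-/

set_option autoImplicit false

namespace Pool.Agent.H422R2.QA

open Finset Pool.Agent.H320R2.PD

/-- groups: constants depending only on `q, E, h, K, ε`; then for every balanced block family with
entropy `h` and every large `J`, `K` groups of total length exactly `R J`, the digits of the group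
`g` being nearly uniform on the window `[A_g + 1, A_g + J]` of its endpoint digits -/
theorem groups {q : ℕ} (hq : q.Prime) (hq2 : q ≠ 2) (hP : Prim q) {E : ℕ} (hE : q * (q - 1) ≤ E)
    {h : ℝ} (hh : 0 < h) {K : ℕ} (hK : 1 ≤ K) {ε : ℝ} (hε : 0 < ε) :
    ∃ R : ℕ, 1 ≤ R ∧ ∀ (b M : ℕ) (V : Finset (List ℕ)), 1 ≤ b → Bal q E b V M →
      Real.exp (h * b) ≤ M → ∃ J₀ r₀ : ℕ, ∀ J : ℕ, J₀ ≤ J →
        ∃ (T : Fin K → Finset (List ℕ)) (m r : Fin K → ℕ),
          (∀ g, Mix q b V (m g) (r g) (T g)) ∧
          (∑ g, (m g * b + r g) = R * J) ∧ (∀ g, r g ≤ r₀) ∧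
          ∀ g, ∑ i ∈ range J, gm q (T g)
            ((m g * b + r g) + AA (fun g => m g * b + r g) g + 1 + i) ≤ ε * J := by
  obtain ⟨c, N₀, hc, hent⟩ := ent_sum hq hq2 E hh
  have I : OffIn q E h c N₀ :=
    { ent := hent
      nonneg := fun T j => gm_nonneg q T j
      le_one := fun T j => gm_le_one hq.pos T j
      gcat := fun hU j => gm_cat hq hq2 hU j
      bal := by
        intro b M hb V hV m r U h
        exact Mix.bal hq hq2 hP hE hb hV h
      bcard := by
        intro n M V hn h
        exact Bal.card hq hq2 hn h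
      mpw := by
        intro b V n hn
        obtain ⟨U, hU, _⟩ := Mix.pw q b V hn
        exact ⟨U, hU⟩
      gap := by
        intro b hb V L hL
        exact Mix.exists_gap q hb V hL }
  exact groups_of hq.two_le I hc hK hε

end Pool.Agent.H422R2.QA
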