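import Pool.Agent.H422R2.QA.QADefs

/-! Blueprint of QUENCHED = ANNEALED (all statements, with `sorry`).
Never import this file in a hand-in. -/

set_option autoImplicit false

namespace Pool.Agent.H422R2.QA.Stubs
open Pool.Agent.H422R2.QA Finset Pool.Agent.H320R2.PD Pool.Agent.H412R2

/-! ### Task A (WORDS) : file QAWords.lean -/

theorem Wq_append (q : ℕ) (u v : List ℕ) :
    Wq q (u ++ v) = 2 ^ v.sum * Wq q u + q ^ u.length * Wq q v := by sorry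

theorem Wq_inj {q : ℕ} (hq : Odd q) {u v : List ℕ} (hu : ∀ e ∈ u, 1 ≤ e) (hv : ∀ e ∈ v, 1 ≤ e)
    (hl : u.length = v.length) (hs : u.sum = v.sum) (hW : Wq q u = Wq q v) : u = v := by sorry

theorem Wq_le {q : ℕ} (hq : 1 ≤ q) (w : List ℕ) : Wq q w ≤ 2 ^ w.sum * q ^ w.length := by sorry

theorem Vd_nonempty {q : ℕ} (hq : q.Prime) {w : List ℕ} (hw : w ≠ []) {x : ℤ} (h : Vd q w x) :
    ¬ (q : ℤ) ∣ x := by sorry

theorem Vd_append {q : ℕ} (hq : q.Prime) (hq2 : q ≠ 2) (u v : List ℕ) (x : ℤ) :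
    Vd q (u ++ v) x ↔ Vd q u x ∧ Vd q v (Ep q u x) := by sorry

theorem Ep_append {q : ℕ} (hq : q.Prime) (hq2 : q ≠ 2) {u v : List ℕ} {x : ℤ} (h : Vd q u x) :
    Ep q (u ++ v) x = Ep q v (Ep q u x) := by sorry

theorem Lv_append {q : ℕ} (hq : q.Prime) (hq2 : q ≠ 2) {u v : List ℕ} (hv : v ≠ []) (x : ℤ) :
    Lv q (u ++ v) x ↔ Lv q u x ∧ Lv q v (Ep q u x) := by sorry

theorem Vd_shift (q : ℕ) (w : List ℕ) (x y : ℤ) :
    Vd q w (x + (q : ℤ) ^ w.length * y) ↔ Vd q w x := by sorry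

theorem Ep_shift {q : ℕ} (hq : 0 < q) (w : List ℕ) (x y : ℤ) :
    Ep q w (x + (q : ℤ) ^ w.length * y) = Ep q w x + 2 ^ w.sum * y := by sorry

theorem Lv_shift {q : ℕ} (hq : 0 < q) (w : List ℕ) (x y : ℤ) :
    Lv q w (x + (q : ℤ) ^ (w.length + 1) * y) ↔ Lv q w x := by sorry

theorem Ep_spec {q : ℕ} {w : List ℕ} {x : ℤ} (h : Vd q w x) :
    (q : ℤ) ^ w.length * Ep q w x = 2 ^ w.sum * x - Wq q w := by sorry

open scoped Classical in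
/-- every word is valid at exactly one class mod `q^n` -/
theorem unique_class {q : ℕ} (hq : q.Prime) (hq2 : q ≠ 2) (w : List ℕ) :
    ((range (q ^ w.length)).filter (fun x : ℕ => Vd q w (x : ℤ))).card = 1 := by sorry

open scoped Classical in
/-- a nonempty valid word is live at exactly `q-1` classes mod `q^(n+1)` -/
theorem live_classes {q : ℕ} (hq : q.Prime) (hq2 : q ≠ 2) (w : List ℕ) :
    ((range (q ^ (w.length + 1))).filter (fun x : ℕ => Lv q w (x : ℤ))).card = q - 1 := by sorry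

/-- link with the trees of `Pool.Agent.H412R2` -/
theorem mem_tr_iff {q : ℕ} (hq : q.Prime) (hq2 : q ≠ 2) {E n s : ℕ} {x z : ℤ} :
    z ∈ tr q E n s x ↔ ∃ w ∈ FW E n, w.sum = s ∧ Vd q w x ∧ Ep q w x = z := by sorry

open scoped Classical in
theorem Nq_eq {q : ℕ} (hq : q.Prime) (hq2 : q ≠ 2) (E n s : ℕ) (x : ℤ) :
    Nq q E n s x = ((tr q E n s x).filter (fun z => ¬ (q : ℤ) ∣ z)).card := by sorry

theorem Nq_shift {q : ℕ} (hq : q.Prime) (hq2 : q ≠ 2) (E n s : ℕ) (x y : ℤ) :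
    Nq q E n s (x + (q : ℤ) ^ (n + 1) * y) = Nq q E n s x := by sorry

/-- concatenation of live words -/
theorem Nq_mul {q : ℕ} (hq : q.Prime) (hq2 : q ≠ 2) {E n m s s' K : ℕ} {x : ℤ} (hm : 1 ≤ m)
    (h : ∀ w ∈ FW E n, w.sum = s → Lv q w x → K ≤ Nq q E m s' (Ep q w x)) :
    Nq q E n s x * K ≤ Nq q E (n + m) (s + s') x := by sorry

theorem prim_three : Prim 3 := by sorry

theorem prim_five : Prim 5 := by sorry

open scoped Classical in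
/-- among the letters of `[1, q(q-1)]` exactly one is valid at `x` with a given endpoint mod `q` -/
theorem Prim.unique {q : ℕ} (hP : Prim q) (hq : q.Prime) (hq2 : q ≠ 2) {x : ℤ}
    (hx : ¬ (q : ℤ) ∣ x) {d : ℕ} (hd : d < q) :
    ((Finset.Icc 1 (q * (q - 1))).filter (fun e => Vd q [e] x ∧ (q : ℤ) ∣ Ep q [e] x - d)).card = 1 := by
  sorry

/-- every start has a live letter leading to any class prime to `q` -/
theorem Prim.exists_letter {q : ℕ} (hP : Prim q) (hq : q.Prime) (hq2 : q ≠ 2) {x d : ℤ}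
    (hx : ¬ (q : ℤ) ∣ x) (hd : ¬ (q : ℤ) ∣ d) :
    ∃ e ∈ Finset.Icc 1 (q * (q - 1)), Lv q [e] x ∧ (q : ℤ) ∣ Ep q [e] x - d := by sorry

/-! ### Task B (MART) : file QAMart.lean, the martingale `FF` -/

theorem FF_good {q E : ℕ} (hq : q.Prime) (hq2 : q ≠ 2) (hP : Prim q) (hE : q * (q - 1) ≤ E)
    (u : ℕ → ℝ) {m : ℝ} (hm : 0 < m) (hu : ∀ e ∈ Icc 1 E, m ≤ u e) (hsum : ∑ e ∈ Icc 1 E, u e = 1) :
    GoodF q (FF q E u) (q * m ^ 2) (q * m) := by sorry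

open scoped Classical in
/-- words with live endpoints carry at least a proportion `1/q` -/
theorem FF_succ_le {q E : ℕ} (hq : q.Prime) (hq2 : q ≠ 2) (u : ℕ → ℝ)
    (hu : ∀ e, 0 ≤ u e) (hsum : ∑ e ∈ Icc 1 E, u e = 1) (n : ℕ) (x : ℤ) :
    FF q E u (n + 1) x ≤ q * ∑ w ∈ FW E n, if Lv q w x then (q : ℝ) ^ n * wtu u w else 0 := by sorry

theorem Az_pos {z : ℝ} (hz : 0 < z) {E : ℕ} (hE : 1 ≤ E) : 0 < Az z E := by sorry

theorem sum_uz {z : ℝ} (hz : 0 < z) {E : ℕ} (hE : 1 ≤ E) : ∑ e ∈ Icc 1 E, uz z E e = 1 := by sorry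

theorem az_mem {z : ℝ} (hz : 0 < z) {E : ℕ} (hE : 1 ≤ E) : 1 ≤ az z E ∧ az z E ≤ E := by sorry

theorem wtu_uz {z : ℝ} {E : ℕ} (w : List ℕ) :
    wtu (uz z E) w = z ^ w.sum / Az z E ^ w.length := by sorry

/-- Chernoff: the size of a word of `n` letters is `az * n` up to `ε n`, except for an exponentially
small weight -/
theorem size_dev {z : ℝ} (hz : 0 < z) {E : ℕ} (hE : 1 ≤ E) {ε : ℝ} (hε : 0 < ε) :
    ∃ c : ℝ, 0 < c ∧ ∀ n : ℕ,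
      ∑ w ∈ (FW E n).filter (fun w => ε * n < |(w.sum : ℝ) - az z E * n|), wtu (uz z E) w
        ≤ 2 * Real.exp (-(c * n)) := by sorry

/-! ### Task C (FOUR) : file QAFour.lean, the functional `Fb`, `Gm`, `gm` -/

theorem Fb_nonneg {ι : Type*} (q : ℕ) (s : Finset ι) (v : ι → ℤ) (j : ℕ) (c : ℤ) :
    0 ≤ Fb q s v j c := by sorry

theorem Fb_le {ι : Type*} (q : ℕ) (s : Finset ι) (v : ι → ℤ) (j : ℕ) (c : ℤ) :
    Fb q s v j c ≤ mc q s v j c := by sorry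

theorem Gm_conv {ι ι' : Type*} {q : ℕ} (hq : q.Prime) (hq2 : q ≠ 2) (s : Finset ι) (s' : Finset ι')
    (v : ι → ℤ) (v' : ι' → ℤ) (t k j : ℕ) :
    Gm q (s ×ˢ s') (fun p => 2 ^ t * v p.1 + (q : ℤ) ^ k * v' p.2) (k + j)
      ≤ Gm q s v (k + j) * Gm q s' v' j := by sorry

theorem gm_nonneg (q : ℕ) (T : Finset (List ℕ)) (j : ℕ) : 0 ≤ gm q T j := by sorry

theorem gm_le_one {q : ℕ} (hq : 0 < q) (T : Finset (List ℕ)) (j : ℕ) : gm q T j ≤ 1 := by sorry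

/-- submultiplicativity: `U` consists of words of length `k` -/
theorem gm_cat {q : ℕ} (hq : q.Prime) (hq2 : q ≠ 2) {U V : Finset (List ℕ)} {k : ℕ}
    (hU : ∀ w ∈ U, w.length = k) (j : ℕ) :
    gm q (cat U V) (k + j) ≤ gm q U (k + j) * gm q V j := by sorry

/-- small `Fb` means large digit entropy -/
theorem ent_of_Fb {ι : Type*} {q : ℕ} (hq : q.Prime) (s : Finset ι) (v : ι → ℤ) (j : ℕ) (c : ℤ) :
    mc q s v j c * Real.log q - hc q s v j c ≤ (q - 1) * Fb q s v j c := by sorry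

/-- positive digit entropy means `Fb` smaller than the mass -/
theorem Fb_of_ent {q : ℕ} (hq : q.Prime) (hq2 : q ≠ 2) : ∃ κ : ℝ, 0 < κ ∧
    ∀ {ι : Type} (s : Finset ι) (v : ι → ℤ) (j : ℕ) (c : ℤ),
      κ * hc q s v j c ^ 2 ≤ mc q s v j c * (mc q s v j c - Fb q s v j c) := by sorry

theorem hc_nonneg {ι : Type*} {q : ℕ} (hq : 0 < q) (s : Finset ι) (v : ι → ℤ) (j : ℕ) (c : ℤ) :
    0 ≤ hc q s v j c := by sorry

theorem hc_le {ι : Type*} {q : ℕ} (hq : 0 < q) (s : Finset ι) (v : ι → ℤ) (j : ℕ) (c : ℤ) :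
    hc q s v j c ≤ mc q s v j c * Real.log q := by sorry

/-- chain rule -/
theorem chain_rule {ι : Type*} {q : ℕ} (hq : 0 < q) (s : Finset ι) (v : ι → ℤ) (j J : ℕ) (c : ℤ) :
    ∑ i ∈ range J, ∑ d ∈ range (q ^ i), hc q s v (j + i) (c + (q : ℤ) ^ j * d) =
      mc q s v j c * Real.log (mc q s v j c) - ∑ d ∈ range (q ^ J),
        mc q s v (j + J) (c + (q : ℤ) ^ j * d) * Real.log (mc q s v (j + J) (c + (q : ℤ) ^ j * d)) := by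
  sorry

/-! ### Task D (ENT) : file QAEnt.lean -/

theorem ent_sum {q : ℕ} (hq : q.Prime) (hq2 : q ≠ 2) (E : ℕ) {h : ℝ} (hh : 0 < h) :
    ∃ (c : ℝ) (N₀ : ℕ), 0 < c ∧ ∀ N : ℕ, N₀ ≤ N → ∀ T : Finset (List ℕ), T ⊆ FW E N →
      (q : ℝ) ^ N * Real.exp (h * N) ≤ T.card →
        c * N ≤ ∑ j ∈ Ico N ((E + 2) * N), (1 - gm q T j) := by sorry

/-! ### Task E (THIN) : file QAThin.lean -/

open scoped Classical in
/-- if the digits `D, ..., D+J-1` are nearly uniform on average, most members lie in classes mod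
`q^(D+J)` which are not much larger than they should be -/
theorem thin {ι : Type*} {q : ℕ} (hq : q.Prime) (s : Finset ι) (v : ι → ℤ) (D J : ℕ) (ε' : ℝ)
    (hε' : 0 < ε') (hJ : 1 ≤ J) :
    ((s.filter (fun i => (q : ℝ) ^ (-(J : ℤ)) * Real.exp (ε' * J) * mc q s v D (v i) <
        mc q s v (D + J) (v i))).card : ℝ) * (ε' * J) ≤
      (q - 1) * ∑ i ∈ range J, Gm q s v (D + i) + s.card := by sorry

/-! ### Task G1 (EXPMOM) : file QAExp.lean -/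

theorem Lam_nonneg {ι : Type*} {q : ℕ} (hq : 0 < q) (s : Finset ι) (Y : ι → ℤ) (i : ℕ) {ω : ι}
    (hω : ω ∈ s) : 0 ≤ Lam q s Y i (Y ω) := by sorry

/-- exponential moment (tree martingale identity for `∑ Lam`) -/
theorem exp_moment {ι : Type*} {q : ℕ} (hq : 0 < q) (s : Finset ι) (Y : ι → ℤ) (J : ℕ) {B : ℝ}
    (hB : ∀ ω ∈ s, mc q s Y J (Y ω) ≤ B * (q : ℝ) ^ (-(J : ℤ)) * s.card) :
    ∑ ω ∈ s, Real.exp (∑ i ∈ range J, Lam q s Y i (Y ω)) ≤ s.card * Real.sqrt B := by sorry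

/-- small `Lam` means that all the digits have almost the right frequency -/
theorem Lam_flat {ι : Type*} {q : ℕ} (hq : 0 < q) (s : Finset ι) (Y : ι → ℤ) (i : ℕ) {ω : ι}
    (hω : ω ∈ s) {θ : ℝ} (h : Lam q s Y i (Y ω) ≤ θ) (d : ℤ) :
    (1 - 2 * Real.sqrt (2 * q * θ)) * (mc q s Y i (Y ω) / q) ≤
      mc q s Y (i + 1) (Y ω + (q : ℤ) ^ i * d) := by sorry

/-! ### Task G2 (ROBUST) : file QARobust.lean -/

open scoped Classical in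
theorem robust {q : ℕ} (hq : q.Prime) {c₀ c₁ δ : ℝ} (hc₀ : 0 < c₀) (hc₁ : 0 < c₁) (hδ : 0 < δ) :
    ∃ K : ℕ, 1 ≤ K ∧ ∃ ε' : ℝ, 0 < ε' ∧ ∃ C : ℝ, ∀ F : ℕ → ℤ → ℝ, GoodF q F c₀ c₁ →
      ∀ (ι : Type) (Ω : Fin K → Finset ι) (Y : Fin K → ι → ℤ) (U : Fin K → ℤ) (U₀ y₀ : ℤ) (J : ℕ),
        (∀ g, (Ω g).Nonempty) → (∀ g, ¬ (q : ℤ) ∣ U g) → ¬ (q : ℤ) ∣ U₀ → ¬ (q : ℤ) ∣ y₀ →
        (∀ g, ∀ ω ∈ Ω g, mc q (Ω g) (Y g) J (Y g ω) ≤
          2 * (q : ℝ) ^ (-(J : ℤ)) * Real.exp (ε' * J) * (Ω g).card) →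
        (∀ t : ℤ, 0 < ∑ ω ∈ Fintype.piFinset Ω, F (J + 1) (y₀ + q * (U₀ * t - ∑ g, U g * Y g (ω g)))) ∧
        ∑ t ∈ range (q ^ J), -Real.log ((∑ ω ∈ Fintype.piFinset Ω,
            F (J + 1) (y₀ + q * (U₀ * (t : ℤ) - ∑ g, U g * Y g (ω g)))) / ∏ g, ((Ω g).card : ℝ)) ≤
          (q : ℝ) ^ J * (δ * J + C) := by sorry

/-! ### Task H (BAL) : file QABal.lean, balanced families -/

theorem bal_one {q : ℕ} (hq : q.Prime) (hq2 : q ≠ 2) (hP : Prim q) {E : ℕ} (hE : q * (q - 1) ≤ E) :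
    Bal q E 1 (one q) 1 := by sorry

theorem Bal.cat {q E n n' M M' : ℕ} (hq : q.Prime) (hq2 : q ≠ 2) {V V' : Finset (List ℕ)}
    (hn : 1 ≤ n) (hn' : 1 ≤ n') (h : Bal q E n V M) (h' : Bal q E n' V' M') :
    Bal q E (n + n') (cat V V') ((q - 1) * M * M') := by sorry

theorem Bal.card {q E n M : ℕ} (hq : q.Prime) (hq2 : q ≠ 2) {V : Finset (List ℕ)}
    (hn : 1 ≤ n) (h : Bal q E n V M) : V.card = (q - 1) * q ^ n * M := by sorry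

/-- from growth at every start to balanced block families -/
theorem exists_bal {q E : ℕ} (hq : q.Prime) (hq2 : q ≠ 2) (hP : Prim q) (hE : q * (q - 1) ≤ E)
    {g a : ℝ} (hg : 0 < g) (h : Pr q E g a) {ε : ℝ} (hε : 0 < ε) :
    ∃ b₀ : ℕ, ∀ b : ℕ, b₀ ≤ b → ∃ (V : Finset (List ℕ)) (M : ℕ), Bal q E b V M ∧
      Real.exp ((g - ε) * b) ≤ M ∧ ∀ w ∈ V, |(w.sum : ℝ) - a * b| ≤ ε * b := by sorry

theorem Mix.bal {q E b M : ℕ} (hq : q.Prime) (hq2 : q ≠ 2) (hP : Prim q) (hE : q * (q - 1) ≤ E)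
    (hb : 1 ≤ b) {V : Finset (List ℕ)} (hV : Bal q E b V M) {m r : ℕ} {U : Finset (List ℕ)}
    (h : Mix q b V m r U) : ∃ M' : ℕ, Bal q E (m * b + r) U M' ∧ M ^ m ≤ M' := by sorry

theorem Mix.size {q E b M : ℕ} {V : Finset (List ℕ)} (hV : Bal q E b V M) (hE : q * (q - 1) ≤ E)
    {a ε : ℝ} (ha : 0 ≤ a) (haE : a ≤ E) (hs : ∀ w ∈ V, |(w.sum : ℝ) - a * b| ≤ ε * b) {m r : ℕ}
    {U : Finset (List ℕ)} (h : Mix q b V m r U) :
    ∀ w ∈ U, |(w.sum : ℝ) - a * (m * b + r : ℕ)| ≤ ε * (m * b) + E * r := by sorry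

/-- gaps of every length `L ≥ 1` -/
theorem Mix.exists_gap (q : ℕ) {b : ℕ} (hb : 1 ≤ b) (V : Finset (List ℕ)) {L : ℕ} (hL : 1 ≤ L) :
    ∃ (m r : ℕ) (U : Finset (List ℕ)), Mix q b V m r U ∧ m * b + r = L ∧ r < b + 1 := by sorry

/-- powers of the block family -/
theorem Mix.pw (q b : ℕ) (V : Finset (List ℕ)) {n : ℕ} (hn : 1 ≤ n) :
    ∃ U : Finset (List ℕ), Mix q b V n 0 U ∧ U = pw V n := by sorry

/-! ### Task F (OFFSETS) : file QAOff.lean -/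

/-- groups: constants depending only on `q, E, h, K, ε`; then for every balanced block family with
entropy `h` and every large `J`, `K` groups of total length exactly `R J`, the digits of the group
`g` being nearly uniform on the window `[A_g + 1, A_g + J]` of its endpoint digits -/
theorem groups {q : ℕ} (hq : q.Prime) (hq2 : q ≠ 2) (hP : Prim q) {E : ℕ} (hE : q * (q - 1) ≤ E)
    {h : ℝ} (hh : 0 < h) {K : ℕ} (hK : 1 ≤ K) {ε : ℝ} (hε : 0 < ε) :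
    ∃ R : ℕ, 1 ≤ R ∧ ∀ (b M : ℕ) (V : Finset (List ℕ)), 1 ≤ b → Bal q E b V M →
      Real.exp (h * b) ≤ M → ∃ J₀ r₀ : ℕ, ∀ J : ℕ, J₀ ≤ J →
        ∃ (T : Fin K → Finset (List ℕ)) (m r : Fin K → ℕ),
          (∀ g, Mix q b V (m g) (r g) (T g)) ∧
          (∑ g, (m g * b + r g) = R * J) ∧ (∀ g, r g ≤ r₀) ∧
          ∀ g, ∑ i ∈ range J, gm q (T g)
            ((m g * b + r g) + AA (fun g => m g * b + r g) g + 1 + i) ≤ ε * J := by sorry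

/-! ### Task I1 (FRAME) : file QAFrame.lean -/

/-- all words of a frame are live at the same points, and their endpoints differ by `q` times a
unit combination of the deep digits of the offsets -/
theorem cc_frame {q : ℕ} (hq : q.Prime) (hq2 : q ≠ 2) {K : ℕ} {τ τ₀ : Fin K → List ℕ} {l : Fin K → ℕ}
    (hl : ∀ g, (τ g).length = l g) (hl₀ : ∀ g, (τ₀ g).length = l g)
    (hs : ∀ g, (τ g).sum = (τ₀ g).sum)
    (hW : ∀ g, (q : ℤ) ^ (l g + AA l g + 1) ∣ (Wq q (τ g) : ℤ) - Wq q (τ₀ g)) (x t : ℤ) :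
    (Lv q (cc K τ) (x + (q : ℤ) ^ ((∑ g, l g) + 1) * t) ↔ Lv q (cc K τ₀) x) ∧
    (Lv q (cc K τ₀) x → Ep q (cc K τ) (x + (q : ℤ) ^ ((∑ g, l g) + 1) * t) =
      Ep q (cc K τ₀) x + q * (2 ^ (∑ g, (τ₀ g).sum) * t -
        ∑ g, 2 ^ (AA (fun i => (τ₀ i).sum) g) *
          (((Wq q (τ g) : ℤ) - Wq q (τ₀ g)) / (q : ℤ) ^ (l g + AA l g + 1)))) := by sorry

theorem cc_length {K : ℕ} (τ : Fin K → List ℕ) : (cc K τ).length = ∑ g, (τ g).length := by sorry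

theorem cc_sum {K : ℕ} (τ : Fin K → List ℕ) : (cc K τ).sum = ∑ g, (τ g).sum := by sorry

theorem cc_inj {K : ℕ} {τ τ' : Fin K → List ℕ} (h : ∀ g, (τ g).length = (τ' g).length)
    (he : cc K τ = cc K τ') : τ = τ' := by sorry

open scoped Classical in
theorem cc_live_card {q : ℕ} (hq : q.Prime) (hq2 : q ≠ 2) {E K : ℕ} {T : Fin K → Finset (List ℕ)}
    {l M : Fin K → ℕ} (hl : ∀ g, 1 ≤ l g) (hT : ∀ g, Bal q E (l g) (T g) (M g)) {x : ℤ}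
    (hx : ¬ (q : ℤ) ∣ x) :
    ((Fintype.piFinset T).filter (fun τ => Lv q (cc K τ) x)).card = (q - 1) ^ K * ∏ g, M g := by sorry

/-! ### Task I2 (ASM) : file QAAsm.lean -/

open scoped Classical in
theorem assembly {q : ℕ} (hq : q.Prime) (hq2 : q ≠ 2) {c₀ c₁ η : ℝ} (hc₀ : 0 < c₀) (hc₁ : 0 < c₁)
    (hη : 0 < η) : ∃ K : ℕ, 1 ≤ K ∧ ∃ ε : ℝ, 0 < ε ∧ ∃ J₀ : ℕ,
      ∀ (E J : ℕ) (F : ℕ → ℤ → ℝ) (T : Fin K → Finset (List ℕ)) (l M : Fin K → ℕ), J₀ ≤ J →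
        GoodF q F c₀ c₁ → (∀ g, 1 ≤ l g) → (∀ g, 1 ≤ M g) → (∀ g, Bal q E (l g) (T g) (M g)) →
        (∀ g, ∑ i ∈ range J, gm q (T g) (l g + AA l g + 1 + i) ≤ ε * J) →
        (∀ x : ℤ, ¬ (q : ℤ) ∣ x → 0 < HH q T F J x) ∧
        avU q ((∑ g, l g) + J) (fun x => -Real.log (HH q T F J x / ∏ g, (M g : ℝ))) ≤ η * J := by sorry

/-! ### Task K1 (KER) : file QAKer.lean -/

theorem conn_three {E : ℕ} (hE : 16 ≤ E) : Conn 3 E 3 16 := by sorry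

theorem conn_five {E : ℕ} (hE : 54 ≤ E) : Conn 5 E 3 54 := by sorry

open scoped Classical in
/-- the kernel: all live words of length `n` and size `S x`, followed by a connecting word to each
of the `q-1` classes -/
theorem exists_kernel {q : ℕ} (hq : q.Prime) (hq2 : q ≠ 2) {E m C : ℕ} (hC : Conn q E m C) {n : ℕ}
    (hn : 1 ≤ n) (S : ℤ → ℕ)
    (hS : ∀ x y : ℤ, ¬ (q : ℤ) ∣ x → S (x + (q : ℤ) ^ (n + 1) * y) = S x)
    (hN : ∀ x : ℤ, ¬ (q : ℤ) ∣ x → 1 ≤ Nq q E n (S x) x) :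
    ∃ κ : Ker q (n + m), (∀ x : ℤ, ¬ (q : ℤ) ∣ x → κ.S x = S x + C) ∧
      (∀ x d : ℤ, ¬ (q : ℤ) ∣ x → ¬ (q : ℤ) ∣ d →
        ((κ.K x).filter (fun b => (q : ℤ) ∣ b - d)).card = Nq q E n (S x) x) ∧
      (∀ x : ℤ, ¬ (q : ℤ) ∣ x → (κ.K x).card = (q - 1) * Nq q E n (S x) x) ∧
      ∀ x b : ℤ, ¬ (q : ℤ) ∣ x → b ∈ κ.K x → b ∈ tr q E (n + m) (κ.S x) x := by sorry

/-! ### Task K2 (ERG) : file QAErg.lean (uses H412R2.positive) -/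

open scoped Classical in
/-- uniform mean ergodic theorem for kernels with equidistributed classes -/
theorem ergodic {q R : ℕ} (κ : Ker q R) (hq : q.Prime) (hq2 : q ≠ 2) (hR : 1 ≤ R)
    (hu : ∀ x d : ℤ, ¬ (q : ℤ) ∣ x → ¬ (q : ℤ) ∣ d →
      (((κ.K x).filter (fun b => (q : ℤ) ∣ b - d)).card : ℝ) = (κ.K x).card / (q - 1))
    (φ : ℤ → ℝ) (hφ : ∀ x y : ℤ, ¬ (q : ℤ) ∣ x → φ (x + (q : ℤ) ^ (R + 1) * y) = φ x)
    {ε : ℝ} (hε : 0 < ε) :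
    ∃ N : ℕ, 1 ≤ N ∧ ∀ x : ℤ, ¬ (q : ℤ) ∣ x →
      |∑ i ∈ range N, (κ.P)^[i] φ x - N * avU q R φ| ≤ ε * N := by sorry

/-! ### Task K3 (ALL) : file QAAll.lean, from averages to every start -/

/-- number of paths: if all paths of the kernel are words, law of large numbers along the kernel -/
theorem all_of_kernel {q E R : ℕ} (κ : Ker q R) (hq : q.Prime) (hq2 : q ≠ 2) (hR : 1 ≤ R)
    (hE : q * (q - 1) ≤ E) (hP : Prim q)
    (htr : ∀ x b : ℤ, ¬ (q : ℤ) ∣ x → b ∈ κ.K x → b ∈ tr q E R (κ.S x) x)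
    (herg : ∀ φ : ℤ → ℝ, (∀ x y : ℤ, ¬ (q : ℤ) ∣ x → φ (x + (q : ℤ) ^ (R + 1) * y) = φ x) →
      ∀ ε : ℝ, 0 < ε → ∃ N : ℕ, 1 ≤ N ∧ ∀ x : ℤ, ¬ (q : ℤ) ∣ x →
        |∑ i ∈ range N, (κ.P)^[i] φ x - N * avU q R φ| ≤ ε * N) :
    Pr q E (avU q R (fun x => Real.log ((κ.K x).card)) / R) (avU q R (fun x => (κ.S x : ℝ)) / R) := by
  sorry

theorem all_of_avg {q : ℕ} (hq : q.Prime) (hq2 : q ≠ 2) (hP : Prim q) {E m C : ℕ}
    (hE : q * (q - 1) ≤ E) (hC : Conn q E m C) {n : ℕ} (hn : 1 ≤ n) (S : ℤ → ℕ)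
    (hS : ∀ x y : ℤ, ¬ (q : ℤ) ∣ x → S (x + (q : ℤ) ^ (n + 1) * y) = S x)
    (hN : ∀ x : ℤ, ¬ (q : ℤ) ∣ x → 1 ≤ Nq q E n (S x) x) :
    Pr q E ((avU q n (fun x => Real.log (Nq q E n (S x) x)) + Real.log (q - 1)) / (n + m))
      ((avU q n (fun x => (S x : ℝ)) + C) / (n + m)) := by sorry

/-! ### Task S1 (STEPAVG) : file QAStepAvg.lean -/

theorem step_avg {q : ℕ} (hq : q.Prime) (hq2 : q ≠ 2) (hP : Prim q) {E : ℕ}
    (hE : q * (q - 1) ≤ E) {z : ℝ} (hz : 0 < z) {h₀ ε₁ : ℝ} (hh : 0 < h₀)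
    (hε₁ : 0 < ε₁) : ∃ R : ℕ, 1 ≤ R ∧ ∀ g a : ℝ, h₀ ≤ g → 0 ≤ a → a ≤ E → Pr q E g a →
      ∀ n₁ : ℕ, ∃ n : ℕ, n₁ ≤ n ∧ ∃ S : ℤ → ℕ,
        (∀ x y : ℤ, ¬ (q : ℤ) ∣ x → S (x + (q : ℤ) ^ (n + 1) * y) = S x) ∧
        (∀ x : ℤ, ¬ (q : ℤ) ∣ x → 1 ≤ Nq q E n (S x) x) ∧
        (R * g + (Gz q z E - ε₁)) / (R + 1) * n ≤ avU q n (fun x => Real.log (Nq q E n (S x) x)) ∧
        |avU q n (fun x => (S x : ℝ)) - (R * a + az z E) / (R + 1) * n| ≤ ε₁ / (R + 1) * n := by sorry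

/-! ### Task M (MAIN) : file QAMain.lean -/

theorem step {q : ℕ} (hq : q.Prime) (hq2 : q ≠ 2) (hP : Prim q) {E m C : ℕ}
    (hE : q * (q - 1) ≤ E) (hC : Conn q E m C) {z : ℝ} (hz : 0 < z) {h₀ ε₁ : ℝ}
    (hh : 0 < h₀) (hε₁ : 0 < ε₁) : ∃ R : ℕ, 1 ≤ R ∧ ∀ g a : ℝ, h₀ ≤ g → 0 ≤ a → a ≤ E →
      Pr q E g a → ∃ g₁ a₁ : ℝ, (R * g + (Gz q z E - ε₁)) / (R + 1) ≤ g₁ ∧
        |a₁ - (R * a + az z E) / (R + 1)| ≤ ε₁ / (R + 1) ∧ Pr q E g₁ a₁ := by sorry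

theorem base {q : ℕ} (hq : q.Prime) (hq2 : q ≠ 2) (hP : Prim q) {E m C : ℕ}
    (hE : q * (q - 1) ≤ E) (hC : Conn q E m C) : ∃ g a : ℝ, 0 < g ∧ Pr q E g a := by sorry

/-- QUENCHED = ANNEALED from every start -/
theorem main {q : ℕ} (hq : q.Prime) (hq2 : q ≠ 2) (hP : Prim q) {E m C : ℕ}
    (hE : q * (q - 1) ≤ E) (hC : Conn q E m C) {z : ℝ} (hz : 0 < z) (hG : 0 < Gz q z E) :
    Pr q E (Gz q z E) (az z E) := by sorry

end Pool.Agent.H422R2.QA.Stubs
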